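import Pool.Agent.MP_8db1a4_gt.SmallDefs

set_option autoImplicit false

/-! [K-B1a] Boosts (MP_8db1a4_gt). -/

namespace Pool.Agent.MP_8db1a4_gt

open Set

theorem b1a_norm_sq {n : ℕ} (y : Hy n) :
    inner ℝ y.val.1 y.val.1 = y.val.2 ^ 2 - 1 := by
  have h := y.lor_self
  simp only [lor] at h
  linarith

theorem b1a_pos {n : ℕ} (y : Hy n) : 0 < 1 + y.val.2 := by
  have h : ‖y.val.1‖ < y.val.2 := y.mem
  have h0 := norm_nonneg y.val.1
  linarith

/-- The reflected point. -/
noncomputable def b1a_refl {n : ℕ} (y : Hy n) : Hy n where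
  val := (-y.val.1, y.val.2)
  mem := by
    show ‖-y.val.1‖ < y.val.2
    rw [norm_neg]
    exact y.mem
  lor_self := by
    have h := y.lor_self
    simp only [lor] at h
    simp only [lor, inner_neg_neg]
    linarith

theorem lor_boost {n : ℕ} (y : Hy n) (X Y : LV n) :
    lor (boost y.val X) (boost y.val Y) = lor X Y := by
  have h1 := b1a_norm_sq y
  have h2 := (b1a_pos y).ne'
  rw [boost_apply, boost_apply]
  simp only [lor, inner_add_left, inner_add_right, real_inner_smul_left, real_inner_smul_right]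
  rw [h1, real_inner_comm y.val.1 X.1]
  field_simp
  ring

theorem lor_unboost {n : ℕ} (y : Hy n) (X Y : LV n) :
    lor (unboost y.val X) (unboost y.val Y) = lor X Y :=
  lor_boost (b1a_refl y) X Y

theorem boost_O {n : ℕ} (y : Hy n) : boost y.val (Ohy n).val = y.val := by
  rw [boost_apply]
  simp [Ohy]

theorem boost_unboost {n : ℕ} (y : Hy n) (X : LV n) : boost y.val (unboost y.val X) = X := by
  have h1 := b1a_norm_sq y
  have h2 := (b1a_pos y).ne'
  unfold unboost
  rw [boost_apply, boost_apply]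
  refine Prod.ext ?_ ?_
  · simp only [inner_neg_left, inner_add_right, real_inner_smul_right, inner_neg_right, h1,
      smul_neg]
    rw [← neg_smul, ← neg_smul, add_assoc, add_assoc, add_assoc, add_assoc, ← add_smul,
      ← add_smul, ← add_smul]
    have h3 : ∀ c : ℝ, c = 0 → X.1 + c • y.val.1 = X.1 := by
      intro c hc
      rw [hc, zero_smul, add_zero]
    apply h3
    field_simp
    ring
  · simp only [inner_neg_left, inner_add_right, real_inner_smul_right, inner_neg_right, h1,
      smul_neg]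
    field_simp
    ring

theorem unboost_boost {n : ℕ} (y : Hy n) (X : LV n) : unboost y.val (boost y.val X) = X := by
  have h := boost_unboost (b1a_refl y) X
  unfold unboost at h
  have h2 : ((-(b1a_refl y).val.1, (b1a_refl y).val.2) : LV n) = y.val := by
    simp [b1a_refl]
  rw [h2] at h
  exact h

theorem b1a_mem_of_lor {n : ℕ} {Z : LV n} (h1 : lor Z Z < 0) (h2 : 0 < Z.2) : Z ∈ LCone n := by
  show ‖Z.1‖ < Z.2
  simp only [lor, real_inner_self_eq_norm_sq] at h1
  refine lt_of_pow_lt_pow_left₀ 2 h2.le ?_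
  linarith

theorem boost_mem_cone {n : ℕ} (y : Hy n) (X : LV n) (hX : X ∈ LCone n) :
    boost y.val X ∈ LCone n := by
  apply b1a_mem_of_lor
  · rw [lor_boost]
    exact lor_self_neg hX
  · rw [boost_apply]
    show 0 < inner ℝ y.val.1 X.1 + X.2 * y.val.2
    have h1 : ‖y.val.1‖ < y.val.2 := y.mem
    have h2 : ‖X.1‖ < X.2 := hX
    have h3 := abs_real_inner_le_norm y.val.1 X.1
    have h4 := neg_abs_le (inner ℝ y.val.1 X.1)
    have h5 : ‖y.val.1‖ * ‖X.1‖ < y.val.2 * X.2 :=
      mul_lt_mul'' h1 h2 (norm_nonneg _) (norm_nonneg _)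
    linarith

theorem unboost_mem_cone {n : ℕ} (y : Hy n) (X : LV n) (hX : X ∈ LCone n) :
    unboost y.val X ∈ LCone n :=
  boost_mem_cone (b1a_refl y) X hX

end Pool.Agent.MP_8db1a4_gt
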