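import Pool.Agent.MP_8db1a4_gt.SmallDefs
import Pool.Agent.MP_8db1a4_gt.Geo.B1a

set_option autoImplicit false

namespace Pool.Agent.MP_8db1a4_gt.B1c

open Set Filter Topology Pool.Agent.MP_8db1a4_gt

theorem b1c_snd_pos {n : ℕ} (x : Hy n) : 0 < x.val.2 := lt_of_le_of_lt (norm_nonneg _) x.mem

theorem b1c_norm_sq {n : ℕ} (x : Hy n) : ‖x.val.1‖ ^ 2 = x.val.2 ^ 2 - 1 := by
  have h := x.lor_self
  simp only [lor, real_inner_self_eq_norm_sq] at h
  nlinarith

/-- Quantitative comparison of the hyperbolic and the linear distance near a point. -/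
theorem b1c_close {n : ℕ} (y x : Hy n) :
    ‖x.val - y.val‖ ≤ (‖y.val.1‖ + y.val.2) *
      (‖y.val.1‖ * Real.sqrt (2 * (-lor x.val y.val - 1)) + (-lor x.val y.val - 1)) +
      Real.sqrt (2 * (-lor x.val y.val - 1)) := by
  have hx := x.lor_self
  have hy := y.lor_self
  have hp := one_le_neg_lor x y
  set q : ℝ := -lor x.val y.val - 1 with hq
  have hq0 : 0 ≤ q := by linarith
  set w : LV n := x.val - y.val with hw
  have h1 : lor w w = 2 * q := by
    rw [hw, lor_sub_left, lor_sub_right, lor_sub_right, hx, hy, lor_comm y.val x.val]; linarith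
  have h2 : lor w y.val = -q := by
    rw [hw, lor_sub_left, hy]; linarith
  simp only [lor, real_inner_self_eq_norm_sq] at h1
  simp only [lor] at h2
  set a : ℝ := ‖w.1‖ with ha
  set s : ℝ := ‖y.val.1‖ with hs
  set t : ℝ := y.val.2 with ht
  have hts : s ^ 2 = t ^ 2 - 1 := b1c_norm_sq y
  have hst : s < t := y.mem
  have hs0 : 0 ≤ s := norm_nonneg _
  have ha0 : 0 ≤ a := norm_nonneg _
  have hcs : |inner ℝ w.1 y.val.1| ≤ a * s := abs_real_inner_le_norm _ _
  set r : ℝ := Real.sqrt (2 * q) with hr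
  have hr0 : 0 ≤ r := Real.sqrt_nonneg _
  have hr2 : r ^ 2 = 2 * q := Real.sq_sqrt (by linarith)
  set b : ℝ := |w.2| with hb
  have hb0 : 0 ≤ b := abs_nonneg _
  have hb2 : b ^ 2 = w.2 ^ 2 := sq_abs _
  have hab : a ^ 2 = b ^ 2 + r ^ 2 := by rw [hb2, hr2]; nlinarith
  have hle : a ≤ b + r := by
    by_contra hcon
    push Not at hcon
    nlinarith
  have hbt : b * t ≤ a * s + q := by
    have e1 : w.2 * t = inner ℝ w.1 y.val.1 + q := by linarith
    have e2 : |w.2 * t| = b * t := by rw [abs_mul, abs_of_pos (b1c_snd_pos y)]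
    rw [← e2, e1]
    refine (abs_add_le _ _).trans ?_
    rw [abs_of_nonneg hq0]
    linarith
  have hb3 : b * (t - s) ≤ s * r + q := by nlinarith
  have hb4 : b ≤ (s + t) * (s * r + q) := by
    have h5 : b * (t - s) * (s + t) ≤ (s * r + q) * (s + t) :=
      mul_le_mul_of_nonneg_right hb3 (by linarith)
    have h6 : b * (t - s) * (s + t) = b := by
      have : (t - s) * (s + t) = 1 := by nlinarith
      rw [mul_assoc, this, mul_one]
    linarith
  have h7 : ‖w‖ = max a b := by
    rw [Prod.norm_def, Real.norm_eq_abs]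
  rw [h7]
  exact max_le (by linarith) (by linarith)

theorem hy_val_continuous (n : ℕ) : Continuous (Hy.val : Hy n → LV n) := by
  rw [continuous_iff_continuousAt]
  intro y
  rw [ContinuousAt, tendsto_iff_norm_sub_tendsto_zero]
  set F : ℝ → ℝ := fun q => (‖y.val.1‖ + y.val.2) *
      (‖y.val.1‖ * Real.sqrt (2 * (q - 1)) + (q - 1)) + Real.sqrt (2 * (q - 1)) with hF
  have hFc : Continuous F := by fun_prop
  have hF1 : F 1 = 0 := by simp [hF]
  have h1 : Tendsto (fun x : Hy n => F (Real.cosh (dist x y))) (𝓝 y) (𝓝 0) := by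
    have : Continuous (fun x : Hy n => F (Real.cosh (dist x y))) := by fun_prop
    have h2 := this.tendsto y
    simpa [hF1] using h2
  refine squeeze_zero (fun x => norm_nonneg _) (fun x => ?_) h1
  rw [cosh_dist]
  exact b1c_close y x

theorem b1c_isInducing (n : ℕ) : IsInducing (Hy.val : Hy n → LV n) := by
  rw [isInducing_iff_nhds]
  intro x
  apply le_antisymm
  · exact (hy_val_continuous n).continuousAt.tendsto.le_comap
  · rw [Metric.nhds_basis_ball.ge_iff]
    intro ε hε
    rw [Filter.mem_comap]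
    have hc : ContinuousAt (fun X : LV n => -lor x.val X) x.val := by
      have := (continuous_lor_right x.val).neg
      exact this.continuousAt
    have h1 : (1 : ℝ) < Real.cosh ε := Real.one_lt_cosh.mpr hε.ne'
    refine ⟨{X | -lor x.val X < Real.cosh ε}, ?_, ?_⟩
    · apply hc.eventually_lt continuousAt_const
      rw [x.lor_self]; simpa using h1
    · intro y hy
      rw [Metric.mem_ball, dist_comm]
      have h2 : Real.cosh (dist x y) < Real.cosh ε := by rw [cosh_dist]; exact hy
      rw [Real.cosh_lt_cosh, abs_of_nonneg dist_nonneg, abs_of_pos hε] at h2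
      exact h2

theorem b1c_isClosedEmbedding (n : ℕ) : IsClosedEmbedding (Hy.val : Hy n → LV n) where
  toIsInducing := b1c_isInducing n
  injective := fun _ _ h => Hy.ext' h
  isClosed_range := by
    have : range (Hy.val : Hy n → LV n) = {X | lor X X = -1} ∩ {X | 0 ≤ X.2} := by
      ext X
      constructor
      · rintro ⟨x, rfl⟩
        exact ⟨x.lor_self, (b1c_snd_pos x).le⟩
      · rintro ⟨h1, h2⟩
        refine ⟨⟨X, ?_, h1⟩, rfl⟩
        have h1' : lor X X = -1 := h1
        have h2' : 0 ≤ X.2 := h2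
        simp only [lor, real_inner_self_eq_norm_sq] at h1'
        show ‖X.1‖ < X.2
        nlinarith [norm_nonneg X.1]
    rw [this]
    refine IsClosed.inter (isClosed_eq ?_ continuous_const) (isClosed_le continuous_const continuous_snd)
    exact (continuous_lor n).comp (continuous_id.prodMk continuous_id)

theorem b1c_compact_ball (n : ℕ) (R : ℝ) : IsCompact (Metric.closedBall (Ohy n) R) := by
  have h1 : IsCompact ((Hy.val : Hy n → LV n) ⁻¹' Metric.closedBall 0 (Real.cosh R)) :=
    (b1c_isClosedEmbedding n).isCompact_preimage (isCompact_closedBall _ _)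
  refine h1.of_isClosed_subset Metric.isClosed_closedBall ?_
  intro x hx
  rw [Metric.mem_closedBall] at hx
  have h2 : Real.cosh (dist x (Ohy n)) ≤ Real.cosh R := by
    rw [Real.cosh_le_cosh, abs_of_nonneg dist_nonneg]
    exact hx.trans (le_abs_self _)
  rw [cosh_dist] at h2
  have h3 : -lor x.val (Ohy n).val = x.val.2 := by simp [lor, Ohy]
  rw [h3] at h2
  rw [mem_preimage, mem_closedBall_zero_iff, Prod.norm_def, Real.norm_eq_abs,
    abs_of_pos (b1c_snd_pos x)]
  have h4 : ‖x.val.1‖ < x.val.2 := x.mem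
  exact max_le (by linarith) h2

theorem hy_proper (n : ℕ) : ProperSpace (Hy n) := by
  refine ⟨fun x r => ?_⟩
  refine (b1c_compact_ball n (r + dist x (Ohy n))).of_isClosed_subset Metric.isClosed_closedBall ?_
  exact Metric.closedBall_subset_closedBall' le_rfl

/-- The isometry sending `y` to the base point. -/
noncomputable def b1c_hyTo {n : ℕ} (y x : Hy n) : Hy n :=
  ⟨unboost y.val x.val, unboost_mem_cone y _ x.mem, by rw [lor_unboost, x.lor_self]⟩

theorem b1c_dist_hyTo {n : ℕ} (y x z : Hy n) : dist (b1c_hyTo y x) (b1c_hyTo y z) = dist x z := by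
  show Real.arcosh (-lor (unboost y.val x.val) (unboost y.val z.val)) = _
  rw [lor_unboost]; rfl

theorem b1c_hyTo_self {n : ℕ} (y : Hy n) : b1c_hyTo y y = Ohy n := by
  apply Hy.ext'
  show unboost y.val y.val = (Ohy n).val
  conv_lhs => rw [← boost_O y]
  have h := unboost_boost y (Ohy n).val
  have h2 := boost_O y
  rw [h2] at h
  rw [h2]; exact h

theorem hy_packing (n : ℕ) : Packing (Hy n) := by
  classical
  intro R
  obtain ⟨t, -, htf, hcov⟩ := (b1c_compact_ball n R).finite_cover_balls
    (show (0 : ℝ) < 1 / 2 by norm_num)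
  refine ⟨htf.toFinset.card, fun x S hS hsep => ?_⟩
  have hchoose : ∀ y ∈ S, ∃ z ∈ t, dist (b1c_hyTo x y) z < 1 / 2 := by
    intro y hy
    have h1 : b1c_hyTo x y ∈ Metric.closedBall (Ohy n) R := by
      rw [Metric.mem_closedBall, dist_comm, ← b1c_hyTo_self x, b1c_dist_hyTo]
      exact hS y hy
    have h2 := hcov h1
    simp only [mem_iUnion, Metric.mem_ball, exists_prop] at h2
    exact h2
  choose! f hf1 hf2 using hchoose
  refine Finset.card_le_card_of_injOn f (fun y hy => ?_) ?_
  · simpa using hf1 y hy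
  · intro y hy z hz hyz
    by_contra hne
    have h1 := hsep y hy z hz hne
    have h2 := hf2 y hy
    have h3 := hf2 z hz
    rw [← hyz, dist_comm] at h3
    have h4 := dist_triangle (b1c_hyTo x y) (f y) (b1c_hyTo x z)
    rw [b1c_dist_hyTo] at h4
    linarith

theorem hy_isometric {n : ℕ} {G : Type*} [Group G] {ρ : G →* (LV n →L[ℝ] LV n)}
    (h : LorAction ρ) : letI := hyAction h; IsIsometricSMul G (Hy n) := by
  letI := hyAction h
  exact ⟨fun g => Isometry.of_dist_eq (hy_dist_smul h g)⟩

theorem hy_properAct {n : ℕ} {G : Type*} [Group G] {ρ : G →* (LV n →L[ℝ] LV n)}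
    (h : LorAction ρ) (hd : LorDiscrete ρ) : letI := hyAction h; ProperAct G (Hy n) := by
  letI := hyAction h
  intro x y r
  refine (hd (Real.cosh (dist (Ohy n) x + r + dist y (Ohy n)))).subset ?_
  intro g hg
  have hg' : dist x (g • y) ≤ r := hg
  show -lor (Ohy n).val (ρ g (Ohy n).val) ≤ _
  have h1 : -lor (Ohy n).val (ρ g (Ohy n).val) = Real.cosh (dist (Ohy n) (g • Ohy n)) := by
    rw [cosh_dist]; rfl
  have h2 : dist (g • y) (g • Ohy n) = dist y (Ohy n) := hy_dist_smul h g y (Ohy n)
  have h3 := dist_triangle4 (Ohy n) x (g • y) (g • Ohy n)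
  rw [h1, Real.cosh_le_cosh, abs_of_nonneg dist_nonneg]
  refine le_trans ?_ (le_abs_self _)
  rw [h2] at h3
  linarith

end Pool.Agent.MP_8db1a4_gt.B1c

namespace Pool.Agent.MP_8db1a4_gt

export B1c (hy_val_continuous hy_packing hy_proper hy_isometric hy_properAct)

end Pool.Agent.MP_8db1a4_gt
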