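import Pool.Agent.MP_8db1a4_gt.Geo.A1

set_option autoImplicit false

/-! [KAP-A3] quasi-convexity of the sets `TSet`. Uses `pingpong_not_commute` (A1). -/

namespace Pool.Agent.MP_8db1a4_gt.A3

open Set

variable {G X : Type*} [Group G] [MetricSpace X] [MulAction G X] [IsIsometricSMul G X]

/-- A point that is nearly between `b` and `c` is near a point of a geodesic from `b` to `c`. -/
theorem a3_near {δ : ℝ} (hX : HypGeo X δ) (b c z : X) (κ : ℝ) (hκ : 0 ≤ κ)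
    (hz : dist b z + dist z c ≤ dist b c + κ) :
    ∃ p : X, dist b p + dist p c = dist b c ∧ dist z p ≤ κ + 2 * δ := by
  obtain ⟨γ, h0, h1, hγ⟩ := hX.geod b c
  have hD : 0 ≤ dist b c := dist_nonneg
  have h0m : (0 : ℝ) ∈ Icc 0 (dist b c) := ⟨le_refl _, hD⟩
  have h1m : dist b c ∈ Icc 0 (dist b c) := ⟨hD, le_refl _⟩
  have hδ := hX.nonneg
  rcases le_total (dist b z) (dist b c) with hle | hle
  · have htm : dist b z ∈ Icc 0 (dist b c) := ⟨dist_nonneg, hle⟩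
    have e1 : dist b (γ (dist b z)) = dist b z := by
      have := hγ 0 h0m (dist b z) htm
      rw [h0] at this
      rw [this, zero_sub, abs_neg, abs_of_nonneg dist_nonneg]
    have e2 : dist (γ (dist b z)) c = dist b c - dist b z := by
      have := hγ (dist b z) htm (dist b c) h1m
      rw [h1] at this
      rw [this, abs_sub_comm, abs_of_nonneg (by linarith)]
    refine ⟨γ (dist b z), by rw [e1, e2]; ring, ?_⟩
    have h4 := hX.four z (γ (dist b z)) b c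
    rw [dist_comm (γ (dist b z)) b, e1, e2, dist_comm z b] at h4
    rcases max_cases (dist b z + (dist b c - dist b z)) (dist z c + dist b z) with h | h <;>
      linarith [h.1, h.2]
  · refine ⟨c, by rw [dist_self, add_zero], ?_⟩
    linarith

/-- The witness `y` of `x` is a witness of every point `z` that is not much farther from `y`. -/
theorem a3_far (Bs : X → Set G) (s : ℝ) (hs : 0 ≤ s) (Γ : Subgroup G) (Λ c₅ K : ℝ)
    (hΛ : 0 ≤ Λ) (hc : Real.exp (2 * s * K) ≤ c₅) (x z y : X) (hy : Bs y ⊆ (Γ : Set G))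
    (hy1 : ∃ g ∈ Bs y, g ≠ 1)
    (hy2 : Λ * Real.exp (2 * s * dist x y) ≤ ((Bs y).ncard : ℝ))
    (hd : dist z y ≤ dist x y + K) : z ∈ TSet Bs s Γ (Λ / c₅) := by
  refine ⟨y, hy, hy1, ?_⟩
  have hc0 : 0 < c₅ := lt_of_lt_of_le (Real.exp_pos _) hc
  refine le_trans ?_ hy2
  rw [div_mul_eq_mul_div, div_le_iff₀ hc0]
  have h1 : Real.exp (2 * s * dist z y) ≤ Real.exp (2 * s * dist x y) * Real.exp (2 * s * K) := by
    rw [← Real.exp_add]
    apply Real.exp_le_exp.mpr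
    nlinarith
  calc Λ * Real.exp (2 * s * dist z y)
      ≤ Λ * (Real.exp (2 * s * dist x y) * Real.exp (2 * s * K)) :=
        mul_le_mul_of_nonneg_left h1 hΛ
    _ ≤ Λ * (Real.exp (2 * s * dist x y) * c₅) := by
        apply mul_le_mul_of_nonneg_left _ hΛ
        exact mul_le_mul_of_nonneg_left hc (Real.exp_pos _).le
    _ = Λ * Real.exp (2 * s * dist x y) * c₅ := by ring

theorem tset_quasiconvex {δ : ℝ} (hX : HypGeo X δ) (hprop : ProperAct G X) (Bs : X → Set G)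
    (Cl : Set (Subgroup G)) (hB : SmallSets Bs Cl) (s : ℝ) (hs : 0 ≤ s) :
    ∃ c₅ : ℝ, 1 ≤ c₅ ∧ ∀ Γ ∈ Cl, ∀ Λ : ℝ, c₅ ≤ Λ → ∀ x₁ ∈ TSet Bs s Γ Λ, ∀ x₂ ∈ TSet Bs s Γ Λ,
      ∀ z : X, dist x₁ z + dist z x₂ = dist x₁ x₂ → z ∈ TSet Bs s Γ (Λ / c₅) := by
  classical
  obtain ⟨M, hM0, hM⟩ := hB.pigeon (10 * δ + 10)
  have hM1 : (1 : ℝ) ≤ M := by exact_mod_cast hM0
  have hδ := hX.nonneg
  have hsδ : 0 ≤ s * δ := mul_nonneg hs hδ
  have hE1 : 1 ≤ Real.exp (12 * (s * δ)) := Real.one_le_exp (by linarith)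
  set c₅ : ℝ := 2 * M * Real.exp (12 * (s * δ)) with hc₅
  have hc5a : Real.exp (12 * (s * δ)) ≤ c₅ := by
    rw [hc₅]
    nlinarith
  have hc5b : 2 * (M : ℝ) ≤ c₅ := by
    rw [hc₅]
    nlinarith
  have hc1 : 1 ≤ c₅ := by linarith
  refine ⟨c₅, hc1, ?_⟩
  intro Γ hΓ Λ hΛ x₁ hx₁ x₂ hx₂ z hz
  obtain ⟨y₁, hy₁, hn₁, hc₁⟩ := hx₁
  obtain ⟨y₂, hy₂, hn₂, hc₂⟩ := hx₂
  have hΛ0 : 0 ≤ Λ := by linarith
  -- the main case: a set of elements of `Γ` moving `p` a bounded amount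
  have key : ∀ (p y : X), dist z p ≤ 6 * δ → Bs y ⊆ (Γ : Set G) → Λ ≤ ((Bs y).ncard : ℝ) →
      (∀ g ∈ Bs y, dist p (g • p) ≤ 10 * δ + 10) → z ∈ TSet Bs s Γ (Λ / c₅) := by
    intro p y hzp hyΓ hcard hdisp
    set S : Finset G := (hB.finite y).toFinset with hS
    have hSmem : ∀ g, g ∈ S ↔ g ∈ Bs y := fun g => by rw [hS]; exact Set.Finite.mem_toFinset _
    have hScard : (S.card : ℝ) = ((Bs y).ncard : ℝ) := by
      rw [hS, Set.ncard_eq_toFinset_card _ (hB.finite y)]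
    obtain ⟨g₀, hg₀, hle⟩ := hM p S (fun g hg => hdisp g ((hSmem g).1 hg))
      ⟨1, (hSmem 1).2 (hB.one_mem y)⟩
    set T : Set G := {g ∈ (S : Set G) | g₀⁻¹ * g ∈ Bs p} with hT
    have hTfin : T.Finite := (S.finite_toSet).subset (fun g hg => hg.1)
    -- `T` injects into `Bs p`
    have hinj : T.ncard ≤ (Bs p).ncard := by
      apply Set.ncard_le_ncard_of_injOn (fun g => g₀⁻¹ * g) (fun g hg => hg.2) _ (hB.finite p)
      intro a _ b _ hab
      exact mul_left_cancel hab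
    have hMpos : (0 : ℝ) < M := by linarith
    have hTM : Λ / M ≤ (T.ncard : ℝ) := by
      rw [div_le_iff₀ hMpos]
      calc Λ ≤ (S.card : ℝ) := by rw [hScard]; exact hcard
        _ ≤ M * (T.ncard : ℝ) := hle
        _ = (T.ncard : ℝ) * M := by ring
    have hT2 : (1 : ℝ) < (T.ncard : ℝ) := by
      refine lt_of_lt_of_le ?_ hTM
      rw [lt_div_iff₀ hMpos]
      linarith
    have hT2' : 1 < T.ncard := by exact_mod_cast hT2
    obtain ⟨a, ha, hane⟩ := Set.exists_ne_of_one_lt_ncard hT2' g₀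
    have ha1 : g₀⁻¹ * a ≠ 1 := fun h => hane (by
      have := inv_mul_eq_one.mp h
      exact this.symm)
    have haΓ : g₀⁻¹ * a ∈ Γ :=
      Γ.mul_mem (Γ.inv_mem (hyΓ ((hSmem g₀).1 hg₀))) (hyΓ ((hSmem a).1 ha.1))
    obtain ⟨Γ', hΓ', hsub⟩ := hB.cover p ⟨g₀⁻¹ * a, ha.2, ha1⟩
    have hEq : Γ' = Γ := hB.disj Γ' hΓ' Γ hΓ _ (hsub ha.2) haΓ ha1
    refine ⟨p, by rw [← hEq]; exact hsub, ⟨_, ha.2, ha1⟩, ?_⟩
    have h1 : Λ / M ≤ ((Bs p).ncard : ℝ) := hTM.trans (by exact_mod_cast hinj)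
    refine le_trans ?_ h1
    have hc0 : 0 < c₅ := by linarith
    have h2 : Real.exp (2 * s * dist z p) ≤ Real.exp (12 * (s * δ)) := by
      apply Real.exp_le_exp.mpr
      nlinarith
    rw [div_mul_eq_mul_div, div_le_div_iff₀ hc0 hMpos]
    calc Λ * Real.exp (2 * s * dist z p) * M ≤ Λ * Real.exp (12 * (s * δ)) * M := by
          apply mul_le_mul_of_nonneg_right _ hMpos.le
          exact mul_le_mul_of_nonneg_left h2 hΛ0
      _ ≤ Λ * c₅ := by
          rw [hc₅]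
          have : 0 ≤ Λ * (M * Real.exp (12 * (s * δ))) := by positivity
          nlinarith
  have hcard₁ : Λ ≤ ((Bs y₁).ncard : ℝ) := by
    refine le_trans ?_ hc₁
    have : 1 ≤ Real.exp (2 * s * dist x₁ y₁) := Real.one_le_exp (by positivity)
    nlinarith
  have hcard₂ : Λ ≤ ((Bs y₂).ncard : ℝ) := by
    refine le_trans ?_ hc₂
    have : 1 ≤ Real.exp (2 * s * dist x₂ y₂) := Real.one_le_exp (by positivity)
    nlinarith
  -- four point condition for `x₁ x₂ | z y₁`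
  have hA := hX.four x₁ x₂ z y₁
  rcases le_total (dist x₁ z + dist x₂ y₁) (dist x₁ y₁ + dist x₂ z) with hA' | hA'
  · -- `z` is close to `[x₁, y₁]`
    rw [max_eq_right hA'] at hA
    refine a3_far Bs s hs Γ Λ c₅ (2 * δ) hΛ0 ?_ x₁ z y₁ hy₁ hn₁ hc₁ ?_
    · refine le_trans (Real.exp_le_exp.mpr ?_) hc5a
      nlinarith
    · rw [dist_comm x₂ z] at hA
      have : 0 ≤ dist x₁ z := dist_nonneg
      linarith
  · rw [max_eq_left hA'] at hA
    have hA2 : dist x₂ z + dist z y₁ ≤ dist x₂ y₁ + 2 * δ := by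
      rw [dist_comm x₂ z]
      linarith
    have hBB := hX.four x₂ y₁ z y₂
    rcases le_total (dist x₂ z + dist y₁ y₂) (dist x₂ y₂ + dist y₁ z) with hB' | hB'
    · rw [max_eq_right hB'] at hBB
      refine a3_far Bs s hs Γ Λ c₅ (4 * δ) hΛ0 ?_ x₂ z y₂ hy₂ hn₂ hc₂ ?_
      · refine le_trans (Real.exp_le_exp.mpr ?_) hc5a
        nlinarith
      · rw [dist_comm y₁ z] at hBB
        have : 0 ≤ dist x₂ z := dist_nonneg
        linarith
    · rw [max_eq_left hB'] at hBB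
      have hmid : dist y₁ z + dist z y₂ ≤ dist y₁ y₂ + 4 * δ := by
        rw [dist_comm y₁ z]
        linarith
      obtain ⟨p, hp, hzp⟩ := a3_near hX y₁ y₂ z (4 * δ) (by linarith) hmid
      have hzp' : dist z p ≤ 6 * δ := by linarith
      by_cases hall : ∀ g ∈ Bs y₁, dist p (g • p) ≤ 10 * δ + 10
      · exact key p y₁ hzp' hy₁ hcard₁ hall
      · push Not at hall
        obtain ⟨g, hg, hgp⟩ := hall
        refine key p y₂ hzp' hy₂ hcard₂ ?_
        intro h hh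
        by_contra hcon
        push Not at hcon
        have hg1 : dist y₁ (g • y₁) ≤ 1 := (hB.disp y₁ g hg).trans (by norm_num)
        have hh1 : dist y₂ (h • y₂) ≤ 1 := (hB.disp y₂ h hh).trans (by norm_num)
        exact pingpong_not_commute hX y₁ y₂ p hp g h hg1 hh1 hgp.le hcon.le
          (hB.comm Γ hΓ g (hy₁ hg) h (hy₂ hh))

end Pool.Agent.MP_8db1a4_gt.A3

namespace Pool.Agent.MP_8db1a4_gt

export A3 (tset_quasiconvex)

end Pool.Agent.MP_8db1a4_gt
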