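import Pool.Agent.MP_8db1a4_gt.Coarse

set_option autoImplicit false

/-! Task [KAP-A4]: counting estimate outside the thin regions. -/

namespace Pool.Agent.MP_8db1a4_gt

open Set

/-- Four point condition in product form. -/
lemma a4_gp {X : Type*} [MetricSpace X] {δ : ℝ} (hX : HypGeo X δ) (w x y z : X) :
    min (gp w x z) (gp w z y) - δ ≤ gp w x y := by
  have h := hX.four x y z w
  unfold gp
  rcases le_total (dist x z + dist y w) (dist x w + dist y z) with h1 | h1
  · rw [max_eq_right h1] at h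
    have h2 : min ((dist w x + dist w z - dist x z) / 2) ((dist w z + dist w y - dist z y) / 2)
        ≤ (dist w z + dist w y - dist z y) / 2 := min_le_right _ _
    have e1 := dist_comm w x
    have e2 := dist_comm w z
    have e3 := dist_comm w y
    have e4 := dist_comm z y
    linarith
  · rw [max_eq_left h1] at h
    have h2 : min ((dist w x + dist w z - dist x z) / 2) ((dist w z + dist w y - dist z y) / 2)
        ≤ (dist w x + dist w z - dist x z) / 2 := min_le_left _ _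
    have e1 := dist_comm w x
    have e2 := dist_comm w z
    have e3 := dist_comm w y
    have e4 := dist_comm z y
    linarith

/-- Points at the same distance `t` from `x` on geodesics to `a`, `b`, `t ≤ gp x a b`. -/
lemma a4_close {X : Type*} [MetricSpace X] {δ : ℝ} (hX : HypGeo X δ) (x a b p q : X) (t : ℝ)
    (hp : dist x p = t) (hpa : dist p a = dist x a - t) (hq : dist x q = t)
    (hqb : dist q b = dist x b - t) (ht : t ≤ gp x a b) : dist p q ≤ 4 * δ := by
  have h1 := a4_gp hX x p b a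
  have h2 := a4_gp hX x p q b
  have g1 : gp x p a = t := by unfold gp; rw [hp, hpa]; ring
  have g2 : gp x b q = t := by unfold gp; rw [hq, dist_comm b q, hqb]; ring
  rw [g1] at h1
  rw [g2] at h2
  have h3 : min t (gp x a b) = t := min_eq_left ht
  rw [h3] at h1
  have h4 : t - δ ≤ min (gp x p b) t := by
    apply le_min h1
    have := hX.nonneg
    linarith
  have h5 : t - δ - δ ≤ gp x p q := by linarith
  unfold gp at h5
  rw [hp, hq] at h5
  linarith

/-- A maximal `1`-separated subset of a finite set. -/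
lemma a4_sep {X : Type*} [MetricSpace X] (P : Finset X) :
    ∃ Y : Finset X, Y ⊆ P ∧ (∀ y ∈ Y, ∀ z ∈ Y, y ≠ z → 1 ≤ dist y z) ∧
      ∀ p ∈ P, ∃ y ∈ Y, dist y p < 1 := by
  classical
  induction P using Finset.induction_on with
  | empty => exact ⟨∅, by simp, by simp, by simp⟩
  | insert p P hp ih =>
    obtain ⟨Y, h1, h2, h3⟩ := ih
    by_cases h : ∃ y ∈ Y, dist y p < 1
    · refine ⟨Y, h1.trans (Finset.subset_insert _ _), h2, ?_⟩
      intro q hq
      rcases Finset.mem_insert.1 hq with rfl | hq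
      · exact h
      · exact h3 q hq
    · push Not at h
      refine ⟨insert p Y, Finset.insert_subset_insert _ h1, ?_, ?_⟩
      · intro y hy z hz hyz
        rcases Finset.mem_insert.1 hy with hy1 | hy1
        · rcases Finset.mem_insert.1 hz with hz1 | hz1
          · exact absurd (hy1.trans hz1.symm) hyz
          · rw [dist_comm, hy1]; exact h z hz1
        · rcases Finset.mem_insert.1 hz with hz1 | hz1
          · rw [hz1]; exact h y hy1
          · exact h2 y hy1 z hz1 hyz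
      · intro q hq
        rcases Finset.mem_insert.1 hq with rfl | hq
        · exact ⟨q, Finset.mem_insert_self _ _, by simp⟩
        · obtain ⟨y, hy, hy'⟩ := h3 q hq
          exact ⟨y, Finset.mem_insert_of_mem hy, hy'⟩

variable {G X : Type*} [Group G] [MetricSpace X] [MulAction G X] [IsIsometricSMul G X]

/-- Number of elements moving `y` by at most `c` against the number of small elements. -/
lemma a4_small (hprop : ProperAct G X) (Bs : X → Set G) (Cl : Set (Subgroup G))
    (hB : SmallSets Bs Cl) (c : ℝ) :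
    ∃ M : ℕ, ∀ y : X, ({g : G | dist y (g • y) ≤ c}.ncard : ℝ) ≤ M * ((Bs y).ncard : ℝ) := by
  classical
  obtain ⟨M, hM, hpig⟩ := hB.pigeon c
  refine ⟨M, fun y => ?_⟩
  have hfin := hprop y y c
  by_cases hne : hfin.toFinset.Nonempty
  · obtain ⟨g₀, -, hg⟩ := hpig y hfin.toFinset (by simp) hne
    rw [Set.ncard_eq_toFinset_card _ hfin]
    refine hg.trans ?_
    have : ({g ∈ (hfin.toFinset : Set G) | g₀⁻¹ * g ∈ Bs y}.ncard : ℝ) ≤ ((Bs y).ncard : ℝ) := by
      norm_cast
      refine Set.ncard_le_ncard_of_injOn (fun g => g₀⁻¹ * g) ?_ ?_ (hB.finite y)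
      · rintro g ⟨-, h⟩; exact h
      · intro a _ b _ hab; simpa using hab
    exact mul_le_mul_of_nonneg_left this (Nat.cast_nonneg _)
  · rw [Finset.not_nonempty_iff_eq_empty] at hne
    rw [Set.ncard_eq_toFinset_card _ hfin, hne, Finset.card_empty, Nat.cast_zero]
    positivity

/-- The estimate for one shell. -/
lemma a4_shell {δ : ℝ} (hX : HypGeo X δ) (hprop : ProperAct G X) (x o : X) (s s' K₁ Co : ℝ)
    (hK₁ : 0 ≤ K₁) (hCo : 0 ≤ Co) (N : ℕ)
    (hN : ∀ (z : X) (S : Finset X), (∀ y ∈ S, dist z y ≤ 1 + 4 * δ) →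
      (∀ y ∈ S, ∀ z ∈ S, y ≠ z → 1 ≤ dist y z) → S.card ≤ N)
    (hNy : ∀ y : X, ({k : G | dist y (k • y) ≤ 6 + 6 * δ}.ncard : ℝ) ≤
      K₁ * Real.exp (2 * s' * dist x y))
    (hgr : ∀ r : ℝ, 0 ≤ r → ({g : G | dist o (g • o) ≤ r}.ncard : ℝ) ≤ Co * Real.exp (s * r))
    (R : ℕ) :
    ({g : G | (R : ℝ) ≤ dist x (g • o) ∧ dist x (g • o) < R + 1}.ncard : ℝ) ≤
      (1 + N) / 2 * ∑ t ∈ Finset.range (R + 1),
        Real.sqrt (K₁ * Co) * Real.exp (s' * t + s * (R + 1 - t)) := by
  classical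
  have hfinA : {g : G | (R : ℝ) ≤ dist x (g • o) ∧ dist x (g • o) < R + 1}.Finite :=
    (hprop x o (R + 1)).subset (fun g hg => le_of_lt hg.2)
  set A : Finset G := hfinA.toFinset with hA
  have memA : ∀ g, g ∈ A ↔ (R : ℝ) ≤ dist x (g • o) ∧ dist x (g • o) < R + 1 := by
    intro g; simp [hA]
  rw [Set.ncard_eq_toFinset_card _ hfinA, ← hA]
  -- geodesics
  choose γ hγ0 hγ1 hγ using fun g : G => hX.geod x (g • o)
  have hpt1 : ∀ g ∈ A, ∀ t : ℕ, t ≤ R → dist x (γ g t) = t := by
    intro g hg t ht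
    have hg' := (memA g).1 hg
    have htR : (t : ℝ) ≤ R := by exact_mod_cast ht
    have ht0 : (0 : ℝ) ≤ t := Nat.cast_nonneg t
    have := hγ g 0 ⟨le_rfl, dist_nonneg⟩ t ⟨ht0, htR.trans hg'.1⟩
    rw [hγ0] at this
    rw [this, zero_sub, abs_neg, abs_of_nonneg ht0]
  have hpt2 : ∀ g ∈ A, ∀ t : ℕ, t ≤ R → dist (γ g t) (g • o) = dist x (g • o) - t := by
    intro g hg t ht
    have hg' := (memA g).1 hg
    have htR : (t : ℝ) ≤ R := by exact_mod_cast ht
    have ht0 : (0 : ℝ) ≤ t := Nat.cast_nonneg t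
    have := hγ g t ⟨ht0, htR.trans hg'.1⟩ (dist x (g • o)) ⟨dist_nonneg, le_rfl⟩
    rw [hγ1] at this
    rw [this, abs_sub_comm, abs_of_nonneg]
    linarith
  -- nets
  choose Y hY1 hY2 hY3 using fun t : ℕ => a4_sep (A.image (fun g => γ g t))
  have hyy : ∀ (g : G) (t : ℕ), ∃ y : X, g ∈ A → y ∈ Y t ∧ dist y (γ g t) < 1 := by
    intro g t
    by_cases hg : g ∈ A
    · obtain ⟨y, hy, hy'⟩ := hY3 t (γ g t) (Finset.mem_image_of_mem _ hg)
      exact ⟨y, fun _ => ⟨hy, hy'⟩⟩
    · exact ⟨x, fun h => absurd h hg⟩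
  choose yy hyy using hyy
  have hYx : ∀ t : ℕ, t ≤ R → ∀ y ∈ Y t, dist x y = t := by
    intro t ht y hy
    obtain ⟨g, hg, rfl⟩ := Finset.mem_image.1 (hY1 t hy)
    exact hpt1 g hg t ht
  -- level of a pair
  set tt : G × G → ℕ := fun p => ⌊gp x (p.1 • o) (p.2 • o)⌋₊ with htt
  have hgp0 : ∀ g h : G, 0 ≤ gp x (g • o) (h • o) := by
    intro g h
    unfold gp
    have := dist_triangle (g • o) x (h • o)
    rw [dist_comm (g • o) x] at this
    linarith
  have htt1 : ∀ p : G × G, (tt p : ℝ) ≤ gp x (p.1 • o) (p.2 • o) := fun p =>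
    Nat.floor_le (hgp0 _ _)
  have htt2 : ∀ p : G × G, gp x (p.1 • o) (p.2 • o) < tt p + 1 := fun p =>
    Nat.lt_floor_add_one _
  have httR : ∀ p ∈ A ×ˢ A, tt p ∈ Finset.range (R + 1) := by
    intro p hp
    obtain ⟨h1, h2⟩ := Finset.mem_product.1 hp
    rw [Finset.mem_range]
    have a1 := (memA _).1 h1
    have a2 := (memA _).1 h2
    have : gp x (p.1 • o) (p.2 • o) < (R : ℝ) + 1 := by
      unfold gp
      have h3 := dist_triangle x (p.1 • o) (p.2 • o)
      have h4 := dist_triangle x (p.2 • o) (p.1 • o)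
      rw [dist_comm (p.2 • o) (p.1 • o)] at h4
      linarith
    have h5 : (tt p : ℝ) < ((R + 1 : ℕ) : ℝ) := by
      push_cast
      exact lt_of_le_of_lt (htt1 p) this
    exact_mod_cast h5
  -- the blocks
  set Q : ℕ → X → Finset (G × G) := fun t y =>
    {p ∈ {p ∈ A ×ˢ A | tt p = t} | yy p.1 t = y} with hQ
  have hcard : ((A.card : ℝ)) * A.card = ∑ t ∈ Finset.range (R + 1), ∑ y ∈ Y t, ((Q t y).card : ℝ) := by
    have e1 : (A ×ˢ A).card = ∑ t ∈ Finset.range (R + 1), {p ∈ A ×ˢ A | tt p = t}.card :=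
      Finset.card_eq_sum_card_fiberwise httR
    have e2 : ∀ t ∈ Finset.range (R + 1), {p ∈ A ×ˢ A | tt p = t}.card = ∑ y ∈ Y t, (Q t y).card := by
      intro t _
      apply Finset.card_eq_sum_card_fiberwise
      intro p hp
      have hp' := (Finset.mem_filter.1 hp).1
      exact (hyy p.1 t (Finset.mem_product.1 hp').1).1
    rw [Finset.card_product, Finset.sum_congr rfl e2] at e1
    exact_mod_cast e1
  -- first bound
  set a : ℕ → X → ℕ := fun t y => {g ∈ A | yy g t = y}.card with ha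
  set a' : ℕ → X → ℕ := fun t y => {h ∈ A | dist y (γ h t) ≤ 1 + 4 * δ}.card with ha'
  have hclose : ∀ t : ℕ, t ≤ R → ∀ y, ∀ p ∈ Q t y, dist y (γ p.2 t) ≤ 1 + 4 * δ := by
    intro t ht y p hp
    obtain ⟨hp1, hp2⟩ := Finset.mem_filter.1 hp
    obtain ⟨hp3, hp4⟩ := Finset.mem_filter.1 hp1
    obtain ⟨g1, g2⟩ := Finset.mem_product.1 hp3
    have h1 := (hyy p.1 t g1).2
    rw [hp2] at h1
    have h2 := a4_close hX x (p.1 • o) (p.2 • o) (γ p.1 t) (γ p.2 t) t (hpt1 _ g1 t ht)
      (hpt2 _ g1 t ht) (hpt1 _ g2 t ht) (hpt2 _ g2 t ht) (by rw [← hp4]; exact htt1 p)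
    have h3 := dist_triangle y (γ p.1 t) (γ p.2 t)
    linarith
  have hb1 : ∀ t : ℕ, t ≤ R → ∀ y, ((Q t y).card : ℝ) ≤ a t y * a' t y := by
    intro t ht y
    have : Q t y ⊆ {g ∈ A | yy g t = y} ×ˢ {h ∈ A | dist y (γ h t) ≤ 1 + 4 * δ} := by
      intro p hp
      have hc := hclose t ht y p hp
      obtain ⟨hp1, hp2⟩ := Finset.mem_filter.1 hp
      obtain ⟨hp3, hp4⟩ := Finset.mem_filter.1 hp1
      obtain ⟨g1, g2⟩ := Finset.mem_product.1 hp3
      rw [Finset.mem_product, Finset.mem_filter, Finset.mem_filter]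
      exact ⟨⟨g1, hp2⟩, ⟨g2, hc⟩⟩
    have h := Finset.card_le_card this
    rw [Finset.card_product] at h
    exact_mod_cast h
  -- second bound
  have hb2 : ∀ t : ℕ, t ≤ R → ∀ y ∈ Y t, ((Q t y).card : ℝ) ≤
      K₁ * Real.exp (2 * s' * t) * (Co * Real.exp (s * (2 * (R + 1 - t)))) := by
    intro t ht y hy
    have htR : (t : ℝ) ≤ R := by exact_mod_cast ht
    set F : G × G → G := fun p => p.1⁻¹ * p.2 with hF
    have hfin1 := hprop y y (6 + 6 * δ)
    have hfin2 := hprop o o (2 * (R + 1 - t))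
    have key : ∀ u ∈ (Q t y).image F, {p ∈ Q t y | F p = u}.card ≤ hfin1.toFinset.card := by
      intro u hu
      obtain ⟨p0, hp0, hp0u⟩ := Finset.mem_image.1 hu
      apply Finset.card_le_card_of_injOn (fun p => p.1 * p0.1⁻¹)
      · intro p hp
        have hp' := Finset.mem_coe.1 hp
        obtain ⟨hpQ, hpu⟩ := Finset.mem_filter.1 hp'
        simp only [Set.Finite.coe_toFinset, Set.mem_ofPred_eq]
        -- geometry
        have dd : ∀ q ∈ Q t y, F q = u → dist (q.1⁻¹ • y) o ≤ R + 2 - t ∧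
            dist (q.1⁻¹ • y) (u • o) ≤ R + 2 + 4 * δ - t ∧ 2 * R - 2 * t - 2 ≤ dist o (u • o) := by
          intro q hq hqu
          have hc := hclose t ht y q hq
          obtain ⟨hq1, hq2⟩ := Finset.mem_filter.1 hq
          obtain ⟨hq3, hq4⟩ := Finset.mem_filter.1 hq1
          obtain ⟨g1, g2⟩ := Finset.mem_product.1 hq3
          have h1 := (hyy q.1 t g1).2
          rw [hq2] at h1
          have m1 := (memA _).1 g1
          have m2 := (memA _).1 g2
          refine ⟨?_, ?_, ?_⟩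
          · have e : dist (q.1⁻¹ • y) o = dist y (q.1 • o) := by
              rw [← dist_smul q.1 (q.1⁻¹ • y) o, smul_inv_smul]
            rw [e]
            have := dist_triangle y (γ q.1 t) (q.1 • o)
            rw [hpt2 _ g1 t ht] at this
            linarith
          · have e : dist (q.1⁻¹ • y) (u • o) = dist y (q.2 • o) := by
              rw [← dist_smul q.1 (q.1⁻¹ • y) (u • o), smul_inv_smul, smul_smul, ← hqu]
              simp [hF]
            rw [e]
            have := dist_triangle y (γ q.2 t) (q.2 • o)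
            rw [hpt2 _ g2 t ht] at this
            linarith
          · have e : dist o (u • o) = dist (q.1 • o) (q.2 • o) := by
              rw [← dist_smul q.1 o (u • o), smul_smul, ← hqu]
              simp [hF]
            rw [e]
            have h5 := htt2 q
            rw [hq4] at h5
            unfold gp at h5
            linarith
        have d1 := dd p hpQ hpu
        have d2 := dd p0 hp0 hp0u
        have e : dist y ((p.1 * p0.1⁻¹) • y) = dist (p.1⁻¹ • y) (p0.1⁻¹ • y) := by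
          rw [← dist_smul p.1 (p.1⁻¹ • y) (p0.1⁻¹ • y), smul_inv_smul, smul_smul]
        rw [e]
        have h4 := hX.four (p.1⁻¹ • y) (p0.1⁻¹ • y) o (u • o)
        have hm : max (dist (p.1⁻¹ • y) o + dist (p0.1⁻¹ • y) (u • o))
            (dist (p.1⁻¹ • y) (u • o) + dist (p0.1⁻¹ • y) o) ≤ 2 * R + 4 + 4 * δ - 2 * t := by
          apply max_le <;> linarith [d1.1, d1.2.1, d2.1, d2.2.1]
        linarith [d1.2.2]
      · intro p hp q hq hpq
        have hp' := Finset.mem_coe.1 hp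
        have hq' := Finset.mem_coe.1 hq
        obtain ⟨-, hpu⟩ := Finset.mem_filter.1 hp'
        obtain ⟨-, hqu⟩ := Finset.mem_filter.1 hq'
        have h1 : p.1 = q.1 := by simpa using hpq
        have h2 : p.1⁻¹ * p.2 = q.1⁻¹ * q.2 := hpu.trans hqu.symm
        rw [h1] at h2
        have h3 : p.2 = q.2 := by simpa using h2
        exact Prod.ext h1 h3
    have hmul := Finset.card_le_mul_card_image (Q t y) _ key
    have himg : ((Q t y).image F).card ≤ hfin2.toFinset.card := by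
      apply Finset.card_le_card
      intro u hu
      obtain ⟨q, hq, rfl⟩ := Finset.mem_image.1 hu
      obtain ⟨hq1, hq2⟩ := Finset.mem_filter.1 hq
      obtain ⟨hq3, hq4⟩ := Finset.mem_filter.1 hq1
      obtain ⟨g1, g2⟩ := Finset.mem_product.1 hq3
      have m1 := (memA _).1 g1
      have m2 := (memA _).1 g2
      simp only [Set.Finite.mem_toFinset, Set.mem_ofPred_eq]
      have e : dist o (F q • o) = dist (q.1 • o) (q.2 • o) := by
        rw [← dist_smul q.1 o (F q • o), smul_smul]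
        simp [hF]
      rw [e]
      have h5 := htt1 q
      rw [hq4] at h5
      unfold gp at h5
      linarith
    have c1 : (hfin1.toFinset.card : ℝ) ≤ K₁ * Real.exp (2 * s' * t) := by
      have := hNy y
      rw [hYx t ht y hy, Set.ncard_eq_toFinset_card _ hfin1] at this
      exact this
    have c2 : (hfin2.toFinset.card : ℝ) ≤ Co * Real.exp (s * (2 * (R + 1 - t))) := by
      have := hgr (2 * (R + 1 - t)) (by linarith)
      rw [Set.ncard_eq_toFinset_card _ hfin2] at this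
      exact this
    have h6 : ((Q t y).card : ℝ) ≤ (hfin1.toFinset.card : ℝ) * (hfin2.toFinset.card : ℝ) := by
      have : (Q t y).card ≤ hfin1.toFinset.card * hfin2.toFinset.card :=
        hmul.trans (Nat.mul_le_mul_left _ himg)
      exact_mod_cast this
    refine h6.trans ?_
    exact mul_le_mul c1 c2 (Nat.cast_nonneg _) (by positivity)
  -- combination
  set b : ℕ → ℝ := fun t => Real.sqrt (K₁ * Co) * Real.exp (s' * t + s * (R + 1 - t)) with hb
  have hb0 : ∀ t, 0 ≤ b t := fun t => by simp only [hb]; positivity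
  have hbsq : ∀ t : ℕ, K₁ * Real.exp (2 * s' * t) * (Co * Real.exp (s * (2 * (R + 1 - t)))) =
      b t ^ 2 := by
    intro t
    simp only [hb]
    rw [mul_pow, Real.sq_sqrt (by positivity), ← Real.exp_nat_mul]
    have : Real.exp (2 * s' * t) * Real.exp (s * (2 * (R + 1 - t))) =
        Real.exp (((2 : ℕ) : ℝ) * (s' * t + s * (R + 1 - t))) := by
      rw [← Real.exp_add]; congr 1; push_cast; ring
    rw [← this]; ring
  have hQb : ∀ t : ℕ, t ≤ R → ∀ y ∈ Y t, ((Q t y).card : ℝ) ≤ b t * (((a t y : ℝ) + a' t y) / 2) := by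
    intro t ht y hy
    have h1 := hb1 t ht y
    have h2 := hb2 t ht y hy
    rw [hbsq] at h2
    have hq0 : (0 : ℝ) ≤ (Q t y).card := Nat.cast_nonneg _
    have ha0 : (0 : ℝ) ≤ a t y := Nat.cast_nonneg _
    have ha0' : (0 : ℝ) ≤ a' t y := Nat.cast_nonneg _
    have h3 : ((Q t y).card : ℝ) ^ 2 ≤ (b t * (((a t y : ℝ) + a' t y) / 2)) ^ 2 := by
      calc ((Q t y).card : ℝ) ^ 2 = (Q t y).card * (Q t y).card := sq _
        _ ≤ (a t y * a' t y) * (b t ^ 2) := mul_le_mul h1 h2 hq0 (by positivity)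
        _ ≤ (((a t y : ℝ) + a' t y) / 2) ^ 2 * b t ^ 2 := by
            apply mul_le_mul_of_nonneg_right _ (sq_nonneg _)
            nlinarith [sq_nonneg ((a t y : ℝ) - a' t y)]
        _ = _ := by ring
    exact (abs_le_of_sq_le_sq' h3 (mul_nonneg (hb0 t) (by positivity))).2
  have hsuma : ∀ t : ℕ, ∑ y ∈ Y t, (a t y : ℝ) = A.card := by
    intro t
    have : A.card = ∑ y ∈ Y t, a t y := by
      apply Finset.card_eq_sum_card_fiberwise
      intro g hg
      exact (hyy g t hg).1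
    rw [this]; push_cast; rfl
  have hsuma' : ∀ t : ℕ, ∑ y ∈ Y t, (a' t y : ℝ) ≤ N * A.card := by
    intro t
    have e : ∑ y ∈ Y t, a' t y = ∑ h ∈ A, {y ∈ Y t | dist y (γ h t) ≤ 1 + 4 * δ}.card := by
      simp only [ha', Finset.card_filter]
      exact Finset.sum_comm
    have e2 : ∑ h ∈ A, {y ∈ Y t | dist y (γ h t) ≤ 1 + 4 * δ}.card ≤ ∑ _h ∈ A, N := by
      apply Finset.sum_le_sum
      intro h _
      apply hN (γ h t)
      · intro y hy
        rw [dist_comm]
        exact (Finset.mem_filter.1 hy).2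
      · intro y hy z hz hyz
        exact hY2 t y (Finset.mem_filter.1 hy).1 z (Finset.mem_filter.1 hz).1 hyz
    rw [← e, Finset.sum_const, smul_eq_mul] at e2
    have : ((∑ y ∈ Y t, a' t y : ℕ) : ℝ) ≤ ((A.card * N : ℕ) : ℝ) := by exact_mod_cast e2
    push_cast at this
    linarith
  have htot : (A.card : ℝ) * A.card ≤ ((1 + N) / 2 * ∑ t ∈ Finset.range (R + 1), b t) * A.card := by
    rw [hcard]
    calc ∑ t ∈ Finset.range (R + 1), ∑ y ∈ Y t, ((Q t y).card : ℝ)
        ≤ ∑ t ∈ Finset.range (R + 1), b t * ((1 + N) / 2 * A.card) := by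
          apply Finset.sum_le_sum
          intro t ht
          have ht' : t ≤ R := by
            have := Finset.mem_range.1 ht
            omega
          calc ∑ y ∈ Y t, ((Q t y).card : ℝ)
              ≤ ∑ y ∈ Y t, b t * (((a t y : ℝ) + a' t y) / 2) :=
                Finset.sum_le_sum (fun y hy => hQb t ht' y hy)
            _ = b t * ((∑ y ∈ Y t, (a t y : ℝ) + ∑ y ∈ Y t, (a' t y : ℝ)) / 2) := by
                rw [← Finset.mul_sum, ← Finset.sum_div, Finset.sum_add_distrib]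
            _ ≤ b t * ((1 + N) / 2 * A.card) := by
                apply mul_le_mul_of_nonneg_left _ (hb0 t)
                have h1 := hsuma t
                have h2 := hsuma' t
                linarith
      _ = ((1 + N) / 2 * ∑ t ∈ Finset.range (R + 1), b t) * A.card := by
          rw [← Finset.sum_mul]; ring
  rcases Nat.eq_zero_or_pos A.card with h0 | h0
  · rw [h0]
    simp only [Nat.cast_zero]
    apply mul_nonneg (by positivity)
    exact Finset.sum_nonneg (fun t _ => hb0 t)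
  · exact le_of_mul_le_mul_right htot (by exact_mod_cast h0)

theorem count_outside {δ : ℝ} (hX : HypGeo X δ) (hpack : Packing X) (hprop : ProperAct G X)
    (Bs : X → Set G) (Cl : Set (Subgroup G)) (hB : SmallSets Bs Cl) (o : X) (s s' : ℝ)
    (hs : 0 ≤ s) (hss : s < s') (hgr : GrowthLE G o s) (Λ : ℝ) (hΛ : 1 ≤ Λ) :
    ∃ C : ℝ, 0 < C ∧ ∀ x : X, (∀ Γ ∈ Cl, x ∉ TSet Bs s' Γ Λ) → ∀ R : ℝ, 0 ≤ R →
      ({g : G | dist x (g • o) ≤ R}.ncard : ℝ) ≤ C * Real.exp (s' * R) := by
  classical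
  obtain ⟨Co, hCo, hgr⟩ := hgr
  obtain ⟨M, hM⟩ := a4_small hprop Bs Cl hB (6 + 6 * δ)
  obtain ⟨N, hN⟩ := hpack (1 + 4 * δ)
  have hs' : 0 < s' := lt_of_le_of_lt hs hss
  set K₁ : ℝ := M * Λ with hK₁
  have hK₁0 : 0 ≤ K₁ := by positivity
  set K₂ : ℝ := (1 + N) / 2 * (Real.sqrt (K₁ * Co) * Real.exp s) with hK₂
  have hK₂0 : 0 ≤ K₂ := by positivity
  set q : ℝ := Real.exp (-(s' - s)) with hq
  have hq0 : 0 < q := Real.exp_pos _
  have hq1 : q < 1 := by rw [hq, Real.exp_lt_one_iff]; linarith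
  set q' : ℝ := Real.exp (-s') with hq'
  have hq0' : 0 < q' := Real.exp_pos _
  have hq1' : q' < 1 := by rw [hq', Real.exp_lt_one_iff]; linarith
  have hgeo : ∀ (r : ℝ), 0 < r → r < 1 → ∀ n : ℕ, ∑ i ∈ Finset.range n, r ^ i ≤ (1 - r)⁻¹ := by
    intro r h0 h1 n
    exact Summable.sum_le_tsum _ (fun i _ => by positivity) (summable_geometric_of_lt_one h0.le h1)
      |>.trans (le_of_eq (tsum_geometric_of_lt_one h0.le h1))
  refine ⟨K₂ * (1 - q)⁻¹ * (1 - q')⁻¹ + 1, ?_, ?_⟩
  · have h1 : 0 ≤ (1 - q)⁻¹ := inv_nonneg.2 (by linarith)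
    have h2 : 0 ≤ (1 - q')⁻¹ := inv_nonneg.2 (by linarith)
    positivity
  intro x hx R hR
  have h1 : 0 ≤ (1 - q)⁻¹ := inv_nonneg.2 (by linarith)
  have h2 : 0 ≤ (1 - q')⁻¹ := inv_nonneg.2 (by linarith)
  -- small sets are small
  have hBs : ∀ y, ((Bs y).ncard : ℝ) ≤ Λ * Real.exp (2 * s' * dist x y) := by
    intro y
    have hexp : 1 ≤ Real.exp (2 * s' * dist x y) := by
      rw [Real.one_le_exp_iff]; positivity
    by_cases h : ∃ g ∈ Bs y, g ≠ 1
    · obtain ⟨Γ, hΓ, hΓ'⟩ := hB.cover y h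
      by_contra hcon
      push Not at hcon
      exact hx Γ hΓ ⟨y, hΓ', h, hcon.le⟩
    · push Not at h
      have : (Bs y).ncard ≤ 1 := by
        have hsub : Bs y ⊆ {1} := fun g hg => h g hg
        exact (Set.ncard_le_ncard hsub (Set.finite_singleton _)).trans (by simp)
      have h3 : ((Bs y).ncard : ℝ) ≤ 1 := by exact_mod_cast this
      nlinarith
  have hNy : ∀ y : X, ({k : G | dist y (k • y) ≤ 6 + 6 * δ}.ncard : ℝ) ≤
      K₁ * Real.exp (2 * s' * dist x y) := by
    intro y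
    refine (hM y).trans ?_
    rw [hK₁, mul_assoc]
    exact mul_le_mul_of_nonneg_left (hBs y) (by positivity)
  have hshell : ∀ j : ℕ, ({g : G | (j : ℝ) ≤ dist x (g • o) ∧ dist x (g • o) < j + 1}.ncard : ℝ) ≤
      K₂ * (1 - q)⁻¹ * Real.exp (s' * j) := by
    intro j
    refine (a4_shell hX hprop x o s s' K₁ Co hK₁0 hCo.le N hN hNy hgr j).trans ?_
    have e : ∑ t ∈ Finset.range (j + 1), Real.sqrt (K₁ * Co) * Real.exp (s' * t + s * (j + 1 - t)) =
        Real.sqrt (K₁ * Co) * Real.exp s * Real.exp (s' * j) * ∑ t ∈ Finset.range (j + 1), q ^ t := by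
      rw [← Finset.sum_range_reflect, Finset.mul_sum]
      apply Finset.sum_congr rfl
      intro t ht
      have ht' : t ≤ j := by
        have := Finset.mem_range.1 ht
        omega
      have e1 : ((j + 1 - 1 - t : ℕ) : ℝ) = (j : ℝ) - t := by
        rw [Nat.add_sub_cancel]; push_cast [Nat.cast_sub ht']; ring
      have e2 : Real.exp (s' * ((j : ℝ) - t) + s * (j + 1 - ((j : ℝ) - t))) =
          Real.exp s * Real.exp (s' * j) * Real.exp (t * -(s' - s)) := by
        rw [← Real.exp_add, ← Real.exp_add]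
        congr 1
        ring
      rw [e1, e2, hq, ← Real.exp_nat_mul]
      ring
    rw [e]
    have h3 := hgeo q hq0 hq1 (j + 1)
    have h4 : 0 ≤ (1 + (N : ℝ)) / 2 * (Real.sqrt (K₁ * Co) * Real.exp s * Real.exp (s' * j)) := by
      positivity
    calc (1 + (N : ℝ)) / 2 * (Real.sqrt (K₁ * Co) * Real.exp s * Real.exp (s' * j) *
          ∑ t ∈ Finset.range (j + 1), q ^ t)
        = (1 + (N : ℝ)) / 2 * (Real.sqrt (K₁ * Co) * Real.exp s * Real.exp (s' * j)) *
          ∑ t ∈ Finset.range (j + 1), q ^ t := by ring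
      _ ≤ (1 + (N : ℝ)) / 2 * (Real.sqrt (K₁ * Co) * Real.exp s * Real.exp (s' * j)) * (1 - q)⁻¹ :=
          mul_le_mul_of_nonneg_left h3 h4
      _ = K₂ * (1 - q)⁻¹ * Real.exp (s' * j) := by rw [hK₂]; ring
  -- sum over the shells
  have hcover : {g : G | dist x (g • o) ≤ R} ⊆ ⋃ j ∈ Finset.range (⌊R⌋₊ + 1),
      {g : G | (j : ℝ) ≤ dist x (g • o) ∧ dist x (g • o) < j + 1} := by
    intro g hg
    simp only [Set.mem_iUnion, Finset.mem_range]
    refine ⟨⌊dist x (g • o)⌋₊, ?_, Nat.floor_le dist_nonneg, Nat.lt_floor_add_one _⟩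
    have : ⌊dist x (g • o)⌋₊ ≤ ⌊R⌋₊ := Nat.floor_mono hg
    omega
  have hfinsh : ∀ j : ℕ, {g : G | (j : ℝ) ≤ dist x (g • o) ∧ dist x (g • o) < j + 1}.Finite :=
    fun j => (hprop x o (j + 1)).subset (fun g hg => le_of_lt hg.2)
  have hle : ({g : G | dist x (g • o) ≤ R}.ncard : ℝ) ≤ ∑ j ∈ Finset.range (⌊R⌋₊ + 1),
      ({g : G | (j : ℝ) ≤ dist x (g • o) ∧ dist x (g • o) < j + 1}.ncard : ℝ) := by
    have hfU : (⋃ j ∈ Finset.range (⌊R⌋₊ + 1),
      {g : G | (j : ℝ) ≤ dist x (g • o) ∧ dist x (g • o) < j + 1}).Finite :=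
      Set.Finite.biUnion (Finset.finite_toSet _) (fun j _ => hfinsh j)
    have h3 := Set.ncard_le_ncard hcover hfU
    have h4 := Finset.set_ncard_biUnion_le (Finset.range (⌊R⌋₊ + 1))
      (fun j : ℕ => {g : G | (j : ℝ) ≤ dist x (g • o) ∧ dist x (g • o) < j + 1})
    have h5 := h3.trans h4
    exact_mod_cast h5
  have hfl : (⌊R⌋₊ : ℝ) ≤ R := Nat.floor_le hR
  calc ({g : G | dist x (g • o) ≤ R}.ncard : ℝ)
      ≤ ∑ j ∈ Finset.range (⌊R⌋₊ + 1), K₂ * (1 - q)⁻¹ * Real.exp (s' * j) :=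
        hle.trans (Finset.sum_le_sum (fun j _ => hshell j))
    _ = K₂ * (1 - q)⁻¹ * Real.exp (s' * ⌊R⌋₊) * ∑ j ∈ Finset.range (⌊R⌋₊ + 1), q' ^ j := by
        rw [← Finset.sum_range_reflect, Finset.mul_sum]
        apply Finset.sum_congr rfl
        intro t ht
        have ht' : t ≤ ⌊R⌋₊ := by
          have := Finset.mem_range.1 ht
          omega
        have e1 : ((⌊R⌋₊ + 1 - 1 - t : ℕ) : ℝ) = (⌊R⌋₊ : ℝ) - t := by
          rw [Nat.add_sub_cancel]; push_cast [Nat.cast_sub ht']; ring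
        have e2 : Real.exp (s' * ((⌊R⌋₊ : ℝ) - t)) =
            Real.exp (s' * ⌊R⌋₊) * Real.exp (t * -s') := by
          rw [← Real.exp_add]
          congr 1
          ring
        rw [e1, e2, hq', ← Real.exp_nat_mul]
        ring
    _ ≤ K₂ * (1 - q)⁻¹ * Real.exp (s' * R) * (1 - q')⁻¹ := by
        have h3 : Real.exp (s' * ⌊R⌋₊) ≤ Real.exp (s' * R) :=
          Real.exp_le_exp.2 (mul_le_mul_of_nonneg_left hfl hs'.le)
        have h4 := hgeo q' hq0' hq1' (⌊R⌋₊ + 1)
        apply mul_le_mul _ h4 (Finset.sum_nonneg (fun i _ => by positivity)) (by positivity)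
        exact mul_le_mul_of_nonneg_left h3 (by positivity)
    _ ≤ (K₂ * (1 - q)⁻¹ * (1 - q')⁻¹ + 1) * Real.exp (s' * R) := by
        have : 0 < Real.exp (s' * R) := Real.exp_pos _
        nlinarith

end Pool.Agent.MP_8db1a4_gt
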