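import Pool.Agent.MP_8db1a4_gt.SmallDefs

set_option autoImplicit false

/-! [KAP-B1b] hyperbolic space is geodesic and Gromov hyperbolic. -/

namespace Pool.Agent.MP_8db1a4_gt

open Set

variable {n : ℕ}

theorem b1b_two_pos (x : Hy n) : 1 ≤ x.val.2 := by
  have h1 := x.lor_self
  have h2 : ‖x.val.1‖ < x.val.2 := x.mem
  have h5 : inner ℝ x.val.1 x.val.1 = ‖x.val.1‖ * ‖x.val.1‖ := real_inner_self_eq_norm_mul_norm _
  simp only [lor, h5] at h1
  have h0 := norm_nonneg x.val.1
  nlinarith

/-- ball model -/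
noncomputable def b1bP (x : Hy n) : EuclideanSpace ℝ (Fin n) := (1 / (1 + x.val.2)) • x.val.1

theorem b1b_dist_sq (x y : Hy n) :
    dist (b1bP x) (b1bP y) ^ 2 * ((1 + x.val.2) * (1 + y.val.2)) / 2 = -lor x.val y.val - 1 := by
  have hx := b1b_two_pos x
  have hy := b1b_two_pos y
  have h1 : inner ℝ x.val.1 x.val.1 = x.val.2 ^ 2 - 1 := by
    have := x.lor_self
    simp only [lor] at this
    linarith
  have h2 : inner ℝ y.val.1 y.val.1 = y.val.2 ^ 2 - 1 := by
    have := y.lor_self
    simp only [lor] at this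
    linarith
  rw [dist_eq_norm, ← real_inner_self_eq_norm_sq]
  simp only [b1bP, inner_sub_left, inner_sub_right, real_inner_smul_left, real_inner_smul_right,
    h1, h2, real_inner_comm x.val.1 y.val.1, lor]
  field_simp
  ring

theorem b1b_sinh (x y : Hy n) :
    Real.sinh (dist x y / 2) = dist (b1bP x) (b1bP y) *
      (Real.sqrt (1 + x.val.2) * Real.sqrt (1 + y.val.2)) / 2 := by
  have hx := b1b_two_pos x
  have hy := b1b_two_pos y
  have h1 : 0 ≤ Real.sinh (dist x y / 2) := Real.sinh_nonneg_iff.mpr (by positivity)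
  have h2 : 0 ≤ dist (b1bP x) (b1bP y) *
      (Real.sqrt (1 + x.val.2) * Real.sqrt (1 + y.val.2)) / 2 := by positivity
  rw [← pow_left_inj₀ h1 h2 two_ne_zero]
  have h3 : Real.cosh (dist x y) = 2 * Real.sinh (dist x y / 2) ^ 2 + 1 := by
    have h4 := Real.cosh_two_mul (dist x y / 2)
    rw [show 2 * (dist x y / 2) = dist x y by ring] at h4
    have h5 := Real.cosh_sq (dist x y / 2)
    linarith
  have h6 := cosh_dist x y
  have h7 := b1b_dist_sq x y
  have h8 : (dist (b1bP x) (b1bP y) *
      (Real.sqrt (1 + x.val.2) * Real.sqrt (1 + y.val.2)) / 2) ^ 2 =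
      dist (b1bP x) (b1bP y) ^ 2 * ((1 + x.val.2) * (1 + y.val.2)) / 4 := by
    rw [div_pow, mul_pow, mul_pow, Real.sq_sqrt (by linarith), Real.sq_sqrt (by linarith)]
    norm_num
  rw [h8]
  linarith

theorem b1b_ptolemy (x y z w : Hy n) :
    Real.sinh (dist x y / 2) * Real.sinh (dist z w / 2) ≤
      Real.sinh (dist x z / 2) * Real.sinh (dist y w / 2) +
      Real.sinh (dist x w / 2) * Real.sinh (dist y z / 2) := by
  have h := EuclideanGeometry.mul_dist_le_mul_dist_add_mul_dist (b1bP x) (b1bP z) (b1bP y) (b1bP w)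
  rw [b1b_sinh, b1b_sinh, b1b_sinh, b1b_sinh, b1b_sinh, b1b_sinh]
  set S : ℝ := Real.sqrt (1 + x.val.2) * Real.sqrt (1 + y.val.2) *
    (Real.sqrt (1 + z.val.2) * Real.sqrt (1 + w.val.2)) / 4 with hS
  have hS0 : 0 ≤ S := by positivity
  have h2 := mul_le_mul_of_nonneg_right h hS0
  rw [dist_comm (b1bP z) (b1bP y)] at h2
  calc _ = dist (b1bP x) (b1bP y) * dist (b1bP z) (b1bP w) * S := by rw [hS]; ring
    _ ≤ _ := h2
    _ = _ := by rw [hS]; ring

theorem b1b_sinh_lower {t : ℝ} (ht : 1 ≤ t) : Real.exp (t / 2) / 4 ≤ Real.sinh (t / 2) := by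
  rw [Real.sinh_eq]
  have h1 : Real.exp (-(t / 2)) ≤ Real.exp (t / 2) / 2 := by
    have h2 : Real.exp (t / 2) = Real.exp (-(t / 2)) * Real.exp t := by
      rw [← Real.exp_add]; congr 1; ring
    have h3 : 2 ≤ Real.exp t := by
      have := Real.add_one_le_exp t
      linarith
    have h4 := Real.exp_pos (-(t / 2))
    rw [h2]
    nlinarith
  linarith

theorem b1b_sinh_upper (t : ℝ) : Real.sinh (t / 2) ≤ Real.exp (t / 2) / 2 := by
  rw [Real.sinh_eq]
  have := Real.exp_pos (-(t / 2))
  linarith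

theorem b1b_four (x y z w : Hy n) :
    dist x y + dist z w ≤ max (dist x z + dist y w) (dist x w + dist y z) + 2 * 4 := by
  set m := max (dist x z + dist y w) (dist x w + dist y z) with hm
  have hm1 : dist x z + dist y w ≤ m := le_max_left _ _
  have hm2 : dist x w + dist y z ≤ m := le_max_right _ _
  rcases le_total (dist x y) 1 with h1 | h1
  · have := dist_triangle4 z x y w
    rw [dist_comm z x] at this
    linarith
  rcases le_total (dist z w) 1 with h2 | h2
  · have := dist_triangle4 x z w y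
    rw [dist_comm w y] at this
    linarith
  have h3 := b1b_ptolemy x y z w
  have e1 := b1b_sinh_lower h1
  have e2 := b1b_sinh_lower h2
  have p1 : 0 < Real.exp (dist x y / 2) / 4 := by positivity
  have h4 : Real.exp (dist x y / 2) / 4 * (Real.exp (dist z w / 2) / 4) ≤
      Real.sinh (dist x y / 2) * Real.sinh (dist z w / 2) :=
    mul_le_mul e1 e2 (by positivity) (by linarith)
  have nn : ∀ a b : Hy n, 0 ≤ Real.sinh (dist a b / 2) := fun a b =>
    Real.sinh_nonneg_iff.mpr (by positivity)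
  have up : ∀ a b c d : Hy n, dist a b + dist c d ≤ m →
      Real.sinh (dist a b / 2) * Real.sinh (dist c d / 2) ≤ Real.exp (m / 2) / 4 := by
    intro a b c d hab
    calc Real.sinh (dist a b / 2) * Real.sinh (dist c d / 2)
        ≤ Real.exp (dist a b / 2) / 2 * (Real.exp (dist c d / 2) / 2) :=
          mul_le_mul (b1b_sinh_upper _) (b1b_sinh_upper _) (nn _ _) (by positivity)
      _ = Real.exp ((dist a b + dist c d) / 2) / 4 := by
          rw [add_div, Real.exp_add]; ring
      _ ≤ Real.exp (m / 2) / 4 := by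
          have := Real.exp_le_exp.mpr (show (dist a b + dist c d) / 2 ≤ m / 2 by linarith)
          linarith
  have u1 := up x z y w hm1
  have u2 := up x w y z hm2
  have h5 : Real.exp (dist x y / 2) / 4 * (Real.exp (dist z w / 2) / 4) =
      Real.exp ((dist x y + dist z w) / 2) / 16 := by
    rw [add_div, Real.exp_add]; ring
  have h6 : Real.exp ((dist x y + dist z w) / 2) ≤ 8 * Real.exp (m / 2) := by
    rw [h5] at h4
    linarith
  have h7 : (8 : ℝ) ≤ Real.exp 4 := by
    have h8 : Real.exp 4 = Real.exp 2 * Real.exp 2 := by rw [← Real.exp_add]; norm_num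
    have h9 : (3 : ℝ) ≤ Real.exp 2 := by
      have := Real.add_one_le_exp (2 : ℝ)
      linarith
    rw [h8]
    nlinarith
  have h10 : Real.exp ((dist x y + dist z w) / 2) ≤ Real.exp (m / 2 + 4) := by
    rw [Real.exp_add]
    have := Real.exp_pos (m / 2)
    nlinarith
  have h11 := Real.exp_le_exp.mp h10
  linarith

theorem b1b_geod (x y : Hy n) : ∃ γ : ℝ → Hy n, γ 0 = x ∧ γ (dist x y) = y ∧
    ∀ s ∈ Icc 0 (dist x y), ∀ t ∈ Icc 0 (dist x y), dist (γ s) (γ t) = |s - t| := by
  classical
  rcases eq_or_ne x y with rfl | hxy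
  · refine ⟨fun _ => x, rfl, rfl, ?_⟩
    intro s hs t ht
    rw [dist_self] at hs ht ⊢
    have h1 : s = 0 := le_antisymm hs.2 hs.1
    have h2 : t = 0 := le_antisymm ht.2 ht.1
    rw [h1, h2]; simp
  set D := dist x y with hD
  have hDpos : 0 < D := dist_pos.mpr hxy
  have hS : 0 < Real.sinh D := Real.sinh_pos_iff.mpr hDpos
  have hC : lor x.val y.val = -Real.cosh D := by
    have := cosh_dist x y
    rw [← hD] at this
    linarith
  have hCS := Real.cosh_sq D
  -- vector
  let V : ℝ → LV n := fun t => (Real.sinh (D - t) / Real.sinh D) • x.val +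
    (Real.sinh t / Real.sinh D) • y.val
  have hV : ∀ s t, lor (V s) (V t) = -Real.cosh (s - t) := by
    intro s t
    simp only [V, lor_add_left, lor_add_right, lor_smul_left, lor_smul_right, x.lor_self,
      y.lor_self, lor_comm y.val x.val, hC]
    rw [Real.sinh_sub, Real.sinh_sub, Real.cosh_sub]
    field_simp
    ring_nf
    rw [hCS]
    ring
  have hVc : ∀ t ∈ Icc (0 : ℝ) D, V t ∈ LCone n := by
    intro t ht
    have h1 : 0 ≤ Real.sinh (D - t) / Real.sinh D :=
      div_nonneg (Real.sinh_nonneg_iff.mpr (by linarith [ht.2])) hS.le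
    have h2 : 0 ≤ Real.sinh t / Real.sinh D :=
      div_nonneg (Real.sinh_nonneg_iff.mpr ht.1) hS.le
    have hx : ‖x.val.1‖ < x.val.2 := x.mem
    have hy : ‖y.val.1‖ < y.val.2 := y.mem
    have h3 : 0 < Real.sinh (D - t) / Real.sinh D ∨ 0 < Real.sinh t / Real.sinh D := by
      rcases eq_or_lt_of_le ht.1 with h | h
      · left
        rw [← h, sub_zero, div_self hS.ne']
        exact one_pos
      · right
        exact div_pos (Real.sinh_pos_iff.mpr h) hS
    show ‖(V t).1‖ < (V t).2
    simp only [V, Prod.fst_add, Prod.smul_fst, Prod.snd_add, Prod.smul_snd, smul_eq_mul]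
    have h4 : ‖(Real.sinh (D - t) / Real.sinh D) • x.val.1 + (Real.sinh t / Real.sinh D) • y.val.1‖
        ≤ (Real.sinh (D - t) / Real.sinh D) * ‖x.val.1‖ + (Real.sinh t / Real.sinh D) * ‖y.val.1‖ := by
      refine (norm_add_le _ _).trans ?_
      rw [norm_smul, norm_smul, Real.norm_of_nonneg h1, Real.norm_of_nonneg h2]
    refine lt_of_le_of_lt h4 ?_
    rcases h3 with h | h
    · have := mul_lt_mul_of_pos_left hx h
      have := mul_le_mul_of_nonneg_left hy.le h2
      linarith
    · have := mul_lt_mul_of_pos_left hy h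
      have := mul_le_mul_of_nonneg_left hx.le h1
      linarith
  let γ : ℝ → Hy n := fun t => if ht : t ∈ Icc (0 : ℝ) D then
    ⟨V t, hVc t ht, by rw [hV, sub_self, Real.cosh_zero]⟩ else x
  have hγ : ∀ t ∈ Icc (0 : ℝ) D, (γ t).val = V t := by
    intro t ht
    simp only [γ, dif_pos ht]
  refine ⟨γ, ?_, ?_, ?_⟩
  · have h0 : (0 : ℝ) ∈ Icc (0 : ℝ) D := ⟨le_refl _, hDpos.le⟩
    have h1 := hγ 0 h0
    have h2 : (γ 0).val = x.val := by
      rw [h1]
      simp only [V, sub_zero, Real.sinh_zero, zero_div, zero_smul, add_zero, div_self hS.ne',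
        one_smul]
    exact Hy.ext' h2
  · have h0 : D ∈ Icc (0 : ℝ) D := ⟨hDpos.le, le_refl _⟩
    have h1 := hγ D h0
    have h2 : (γ D).val = y.val := by
      rw [h1]
      simp only [V, sub_self, Real.sinh_zero, zero_div, zero_smul, zero_add, div_self hS.ne',
        one_smul]
    exact Hy.ext' h2
  · intro s hs t ht
    rw [dist_def, hγ s hs, hγ t ht, hV, neg_neg, ← Real.cosh_abs, Real.arcosh_cosh (abs_nonneg _)]

theorem hy_hypGeo (n : ℕ) : HypGeo (Hy n) 4 where
  nonneg := by norm_num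
  four := b1b_four
  geod := b1b_geod

end Pool.Agent.MP_8db1a4_gt
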