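import Pool.Agent.MP_8db1a4_gt.Geo.B1a
import Pool.Agent.MP_8db1a4_gt.Geo.B1c

set_option autoImplicit false

/-! Small elements and maximal elementary subgroups (MP_8db1a4_gt, task B2). -/

namespace Pool.Agent.MP_8db1a4_gt.B2

open Set Filter Topology

variable {n : ℕ} {G : Type*} [Group G]

/-- The matrix of `g` in the frame at `y`. -/
noncomputable def b2frm (ρ : G →* (LV n →L[ℝ] LV n)) (y : Hy n) (g : G) : LV n →L[ℝ] LV n :=
  (unboost y.val).comp ((ρ g).comp (boost y.val))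

theorem b2frm_apply (ρ : G →* (LV n →L[ℝ] LV n)) (y : Hy n) (g : G) (X : LV n) :
    b2frm ρ y g X = unboost y.val (ρ g (boost y.val X)) := rfl

theorem b2frm_one (ρ : G →* (LV n →L[ℝ] LV n)) (y : Hy n) : b2frm ρ y 1 = 1 := by
  refine ContinuousLinearMap.ext fun X => ?_
  rw [b2frm_apply, map_one]
  exact unboost_boost y X

theorem b2frm_mul (ρ : G →* (LV n →L[ℝ] LV n)) (y : Hy n) (g h : G) :
    b2frm ρ y (g * h) = b2frm ρ y g * b2frm ρ y h := by
  refine ContinuousLinearMap.ext fun X => ?_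
  show b2frm ρ y (g * h) X = b2frm ρ y g (b2frm ρ y h X)
  rw [b2frm_apply, b2frm_apply, b2frm_apply, boost_unboost, map_mul]
  rfl

theorem b2frm_inv_mul (ρ : G →* (LV n →L[ℝ] LV n)) (y : Hy n) (g : G) :
    b2frm ρ y g⁻¹ * b2frm ρ y g = 1 := by
  rw [← b2frm_mul, inv_mul_cancel, b2frm_one]

theorem b2frm_mul_inv (ρ : G →* (LV n →L[ℝ] LV n)) (y : Hy n) (g : G) :
    b2frm ρ y g * b2frm ρ y g⁻¹ = 1 := by
  rw [← b2frm_mul, mul_inv_cancel, b2frm_one]

theorem b2frm_lor {ρ : G →* (LV n →L[ℝ] LV n)} (h : LorAction ρ) (y : Hy n) (g : G) (X Y : LV n) :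
    lor (b2frm ρ y g X) (b2frm ρ y g Y) = lor X Y := by
  rw [b2frm_apply, b2frm_apply, lor_unboost, h.lor_eq, lor_boost]

theorem b2_lor_O (X : LV n) : lor (Ohy n).val X = -X.2 := by
  simp [lor, Ohy]

theorem b2_unboost_self (y : Hy n) : unboost y.val y.val = (Ohy n).val := by
  have := unboost_boost y (Ohy n).val
  rwa [boost_O] at this

theorem b2frm_O_snd {ρ : G →* (LV n →L[ℝ] LV n)} (y : Hy n) (g : G) :
    (b2frm ρ y g (Ohy n).val).2 = -lor y.val (ρ g y.val) := by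
  have h1 : (b2frm ρ y g (Ohy n).val).2 = -lor (Ohy n).val (b2frm ρ y g (Ohy n).val) := by
    rw [b2_lor_O, neg_neg]
  rw [h1, b2frm_apply, boost_O, ← b2_unboost_self y, lor_unboost]

/-- Operator norm of Lorentz transformations. -/
theorem b2_norm_le {T : LV n →L[ℝ] LV n} (hT : ∀ X Y, lor (T X) (T Y) = lor X Y)
    (hb : 1 ≤ (T (Ohy n).val).2) : ‖T‖ ≤ 2 * (T (Ohy n).val).2 := by
  set b := (T (Ohy n).val).2 with hbdef
  set a := (T (Ohy n).val).1 with hadef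
  have h1 : ‖a‖ ^ 2 = b ^ 2 - 1 := by
    have := hT (Ohy n).val (Ohy n).val
    rw [(Ohy n).lor_self] at this
    simp only [lor] at this
    rw [real_inner_self_eq_norm_sq] at this
    nlinarith
  have ha : ‖a‖ ≤ b := by
    apply le_of_sq_le_sq _ (by linarith)
    nlinarith
  refine ContinuousLinearMap.opNorm_le_bound _ (by linarith) fun X => ?_
  have h2 : T X = T (X.1, 0) + X.2 • T (Ohy n).val := by
    rw [← map_smul, ← map_add]
    congr 1
    ext i <;> simp [Ohy]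
  have h3 : ‖T (Ohy n).val‖ ≤ b := by
    rw [Prod.norm_def]
    refine max_le ha ?_
    rw [Real.norm_of_nonneg (by linarith)]
  have h4 : ‖T (X.1, 0)‖ ≤ b * ‖X.1‖ := by
    have e1 := hT (X.1, 0) (X.1, 0)
    have e2 := hT (X.1, 0) (Ohy n).val
    have e3 : lor ((X.1, 0) : LV n) (Ohy n).val = 0 := by simp [lor, Ohy]
    rw [e3] at e2
    simp only [lor] at e1 e2
    rw [real_inner_self_eq_norm_sq, real_inner_self_eq_norm_sq] at e1
    set s := (T (X.1, 0)).2 with hs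
    set x' := (T (X.1, 0)).1 with hx'
    have e4 : (s * b) ^ 2 ≤ (‖x'‖ * ‖a‖) ^ 2 := by
      have := abs_real_inner_le_norm x' a
      have e5 : inner ℝ x' a = s * b := by linarith
      rw [e5] at this
      rw [← sq_abs (s * b)]
      exact pow_le_pow_left₀ (abs_nonneg _) this 2
    have e6 : s ^ 2 ≤ ‖X.1‖ ^ 2 * (b ^ 2 - 1) := by
      have : (‖x'‖ * ‖a‖) ^ 2 = ‖x'‖ ^ 2 * (b ^ 2 - 1) := by rw [mul_pow, h1]
      nlinarith
    have hbX : 0 ≤ b * ‖X.1‖ := mul_nonneg (by linarith) (norm_nonneg _)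
    rw [Prod.norm_def]
    refine max_le ?_ ?_
    · apply le_of_sq_le_sq _ hbX
      nlinarith
    · apply le_of_sq_le_sq _ hbX
      rw [Real.norm_eq_abs, sq_abs]
      nlinarith [sq_nonneg ‖X.1‖]
  rw [h2]
  refine (norm_add_le _ _).trans ?_
  rw [norm_smul]
  have h5 : ‖X.1‖ ≤ ‖X‖ := norm_fst_le X
  have h6 : ‖X.2‖ ≤ ‖X‖ := norm_snd_le X
  have h7 : ‖X.2‖ * ‖T (Ohy n).val‖ ≤ ‖X‖ * b := mul_le_mul h6 h3 (norm_nonneg _) (norm_nonneg _)
  nlinarith

theorem b2frm_norm_le {ρ : G →* (LV n →L[ℝ] LV n)} (h : LorAction ρ) (y : Hy n) (g : G) :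
    ‖b2frm ρ y g‖ ≤ 2 * -lor y.val (ρ g y.val) := by
  have h1 : 1 ≤ -lor y.val (ρ g y.val) := by
    letI := hyAction h
    exact one_le_neg_lor y (g • y)
  have := b2_norm_le (b2frm_lor h y g) (by rw [b2frm_O_snd]; exact h1)
  rwa [b2frm_O_snd] at this

theorem b2_lor_inv {ρ : G →* (LV n →L[ℝ] LV n)} (h : LorAction ρ) (y : Hy n) (g : G) :
    lor y.val (ρ g⁻¹ y.val) = lor y.val (ρ g y.val) := by
  rw [lor_comm, lor_inv_left h]

theorem b2frm_norm_inv_le {ρ : G →* (LV n →L[ℝ] LV n)} (h : LorAction ρ) (y : Hy n) (g : G) :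
    ‖b2frm ρ y g⁻¹‖ ≤ 2 * -lor y.val (ρ g y.val) := by
  have := b2frm_norm_le h y g⁻¹
  rwa [b2_lor_inv h] at this

theorem b2_norm_O : ‖(Ohy n).val‖ = 1 := by
  simp [Ohy, Prod.norm_def]

theorem b2_small_lor {ρ : G →* (LV n →L[ℝ] LV n)} {ε : ℝ} {y : Hy n} {g : G}
    (hg : g ∈ smallAt ρ ε y) : -lor y.val (ρ g y.val) ≤ 1 + ε := by
  have h1 : ‖b2frm ρ y g - 1‖ ≤ ε := hg
  rw [← b2frm_O_snd]
  have h2 : (b2frm ρ y g (Ohy n).val).2 = 1 + ((b2frm ρ y g - 1) (Ohy n).val).2 := by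
    simp [Ohy]
  rw [h2]
  have h3 : ((b2frm ρ y g - 1) (Ohy n).val).2 ≤ ‖(b2frm ρ y g - 1) (Ohy n).val‖ :=
    (Real.le_norm_self _).trans (norm_snd_le _)
  have h4 := (b2frm ρ y g - 1).le_opNorm (Ohy n).val
  rw [b2_norm_O, mul_one] at h4
  linarith

theorem b2_cosh_quarter : (1 : ℝ) + 1 / 100 ≤ Real.cosh (1 / 4) := by
  rw [Real.cosh_eq]
  have h1 := Real.quadratic_le_exp_of_nonneg (show (0 : ℝ) ≤ 1 / 4 by norm_num)
  have h2 := Real.add_one_le_exp (-(1 / 4) : ℝ)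
  linarith

theorem b2_disp {ρ : G →* (LV n →L[ℝ] LV n)} (h : LorAction ρ) {ε : ℝ} (hε : ε ≤ 1 / 100)
    {y : Hy n} {g : G} (hg : g ∈ smallAt ρ ε y) :
    letI := hyAction h; dist y (g • y) ≤ 1 / 4 := by
  letI := hyAction h
  have h1 := b2_small_lor hg
  have h2 : Real.cosh (dist y (g • y)) ≤ Real.cosh (1 / 4) := by
    rw [cosh_dist]
    have h3 : (g • y).val = ρ g y.val := rfl
    rw [h3]
    have := b2_cosh_quarter
    linarith
  have h3 := Real.cosh_le_cosh.mp h2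
  rwa [abs_of_nonneg dist_nonneg, abs_of_nonneg (by norm_num)] at h3

/-! ### conjugation -/

theorem b2_norm_map {T : LV n →L[ℝ] LV n} (hT : ∀ X Y, lor (T X) (T Y) = lor X Y)
    (hO : T (Ohy n).val = (Ohy n).val) (X : LV n) : ‖T X‖ = ‖X‖ := by
  have h1 : (T X).2 = X.2 := by
    have := hT (Ohy n).val X
    rw [hO, b2_lor_O, b2_lor_O] at this
    linarith
  have h2 : ‖(T X).1‖ ^ 2 = ‖X.1‖ ^ 2 := by
    have := hT X X
    simp only [lor] at this
    rw [real_inner_self_eq_norm_sq, real_inner_self_eq_norm_sq, h1] at this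
    linarith
  have h3 : ‖(T X).1‖ = ‖X.1‖ := by
    rwa [sq_eq_sq₀ (norm_nonneg _) (norm_nonneg _)] at h2
  rw [Prod.norm_def, Prod.norm_def, h1, h3]

/-- The transition matrix from the frame at `y` to the frame at `h y`. -/
noncomputable def b2tr (ρ : G →* (LV n →L[ℝ] LV n)) (y y' : Hy n) (h : G) : LV n →L[ℝ] LV n :=
  (unboost y'.val).comp ((ρ h).comp (boost y.val))

theorem b2tr_norm_le {ρ : G →* (LV n →L[ℝ] LV n)} (h : LorAction ρ) (y y' : Hy n) (g : G)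
    (hy : y'.val = ρ g y.val) : ‖b2tr ρ y y' g‖ ≤ 1 := by
  refine ContinuousLinearMap.opNorm_le_bound _ zero_le_one fun X => ?_
  rw [one_mul]
  refine (b2_norm_map (T := b2tr ρ y y' g) ?_ ?_ X).le
  · intro X Y
    show lor (unboost y'.val (ρ g (boost y.val X))) (unboost y'.val (ρ g (boost y.val Y))) = _
    rw [lor_unboost, h.lor_eq, lor_boost]
  · show unboost y'.val (ρ g (boost y.val (Ohy n).val)) = _
    rw [boost_O, ← hy, b2_unboost_self]

theorem b2_conj {ρ : G →* (LV n →L[ℝ] LV n)} (hρ : LorAction ρ) {ε : ℝ} (h : G) (y : Hy n) (g : G)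
    (hg : g ∈ smallAt ρ ε y) :
    letI := hyAction hρ; h * g * h⁻¹ ∈ smallAt ρ ε (h • y) := by
  letI := hyAction hρ
  have h1 : ‖b2frm ρ y g - 1‖ ≤ ε := hg
  show ‖b2frm ρ (h • y) (h * g * h⁻¹) - 1‖ ≤ ε
  have hk : ‖b2tr ρ y (h • y) h‖ ≤ 1 := b2tr_norm_le hρ _ _ _ rfl
  have hk' : ‖b2tr ρ (h • y) y h⁻¹‖ ≤ 1 := b2tr_norm_le hρ _ _ _ (by
    show y.val = ρ h⁻¹ (ρ h y.val)
    rw [rho_inv_apply])
  have e1 : b2tr ρ y (h • y) h * b2tr ρ (h • y) y h⁻¹ = 1 := by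
    refine ContinuousLinearMap.ext fun X => ?_
    show unboost (h • y).val (ρ h (boost y.val (unboost y.val (ρ h⁻¹ (boost (h • y).val X))))) = X
    rw [boost_unboost, rho_apply_inv, unboost_boost]
  have e2 : b2tr ρ y (h • y) h * b2frm ρ y g * b2tr ρ (h • y) y h⁻¹ =
      b2frm ρ (h • y) (h * g * h⁻¹) := by
    refine ContinuousLinearMap.ext fun X => ?_
    show unboost (h • y).val (ρ h (boost y.val (unboost y.val (ρ g (boost y.val
      (unboost y.val (ρ h⁻¹ (boost (h • y).val X)))))))) =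
        unboost (h • y).val (ρ (h * g * h⁻¹) (boost (h • y).val X))
    rw [boost_unboost, boost_unboost, map_mul, map_mul]
    rfl
  have e3 : b2frm ρ (h • y) (h * g * h⁻¹) - 1 =
      b2tr ρ y (h • y) h * (b2frm ρ y g - 1) * b2tr ρ (h • y) y h⁻¹ := by
    rw [mul_sub, sub_mul, e2, mul_one, e1]
  rw [e3]
  refine (norm_mul_le _ _).trans ?_
  have h2 : ‖b2tr ρ y (h • y) h * (b2frm ρ y g - 1)‖ ≤ ε := by
    refine (norm_mul_le _ _).trans ?_
    nlinarith [norm_nonneg (b2tr ρ y (h • y) h), norm_nonneg (b2frm ρ y g - 1)]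
  nlinarith [norm_nonneg (b2tr ρ y (h • y) h * (b2frm ρ y g - 1)),
    norm_nonneg (b2tr ρ (h • y) y h⁻¹)]

/-! ### the pigeonhole principle -/

theorem b2_pigeon {ρ : G →* (LV n →L[ℝ] LV n)} (hρ : LorAction ρ) {ε : ℝ} (hε : 0 < ε) (c : ℝ) :
    letI := hyAction hρ
    ∃ M : ℕ, 0 < M ∧ ∀ (y : Hy n) (S : Finset G), (∀ g ∈ S, dist y (g • y) ≤ c) →
    S.Nonempty → ∃ g₀ ∈ S,
      (S.card : ℝ) ≤ M * ({g ∈ (S : Set G) | g₀⁻¹ * g ∈ smallAt ρ ε y}.ncard : ℝ) := by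
  letI := hyAction hρ
  classical
  have hcosh : 0 < Real.cosh c := Real.cosh_pos c
  obtain ⟨t, ht, hcov⟩ := Metric.totallyBounded_iff.mp
    (isCompact_closedBall (0 : LV n →L[ℝ] LV n) (2 * Real.cosh c)).totallyBounded
    (ε / (4 * Real.cosh c)) (by positivity)
  refine ⟨ht.toFinset.card + 1, Nat.succ_pos _, fun y S hS hne => ?_⟩
  have hlor : ∀ g ∈ S, -lor y.val (ρ g y.val) ≤ Real.cosh c := by
    intro g hg
    have h1 := hS g hg
    have h2 : Real.cosh (dist y (g • y)) ≤ Real.cosh c := by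
      apply Real.cosh_le_cosh.mpr
      rw [abs_of_nonneg dist_nonneg]
      exact h1.trans (le_abs_self c)
    rw [cosh_dist] at h2
    exact h2
  have hex : ∀ g ∈ S, ∃ T ∈ t, dist (b2frm ρ y g) T < ε / (4 * Real.cosh c) := by
    intro g hg
    have h1 : b2frm ρ y g ∈ Metric.closedBall (0 : LV n →L[ℝ] LV n) (2 * Real.cosh c) := by
      rw [mem_closedBall_zero_iff]
      exact (b2frm_norm_le hρ y g).trans (by linarith [hlor g hg])
    have h2 := hcov h1
    simpa using h2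
  choose! f hf using hex
  have htne : ht.toFinset.Nonempty := by
    obtain ⟨g, hg⟩ := hne
    exact ⟨f g, by simpa using (hf g hg).1⟩
  have hcard : 0 < (ht.toFinset.card : ℝ) := by
    exact_mod_cast Finset.card_pos.mpr htne
  obtain ⟨T, hT, hle⟩ := Finset.exists_le_card_fiber_of_nsmul_le_card_of_maps_to
    (s := S) (t := ht.toFinset) (f := f) (b := (S.card : ℝ) / ht.toFinset.card)
    (fun g hg => by simpa using (hf g hg).1) htne (by
      rw [nsmul_eq_mul]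
      field_simp
      exact le_refl _)
  have hSpos : 0 < (S.card : ℝ) := by exact_mod_cast Finset.card_pos.mpr hne
  have hfib : 0 < (({x ∈ S | f x = T} : Finset G).card : ℝ) :=
    lt_of_lt_of_le (div_pos hSpos hcard) hle
  obtain ⟨g₀, hg₀⟩ := Finset.card_pos.mp (by exact_mod_cast hfib)
  rw [Finset.mem_filter] at hg₀
  refine ⟨g₀, hg₀.1, ?_⟩
  have hsub : (({x ∈ S | f x = T} : Finset G) : Set G) ⊆
      {g ∈ (S : Set G) | g₀⁻¹ * g ∈ smallAt ρ ε y} := by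
    intro g hg
    rw [Finset.mem_coe, Finset.mem_filter] at hg
    refine ⟨hg.1, ?_⟩
    show ‖b2frm ρ y (g₀⁻¹ * g) - 1‖ ≤ ε
    have e1 : b2frm ρ y (g₀⁻¹ * g) - 1 = b2frm ρ y g₀⁻¹ * (b2frm ρ y g - b2frm ρ y g₀) := by
      rw [mul_sub, b2frm_inv_mul, b2frm_mul]
    rw [e1]
    refine (norm_mul_le _ _).trans ?_
    have h1 : ‖b2frm ρ y g₀⁻¹‖ ≤ 2 * Real.cosh c :=
      (b2frm_norm_inv_le hρ y g₀).trans (by linarith [hlor g₀ hg₀.1])
    have h2 : ‖b2frm ρ y g - b2frm ρ y g₀‖ ≤ 2 * (ε / (4 * Real.cosh c)) := by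
      rw [← dist_eq_norm]
      have h3 := (hf g hg.1).2
      have h4 := (hf g₀ hg₀.1).2
      rw [hg.2] at h3
      rw [hg₀.2] at h4
      have := dist_triangle_right (b2frm ρ y g) (b2frm ρ y g₀) T
      linarith
    calc ‖b2frm ρ y g₀⁻¹‖ * ‖b2frm ρ y g - b2frm ρ y g₀‖
        ≤ (2 * Real.cosh c) * (2 * (ε / (4 * Real.cosh c))) :=
          mul_le_mul h1 h2 (norm_nonneg _) (by positivity)
      _ = ε := by field_simp; ring
  have hfin : {g ∈ (S : Set G) | g₀⁻¹ * g ∈ smallAt ρ ε y}.Finite :=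
    S.finite_toSet.subset fun g hg => hg.1
  have hncard := Set.ncard_le_ncard hsub hfin
  rw [Set.ncard_coe_finset] at hncard
  have h5 : (S.card : ℝ) ≤ ht.toFinset.card * (({x ∈ S | f x = T} : Finset G).card : ℝ) := by
    rw [div_le_iff₀ hcard] at hle
    linarith
  have h6 : (({x ∈ S | f x = T} : Finset G).card : ℝ) ≤
      ({g ∈ (S : Set G) | g₀⁻¹ * g ∈ smallAt ρ ε y}.ncard : ℝ) := by exact_mod_cast hncard
  push_cast
  nlinarith

/-! ### commutators -/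

theorem b2_frm_ne_one {ρ : G →* (LV n →L[ℝ] LV n)} (hd : LorDiscrete ρ)
    (htf : TorsFree G) (y : Hy n) (g : G) (hg : g ≠ 1) : b2frm ρ y g ≠ 1 := by
  intro h1
  have h2 : ρ g = 1 := by
    refine ContinuousLinearMap.ext fun X => ?_
    have h3 : b2frm ρ y g (unboost y.val X) = unboost y.val X := by rw [h1]; rfl
    rw [b2frm_apply, boost_unboost] at h3
    have h4 := congrArg (boost y.val) h3
    rw [boost_unboost, boost_unboost] at h4
    exact h4
  have hinj : Function.Injective (fun k : ℕ => g ^ k) := by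
    intro i j hij
    by_contra hne
    rcases lt_or_gt_of_ne hne with hlt | hlt
    · apply hg
      refine htf g (j - i) (by omega) ?_
      have h5 : g ^ i * g ^ (j - i) = g ^ i * 1 := by
        rw [← pow_add, mul_one, show i + (j - i) = j by omega]
        exact hij.symm
      exact mul_left_cancel h5
    · apply hg
      refine htf g (i - j) (by omega) ?_
      have h5 : g ^ j * g ^ (i - j) = g ^ j * 1 := by
        rw [← pow_add, mul_one, show j + (i - j) = i by omega]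
        exact hij
      exact mul_left_cancel h5
  refine Set.infinite_range_of_injective hinj ((hd 1).subset ?_)
  rintro _ ⟨k, rfl⟩
  show -lor (Ohy n).val (ρ (g ^ k) (Ohy n).val) ≤ 1
  rw [map_pow, h2, one_pow]
  show -lor (Ohy n).val (Ohy n).val ≤ 1
  rw [(Ohy n).lor_self]
  norm_num

theorem b2_commutator {ρ : G →* (LV n →L[ℝ] LV n)} (hρ : LorAction ρ) {ε : ℝ}
    (hε : ε ≤ 1 / 100) (hε0 : 0 ≤ ε) (y : Hy n) (z g : G) (hz : z ∈ smallAt ρ ε y)
    (hg : g ∈ smallAt ρ ε y) :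
    ‖b2frm ρ y (z * g * z⁻¹ * g⁻¹) - 1‖ ≤ 1 / 2 * ‖b2frm ρ y z - 1‖ := by
  have hz1 : ‖b2frm ρ y z - 1‖ ≤ ε := hz
  have hg1 : ‖b2frm ρ y g - 1‖ ≤ ε := hg
  have hz2 : ‖b2frm ρ y z⁻¹‖ ≤ 3 :=
    (b2frm_norm_inv_le hρ y z).trans (by linarith [b2_small_lor hz])
  have hg2 : ‖b2frm ρ y g⁻¹‖ ≤ 3 :=
    (b2frm_norm_inv_le hρ y g).trans (by linarith [b2_small_lor hg])
  have e1 : b2frm ρ y (z * g * z⁻¹ * g⁻¹) - 1 =
      ((b2frm ρ y z - 1) * (b2frm ρ y g - 1) - (b2frm ρ y g - 1) * (b2frm ρ y z - 1)) *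
        (b2frm ρ y z⁻¹ * b2frm ρ y g⁻¹) := by
    have e2 : (b2frm ρ y z - 1) * (b2frm ρ y g - 1) - (b2frm ρ y g - 1) * (b2frm ρ y z - 1) =
        b2frm ρ y z * b2frm ρ y g - b2frm ρ y g * b2frm ρ y z := by
      simp only [sub_mul, mul_sub, one_mul, mul_one]
      abel
    have e3 : b2frm ρ y g * b2frm ρ y z * (b2frm ρ y z⁻¹ * b2frm ρ y g⁻¹) = 1 := by
      rw [mul_assoc, ← mul_assoc (b2frm ρ y z), b2frm_mul_inv, one_mul, b2frm_mul_inv]
    rw [e2, sub_mul, e3, b2frm_mul, b2frm_mul, b2frm_mul, mul_assoc (b2frm ρ y z * b2frm ρ y g)]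
  rw [e1]
  refine (norm_mul_le _ _).trans ?_
  have h1 : ‖(b2frm ρ y z - 1) * (b2frm ρ y g - 1) - (b2frm ρ y g - 1) * (b2frm ρ y z - 1)‖ ≤
      2 * (‖b2frm ρ y z - 1‖ * ‖b2frm ρ y g - 1‖) := by
    refine (norm_sub_le _ _).trans ?_
    have h2 := norm_mul_le (b2frm ρ y z - 1) (b2frm ρ y g - 1)
    have h3 := norm_mul_le (b2frm ρ y g - 1) (b2frm ρ y z - 1)
    linarith
  have h2 : ‖b2frm ρ y z⁻¹ * b2frm ρ y g⁻¹‖ ≤ 9 := by
    refine (norm_mul_le _ _).trans ?_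
    nlinarith [norm_nonneg (b2frm ρ y z⁻¹), norm_nonneg (b2frm ρ y g⁻¹)]
  have h3 : 2 * (‖b2frm ρ y z - 1‖ * ‖b2frm ρ y g - 1‖) ≤ 2 * (‖b2frm ρ y z - 1‖ * (1 / 100)) := by
    have := mul_le_mul_of_nonneg_left (hg1.trans hε) (norm_nonneg (b2frm ρ y z - 1))
    linarith
  have h4 : 0 ≤ ‖b2frm ρ y z - 1‖ := norm_nonneg _
  calc _ ≤ (2 * (‖b2frm ρ y z - 1‖ * (1 / 100))) * 9 :=
        mul_le_mul (h1.trans h3) h2 (norm_nonneg _) (by positivity)
    _ ≤ 1 / 2 * ‖b2frm ρ y z - 1‖ := by linarith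

/-! ### centralizers -/

theorem b2_comm (hcyc : ∀ g : G, g ≠ 1 → IsCyclic (Subgroup.centralizer {g})) (a : G) (ha : a ≠ 1)
    (g h : G) (hg : g * a = a * g) (hh : h * a = a * h) : g * h = h * g := by
  have h1 : g ∈ Subgroup.centralizer {a} := Subgroup.mem_centralizer_singleton_iff.mpr hg
  have h2 : h ∈ Subgroup.centralizer {a} := Subgroup.mem_centralizer_singleton_iff.mpr hh
  haveI := hcyc a ha
  letI : CommGroup (Subgroup.centralizer {a}) := IsCyclic.commGroup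
  have h3 : (⟨g, h1⟩ * ⟨h, h2⟩ : Subgroup.centralizer {a}) = ⟨h, h2⟩ * ⟨g, h1⟩ := mul_comm _ _
  exact congrArg Subtype.val h3

theorem b2_centralizer_eq (hcyc : ∀ g : G, g ≠ 1 → IsCyclic (Subgroup.centralizer {g})) (a x : G)
    (ha : a ≠ 1) (hx : x ≠ 1) (hax : x * a = a * x) :
    Subgroup.centralizer {a} = Subgroup.centralizer {x} := by
  ext y
  rw [Subgroup.mem_centralizer_singleton_iff, Subgroup.mem_centralizer_singleton_iff]
  constructor
  · intro hy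
    exact b2_comm hcyc a ha y x hy hax
  · intro hy
    exact b2_comm hcyc x hx y a hy hax.symm

theorem exists_smallSets {n : ℕ} {G : Type*} [Group G] (ρ : G →* (LV n →L[ℝ] LV n))
    (h : LorAction ρ) (hd : LorDiscrete ρ) (htf : TorsFree G)
    (hcyc : ∀ g : G, g ≠ 1 → IsCyclic (Subgroup.centralizer {g})) :
    letI := hyAction h; ∃ ε > (0 : ℝ), SmallSets (X := Hy n) (smallAt ρ ε) (elemSub G) := by
  letI := hyAction h
  have hfin : ∀ y : Hy n, (smallAt ρ (1 / 100) y : Set G).Finite := fun y =>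
    (hy_properAct h hd y y (1 / 4)).subset fun g hg => b2_disp h le_rfl hg
  refine ⟨1 / 100, by norm_num, ?_⟩
  refine
    { finite := hfin
      one_mem := ?_
      disp := fun y g hg => b2_disp h le_rfl hg
      conj := fun k y g hg => b2_conj h k y g hg
      pigeon := fun c => b2_pigeon h (by norm_num) c
      comm := ?_
      disj := ?_
      cover := ?_
      conjCl := ?_ }
  · intro y
    show ‖b2frm ρ y 1 - 1‖ ≤ 1 / 100
    rw [b2frm_one, sub_self, norm_zero]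
    norm_num
  · rintro Γ ⟨a, ha, rfl⟩ g hg k hk
    rw [Subgroup.mem_centralizer_singleton_iff] at hg hk
    exact b2_comm hcyc a ha g k hg hk
  · rintro Γ ⟨a, ha, rfl⟩ Γ' ⟨b, hb, rfl⟩ g hg hg' hg1
    rw [Subgroup.mem_centralizer_singleton_iff] at hg hg'
    rw [b2_centralizer_eq hcyc a g ha hg1 hg, b2_centralizer_eq hcyc b g hb hg1 hg']
  · rintro y ⟨g, hg, hg1⟩
    have hfin' : (smallAt ρ (1 / 100) y \ {1} : Set G).Finite := (hfin y).subset sdiff_subset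
    obtain ⟨z, hz, hmin⟩ := hfin'.exists_minimalFor (fun g => ‖b2frm ρ y g - 1‖) _ ⟨g, hg, hg1⟩
    have hz1 : z ≠ 1 := hz.2
    refine ⟨Subgroup.centralizer {z}, ⟨z, hz1, rfl⟩, ?_⟩
    intro k hk
    show k ∈ Subgroup.centralizer {z}
    rw [Subgroup.mem_centralizer_singleton_iff]
    have hpos : 0 < ‖b2frm ρ y z - 1‖ := by
      rw [norm_pos_iff, sub_ne_zero]
      exact b2_frm_ne_one hd htf y z hz1
    have hzle : ‖b2frm ρ y z - 1‖ ≤ 1 / 100 := hz.1
    have hc := b2_commutator h le_rfl (by norm_num) y z k hz.1 hk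
    by_contra hne
    have hcomm : z * k * z⁻¹ * k⁻¹ ≠ 1 := by
      intro h1
      apply hne
      have h2 : z * k = k * z := by
        have := congrArg (fun x => x * k * z) h1
        simpa [mul_assoc] using this
      exact h2.symm
    have hmem : z * k * z⁻¹ * k⁻¹ ∈ (smallAt ρ (1 / 100) y \ {1} : Set G) := by
      refine ⟨?_, hcomm⟩
      show ‖b2frm ρ y (z * k * z⁻¹ * k⁻¹) - 1‖ ≤ 1 / 100
      linarith
    have h3 := hmin hmem (by show ‖b2frm ρ y (z * k * z⁻¹ * k⁻¹) - 1‖ ≤ ‖b2frm ρ y z - 1‖; linarith)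
    have h4 : ‖b2frm ρ y z - 1‖ ≤ ‖b2frm ρ y (z * k * z⁻¹ * k⁻¹) - 1‖ := h3
    linarith
  · rintro Γ ⟨a, ha, rfl⟩ k
    refine ⟨k * a * k⁻¹, ?_, ?_⟩
    · intro h1
      apply ha
      have := congrArg (fun x => k⁻¹ * x * k) h1
      simpa [mul_assoc] using this
    · ext x
      rw [Subgroup.mem_map, Subgroup.mem_centralizer_singleton_iff]
      constructor
      · rintro ⟨w, hw, rfl⟩
        rw [Subgroup.mem_centralizer_singleton_iff] at hw
        show k * w * k⁻¹ * (k * a * k⁻¹) = k * a * k⁻¹ * (k * w * k⁻¹)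
        have e1 : k * w * k⁻¹ * (k * a * k⁻¹) = k * (w * a) * k⁻¹ := by group
        have e2 : k * a * k⁻¹ * (k * w * k⁻¹) = k * (a * w) * k⁻¹ := by group
        rw [e1, e2, hw]
      · intro hx
        refine ⟨k⁻¹ * x * k, ?_, ?_⟩
        · rw [Subgroup.mem_centralizer_singleton_iff]
          have e1 : k⁻¹ * x * k * a = k⁻¹ * (x * (k * a * k⁻¹)) * k := by group
          have e2 : a * (k⁻¹ * x * k) = k⁻¹ * (k * a * k⁻¹ * x) * k := by group
          rw [e1, e2, hx]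
        · show k * (k⁻¹ * x * k) * k⁻¹ = x
          group

end Pool.Agent.MP_8db1a4_gt.B2

namespace Pool.Agent.MP_8db1a4_gt

export B2 (exists_smallSets)

end Pool.Agent.MP_8db1a4_gt
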