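import Pool.Agent.MP_8db1a4_gt.SmallDefs

set_option autoImplicit false

/-! KAP-B3b: abstract lemmas on isometric affine actions (MP_8db1a4_gt). -/

namespace Pool.Agent.MP_8db1a4_gt

open Set

theorem b3b_zpow {Z : Type*} [Group Z] (t : Z → ℝ)
    (ht : ∀ g h, t (g * h) = t g + t h) (g : Z) (k : ℤ) : t (g ^ k) = k * t g := by
  let f : Additive Z →+ ℝ := AddMonoidHom.mk' (fun g => t g.toMul) (fun a b => ht _ _)
  have h := map_zsmul f k (Additive.ofMul g)
  have h2 : f (k • Additive.ofMul g) = t (g ^ k) := rfl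
  rw [h2] at h
  rw [h, zsmul_eq_mul]
  rfl

theorem cyclic_of_discrete_hom {Z : Type*} [Group Z] (t : Z → ℝ)
    (ht : ∀ g h, t (g * h) = t g + t h) (hinj : ∀ g, t g = 0 → g = 1)
    (hfin : {g : Z | |t g| ≤ 1}.Finite) : IsCyclic Z := by
  let f : Additive Z →+ ℝ := AddMonoidHom.mk' (fun g => t g.toMul) (fun a b => ht _ _)
  have hf : ∀ g : Z, f (Additive.ofMul g) = t g := fun g => rfl
  rcases AddSubgroup.dense_or_cyclic f.range with hd | ⟨a, ha⟩
  · exfalso
    have hF : (t '' {g : Z | |t g| ≤ 1}).Finite := hfin.image t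
    have hd2 := hd.sdiff_finite hF
    obtain ⟨x, hx1, hx2⟩ := hd2.inter_open_nonempty (Ioo (0 : ℝ) 1) isOpen_Ioo
      ⟨1 / 2, by norm_num, by norm_num⟩
    obtain ⟨⟨g, rfl⟩, hx3⟩ := hx2
    apply hx3
    refine ⟨g.toMul, ?_, rfl⟩
    have h1 : f g = t g.toMul := rfl
    rw [h1] at hx1
    show |t g.toMul| ≤ 1
    rw [abs_le]
    exact ⟨by linarith [hx1.1], hx1.2.le⟩
  · have ha1 : a ∈ f.range := by
      rw [ha]; exact AddSubgroup.subset_closure (mem_singleton a)
    obtain ⟨g, hg⟩ := ha1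
    refine ⟨⟨g.toMul, fun h => ?_⟩⟩
    have h2 : f (Additive.ofMul h) ∈ f.range := ⟨_, rfl⟩
    rw [ha, AddSubgroup.mem_closure_singleton] at h2
    obtain ⟨k, hk⟩ := h2
    refine ⟨k, ?_⟩
    show g.toMul ^ k = h
    have h3 : t (h * (g.toMul ^ k)⁻¹) = 0 := by
      have h4 : t ((g.toMul ^ k)⁻¹) = - t (g.toMul ^ k) := by
        have := b3b_zpow t ht (g.toMul ^ k) (-1)
        simpa using this
      rw [ht, h4, b3b_zpow t ht]
      rw [hf] at hk
      have h5 : t g.toMul = a := hg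
      rw [h5, ← hk, zsmul_eq_mul]
      ring
    have h6 := hinj _ h3
    rw [mul_inv_eq_one] at h6
    exact h6.symm

theorem euclid_cyclic {E : Type*} [NormedAddCommGroup E] [InnerProductSpace ℝ E]
    [FiniteDimensional ℝ E] {Z : Type*} [Group Z] (R : Z →* Module.End ℝ E)
    (hR : ∀ (h : Z) (v : E), ‖R h v‖ = ‖v‖) (c : Z → E) (hc : ∀ g h, c (g * h) = c g + R g (c h))
    (hfin : ∀ B : ℝ, {h : Z | ‖c h‖ ≤ B}.Finite) (htf : TorsFree Z) (g₀ : Z) (hg₀ : g₀ ≠ 1)
    (hcent : ∀ h : Z, h * g₀ = g₀ * h)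
    (hcomm : ∀ h : Z, h ≠ 1 → ∃ a b : ℤ, a ≠ 0 ∧ b ≠ 0 ∧ h ^ a = g₀ ^ b) : IsCyclic Z := by
  -- inner products are preserved
  have hin : ∀ (h : Z) (u v : E), inner ℝ (R h u) (R h v) = inner ℝ u v := by
    intro h u v
    exact (LinearIsometry.mk (R h) (hR h)).inner_map_map u v
  have hRinv : ∀ (h : Z) (v : E), R h (R h⁻¹ v) = v := by
    intro h v
    have : (R h * R h⁻¹) v = v := by rw [← map_mul, mul_inv_cancel, map_one]; rfl
    exact this
  have hRinv' : ∀ (h : Z) (v : E), R h⁻¹ (R h v) = v := by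
    intro h v
    have : (R h⁻¹ * R h) v = v := by rw [← map_mul, inv_mul_cancel, map_one]; rfl
    exact this
  have hadj : ∀ (h : Z) (u v : E), inner ℝ u (R h v) = inner ℝ (R h⁻¹ u) v := by
    intro h u v
    rw [← hin h (R h⁻¹ u) v, hRinv]
  have hRmul : ∀ (g h : Z) (v : E), R (g * h) v = R g (R h v) := by
    intro g h v; rw [map_mul]; rfl
  have hRcomm : ∀ (h : Z) (v : E), R h (R g₀ v) = R g₀ (R h v) := by
    intro h v; rw [← hRmul, ← hRmul, hcent]
  -- the fixed space of `R g₀`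
  let K : Submodule ℝ E := LinearMap.ker (R g₀ - 1)
  have hK : ∀ v : E, v ∈ K ↔ R g₀ v = v := by
    intro v
    simp only [K, LinearMap.mem_ker, LinearMap.sub_apply, Module.End.one_apply, sub_eq_zero]
  have hKinv : ∀ v ∈ K, R g₀⁻¹ v = v := by
    intro v hv
    rw [hK] at hv
    conv_lhs => rw [← hv]
    exact hRinv' _ _
  have hKR : ∀ (h : Z) (v : E), v ∈ K → R h v ∈ K := by
    intro h v hv
    rw [hK] at hv ⊢
    rw [← hRcomm, hv]
  have hrel : ∀ h : Z, R g₀ (c h) - c h = R h (c g₀) - c g₀ := by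
    intro h
    have h1 := hc h g₀
    have h2 := hc g₀ h
    rw [hcent h, h2] at h1
    have h3 : R g₀ (c h) = c h + R h (c g₀) - c g₀ := by rw [← h1]; abel
    rw [h3]; abel
  -- the projection of `c g₀` to `K`
  obtain ⟨τ, hτK, hτ⟩ : ∃ τ ∈ K, ∀ v ∈ K, inner ℝ v (c g₀ - τ) = 0 := by
    refine ⟨K.starProjection (c g₀), Submodule.starProjection_apply_mem K _, fun v hv => ?_⟩
    have := Submodule.sub_starProjection_mem_orthogonal (K := K) (c g₀)
    exact (Submodule.mem_orthogonal K _).1 this v hv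
  have hτfix : ∀ h : Z, R h τ = τ := by
    intro h
    have h1 : R h τ - τ ∈ K := K.sub_mem (hKR h τ hτK) hτK
    have h2 : ∀ v ∈ K, inner ℝ v (R h τ - τ) = 0 := by
      intro v hv
      have e1 : inner ℝ v (R h τ - τ) = inner ℝ (R h⁻¹ v - v) τ := by
        rw [inner_sub_right, hadj, ← inner_sub_left]
      have e2 : inner ℝ (R h⁻¹ v - v) τ = inner ℝ (R h⁻¹ v - v) (c g₀) := by
        have := hτ (R h⁻¹ v - v) (K.sub_mem (hKR _ _ hv) hv)
        rw [inner_sub_right] at this
        linarith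
      have e3 : inner ℝ (R h⁻¹ v - v) (c g₀) = inner ℝ v (R h (c g₀) - c g₀) := by
        rw [inner_sub_right, hadj, ← inner_sub_left]
      have e4 : inner ℝ v (R h (c g₀) - c g₀) = 0 := by
        rw [← hrel, inner_sub_right, hadj, ← inner_sub_left, hKinv v hv, sub_self, inner_zero_left]
      rw [e1, e2, e3, e4]
    have h3 := h2 _ h1
    rw [inner_self_eq_zero] at h3
    exact sub_eq_zero.1 h3
  have c1 : c 1 = 0 := by
    have := hc 1 1
    rw [mul_one, map_one] at this
    have h2 : c 1 = c 1 + c 1 := this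
    exact left_eq_add.1 h2
  have hτ0 : τ ≠ 0 := by
    intro h0
    have h1 : c g₀ ∈ LinearMap.range (R g₀ - 1) := by
      rw [← Submodule.orthogonal_orthogonal (LinearMap.range (R g₀ - 1)),
        Submodule.mem_orthogonal]
      intro v hv
      rw [Submodule.mem_orthogonal] at hv
      have hvK : v ∈ K := by
        have h3 : R g₀⁻¹ v - v = 0 := by
          rw [← inner_self_eq_zero (𝕜 := ℝ)]
          have h4 := hv (R g₀ (R g₀⁻¹ v - v) - (R g₀⁻¹ v - v))
            ⟨R g₀⁻¹ v - v, by simp [LinearMap.sub_apply]⟩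
          rw [real_inner_comm, inner_sub_right, hadj, ← inner_sub_left] at h4
          exact h4
        rw [hK]
        have h5 := congrArg (R g₀) (sub_eq_zero.1 h3)
        rw [hRinv] at h5
        exact h5.symm
      have h6 := hτ v hvK
      rw [h0, sub_zero] at h6
      exact h6
    obtain ⟨w, hw⟩ := h1
    have hw' : R g₀ w - w = c g₀ := by
      rw [← hw]; simp [LinearMap.sub_apply]
    have h2 : ∀ j : ℕ, c (g₀ ^ j) = R (g₀ ^ j) w - w := by
      intro j
      induction j with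
      | zero => simp [c1]
      | succ j ih =>
        rw [pow_succ, hc, ih, ← hw', map_sub, hRmul]
        abel
    have h3 : ∀ j : ℕ, g₀ ^ j ∈ {h : Z | ‖c h‖ ≤ 2 * ‖w‖} := by
      intro j
      show ‖c (g₀ ^ j)‖ ≤ 2 * ‖w‖
      rw [h2]
      calc ‖R (g₀ ^ j) w - w‖ ≤ ‖R (g₀ ^ j) w‖ + ‖w‖ := norm_sub_le _ _
        _ = 2 * ‖w‖ := by rw [hR]; ring
    have h4 : ¬ Function.Injective (fun j : ℕ => g₀ ^ j) := by
      intro hinj
      exact (Set.infinite_range_of_injective hinj) ((hfin _).subset (by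
        rintro _ ⟨j, rfl⟩; exact h3 j))
    apply h4
    intro i j hij
    by_contra hne
    wlog hlt : i < j generalizing i j
    · exact this hij.symm (Ne.symm hne) (lt_of_le_of_ne (not_lt.1 hlt) (Ne.symm hne))
    apply hg₀
    refine htf g₀ (j - i) (by omega) ?_
    have h5 : g₀ ^ i * g₀ ^ (j - i) = g₀ ^ i := by
      rw [← pow_add, Nat.add_sub_cancel' hlt.le]; exact hij.symm
    exact mul_eq_left.1 h5
  -- the homomorphism
  have hfixhom : ∀ v : E, (∀ h : Z, R h v = v) →
      ∀ g h, inner ℝ v (c (g * h)) = inner ℝ v (c g) + inner ℝ v (c h) := by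
    intro v hv g h
    rw [hc, inner_add_right, hadj, hv]
  let t : Z → ℝ := fun h => inner ℝ τ (c h)
  have ht : ∀ g h, t (g * h) = t g + t h := hfixhom τ hτfix
  have htg₀ : t g₀ ≠ 0 := by
    have h1 : t g₀ = inner ℝ τ τ := by
      have := hτ τ hτK
      rw [inner_sub_right] at this
      show inner ℝ τ (c g₀) = _
      linarith
    rw [h1]
    exact fun h => hτ0 (inner_self_eq_zero.1 h)
  have hinj : ∀ g, t g = 0 → g = 1 := by
    intro g hg
    by_contra hne
    obtain ⟨a, b, ha, hb, hab⟩ := hcomm g hne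
    have h1 := congrArg t hab
    rw [b3b_zpow t ht, b3b_zpow t ht, hg, mul_zero] at h1
    rcases mul_eq_zero.1 h1.symm with h2 | h2
    · exact hb (by exact_mod_cast h2)
    · exact htg₀ h2
  have habel : ∀ g h : Z, g * h = h * g := by
    intro g h
    have h1 : t ((g * h) * (h * g)⁻¹) = 0 := by
      have h4 : t ((h * g)⁻¹) = - t (h * g) := by
        have := b3b_zpow t ht (h * g) (-1)
        simpa using this
      rw [ht, h4, ht, ht]; ring
    exact mul_inv_eq_one.1 (hinj _ h1)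
  have hrel2 : ∀ h k : Z, R k (c h) - c h = R h (c k) - c k := by
    intro h k
    have h1 := hc h k
    have h2 := hc k h
    rw [habel h k, h2] at h1
    have h3 : R k (c h) = c h + R h (c k) - c k := by rw [← h1]; abel
    rw [h3]; abel
  -- the directions in which `c` is bounded on `{|t| ≤ 1}`
  let B : Submodule ℝ E :=
    { carrier := {u | ∃ C : ℝ, ∀ h : Z, |t h| ≤ 1 → |inner ℝ u (c h)| ≤ C}
      add_mem' := by
        rintro u v ⟨C, hC⟩ ⟨D, hD⟩
        refine ⟨C + D, fun h hh => ?_⟩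
        rw [inner_add_left]
        exact (abs_add_le _ _).trans (add_le_add (hC h hh) (hD h hh))
      zero_mem' := ⟨0, fun h _ => by simp⟩
      smul_mem' := by
        rintro a u ⟨C, hC⟩
        refine ⟨|a| * C, fun h hh => ?_⟩
        rw [real_inner_smul_left, abs_mul]
        exact mul_le_mul_of_nonneg_left (hC h hh) (abs_nonneg a) }
  have hB : ∀ u : E, u ∈ B ↔ ∃ C : ℝ, ∀ h : Z, |t h| ≤ 1 → |inner ℝ u (c h)| ≤ C := fun u => Iff.rfl
  have hBtop : B = ⊤ := by
    rw [← Submodule.orthogonal_eq_bot_iff, Submodule.eq_bot_iff]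
    intro v hv
    rw [Submodule.mem_orthogonal] at hv
    have hvfix : ∀ k : Z, R k v = v := by
      intro k
      have h1 : ∀ w : E, inner ℝ (R k⁻¹ w - w) v = 0 := by
        intro w
        apply hv
        rw [hB]
        refine ⟨‖w‖ * (2 * ‖c k‖), fun h _ => ?_⟩
        rw [inner_sub_left, ← hadj, ← inner_sub_right, hrel2]
        refine (abs_real_inner_le_norm _ _).trans (mul_le_mul_of_nonneg_left ?_ (norm_nonneg _))
        calc ‖R h (c k) - c k‖ ≤ ‖R h (c k)‖ + ‖c k‖ := norm_sub_le _ _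
          _ = 2 * ‖c k‖ := by rw [hR]; ring
      have h2 : inner ℝ (R k v - v) (R k v - v) = 0 := by
        have h3 := h1 (R k v - v)
        rw [inner_sub_left, ← hadj, ← inner_sub_right] at h3
        exact h3
      exact sub_eq_zero.1 (inner_self_eq_zero.1 h2)
    have hvB : v ∈ B := by
      rw [hB]
      refine ⟨|inner ℝ v (c g₀)| / |t g₀|, fun h hh => ?_⟩
      have h1 : t g₀ * inner ℝ v (c h) = t h * inner ℝ v (c g₀) := by
        by_cases hh1 : h = 1
        · subst hh1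
          have ht1 : t 1 = 0 := by show inner ℝ τ (c 1) = 0; rw [c1, inner_zero_right]
          rw [c1, ht1, inner_zero_right]; ring
        obtain ⟨a, b, ha, hb, hab⟩ := hcomm h hh1
        have h2 := congrArg t hab
        rw [b3b_zpow t ht, b3b_zpow t ht] at h2
        have h4 := hfixhom v hvfix
        have h3 : (a : ℝ) * inner ℝ v (c h) = b * inner ℝ v (c g₀) := by
          have e1 := b3b_zpow (fun x => inner ℝ v (c x)) h4 h a
          have e2 := b3b_zpow (fun x => inner ℝ v (c x)) h4 g₀ b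
          rw [← e1, ← e2, hab]
        have ha' : (a : ℝ) ≠ 0 := by exact_mod_cast ha
        apply mul_left_cancel₀ ha'
        calc (a : ℝ) * (t g₀ * inner ℝ v (c h)) = t g₀ * (a * inner ℝ v (c h)) := by ring
          _ = t g₀ * (b * inner ℝ v (c g₀)) := by rw [h3]
          _ = (b * t g₀) * inner ℝ v (c g₀) := by ring
          _ = (a * t h) * inner ℝ v (c g₀) := by rw [h2]
          _ = a * (t h * inner ℝ v (c g₀)) := by ring
      rw [le_div_iff₀ (abs_pos.2 htg₀), mul_comm, ← abs_mul, h1, abs_mul]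
      calc |t h| * |inner ℝ v (c g₀)| ≤ 1 * |inner ℝ v (c g₀)| :=
            mul_le_mul_of_nonneg_right hh (abs_nonneg _)
        _ = |inner ℝ v (c g₀)| := one_mul _
    exact inner_self_eq_zero.1 (hv v hvB)
  -- conclusion
  refine cyclic_of_discrete_hom t ht hinj ?_
  obtain ⟨C, hC⟩ : ∃ C : ℝ, ∀ h : Z, |t h| ≤ 1 → ‖c h‖ ≤ C := by
    let b := stdOrthonormalBasis ℝ E
    have h1 : ∀ i, ∃ C : ℝ, ∀ h : Z, |t h| ≤ 1 → |inner ℝ (b i) (c h)| ≤ C := by
      intro i
      have : b i ∈ B := by rw [hBtop]; exact Submodule.mem_top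
      exact this
    choose C hC using h1
    refine ⟨∑ i, C i, fun h hh => ?_⟩
    calc ‖c h‖ = ‖∑ i, (inner ℝ (b i) (c h) : ℝ) • b i‖ := by rw [b.sum_repr']
      _ ≤ ∑ i, ‖(inner ℝ (b i) (c h) : ℝ) • b i‖ := norm_sum_le _ _
      _ = ∑ i, |inner ℝ (b i) (c h)| := by
          refine Finset.sum_congr rfl fun i _ => ?_
          rw [norm_smul, b.orthonormal.norm_eq_one, mul_one, Real.norm_eq_abs]
      _ ≤ ∑ i, C i := Finset.sum_le_sum fun i _ => hC i h hh
  exact (hfin C).subset fun h hh => hC h hh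

end Pool.Agent.MP_8db1a4_gt
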