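import Pool.Agent.MP_8db1a4_gt.SmallDefs

set_option autoImplicit false

/-! KAP-B3d: motion along a geodesic ray towards a fixed null direction (MP_8db1a4_gt). -/

namespace Pool.Agent.MP_8db1a4_gt

open Set Filter Topology

/-- The point at distance `t` from the base point in the direction `u`. -/
noncomputable def rayPt {n : ℕ} (u : EuclideanSpace ℝ (Fin n)) (hu : ‖u‖ = 1) (t : ℝ) : Hy n where
  val := (Real.sinh t • u, Real.cosh t)
  mem := by
    have h1 : |Real.sinh t| < Real.cosh t := by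
      rw [abs_lt]
      constructor <;> nlinarith [Real.exp_pos t, Real.exp_pos (-t), Real.sinh_eq t, Real.cosh_eq t]
    simpa [LCone, norm_smul, hu] using h1
  lor_self := by
    have h1 : inner ℝ (Real.sinh t • u) (Real.sinh t • u) = Real.sinh t ^ 2 := by
      rw [real_inner_smul_left, real_inner_smul_right, real_inner_self_eq_norm_sq, hu]; ring
    simp only [lor, h1]
    nlinarith [Real.cosh_sq t]

theorem b3d_ray_val {n : ℕ} (u : EuclideanSpace ℝ (Fin n)) (hu : ‖u‖ = 1) (t : ℝ) :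
    (rayPt u hu t).val = (Real.exp t / 2) • ((u, 1) : LV n) +
      (Real.exp (-t) / 2) • ((-u, 1) : LV n) := by
  show ((Real.sinh t • u, Real.cosh t) : LV n) = _
  refine Prod.ext ?_ ?_
  · show Real.sinh t • u = (Real.exp t / 2) • u + (Real.exp (-t) / 2) • (-u)
    rw [Real.sinh_eq, smul_neg, ← sub_eq_add_neg, ← sub_smul]
    congr 1; ring
  · show Real.cosh t = (Real.exp t / 2) * 1 + (Real.exp (-t) / 2) * 1
    rw [Real.cosh_eq]; ring

theorem b3d_lor_xi_xi {n : ℕ} (u : EuclideanSpace ℝ (Fin n)) (hu : ‖u‖ = 1) :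
    lor ((u, 1) : LV n) ((u, 1) : LV n) = 0 := by
  simp [lor, real_inner_self_eq_norm_sq, hu]

theorem b3d_lor_xi_eta {n : ℕ} (u : EuclideanSpace ℝ (Fin n)) (hu : ‖u‖ = 1) :
    lor ((u, 1) : LV n) ((-u, 1) : LV n) = -2 := by
  simp only [lor, inner_neg_right, real_inner_self_eq_norm_sq, hu]; norm_num

theorem b3d_motion_eq {n : ℕ} {G : Type*} [Group G] (ρ : G →* (LV n →L[ℝ] LV n))
    (h : LorAction ρ) (g : G) (u : EuclideanSpace ℝ (Fin n)) (hu : ‖u‖ = 1) (lam : ℝ)
    (hlam : 0 < lam) (hg : ρ g (u, 1) = lam • ((u, 1) : LV n)) (t : ℝ) :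
    -lor (ρ g (rayPt u hu t).val) (rayPt u hu (t + Real.log lam)).val =
      1 + (1 / 4 * lam⁻¹ * (-lor (ρ g ((-u, 1) : LV n)) ((-u, 1) : LV n))) * Real.exp (-2 * t) := by
  have h1 : lor (ρ g ((-u, 1) : LV n)) ((u, 1) : LV n) = -2 / lam := by
    have e : lor (ρ g ((-u, 1) : LV n)) (ρ g ((u, 1) : LV n)) = -2 := by
      rw [h.lor_eq, lor_comm, b3d_lor_xi_eta u hu]
    rw [hg, lor_smul_right] at e
    field_simp
    linarith
  have e2 : Real.exp (t + Real.log lam) = lam * Real.exp t := by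
    rw [Real.exp_add, Real.exp_log hlam, mul_comm]
  have e3 : Real.exp (-(t + Real.log lam)) = lam⁻¹ * Real.exp (-t) := by
    rw [neg_add, Real.exp_add, Real.exp_neg (Real.log lam), Real.exp_log hlam, mul_comm]
  have e4 : Real.exp (-2 * t) = Real.exp (-t) * Real.exp (-t) := by
    rw [← Real.exp_add]; congr 1; ring
  have e5 : Real.exp t * Real.exp (-t) = 1 := by
    rw [← Real.exp_add, add_neg_cancel, Real.exp_zero]
  rw [b3d_ray_val, b3d_ray_val, map_add, map_smul, map_smul, hg, e2, e3, e4]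
  simp only [lor_add_left, lor_add_right, lor_smul_left, lor_smul_right, b3d_lor_xi_xi u hu,
    b3d_lor_xi_eta u hu, h1]
  have hl : lam * lam⁻¹ = 1 := mul_inv_cancel₀ hlam.ne'
  set A := Real.exp t
  set B := Real.exp (-t)
  set Q := lor (ρ g ((-u, 1) : LV n)) ((-u, 1) : LV n)
  have hdiv : (-2 : ℝ) / lam = -2 * lam⁻¹ := by rw [div_eq_mul_inv]
  rw [hdiv]
  linear_combination (lam * lam⁻¹) * e5 + hl

theorem ray_motion {n : ℕ} {G : Type*} [Group G] (ρ : G →* (LV n →L[ℝ] LV n))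
    (h : LorAction ρ) (g : G) (u : EuclideanSpace ℝ (Fin n)) (hu : ‖u‖ = 1) (lam : ℝ)
    (hlam : 0 < lam) (hg : ρ g (u, 1) = lam • ((u, 1) : LV n)) :
    ∃ c : ℝ, 0 ≤ c ∧ ∀ t : ℝ, letI := hyAction h;
      -lor (g • rayPt u hu t).val (rayPt u hu (t + Real.log lam)).val ≤ 1 + c * Real.exp (-2 * t) := by
  refine ⟨1 / 4 * lam⁻¹ * |lor (ρ g ((-u, 1) : LV n)) ((-u, 1) : LV n)|, by positivity,
    fun t => ?_⟩
  have h1 := b3d_motion_eq ρ h g u hu lam hlam hg t
  show -lor (ρ g (rayPt u hu t).val) (rayPt u hu (t + Real.log lam)).val ≤ _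
  rw [h1]
  have h2 : -lor (ρ g ((-u, 1) : LV n)) ((-u, 1) : LV n) ≤
      |lor (ρ g ((-u, 1) : LV n)) ((-u, 1) : LV n)| := neg_le_abs _
  gcongr

theorem b3d_cosh_lower (s : ℝ) : 1 + s ^ 2 / 2 ≤ Real.cosh s := by
  have h1 : Real.cosh s = 1 + 2 * Real.sinh (s / 2) ^ 2 := by
    have := Real.cosh_two_mul (s / 2)
    have h2 := Real.cosh_sq (s / 2)
    rw [show 2 * (s / 2) = s by ring] at this
    rw [this, h2]; ring
  have h3 : |s / 2| ≤ |Real.sinh (s / 2)| := by
    rw [Real.abs_sinh]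
    exact Real.self_le_sinh_iff.2 (abs_nonneg _)
  have h4 := sq_le_sq.2 h3
  rw [h1]
  nlinarith

theorem ray_orbit {n : ℕ} {G : Type*} [Group G] (ρ : G →* (LV n →L[ℝ] LV n))
    (h : LorAction ρ) (g : G) (u : EuclideanSpace ℝ (Fin n)) (hu : ‖u‖ = 1) (lam : ℝ)
    (hlam : 1 < lam) (hg : ρ g (u, 1) = lam • ((u, 1) : LV n)) :
    ∃ D : ℝ, ∀ j : ℕ, letI := hyAction h;
      dist (g ^ j • Ohy n) (rayPt u hu (j * Real.log lam)) ≤ D := by
  letI := hyAction h
  have hlam0 : 0 < lam := by linarith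
  obtain ⟨c, hc0, hc⟩ := ray_motion ρ h g u hu lam hlam0 hg
  set q : ℝ := lam⁻¹ with hq
  have hq0 : 0 < q := inv_pos.2 hlam0
  have hq1 : q < 1 := inv_lt_one_of_one_lt₀ hlam
  set K : ℝ := Real.sqrt (2 * c) with hK
  have hK0 : 0 ≤ K := Real.sqrt_nonneg _
  have hstep : ∀ j : ℕ, dist (g • rayPt u hu (j * Real.log lam))
      (rayPt u hu ((j + 1 : ℕ) * Real.log lam)) ≤ K * q ^ j := by
    intro j
    have h1 := hc (j * Real.log lam)
    have e1 : (j * Real.log lam) + Real.log lam = ((j + 1 : ℕ) : ℝ) * Real.log lam := by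
      push_cast; ring
    rw [e1] at h1
    set s := dist (g • rayPt u hu (j * Real.log lam)) (rayPt u hu ((j + 1 : ℕ) * Real.log lam))
      with hs
    have h2 : Real.cosh s = -lor (g • rayPt u hu (j * Real.log lam)).val
      (rayPt u hu ((j + 1 : ℕ) * Real.log lam)).val := cosh_dist _ _
    have h3 := b3d_cosh_lower s
    have e2 : Real.exp (-2 * (j * Real.log lam)) = (q ^ j) ^ 2 := by
      have : Real.exp (-2 * (j * Real.log lam)) = (Real.exp (-Real.log lam)) ^ (j * 2) := by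
        rw [← Real.exp_nat_mul]; congr 1; push_cast; ring
      rw [this, Real.exp_neg, Real.exp_log hlam0, pow_mul]
    rw [e2] at h1
    have h4 : s ^ 2 ≤ (K * q ^ j) ^ 2 := by
      rw [mul_pow, hK, Real.sq_sqrt (by positivity)]
      nlinarith
    exact (abs_le_of_sq_le_sq' h4 (by positivity)).2
  refine ⟨K / (1 - q), fun j => ?_⟩
  have hmain : ∀ j : ℕ, dist (g ^ j • Ohy n) (rayPt u hu (j * Real.log lam)) ≤
      K * ((1 - q ^ j) / (1 - q)) := by
    intro j
    induction j with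
    | zero =>
      have e0 : rayPt u hu (((0 : ℕ) : ℝ) * Real.log lam) = Ohy n := by
        apply Hy.ext'
        show ((Real.sinh (((0 : ℕ) : ℝ) * Real.log lam) • u,
          Real.cosh (((0 : ℕ) : ℝ) * Real.log lam)) : LV n) = (0, 1)
        simp
      rw [e0, pow_zero, one_smul, dist_self]
      simp
    | succ j ih =>
      have h1 : dist (g ^ (j + 1) • Ohy n) (g • rayPt u hu (j * Real.log lam)) =
          dist (g ^ j • Ohy n) (rayPt u hu (j * Real.log lam)) := by
        rw [pow_succ', mul_smul]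
        exact hy_dist_smul h g _ _
      have h2 := dist_triangle (g ^ (j + 1) • Ohy n) (g • rayPt u hu (j * Real.log lam))
        (rayPt u hu ((j + 1 : ℕ) * Real.log lam))
      rw [h1] at h2
      have h3 := hstep j
      have h4 : K * ((1 - q ^ (j + 1)) / (1 - q)) = K * ((1 - q ^ j) / (1 - q)) + K * q ^ j := by
        have : (1 : ℝ) - q ≠ 0 := by linarith
        field_simp
        ring
      rw [h4]
      linarith
  refine (hmain j).trans ?_
  rw [mul_div_assoc', div_le_div_iff_of_pos_right (by linarith)]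
  have : 0 ≤ q ^ j := by positivity
  nlinarith

end Pool.Agent.MP_8db1a4_gt
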