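import Pool.Agent.MP_8db1a4_gt.Geo.B3a
import Pool.Agent.MP_8db1a4_gt.Geo.B3b
import Pool.Agent.MP_8db1a4_gt.Geo.B3d
import Pool.Agent.MP_8db1a4_gt.Geo.B1c

set_option autoImplicit false

/-! [K-B3c] centralizers are cyclic (MP_8db1a4_gt). -/

namespace Pool.Agent.MP_8db1a4_gt.B3c

open Set Filter Topology Pool.Agent.MP_8db1a4_gt

theorem b3c_zpow {G : Type*} [Group G] (htf : TorsFree G) (g : G) (a : ℤ) (ha : a ≠ 0)
    (h : g ^ a = 1) : g = 1 := by
  apply htf g a.natAbs (Int.natAbs_pos.mpr ha)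
  rcases Int.natAbs_eq a with h1 | h1
  · rw [h1, zpow_natCast] at h; exact h
  · rw [h1, zpow_neg, zpow_natCast, inv_eq_one] at h; exact h

theorem b3c_comm {G : Type*} [Group G] (htf : TorsFree G) (hZ : NoZ2 G) (g h : G) (hg : g ≠ 1)
    (hh : h ≠ 1) (hc : Commute h g) : ∃ a b : ℤ, a ≠ 0 ∧ b ≠ 0 ∧ h ^ a = g ^ b := by
  let f : Multiplicative (ℤ × ℤ) →* G :=
    { toFun := fun x => h ^ (Multiplicative.toAdd x).1 * g ^ (Multiplicative.toAdd x).2
      map_one' := by simp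
      map_mul' := by
        intro x y
        have h1 : h ^ (Multiplicative.toAdd y).1 * g ^ (Multiplicative.toAdd x).2 =
            g ^ (Multiplicative.toAdd x).2 * h ^ (Multiplicative.toAdd y).1 :=
          (hc.zpow_zpow _ _)
        simp only [toAdd_mul, Prod.fst_add, Prod.snd_add, zpow_add]
        rw [mul_assoc, ← mul_assoc (h ^ (Multiplicative.toAdd y).1), h1]
        simp only [mul_assoc] }
  have hf := hZ f
  have hf2 : ∃ x : Multiplicative (ℤ × ℤ), f x = 1 ∧ x ≠ 1 := by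
    by_contra hcon
    push Not at hcon
    exact hf ((injective_iff_map_eq_one f).mpr hcon)
  obtain ⟨x, hx1, hx2⟩ := hf2
  have hx3 : h ^ (Multiplicative.toAdd x).1 * g ^ (Multiplicative.toAdd x).2 = 1 := hx1
  set a := (Multiplicative.toAdd x).1 with ha
  set b := (Multiplicative.toAdd x).2 with hb
  have hx4 : h ^ a = g ^ (-b) := by
    rw [zpow_neg]; exact mul_eq_one_iff_eq_inv.mp hx3
  have hab : a ≠ 0 ∨ b ≠ 0 := by
    by_contra hcon
    push Not at hcon
    apply hx2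
    have : Multiplicative.toAdd x = 0 := Prod.ext hcon.1 hcon.2
    exact this
  have ha0 : a ≠ 0 := by
    intro h0
    rw [h0, zpow_zero] at hx4
    rcases hab with h1 | h1
    · exact h1 h0
    · exact hg (b3c_zpow htf g (-b) (neg_ne_zero.mpr h1) hx4.symm)
  have hb0 : -b ≠ 0 := by
    intro h0
    rw [h0, zpow_zero] at hx4
    exact hh (b3c_zpow htf h a ha0 hx4)
  exact ⟨a, -b, ha0, hb0, hx4⟩

theorem b3c_dist_ray {n : ℕ} (u : EuclideanSpace ℝ (Fin n)) (hu : ‖u‖ = 1) (s t : ℝ) :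
    dist (rayPt u hu s) (rayPt u hu t) = |s - t| := by
  have h1 : Real.cosh (dist (rayPt u hu s) (rayPt u hu t)) = Real.cosh (s - t) := by
    rw [cosh_dist]
    simp only [rayPt, lor, real_inner_smul_left, real_inner_smul_right,
      real_inner_self_eq_norm_sq, hu, Real.cosh_sub]
    ring
  rw [← Real.cosh_abs (s - t)] at h1
  have h2 := Real.cosh_le_cosh.mp h1.le
  have h3 := Real.cosh_le_cosh.mp h1.ge
  rw [abs_of_nonneg dist_nonneg, abs_abs] at h2
  rw [abs_of_nonneg dist_nonneg, abs_abs] at h3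
  exact le_antisymm h2 h3

/-- the displacement bound in the hyperbolic case -/
theorem b3c_hyp {n : ℕ} {G : Type*} [Group G] (ρ : G →* (LV n →L[ℝ] LV n))
    (h : LorAction ρ) (g : G) (u : EuclideanSpace ℝ (Fin n)) (hu : ‖u‖ = 1) (mu : ℝ)
    (hmu : 1 < mu) (hg : ρ g (u, 1) = mu • ((u, 1) : LV n)) :
    ∃ R : ℝ, ∀ k : G, Commute k g → ∀ lam : ℝ, 0 < lam → ρ k (u, 1) = lam • ((u, 1) : LV n) →
      |Real.log lam| ≤ 1 → -lor (Ohy n).val (ρ k (Ohy n).val) ≤ R := by
  let _ := hyAction h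
  obtain ⟨D, hD⟩ := ray_orbit ρ h g u hu mu hmu hg
  refine ⟨Real.cosh (2 * D + 2), ?_⟩
  intro k hk lam hlam hk1 hlog
  obtain ⟨c, hc0, hc⟩ := ray_motion ρ h k u hu lam hlam hk1
  have hlm : 0 < Real.log mu := Real.log_pos hmu
  -- choose a large `j`
  have hlim : Tendsto (fun j : ℕ => c * Real.exp (-2 * (j * Real.log mu))) atTop (𝓝 (c * 0)) := by
    apply Tendsto.const_mul
    apply Real.tendsto_exp_atBot.comp
    have h1 : Tendsto (fun j : ℕ => (j : ℝ) * Real.log mu) atTop atTop :=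
      tendsto_natCast_atTop_atTop.atTop_mul_const hlm
    exact h1.const_mul_atTop_of_neg (by norm_num)
  rw [mul_zero] at hlim
  have hc1 : (0 : ℝ) < Real.cosh 1 - 1 := sub_pos.mpr (Real.one_lt_cosh.mpr one_ne_zero)
  have hev := hlim.eventually (gt_mem_nhds hc1)
  obtain ⟨j, hj⟩ := hev.exists
  set p : Hy n := rayPt u hu (j * Real.log mu) with hp
  set q : Hy n := rayPt u hu (j * Real.log mu + Real.log lam) with hq
  have e1 : dist (k • p) q ≤ 1 := by
    have h1 := hc (j * Real.log mu)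
    have h2 : Real.cosh (dist (k • p) q) ≤ Real.cosh 1 := by
      rw [cosh_dist]
      exact h1.trans (by linarith)
    have h4 := Real.cosh_le_cosh.mp h2
    rwa [abs_of_nonneg dist_nonneg, abs_one] at h4
  have e2 : dist p q ≤ 1 := by
    rw [hp, hq, b3c_dist_ray]
    rw [show (j : ℝ) * Real.log mu - (j * Real.log mu + Real.log lam) = -Real.log lam by ring,
      abs_neg]
    exact hlog
  have e3 : dist (g ^ j • Ohy n) p ≤ D := hD j
  have e4 : dist (k • (g ^ j • Ohy n)) (k • p) ≤ D := by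
    rw [hy_dist_smul h]; exact e3
  have e5 : dist (Ohy n) (k • Ohy n) = dist (g ^ j • Ohy n) (k • (g ^ j • Ohy n)) := by
    rw [← hy_dist_smul h (g ^ j) (Ohy n) (k • Ohy n), smul_smul, smul_smul,
      (hk.pow_right j).eq]
  have e6 : dist (Ohy n) (k • Ohy n) ≤ 2 * D + 2 := by
    rw [e5]
    calc dist (g ^ j • Ohy n) (k • (g ^ j • Ohy n))
        ≤ dist (g ^ j • Ohy n) p + dist p (k • (g ^ j • Ohy n)) := dist_triangle _ _ _
      _ ≤ dist (g ^ j • Ohy n) p + (dist p q + dist q (k • (g ^ j • Ohy n))) := by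
          gcongr; exact dist_triangle _ _ _
      _ ≤ dist (g ^ j • Ohy n) p + (dist p q + (dist q (k • p) + dist (k • p) (k • (g ^ j • Ohy n)))) := by
          gcongr; exact dist_triangle _ _ _
      _ ≤ D + (1 + (1 + D)) := by
          rw [dist_comm q, dist_comm (k • p) (k • _)]
          gcongr
      _ = 2 * D + 2 := by ring
  have e7 : Real.cosh (dist (Ohy n) (k • Ohy n)) ≤ Real.cosh (2 * D + 2) := by
    rw [Real.cosh_le_cosh, abs_of_nonneg dist_nonneg]
    exact e6.trans (le_abs_self _)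
  rw [cosh_dist] at e7
  exact e7

/-! ### the parabolic case -/

section Par

variable {n : ℕ} (u : EuclideanSpace ℝ (Fin n))

/-- The orthogonal complement of the line of `u`. -/
noncomputable abbrev b3cE : Submodule ℝ (EuclideanSpace ℝ (Fin n)) := (Submodule.span ℝ {u})ᗮ

/-- Projection to `E`. -/
noncomputable def b3cP : LV n →ₗ[ℝ] b3cE u :=
  ((b3cE u).orthogonalProjectionOnto : EuclideanSpace ℝ (Fin n) →ₗ[ℝ] b3cE u).comp
    (LinearMap.fst ℝ _ _)

/-- Inclusion of `E`. -/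
noncomputable def b3cI : b3cE u →ₗ[ℝ] LV n :=
  (LinearMap.inl ℝ (EuclideanSpace ℝ (Fin n)) ℝ).comp (b3cE u).subtype

theorem b3c_P_xi (a : ℝ) : b3cP u (u, a) = 0 := by
  show (b3cE u).orthogonalProjectionOnto u = 0
  rw [Submodule.orthogonalProjectionOnto_eq_zero_iff]
  exact Submodule.le_orthogonal_orthogonal _ (Submodule.mem_span_singleton_self u)

theorem b3c_P_I (e : b3cE u) : b3cP u (b3cI u e) = e := by
  show (b3cE u).orthogonalProjectionOnto (e : EuclideanSpace ℝ (Fin n)) = e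
  simp

theorem b3c_decomp (hu : ‖u‖ = 1) (X : LV n) :
    X = b3cI u (b3cP u X) + ((X.2 + inner ℝ X.1 u) / 2) • ((u, 1) : LV n) +
      ((X.2 - inner ℝ X.1 u) / 2) • ((-u, 1) : LV n) := by
  have h1 : ((b3cE u).orthogonalProjectionOnto X.1 : EuclideanSpace ℝ (Fin n)) =
      X.1 - (inner ℝ X.1 u : ℝ) • u := by
    have h2 := Submodule.starProjection_orthogonal_val (𝕜 := ℝ) (K := Submodule.span ℝ {u}) X.1
    rw [Submodule.starProjection_unit_singleton ℝ hu, real_inner_comm] at h2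
    exact h2
  refine Prod.ext ?_ ?_
  · show X.1 = ((b3cE u).orthogonalProjectionOnto X.1 : EuclideanSpace ℝ (Fin n)) +
      ((X.2 + inner ℝ X.1 u) / 2) • u + ((X.2 - inner ℝ X.1 u) / 2) • (-u)
    rw [h1]
    module
  · show X.2 = 0 + ((X.2 + inner ℝ X.1 u) / 2) * 1 + ((X.2 - inner ℝ X.1 u) / 2) * 1
    ring

theorem b3c_lor_I_I (e f : b3cE u) : lor (b3cI u e) (b3cI u f) = inner ℝ e f := by
  show inner ℝ (e : EuclideanSpace ℝ (Fin n)) (f : EuclideanSpace ℝ (Fin n)) - 0 * 0 = _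
  rw [Submodule.coe_inner]; ring

theorem b3c_lor_I_u (e : b3cE u) (a b : ℝ) : lor (b3cI u e) (a • u, b) = 0 := by
  show inner ℝ (e : EuclideanSpace ℝ (Fin n)) (a • u) - 0 * b = 0
  have h1 : inner ℝ u (e : EuclideanSpace ℝ (Fin n)) = (0 : ℝ) :=
    (Submodule.mem_orthogonal_singleton_iff_inner_right).mp e.2
  rw [real_inner_smul_right, real_inner_comm, h1]; ring

/-- decomposition with respect to the null frame -/
theorem b3c_decomp' (hu : ‖u‖ = 1) (X : LV n) :
    ∃ a : ℝ, X = b3cI u (b3cP u X) + a • ((u, 1) : LV n) +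
      (-lor X (u, 1) / 2) • ((-u, 1) : LV n) := by
  refine ⟨(X.2 + inner ℝ X.1 u) / 2, ?_⟩
  have h1 : -lor X (u, 1) / 2 = (X.2 - inner ℝ X.1 u) / 2 := by
    simp only [lor]; ring
  rw [h1]
  exact b3c_decomp u hu X

variable {Z : Type*} [Group Z] (ρ : Z →* (LV n →L[ℝ] LV n))

theorem b3c_rho_I (h : LorAction ρ) (hu : ‖u‖ = 1) (hxi : ∀ k : Z, ρ k (u, 1) = (u, 1)) (k : Z)
    (e : b3cE u) : ∃ a : ℝ, ρ k (b3cI u e) = b3cI u (b3cP u (ρ k (b3cI u e))) +
      a • ((u, 1) : LV n) := by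
  obtain ⟨a, ha⟩ := b3c_decomp' u hu (ρ k (b3cI u e))
  refine ⟨a, ?_⟩
  have h1 : lor (ρ k (b3cI u e)) (u, 1) = 0 := by
    have h2 := h.lor_eq k (b3cI u e) (u, 1)
    rw [hxi k] at h2
    rw [h2]
    have h3 := b3c_lor_I_u u e 1 1
    rwa [one_smul] at h3
  rw [h1] at ha
  simpa using ha

theorem b3c_P_rho (hxi : ∀ k : Z, ρ k (u, 1) = (u, 1)) (k : Z)
    (e : b3cE u) (a : ℝ) (X : LV n) :
    b3cP u (ρ k (b3cI u e + a • ((u, 1) : LV n) + X)) =
      b3cP u (ρ k (b3cI u e)) + b3cP u (ρ k X) := by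
  rw [map_add (ρ k), map_add (ρ k), map_smul (ρ k), hxi k, map_add, map_add, map_smul, b3c_P_xi,
    smul_zero, add_zero]

/-- The linear part. -/
noncomputable def b3cR (h : LorAction ρ) (hu : ‖u‖ = 1) (hxi : ∀ k : Z, ρ k (u, 1) = (u, 1)) :
    Z →* Module.End ℝ (b3cE u) where
  toFun k := (b3cP u).comp ((ρ k : LV n →ₗ[ℝ] LV n).comp (b3cI u))
  map_one' := by
    ext1 e
    show b3cP u (ρ 1 (b3cI u e)) = e
    rw [map_one]
    exact b3c_P_I u e
  map_mul' k l := by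
    ext1 e
    show b3cP u (ρ (k * l) (b3cI u e)) = b3cP u (ρ k (b3cI u (b3cP u (ρ l (b3cI u e)))))
    obtain ⟨a, ha⟩ := b3c_rho_I u ρ h hu hxi l e
    have h1 : ρ (k * l) (b3cI u e) = ρ k (ρ l (b3cI u e)) := by rw [map_mul]; rfl
    rw [h1]
    have h2 := b3c_P_rho u ρ hxi k (b3cP u (ρ l (b3cI u e))) a 0
    rw [add_zero, ← ha, map_zero, map_zero, add_zero] at h2
    exact h2

theorem b3c_R_norm (h : LorAction ρ) (hu : ‖u‖ = 1) (hxi : ∀ k : Z, ρ k (u, 1) = (u, 1)) (k : Z)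
    (e : b3cE u) : ‖b3cR u ρ h hu hxi k e‖ = ‖e‖ := by
  obtain ⟨a, ha⟩ := b3c_rho_I u ρ h hu hxi k e
  have h1 : lor (ρ k (b3cI u e)) (ρ k (b3cI u e)) = lor (b3cI u e) (b3cI u e) := h.lor_eq k _ _
  set f : b3cE u := b3cP u (ρ k (b3cI u e)) with hf
  have h2 : lor (u, 1) ((u, 1) : LV n) = 0 := by
    simp [lor, hu]
  have h3 : lor (b3cI u f) (u, 1) = 0 := by
    have h3 := b3c_lor_I_u u f 1 1
    rwa [one_smul] at h3
  rw [ha, lor_add_left, lor_add_right, lor_add_right, lor_smul_left, lor_smul_left, lor_smul_right,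
    lor_smul_right, h2, lor_comm (u, 1) (b3cI u f), h3, b3c_lor_I_I, b3c_lor_I_I,
    real_inner_self_eq_norm_sq, real_inner_self_eq_norm_sq] at h1
  have h4 : ‖f‖ ^ 2 = ‖e‖ ^ 2 := by linarith
  have h5 : ‖f‖ = ‖e‖ := by
    rwa [sq_eq_sq₀ (norm_nonneg _) (norm_nonneg _)] at h4
  exact h5

/-- The translation part. -/
noncomputable def b3cc (k : Z) : b3cE u := b3cP u (ρ k ((-u, 1) : LV n))

theorem b3c_rho_eta (h : LorAction ρ) (hu : ‖u‖ = 1) (hxi : ∀ k : Z, ρ k (u, 1) = (u, 1)) (k : Z) :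
    ρ k (-u, 1) = b3cI u (b3cc u ρ k) + (‖b3cc u ρ k‖ ^ 2 / 4) • ((u, 1) : LV n) + (-u, 1) := by
  obtain ⟨a, ha⟩ := b3c_decomp' u hu (ρ k (-u, 1))
  have hee : lor ((-u, 1) : LV n) (u, 1) = -2 := by
    simp [lor, hu]; norm_num
  have h1 : lor (ρ k (-u, 1)) (u, 1) = -2 := by
    have h2 := h.lor_eq k (-u, 1) (u, 1)
    rw [hxi k] at h2
    rw [h2, hee]
  rw [h1] at ha
  have e1 : (-(-2 : ℝ) / 2) = 1 := by norm_num
  rw [e1, one_smul] at ha
  change ρ k (-u, 1) = b3cI u (b3cc u ρ k) + a • ((u, 1) : LV n) + (-u, 1) at ha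
  have hn : lor ((-u, 1) : LV n) (-u, 1) = 0 := by
    simp [lor, hu]
  have hx : lor ((u, 1) : LV n) (u, 1) = 0 := by
    simp [lor, hu]
  have h3 : lor (ρ k (-u, 1)) (ρ k (-u, 1)) = 0 := by rw [h.lor_eq, hn]
  have h4 : ∀ f : b3cE u, lor (b3cI u f) (u, 1) = 0 := by
    intro f
    have h3 := b3c_lor_I_u u f 1 1
    rwa [one_smul] at h3
  have h5 : ∀ f : b3cE u, lor (b3cI u f) (-u, 1) = 0 := by
    intro f
    have h3 := b3c_lor_I_u u f (-1) 1
    rwa [neg_one_smul] at h3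
  rw [ha] at h3
  simp only [lor_add_left, lor_add_right, lor_smul_left, lor_smul_right] at h3
  rw [lor_comm (u, 1) (b3cI u _), lor_comm (-u, 1) (b3cI u _), lor_comm (u, 1) (-u, 1), hee, hx, hn,
    h4, h5, b3c_lor_I_I, real_inner_self_eq_norm_sq] at h3
  have h6 : a = ‖b3cc u ρ k‖ ^ 2 / 4 := by linarith
  rw [← h6]
  exact ha

theorem b3c_c_mul (h : LorAction ρ) (hu : ‖u‖ = 1) (hxi : ∀ k : Z, ρ k (u, 1) = (u, 1)) (k l : Z) :
    b3cc u ρ (k * l) = b3cc u ρ k + b3cR u ρ h hu hxi k (b3cc u ρ l) := by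
  have h1 : ρ (k * l) (-u, 1) = ρ k (ρ l (-u, 1)) := by rw [map_mul]; rfl
  show b3cP u (ρ (k * l) (-u, 1)) = b3cP u (ρ k (-u, 1)) + b3cP u (ρ k (b3cI u (b3cc u ρ l)))
  rw [h1, b3c_rho_eta u ρ h hu hxi l, b3c_P_rho u ρ hxi, add_comm]

theorem b3c_lor_O (h : LorAction ρ) (hu : ‖u‖ = 1) (hxi : ∀ k : Z, ρ k (u, 1) = (u, 1)) (k : Z) :
    -lor (Ohy n).val (ρ k (Ohy n).val) = 1 + ‖b3cc u ρ k‖ ^ 2 / 8 := by
  have h1 : (Ohy n).val = (1 / 2 : ℝ) • (((u, 1) : LV n) + (-u, 1)) := by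
    refine Prod.ext ?_ ?_
    · show (0 : EuclideanSpace ℝ (Fin n)) = (1 / 2 : ℝ) • (u + -u)
      simp
    · show (1 : ℝ) = (1 / 2) * (1 + 1)
      norm_num
  have h2 : ρ k (Ohy n).val = (1 / 2 : ℝ) • (((u, 1) : LV n) +
      (b3cI u (b3cc u ρ k) + (‖b3cc u ρ k‖ ^ 2 / 4) • ((u, 1) : LV n) + (-u, 1))) := by
    rw [h1, map_smul, map_add, hxi k, b3c_rho_eta u ρ h hu hxi k]
  rw [h2]
  show -(inner ℝ (0 : EuclideanSpace ℝ (Fin n)) _ -
    1 * ((1 / 2 : ℝ) * (1 + (0 + (‖b3cc u ρ k‖ ^ 2 / 4) * 1 + 1)))) = _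
  rw [inner_zero_left]
  ring

end Par

/-- Torsion-freeness passes to the centralizer. -/
theorem b3c_tf_sub {G : Type*} [Group G] (htf : TorsFree G) (S : Subgroup G) : TorsFree S := by
  intro g k hk h
  apply Subtype.ext
  apply htf g.1 k hk
  have := congrArg Subtype.val h
  simpa using this

theorem centralizer_isCyclic {n : ℕ} {G : Type*} [Group G] (ρ : G →* (LV n →L[ℝ] LV n))
    (h : LorAction ρ) (hd : LorDiscrete ρ) (htf : TorsFree G) (hZ : NoZ2 G) (g : G) (hg : g ≠ 1) :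
    IsCyclic (Subgroup.centralizer {g}) := by
  obtain ⟨u, hu, hlam⟩ := exists_common_null ρ h hd htf g hg
  set Z : Subgroup G := Subgroup.centralizer {g} with hZdef
  have hcomm : ∀ k : Z, Commute (k : G) g := fun k =>
    (Subgroup.mem_centralizer_singleton_iff.mp k.2)
  have hgZ : g ∈ Z := Subgroup.mem_centralizer_singleton_iff.mpr rfl
  let g₀ : Z := ⟨g, hgZ⟩
  have hg₀ : g₀ ≠ 1 := fun h0 => hg (congrArg Subtype.val h0)
  -- the multipliers
  have hlam' : ∀ k : Z, ∃ lam : ℝ, 0 < lam ∧ ρ (k : G) (u, 1) = lam • ((u, 1) : LV n) :=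
    fun k => hlam k k.2
  choose lam hpos hact using hlam'
  have hmul : ∀ k l : Z, lam (k * l) = lam k * lam l := by
    intro k l
    have h1 : ρ ((k * l : Z) : G) (u, 1) = ρ (k : G) (ρ (l : G) (u, 1)) := by
      rw [Subgroup.coe_mul, map_mul]; rfl
    rw [hact, hact, map_smul, hact, smul_smul] at h1
    have h2 := congrArg Prod.snd h1
    simp only [Prod.smul_snd, smul_eq_mul, mul_one] at h2
    rw [h2, mul_comm]
  let tM : Z →* Multiplicative ℝ :=
    { toFun := fun k => Multiplicative.ofAdd (Real.log (lam k))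
      map_one' := by
        have h1 := hmul 1 1
        rw [mul_one] at h1
        have h2 : lam 1 = 1 := by
          have := hpos 1
          field_simp at h1
          exact h1.symm
        rw [h2, Real.log_one]; rfl
      map_mul' := by
        intro k l
        rw [hmul, Real.log_mul (hpos k).ne' (hpos l).ne']; rfl }
  let t : Z → ℝ := fun k => Real.log (lam k)
  have htmul : ∀ k l, t (k * l) = t k + t l := by
    intro k l
    show Real.log _ = _
    rw [hmul, Real.log_mul (hpos k).ne' (hpos l).ne']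
  have htz : ∀ (k : Z) (a : ℤ), t (k ^ a) = a * t k := by
    intro k a
    have h1 : tM (k ^ a) = (tM k) ^ a := map_zpow tM k a
    have h2 : Multiplicative.toAdd (tM (k ^ a)) = Multiplicative.toAdd ((tM k) ^ a) := by rw [h1]
    rw [toAdd_zpow, zsmul_eq_mul] at h2
    exact h2
  -- commensurability
  have hcm : ∀ k : Z, k ≠ 1 → ∃ a b : ℤ, a ≠ 0 ∧ b ≠ 0 ∧ k ^ a = g₀ ^ b := by
    intro k hk
    have hk' : (k : G) ≠ 1 := fun h0 => hk (Subtype.ext h0)
    obtain ⟨a, b, ha, hb, hab⟩ := b3c_comm htf hZ g k hg hk' (hcomm k)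
    exact ⟨a, b, ha, hb, Subtype.ext (by simpa using hab)⟩
  by_cases htg : t g₀ = 0
  · -- parabolic case
    have ht0 : ∀ k : Z, t k = 0 := by
      intro k
      by_cases hk : k = 1
      · have h1 := htmul 1 1
        rw [mul_one] at h1
        rw [hk]; linarith
      · obtain ⟨a, b, ha, hb, hab⟩ := hcm k hk
        have h1 : t (k ^ a) = t (g₀ ^ b) := by rw [hab]
        rw [htz, htz, htg, mul_zero] at h1
        rcases mul_eq_zero.mp h1 with h2 | h2
        · exact absurd (by exact_mod_cast h2) ha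
        · exact h2
    have hl1 : ∀ k : Z, lam k = 1 := by
      intro k
      exact Real.eq_one_of_pos_of_log_eq_zero (hpos k) (ht0 k)
    let ρZ : Z →* (LV n →L[ℝ] LV n) := ρ.comp Z.subtype
    have hρZ : LorAction ρZ := ⟨fun k X Y => h.lor_eq k X Y, fun k X hX => h.cone k X hX⟩
    have hxi : ∀ k : Z, ρZ k (u, 1) = (u, 1) := by
      intro k
      show ρ (k : G) (u, 1) = (u, 1)
      rw [hact, hl1, one_smul]
    refine euclid_cyclic (b3cR u ρZ hρZ hu hxi) (b3c_R_norm u ρZ hρZ hu hxi) (b3cc u ρZ)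
      (b3c_c_mul u ρZ hρZ hu hxi) ?_ (b3c_tf_sub htf Z) g₀ hg₀ ?_ hcm
    · intro B
      have h1 := (hd (1 + |B| ^ 2 / 8)).preimage (f := Z.subtype) Subtype.val_injective.injOn
      refine h1.subset ?_
      intro k hk
      have hk' : ‖b3cc u ρZ k‖ ≤ B := hk
      show -lor (Ohy n).val (ρ (k : G) (Ohy n).val) ≤ 1 + |B| ^ 2 / 8
      have h2 := b3c_lor_O u ρZ hρZ hu hxi k
      change -lor (Ohy n).val (ρ (k : G) (Ohy n).val) = _ at h2
      rw [h2]
      have h3 : ‖b3cc u ρZ k‖ ^ 2 ≤ |B| ^ 2 :=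
        pow_le_pow_left₀ (norm_nonneg _) (hk'.trans (le_abs_self B)) 2
      linarith
    · intro k
      exact Subtype.ext (hcomm k)
  · -- hyperbolic case
    have hinj : ∀ k : Z, t k = 0 → k = 1 := by
      intro k hk
      by_contra hk1
      obtain ⟨a, b, ha, hb, hab⟩ := hcm k hk1
      have h1 : t (k ^ a) = t (g₀ ^ b) := by rw [hab]
      rw [htz, htz, hk, mul_zero] at h1
      rcases mul_eq_zero.mp h1.symm with h2 | h2
      · exact hb (by exact_mod_cast h2)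
      · exact htg h2
    -- an element with positive translation
    have hex : ∃ g' : Z, 0 < t g' ∧ ∀ k : Z, Commute (k : G) (g' : G) := by
      rcases lt_or_gt_of_ne htg with h1 | h1
      · refine ⟨g₀⁻¹, ?_, fun k => (hcomm k).inv_right⟩
        have h2 := htz g₀ (-1)
        rw [zpow_neg_one] at h2
        rw [h2]; push_cast; linarith
      · exact ⟨g₀, h1, hcomm⟩
    obtain ⟨g', hg'1, hg'2⟩ := hex
    have hmu : 1 < lam g' := by
      by_contra hcon
      push Not at hcon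
      exact absurd (Real.log_nonpos (hpos g').le hcon) (not_le.mpr hg'1)
    obtain ⟨R, hR⟩ := b3c_hyp ρ h (g' : G) u hu (lam g') hmu (hact g')
    refine cyclic_of_discrete_hom t htmul hinj ?_
    have h1 := (hd R).preimage (f := Z.subtype) Subtype.val_injective.injOn
    refine h1.subset ?_
    intro k hk
    exact hR k (hg'2 k) (lam k) (hpos k) (hact k) hk

end Pool.Agent.MP_8db1a4_gt.B3c

namespace Pool.Agent.MP_8db1a4_gt

export B3c (centralizer_isCyclic)

end Pool.Agent.MP_8db1a4_gt
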