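import Pool.Agent.MP_8db1a4_gt.Coarse

set_option autoImplicit false

/-! Task KAP-B4a (helper9): Schottky-type subsets of annuli. -/

namespace Pool.Agent.MP_8db1a4_gt.B4a

open Set

variable {G X : Type*} [Group G] [MetricSpace X] [MulAction G X] [IsIsometricSMul G X]

/-- maximal separated subset -/
theorem b4a_sep {ι : Type*} (p : ι → X) (r : ℝ) (hr : 0 < r) (A : Finset ι) :
    ∃ S ⊆ A, (∀ g ∈ S, ∀ g' ∈ S, g ≠ g' → r ≤ dist (p g) (p g')) ∧
      ∀ g ∈ A, ∃ s ∈ S, dist (p g) (p s) < r := by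
  classical
  induction A using Finset.induction_on with
  | empty => exact ⟨∅, by simp, by simp, by simp⟩
  | insert a A ha ih =>
    obtain ⟨S, hS, h1, h2⟩ := ih
    by_cases h : ∃ s ∈ S, dist (p a) (p s) < r
    · refine ⟨S, hS.trans (Finset.subset_insert _ _), h1, ?_⟩
      intro g hg
      rcases Finset.mem_insert.mp hg with rfl | hg
      · exact h
      · exact h2 g hg
    · push Not at h
      refine ⟨insert a S, Finset.insert_subset_insert _ hS, ?_, ?_⟩
      · intro g hg g' hg' hne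
        rcases Finset.mem_insert.mp hg with e1 | k1
        · rcases Finset.mem_insert.mp hg' with e2 | k2
          · exact absurd (e1.trans e2.symm) hne
          · rw [e1]; exact h g' k2
        · rcases Finset.mem_insert.mp hg' with e2 | k2
          · rw [dist_comm, e2]; exact h g k1
          · exact h1 g k1 g' k2 hne
      · intro g hg
        rcases Finset.mem_insert.mp hg with rfl | hg
        · exact ⟨g, Finset.mem_insert_self _ _, by simpa using hr⟩
        · obtain ⟨s, hs, hd⟩ := h2 g hg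
          exact ⟨s, Finset.mem_insert_of_mem hs, hd⟩

/-- pigeonhole with a separated set -/
theorem b4a_pigeon {ι : Type*} (hpack : Packing X) (T : ℝ) : ∃ N : ℕ, 0 < N ∧
    ∀ (x : X) (p : ι → X) (A : Finset ι), (∀ g ∈ A, dist x (p g) ≤ T) →
      ∃ A₁ ⊆ A, A.card ≤ N * A₁.card ∧ ∀ g ∈ A₁, ∀ g' ∈ A₁, dist (p g) (p g') ≤ 2 := by
  classical
  obtain ⟨N, hN⟩ := hpack T
  refine ⟨N + 1, by omega, ?_⟩
  intro x p A hA
  obtain ⟨S, hS, h1, h2⟩ := b4a_sep p 1 one_pos A
  have hinj : Set.InjOn p (S : Set ι) := by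
    intro a ha b hb hab
    by_contra hne
    have := h1 a ha b hb hne
    rw [hab, dist_self] at this
    linarith
  have hcard : S.card ≤ N := by
    rw [← Finset.card_image_of_injOn hinj]
    apply hN x
    · intro y hy
      obtain ⟨g, hg, rfl⟩ := Finset.mem_image.mp hy
      exact hA g (hS hg)
    · intro y hy z hz hne
      obtain ⟨g, hg, rfl⟩ := Finset.mem_image.mp hy
      obtain ⟨g', hg', rfl⟩ := Finset.mem_image.mp hz
      exact h1 g hg g' hg' (fun h => hne (by rw [h]))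
  rcases A.eq_empty_or_nonempty with rfl | hne
  · exact ⟨∅, by simp, by simp, by simp⟩
  choose! f hf1 hf2 using h2
  have hSne : S.Nonempty := by
    obtain ⟨a, ha⟩ := hne
    exact ⟨f a, hf1 a ha⟩
  obtain ⟨s, hs, hs2⟩ : ∃ s ∈ S, A.card ≤ (N + 1) * (A.filter (fun g => f g = s)).card := by
    by_contra hcon
    push Not at hcon
    have h3 : A.card = ∑ s ∈ S, (A.filter (fun g => f g = s)).card :=
      Finset.card_eq_sum_card_fiberwise (fun a ha => hf1 a ha)
    have h4 : (N + 1) * A.card < (N + 1) * A.card := by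
      calc (N + 1) * A.card = ∑ s ∈ S, (N + 1) * (A.filter (fun g => f g = s)).card := by
            rw [← Finset.mul_sum, ← h3]
        _ < ∑ s ∈ S, A.card := Finset.sum_lt_sum_of_nonempty hSne (fun s hs => hcon s hs)
        _ = S.card * A.card := by rw [Finset.sum_const, smul_eq_mul]
        _ ≤ (N + 1) * A.card := Nat.mul_le_mul_right _ (by omega)
    exact lt_irrefl _ h4
  refine ⟨A.filter (fun g => f g = s), Finset.filter_subset _ _, hs2, ?_⟩
  intro g hg g' hg'
  rw [Finset.mem_filter] at hg hg'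
  have e1 := hf2 g hg.1
  have e2 := hf2 g' hg'.1
  rw [hg.2] at e1
  rw [hg'.2] at e2
  have := dist_triangle_right (p g) (p g') (p s)
  linarith

theorem b4a_four {δ : ℝ} (hX : HypGeo X δ) (w x y z : X) :
    min (gp w x z) (gp w z y) - δ ≤ gp w x y := by
  unfold gp
  have := hX.four x y z w
  rcases le_total (dist x z + dist y w) (dist x w + dist y z) with h | h
  · rw [max_eq_right h] at this
    refine le_trans (sub_le_sub_right (min_le_right _ _) _) ?_
    have e1 := dist_comm w x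
    have e2 := dist_comm w y
    have e3 := dist_comm w z
    have e4 := dist_comm z y
    linarith
  · rw [max_eq_left h] at this
    refine le_trans (sub_le_sub_right (min_le_left _ _) _) ?_
    have e1 := dist_comm w x
    have e2 := dist_comm w y
    have e3 := dist_comm w z
    have e4 := dist_comm z y
    linarith

theorem b4a_point {δ : ℝ} (hX : HypGeo X δ) (o y : X) (T : ℝ) (hT : 0 ≤ T) (hTy : T ≤ dist o y) :
    ∃ q : X, dist o q = T ∧ dist q y = dist o y - T := by
  obtain ⟨γ, h0, h1, h2⟩ := hX.geod o y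
  have hd : (0 : ℝ) ≤ dist o y := dist_nonneg
  refine ⟨γ T, ?_, ?_⟩
  · have := h2 0 ⟨le_refl _, hd⟩ T ⟨hT, hTy⟩
    rw [h0] at this
    rw [this, zero_sub, abs_neg, abs_of_nonneg hT]
  · have := h2 T ⟨hT, hTy⟩ (dist o y) ⟨hd, le_refl _⟩
    rw [h1] at this
    rw [this, abs_of_nonpos (by linarith)]
    ring

theorem exists_schottky {δ : ℝ} (hX : HypGeo X δ) (hpack : Packing X) (hprop : ProperAct G X)
    (o : X) (F : Finset G) (c₀ : ℝ) (hF : ∀ z w : X, ∃ a ∈ F, gp o z (a • w) ≤ c₀) :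
    ∃ c₁ : ℝ, 0 ≤ c₁ ∧ ∀ D : ℝ, ∃ η > (0 : ℝ), ∃ R₀ : ℝ, ∀ R ≥ R₀, ∀ A : Finset G,
      (∀ g ∈ A, R ≤ dist o (g • o) ∧ dist o (g • o) ≤ R + 1) →
      ∃ B : Finset G, η * (A.card : ℝ) ≤ B.card ∧
        (∀ b ∈ B, |dist o (b • o) - R| ≤ c₁) ∧
        (∀ b ∈ B, ∀ b' ∈ B, gp o (b⁻¹ • o) (b' • o) ≤ c₁) ∧
        (∀ b ∈ B, ∀ b' ∈ B, b ≠ b' → D ≤ dist (b • o) (b' • o)) := by
  classical
  have hδ := hX.nonneg
  obtain ⟨a₀, ha₀, hgp₀⟩ := hF o o
  -- bound for the displacements of `F`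
  obtain ⟨Mx, hMx⟩ : ∃ Mx : ℝ, ∀ a ∈ F, dist o (a • o) ≤ Mx := by
    refine ⟨∑ a ∈ F, dist o (a • o), fun a ha => ?_⟩
    exact Finset.single_le_sum (f := fun a => dist o (a • o)) (fun i _ => dist_nonneg) ha
  have hMx0 : 0 ≤ Mx := le_trans dist_nonneg (hMx a₀ ha₀)
  set c := max c₀ 0 with hc
  have hc0 : 0 ≤ c := le_max_right _ _
  have hcc : c₀ ≤ c := le_max_left _ _
  refine ⟨c + 2 * δ + 2 * Mx + 1, by positivity, ?_⟩
  intro D
  set T := c + 2 * δ + Mx + 2 with hT
  have hT0 : 0 ≤ T := by positivity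
  obtain ⟨N, hN0, hN⟩ := b4a_pigeon (ι := G) hpack T
  set D' := max (D + 2 * Mx) 1 with hD'
  have hD'0 : 0 < D' := lt_of_lt_of_le one_pos (le_max_right _ _)
  set U := (hprop o o D').toFinset with hU
  have hU1 : (1 : G) ∈ U := by
    rw [hU, Set.Finite.mem_toFinset, Set.mem_ofPred_eq, one_smul, dist_self]
    exact hD'0.le
  have hUpos : 0 < U.card := Finset.card_pos.mpr ⟨1, hU1⟩
  refine ⟨1 / ((N : ℝ) * N * U.card), by positivity, T, ?_⟩
  intro R hR A hA
  -- points at distance `T`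
  have hp : ∀ g : G, ∃ q : X, g ∈ A → dist o q = T ∧ dist q (g • o) = dist o (g • o) - T := by
    intro g
    by_cases hg : g ∈ A
    · obtain ⟨q, hq⟩ := b4a_point hX o (g • o) T hT0 (by linarith [(hA g hg).1])
      exact ⟨q, fun _ => hq⟩
    · exact ⟨o, fun h => absurd h hg⟩
  choose P hP using hp
  have hinv : ∀ g : G, dist o (g⁻¹ • o) = dist o (g • o) := by
    intro g
    have := dist_smul g o (g⁻¹ • o)
    rw [smul_inv_smul] at this
    rw [← this, dist_comm]
  have hq : ∀ g : G, ∃ q : X, g ∈ A → dist o q = T ∧ dist q (g⁻¹ • o) = dist o (g⁻¹ • o) - T := by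
    intro g
    by_cases hg : g ∈ A
    · obtain ⟨q, hq⟩ := b4a_point hX o (g⁻¹ • o) T hT0 (by rw [hinv]; linarith [(hA g hg).1])
      exact ⟨q, fun _ => hq⟩
    · exact ⟨o, fun h => absurd h hg⟩
  choose Q hQ using hq
  obtain ⟨A₁, hA₁, hc₁, hd₁⟩ := hN o P A (fun g hg => (hP g hg).1.le)
  obtain ⟨A₂, hA₂, hc₂, hd₂⟩ := hN o Q A₁ (fun g hg => (hQ g (hA₁ hg)).1.le)
  obtain ⟨A₃, hA₃, hs₃, hm₃⟩ := b4a_sep (fun g : G => g • o) D' hD'0 A₂
  -- cardinalities
  have hc₃ : A₂.card ≤ A₃.card * U.card := by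
    have : A₂ ⊆ (A₃ ×ˢ U).image (fun x => x.1 * x.2) := by
      intro g hg
      obtain ⟨s, hs, hd⟩ := hm₃ g hg
      rw [Finset.mem_image]
      refine ⟨(s, s⁻¹ * g), ?_, by simp⟩
      rw [Finset.mem_product]
      refine ⟨hs, ?_⟩
      rw [hU, Set.Finite.mem_toFinset, Set.mem_ofPred_eq, mul_smul]
      have e := dist_smul s o (s⁻¹ • g • o)
      rw [smul_inv_smul] at e
      rw [← e, dist_comm]
      exact hd.le
    calc A₂.card ≤ _ := Finset.card_le_card this
      _ ≤ (A₃ ×ˢ U).card := Finset.card_image_le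
      _ = _ := Finset.card_product _ _
  rcases A₃.eq_empty_or_nonempty with hemp | ⟨g₀, hg₀⟩
  · rw [hemp, Finset.card_empty, zero_mul] at hc₃
    have h1 : A₂.card = 0 := by omega
    rw [h1, mul_zero] at hc₂
    have h2 : A₁.card = 0 := by omega
    rw [h2, mul_zero] at hc₁
    have h3 : A.card = 0 := by omega
    exact ⟨∅, by simp [h3], by simp, by simp, by simp⟩
  -- products of the elements of `A₃`
  have hA₃A : ∀ g ∈ A₃, g ∈ A := fun g hg => hA₁ (hA₂ (hA₃ hg))
  have gpP : ∀ g ∈ A₃, ∀ g' ∈ A₃, T - 1 ≤ gp o (g • o) (g' • o) := by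
    intro g hg g' hg'
    have h1 := hP g (hA₃A g hg)
    have h2 := hP g' (hA₃A g' hg')
    have h3 := hd₁ g (hA₂ (hA₃ hg)) g' (hA₂ (hA₃ hg'))
    have h4 := dist_triangle4 (g • o) (P g) (P g') (g' • o)
    rw [dist_comm (g • o) (P g), h1.2, h2.2] at h4
    unfold gp
    linarith
  have gpQ : ∀ g ∈ A₃, ∀ g' ∈ A₃, T - 1 ≤ gp o (g⁻¹ • o) (g'⁻¹ • o) := by
    intro g hg g' hg'
    have h1 := hQ g (hA₃A g hg)
    have h2 := hQ g' (hA₃A g' hg')
    have h3 := hd₂ g (hA₃ hg) g' (hA₃ hg')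
    have h4 := dist_triangle4 (g⁻¹ • o) (Q g) (Q g') (g'⁻¹ • o)
    rw [dist_comm (g⁻¹ • o) (Q g), h1.2, h2.2] at h4
    unfold gp
    linarith
  obtain ⟨a, ha, hgpa⟩ := hF (g₀⁻¹ • o) (g₀ • o)
  have hMa := hMx a ha
  have gpa : ∀ g ∈ A₃, T - 1 - Mx ≤ gp o (a • g • o) (a • g₀ • o) := by
    intro g hg
    have h1 := gpP g hg g₀ hg₀
    unfold gp at h1 ⊢
    rw [dist_smul]
    have h2 : dist o (g • o) ≤ Mx + dist o (a • g • o) := by
      calc dist o (g • o) = dist (a • o) (a • g • o) := (dist_smul a _ _).symm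
        _ ≤ dist (a • o) o + dist o (a • g • o) := dist_triangle _ _ _
        _ ≤ _ := by rw [dist_comm (a • o) o]; linarith
    have h3 : dist o (g₀ • o) ≤ Mx + dist o (a • g₀ • o) := by
      calc dist o (g₀ • o) = dist (a • o) (a • g₀ • o) := (dist_smul a _ _).symm
        _ ≤ dist (a • o) o + dist o (a • g₀ • o) := dist_triangle _ _ _
        _ ≤ _ := by rw [dist_comm (a • o) o]; linarith
    linarith
  have key : ∀ g ∈ A₃, ∀ g' ∈ A₃, gp o (g⁻¹ • o) (a • g' • o) ≤ c + 2 * δ := by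
    intro g hg g' hg'
    have h1 : gp o (g⁻¹ • o) (a • g₀ • o) ≤ c + δ := by
      by_contra hcon
      push Not at hcon
      have h2 := b4a_four hX o (g₀⁻¹ • o) (a • g₀ • o) (g⁻¹ • o)
      have h3 := gpQ g₀ hg₀ g hg
      have h4 : c + δ < min (gp o (g₀⁻¹ • o) (g⁻¹ • o)) (gp o (g⁻¹ • o) (a • g₀ • o)) :=
        lt_min (by linarith) hcon
      linarith
    by_contra hcon
    push Not at hcon
    have h2 := b4a_four hX o (g⁻¹ • o) (a • g₀ • o) (a • g' • o)
    have h3 := gpa g' hg'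
    have h4 : c + 2 * δ < min (gp o (g⁻¹ • o) (a • g' • o)) (gp o (a • g' • o) (a • g₀ • o)) :=
      lt_min hcon (by linarith)
    linarith
  have hinj : Function.Injective (fun g : G => g * a) := mul_left_injective a
  refine ⟨A₃.image (fun g => g * a), ?_, ?_, ?_, ?_⟩
  · rw [Finset.card_image_of_injective _ hinj]
    have h1 : A.card ≤ N * (N * (A₃.card * U.card)) :=
      hc₁.trans (Nat.mul_le_mul_left _ (hc₂.trans (Nat.mul_le_mul_left _ hc₃)))
    have h2 : (A.card : ℝ) ≤ N * (N * (A₃.card * U.card)) := by exact_mod_cast h1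
    rw [one_div, inv_mul_le_iff₀ (by positivity)]
    calc (A.card : ℝ) ≤ _ := h2
      _ = _ := by ring
  · intro b hb
    obtain ⟨g, hg, rfl⟩ := Finset.mem_image.mp hb
    have h1 := hA g (hA₃A g hg)
    have h2 : dist (g • o) (g • a • o) ≤ Mx := by rw [dist_smul]; exact hMa
    have h3 := dist_triangle o (g • o) (g • a • o)
    have h4 := dist_triangle_right o (g • o) (g • a • o)
    show |dist o ((g * a) • o) - R| ≤ _
    rw [mul_smul, abs_le]
    constructor <;> linarith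
  · intro b hb b' hb'
    obtain ⟨g, hg, rfl⟩ := Finset.mem_image.mp hb
    obtain ⟨g', hg', rfl⟩ := Finset.mem_image.mp hb'
    have h1 := key g hg g' hg'
    show gp o ((g * a)⁻¹ • o) ((g' * a) • o) ≤ _
    rw [mul_inv_rev, mul_smul, mul_smul]
    unfold gp at h1 ⊢
    -- apply `a`
    have e1 : dist o (a⁻¹ • g⁻¹ • o) = dist (a • o) (g⁻¹ • o) := by
      have := dist_smul a o (a⁻¹ • g⁻¹ • o)
      rw [smul_inv_smul] at this
      exact this.symm
    have e2 : dist o (g' • a • o) = dist (a • o) (a • g' • a • o) := (dist_smul a _ _).symm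
    have e3 : dist (a⁻¹ • g⁻¹ • o) (g' • a • o) = dist (g⁻¹ • o) (a • g' • a • o) := by
      have := dist_smul a (a⁻¹ • g⁻¹ • o) (g' • a • o)
      rw [smul_inv_smul] at this
      exact this.symm
    have h2 : dist (a • g' • o) (a • g' • a • o) ≤ Mx := by
      rw [dist_smul, dist_smul]; exact hMa
    have h3 : dist (a • o) (g⁻¹ • o) ≤ Mx + dist o (g⁻¹ • o) := by
      have := dist_triangle (a • o) o (g⁻¹ • o)
      rw [dist_comm (a • o) o] at this
      linarith
    have h4 : dist (a • o) (a • g' • a • o) ≤ Mx + dist o (a • g' • o) + Mx := by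
      have := dist_triangle4 (a • o) o (a • g' • o) (a • g' • a • o)
      rw [dist_comm (a • o) o] at this
      linarith
    have h5 : dist (g⁻¹ • o) (a • g' • o) ≤ dist (g⁻¹ • o) (a • g' • a • o) + Mx := by
      have := dist_triangle_right (g⁻¹ • o) (a • g' • o) (a • g' • a • o)
      linarith
    rw [e1, e2, e3]
    linarith
  · intro b hb b' hb' hne
    obtain ⟨g, hg, rfl⟩ := Finset.mem_image.mp hb
    obtain ⟨g', hg', rfl⟩ := Finset.mem_image.mp hb'
    have hne' : g ≠ g' := fun h => hne (by rw [h])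
    have h1 : D' ≤ dist (g • o) (g' • o) := hs₃ g hg g' hg' hne'
    have h0 : D + 2 * Mx ≤ D' := le_max_left _ _
    show D ≤ dist ((g * a) • o) ((g' * a) • o)
    rw [mul_smul, mul_smul]
    have h2 : dist (g • o) (g • a • o) ≤ Mx := by rw [dist_smul]; exact hMa
    have h3 : dist (g' • o) (g' • a • o) ≤ Mx := by rw [dist_smul]; exact hMa
    have h4 := dist_triangle4 (g • o) (g • a • o) (g' • a • o) (g' • o)
    rw [dist_comm (g' • a • o) (g' • o)] at h4
    linarith

end Pool.Agent.MP_8db1a4_gt.B4a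

namespace Pool.Agent.MP_8db1a4_gt

export B4a (exists_schottky)

end Pool.Agent.MP_8db1a4_gt
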