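import Pool.Agent.MP_8db1a4_gt.Coarse

set_option autoImplicit false

/-! Task B4b: local-to-global for discrete chains (MP_8db1a4_gt). -/

namespace Pool.Agent.MP_8db1a4_gt

open Set

variable {X : Type*} [MetricSpace X]

theorem b4b_gp_four {δ : ℝ} (hX : HypGeo X δ) (w x y z : X) :
    min (gp w x z) (gp w z y) - δ ≤ gp w x y := by
  have h := hX.four x y z w
  unfold gp
  rw [dist_comm x w, dist_comm y w, dist_comm z w, dist_comm y z] at h
  rcases le_total (dist x z + dist w y) (dist w x + dist z y) with h1 | h1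
  · rw [max_eq_right h1] at h
    have := min_le_right ((dist w x + dist w z - dist x z) / 2)
      ((dist w z + dist w y - dist z y) / 2)
    linarith
  · rw [max_eq_left h1] at h
    have := min_le_left ((dist w x + dist w z - dist x z) / 2)
      ((dist w z + dist w y - dist z y) / 2)
    linarith

theorem b4b_gp_comm (w x y : X) : gp w x y = gp w y x := by
  unfold gp
  rw [dist_comm x y]; ring

/-- `gp a b c + gp b a c = d(a,b)`. -/
theorem b4b_gp_add (a b c : X) : gp a b c + gp b a c = dist a b := by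
  unfold gp
  rw [dist_comm b a]; ring

theorem b4b_gp_self (w x : X) : gp w w x = 0 := by
  unfold gp; rw [dist_self]; ring

theorem b4b_gp_self' (w x : X) : gp w x w = 0 := by
  rw [b4b_gp_comm, b4b_gp_self]

/-- If the product at `w` of `x,y` is at most `c`, and the product of `x,z` is large, then the product
of `z,y` is at most `c + δ`. -/
theorem b4b_cut {δ : ℝ} (hX : HypGeo X δ) {w x y z : X} {c : ℝ} (h : gp w x y ≤ c)
    (hz : c + δ < gp w x z) : gp w z y ≤ c + δ := by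
  by_contra hcon
  push Not at hcon
  have h1 := b4b_gp_four hX w x y z
  have h2 : c + δ < min (gp w x z) (gp w z y) := lt_min hz hcon
  linarith

theorem b4b_fwd {δ : ℝ} (hX : HypGeo X δ) (c L : ℝ) (_hc : 0 ≤ c)
    (hL : 2 * c + 4 * δ + 1 ≤ L) (x : ℕ → X) (h1 : ∀ m, L ≤ dist (x m) (x (m + 1)))
    (h2 : ∀ m, gp (x (m + 1)) (x m) (x (m + 2)) ≤ c) (i t : ℕ) :
    gp (x (i + 1 + t)) (x i) (x (i + 1 + t + 1)) ≤ c + δ := by
  have hδ := hX.nonneg
  induction t with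
  | zero => simpa using (h2 i).trans (by linarith)
  | succ t ih =>
    have e := b4b_gp_add (x (i + 1 + t)) (x (i + 1 + t + 1)) (x i)
    rw [b4b_gp_comm (x (i + 1 + t)) (x (i + 1 + t + 1)) (x i)] at e
    have e2 := h1 (i + 1 + t)
    have e3 : c + δ < gp (x (i + 1 + t + 1)) (x (i + 1 + t)) (x i) := by linarith
    exact b4b_cut hX (h2 (i + 1 + t)) e3

theorem b4b_bwd {δ : ℝ} (hX : HypGeo X δ) (c L : ℝ) (_hc : 0 ≤ c)
    (hL : 2 * c + 4 * δ + 1 ≤ L) (x : ℕ → X) (h1 : ∀ m, L ≤ dist (x m) (x (m + 1)))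
    (h2 : ∀ m, gp (x (m + 1)) (x m) (x (m + 2)) ≤ c) (t : ℕ) :
    ∀ a, gp (x (a + 1)) (x a) (x (a + 2 + t)) ≤ c + δ := by
  have hδ := hX.nonneg
  induction t with
  | zero => intro a; exact (h2 a).trans (by linarith)
  | succ t ih =>
    intro a
    have ha := ih (a + 1)
    have hidx : a + 1 + 2 + t = a + 2 + (t + 1) := by ring
    rw [hidx] at ha
    have e := b4b_gp_add (x (a + 1)) (x (a + 1 + 1)) (x (a + 2 + (t + 1)))
    have e2 := h1 (a + 1)
    have e3 : c + δ < gp (x (a + 1)) (x (a + 2)) (x (a + 2 + (t + 1))) := by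
      have : gp (x (a + 1 + 1)) (x (a + 1)) (x (a + 2 + (t + 1))) ≤ c + δ := ha
      show c + δ < gp (x (a + 1)) (x (a + 1 + 1)) (x (a + 2 + (t + 1)))
      linarith
    have e4 : gp (x (a + 1)) (x (a + 2)) (x a) ≤ c := by
      rw [b4b_gp_comm]; exact h2 a
    have e5 := b4b_cut hX e4 e3
    rwa [b4b_gp_comm] at e5

theorem b4b_large {δ : ℝ} (hX : HypGeo X δ) (c L : ℝ) (hc : 0 ≤ c)
    (hL : 2 * c + 4 * δ + 1 ≤ L) (x : ℕ → X) (h1 : ∀ m, L ≤ dist (x m) (x (m + 1)))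
    (h2 : ∀ m, gp (x (m + 1)) (x m) (x (m + 2)) ≤ c) (j k : ℕ) (hjk : j < k) :
    dist (x j) (x (j + 1)) - (c + δ) ≤ gp (x j) (x (j + 1)) (x k) := by
  have hδ := hX.nonneg
  have e := b4b_gp_add (x j) (x (j + 1)) (x k)
  obtain ⟨t, rfl⟩ := Nat.exists_eq_add_of_lt hjk
  rcases t with _ | t
  · have : gp (x (j + 1)) (x j) (x (j + 0 + 1)) = 0 := b4b_gp_self' _ _
    linarith
  · have h3 := b4b_bwd hX c L hc hL x h1 h2 t j
    have hidx : j + (t + 1) + 1 = j + 2 + t := by ring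
    rw [hidx] at e ⊢
    linarith

theorem chain_gp {X : Type*} [MetricSpace X] {δ : ℝ} (hX : HypGeo X δ) (c L : ℝ) (hc : 0 ≤ c)
    (hL : 2 * c + 4 * δ + 1 ≤ L) (x : ℕ → X) (h1 : ∀ m, L ≤ dist (x m) (x (m + 1)))
    (h2 : ∀ m, gp (x (m + 1)) (x m) (x (m + 2)) ≤ c) :
    ∀ i j k, i ≤ j → j ≤ k → gp (x j) (x i) (x k) ≤ c + 2 * δ := by
  intro i j k hij hjk
  have hδ := hX.nonneg
  rcases eq_or_lt_of_le hij with rfl | hij
  · rw [b4b_gp_self]; linarith
  rcases eq_or_lt_of_le hjk with rfl | hjk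
  · rw [b4b_gp_self']; linarith
  obtain ⟨t, rfl⟩ := Nat.exists_eq_add_of_lt hij
  have e1 := b4b_fwd hX c L hc hL x h1 h2 i t
  have hidx : i + 1 + t = i + t + 1 := by ring
  rw [hidx] at e1
  have e2 := b4b_large hX c L hc hL x h1 h2 (i + t + 1) k hjk
  have e3 := h1 (i + t + 1)
  have e4 : gp (x (i + t + 1)) (x (i + t + 1 + 1)) (x i) ≤ c + δ := by
    rw [b4b_gp_comm]; exact e1
  have e5 := b4b_cut hX e4 (z := x k) (by linarith)
  rw [b4b_gp_comm]
  linarith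

theorem chain_dist {X : Type*} [MetricSpace X] {δ : ℝ} (hX : HypGeo X δ) (c L : ℝ) (hc : 0 ≤ c)
    (hL : 2 * c + 4 * δ + 1 ≤ L) (x : ℕ → X) (h1 : ∀ m, L ≤ dist (x m) (x (m + 1)))
    (h2 : ∀ m, gp (x (m + 1)) (x m) (x (m + 2)) ≤ c) (m : ℕ) : (m : ℝ) ≤ dist (x 0) (x m) := by
  induction m with
  | zero => simp
  | succ m ih =>
    have e1 := chain_gp hX c L hc hL x h1 h2 0 m (m + 1) (Nat.zero_le _) (Nat.le_succ _)
    have e2 := h1 m
    unfold gp at e1
    rw [dist_comm (x m) (x 0)] at e1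
    push_cast
    linarith

theorem b4b_dist_le {P : ℝ} (x : ℕ → X) (h1P : ∀ m, dist (x m) (x (m + 1)) ≤ P) (m : ℕ) :
    dist (x 0) (x m) ≤ m * P := by
  induction m with
  | zero => simp
  | succ m ih =>
    have := dist_triangle (x 0) (x m) (x (m + 1))
    have := h1P m
    push_cast
    linarith

theorem chain_branch {X : Type*} [MetricSpace X] {δ : ℝ} (hX : HypGeo X δ) (c L P D : ℝ)
    (hc : 0 ≤ c) (hL : 2 * c + 4 * δ + 1 ≤ L) (hLP : P ≤ L + 2 * c)
    (hD : 6 * c + 8 * δ + 1 ≤ D) (x x' : ℕ → X)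
    (h1 : ∀ m, L ≤ dist (x m) (x (m + 1))) (h1' : ∀ m, L ≤ dist (x' m) (x' (m + 1)))
    (h1P : ∀ m, dist (x m) (x (m + 1)) ≤ P) (h1P' : ∀ m, dist (x' m) (x' (m + 1)) ≤ P)
    (h2 : ∀ m, gp (x (m + 1)) (x m) (x (m + 2)) ≤ c)
    (h2' : ∀ m, gp (x' (m + 1)) (x' m) (x' (m + 2)) ≤ c)
    (m : ℕ) (hm : ∀ i ≤ m, x i = x' i) (hne : D ≤ dist (x (m + 1)) (x' (m + 1))) :
    ∀ j j', m < j → m < j' → gp (x 0) (x j) (x' j') ≤ (m + 1) * P := by
  intro j j' hj hj'
  have hδ := hX.nonneg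
  have hp := hm m le_rfl
  have e1 := b4b_large hX c L hc hL x h1 h2 m j hj
  have e1' := b4b_large hX c L hc hL x' h1' h2' m j' hj'
  rw [← hp] at e1'
  have l1 := h1 m
  have l1' := h1' m
  have p1 := h1P m
  have p1' := h1P' m
  rw [← hp] at l1' p1'
  have e2 : gp (x m) (x j) (x' j') ≤ P := by
    by_contra hcon
    push Not at hcon
    have f1 := b4b_gp_four hX (x m) (x (m + 1)) (x' j') (x j)
    have f2 := b4b_gp_four hX (x m) (x (m + 1)) (x' (m + 1)) (x' j')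
    rw [b4b_gp_comm (x m) (x' j') (x' (m + 1))] at f2
    have g1 : L - (c + δ) ≤ min (gp (x m) (x (m + 1)) (x j)) (gp (x m) (x j) (x' j')) :=
      le_min (by linarith) (by linarith)
    have g2 : L - (c + 2 * δ) ≤ min (gp (x m) (x (m + 1)) (x' j'))
        (gp (x m) (x' (m + 1)) (x' j')) := le_min (by linarith) (by linarith)
    have g3 : L - (c + 3 * δ) ≤ gp (x m) (x (m + 1)) (x' (m + 1)) := by linarith
    unfold gp at g3
    linarith
  have e3 := b4b_dist_le x h1P m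
  have t1 := dist_triangle (x 0) (x m) (x j)
  have t2 := dist_triangle (x 0) (x m) (x' j')
  have e4 : gp (x 0) (x j) (x' j') ≤ dist (x 0) (x m) + gp (x m) (x j) (x' j') := by
    unfold gp; linarith
  linarith

end Pool.Agent.MP_8db1a4_gt
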