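import Pool.Agent.MP_8db1a4_gt.SmallDefs

set_option autoImplicit false

/-! [KAP-B4c] limit points of chains in hyperbolic space, lower bound for angles. -/

namespace Pool.Agent.MP_8db1a4_gt

open Set Filter Topology

theorem b4c_snd {n : ℕ} (x : Hy n) : x.val.2 = Real.cosh (dist (Ohy n) x) := by
  rw [cosh_dist]
  simp [lor, Ohy]

theorem b4c_norm_sq {n : ℕ} (x : Hy n) : ‖x.val.1‖ ^ 2 = x.val.2 ^ 2 - 1 := by
  have h1 := x.lor_self
  have h5 : inner ℝ x.val.1 x.val.1 = ‖x.val.1‖ ^ 2 := real_inner_self_eq_norm_sq _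
  simp only [lor, h5] at h1
  linarith

theorem exists_limit_point (n : ℕ) (c : ℝ) : ∃ C : ℝ, ∀ x : ℕ → Hy n, x 0 = Ohy n →
    (∀ j k, j ≤ k → gp (x j) (Ohy n) (x k) ≤ c) →
    Tendsto (fun j => dist (Ohy n) (x j)) atTop atTop →
    ∃ ξ : EuclideanSpace ℝ (Fin n), ‖ξ‖ = 1 ∧ ∀ j, -lor (x j).val
      (Real.sinh (dist (Ohy n) (x j)) • ξ, Real.cosh (dist (Ohy n) (x j))) ≤ C := by
  refine ⟨Real.exp (2 * c) + 1, ?_⟩
  intro x hx0 hgp hd
  -- normalised directions
  set d : ℕ → ℝ := fun j => dist (Ohy n) (x j) with hdd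
  have hq : ∀ k, (x k).val.2 = Real.cosh (d k) := fun k => b4c_snd (x k)
  set v : ℕ → EuclideanSpace ℝ (Fin n) := fun k => (Real.cosh (d k))⁻¹ • (x k).val.1 with hv
  have hcpos : ∀ k, 0 < Real.cosh (d k) := fun k => Real.cosh_pos _
  have hvn : ∀ k, ‖v k‖ ^ 2 = 1 - ((Real.cosh (d k))⁻¹) ^ 2 := by
    intro k
    simp only [hv, norm_smul, Real.norm_of_nonneg (inv_pos.mpr (hcpos k)).le, mul_pow,
      b4c_norm_sq, hq]
    have := (hcpos k).ne'
    field_simp
  have hvb : ∀ k, v k ∈ Metric.closedBall (0 : EuclideanSpace ℝ (Fin n)) 1 := by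
    intro k
    rw [mem_closedBall_zero_iff]
    have h1 := hvn k
    have h2 : 0 ≤ ((Real.cosh (d k))⁻¹) ^ 2 := sq_nonneg _
    nlinarith [norm_nonneg (v k)]
  obtain ⟨ξ, hξ, φ, hφ, hlim⟩ := (isCompact_closedBall (0 : EuclideanSpace ℝ (Fin n)) 1).tendsto_subseq hvb
  have hdφ : Tendsto (fun k => d (φ k)) atTop atTop := hd.comp hφ.tendsto_atTop
  have hcosh : Tendsto (fun k => Real.cosh (d (φ k))) atTop atTop := by
    refine tendsto_atTop_mono (fun k => ?_) hdφ
    have h1 : 0 ≤ d (φ k) := dist_nonneg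
    have h2 := Real.self_le_sinh_iff.mpr h1
    have h3 := (Real.sinh_lt_cosh (d (φ k))).le
    linarith
  have hinv : Tendsto (fun k => ((Real.cosh (d (φ k)))⁻¹) ^ 2) atTop (𝓝 0) := by
    have := (tendsto_inv_atTop_zero.comp hcosh).pow 2
    simpa using this
  have hξn : ‖ξ‖ = 1 := by
    have h1 : Tendsto (fun k => ‖v (φ k)‖ ^ 2) atTop (𝓝 (‖ξ‖ ^ 2)) := (hlim.norm).pow 2
    have h2 : Tendsto (fun k => ‖v (φ k)‖ ^ 2) atTop (𝓝 (1 - 0)) := by
      simp only [hvn]
      exact tendsto_const_nhds.sub hinv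
    have h3 := tendsto_nhds_unique h1 h2
    rw [sub_zero] at h3
    nlinarith [norm_nonneg ξ]
  refine ⟨ξ, hξn, ?_⟩
  intro j
  -- the key inequality
  have hkey : Real.cosh (d j) - inner ℝ (x j).val.1 ξ ≤ 2 * Real.exp (2 * c) * Real.exp (-d j) := by
    have h1 : Tendsto (fun k => Real.cosh (d j) - inner ℝ (x j).val.1 (v (φ k))) atTop
        (𝓝 (Real.cosh (d j) - inner ℝ (x j).val.1 ξ)) :=
      tendsto_const_nhds.sub (tendsto_const_nhds.inner hlim)
    refine le_of_tendsto h1 ?_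
    filter_upwards [hφ.tendsto_atTop.eventually_ge_atTop j] with k hk
    have h2 := hgp j (φ k) hk
    have h3 : dist (x j) (x (φ k)) ≤ d (φ k) - d j + 2 * c := by
      simp only [gp, dist_comm (x j) (Ohy n)] at h2
      simp only [hdd]
      linarith
    have h4 := cosh_dist (x j) (x (φ k))
    have h5 : Real.cosh (dist (x j) (x (φ k))) ≤ Real.exp (d (φ k) - d j + 2 * c) := by
      have h6 : 0 ≤ dist (x j) (x (φ k)) := dist_nonneg
      have h7 : Real.cosh (dist (x j) (x (φ k))) ≤ Real.exp (dist (x j) (x (φ k))) := by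
        rw [Real.cosh_eq]
        have : Real.exp (-dist (x j) (x (φ k))) ≤ Real.exp (dist (x j) (x (φ k))) :=
          Real.exp_le_exp.mpr (by linarith)
        linarith
      exact h7.trans (Real.exp_le_exp.mpr h3)
    rw [h4] at h5
    have h8 : Real.exp (d (φ k)) ≤ 2 * Real.cosh (d (φ k)) := by
      rw [Real.cosh_eq]
      have := Real.exp_pos (-d (φ k))
      linarith
    have h9 : Real.exp (d (φ k) - d j + 2 * c) =
        Real.exp (d (φ k)) * (Real.exp (2 * c) * Real.exp (-d j)) := by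
      rw [← Real.exp_add, ← Real.exp_add]
      ring_nf
    rw [h9] at h5
    have h10 : -lor (x j).val (x (φ k)).val =
        Real.cosh (d (φ k)) * (Real.cosh (d j) - inner ℝ (x j).val.1 (v (φ k))) := by
      simp only [lor, hv, real_inner_smul_right, hq]
      have := (hcpos (φ k)).ne'
      field_simp
      ring
    rw [h10] at h5
    have h11 : 0 < Real.exp (2 * c) * Real.exp (-d j) := by positivity
    have h12 := hcpos (φ k)
    have h13 : Real.cosh (d (φ k)) * (Real.cosh (d j) - inner ℝ (x j).val.1 (v (φ k))) ≤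
        Real.cosh (d (φ k)) * (2 * Real.exp (2 * c) * Real.exp (-d j)) := by
      refine h5.trans ?_
      have := mul_le_mul_of_nonneg_right h8 h11.le
      linarith
    exact le_of_mul_le_mul_left h13 h12
  have hdj : 0 ≤ d j := dist_nonneg
  have hsn : 0 ≤ Real.sinh (d j) := Real.sinh_nonneg_iff.mpr hdj
  have e1 : -lor (x j).val (Real.sinh (d j) • ξ, Real.cosh (d j)) =
      Real.sinh (d j) * (Real.cosh (d j) - inner ℝ (x j).val.1 ξ) +
        Real.cosh (d j) * (Real.cosh (d j) - Real.sinh (d j)) := by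
    simp only [lor, real_inner_smul_right, hq]
    ring
  show -lor (x j).val (Real.sinh (d j) • ξ, Real.cosh (d j)) ≤ _
  rw [e1]
  have e2 : Real.cosh (d j) - Real.sinh (d j) = Real.exp (-d j) := Real.cosh_sub_sinh _
  rw [e2]
  have e3 : Real.sinh (d j) * Real.exp (-d j) ≤ 1 / 2 := by
    rw [Real.sinh_eq, div_mul_eq_mul_div, sub_mul, ← Real.exp_add, ← Real.exp_add]
    have := Real.exp_pos (-d j + -d j)
    simp only [add_neg_cancel, Real.exp_zero]
    linarith
  have e4 : Real.cosh (d j) * Real.exp (-d j) ≤ 1 := by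
    rw [Real.cosh_eq, div_mul_eq_mul_div, add_mul, ← Real.exp_add, ← Real.exp_add]
    have : Real.exp (-d j + -d j) ≤ 1 := Real.exp_le_one_iff.mpr (by linarith)
    simp only [add_neg_cancel, Real.exp_zero]
    linarith
  have e5 := mul_le_mul_of_nonneg_left hkey hsn
  have e6 : Real.sinh (d j) * (2 * Real.exp (2 * c) * Real.exp (-d j)) ≤ Real.exp (2 * c) := by
    have := mul_le_mul_of_nonneg_left e3 (by positivity : (0 : ℝ) ≤ 2 * Real.exp (2 * c))
    linarith
  linarith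

/-- The point at distance `t` from the base point in the direction `u`. -/
noncomputable def b4c_ray {n : ℕ} (u : EuclideanSpace ℝ (Fin n)) (hu : ‖u‖ = 1) (t : ℝ) :
    Hy n where
  val := (Real.sinh t • u, Real.cosh t)
  mem := by
    have h1 : |Real.sinh t| < Real.cosh t := by
      rw [abs_lt]
      constructor <;> nlinarith [Real.exp_pos t, Real.exp_pos (-t), Real.sinh_eq t, Real.cosh_eq t]
    simpa [LCone, norm_smul, hu] using h1
  lor_self := by
    have h1 : inner ℝ (Real.sinh t • u) (Real.sinh t • u) = Real.sinh t ^ 2 := by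
      rw [real_inner_smul_left, real_inner_smul_right, real_inner_self_eq_norm_sq, hu]; ring
    simp only [lor, h1]
    nlinarith [Real.cosh_sq t]

theorem angle_lower (n : ℕ) (C : ℝ) : ∃ c₂ > (0 : ℝ), ∀ (x x' : ℕ → Hy n)
    (ξ ξ' : EuclideanSpace ℝ (Fin n)) (T : ℝ), ‖ξ‖ = 1 → ‖ξ'‖ = 1 →
    (∀ j, -lor (x j).val
      (Real.sinh (dist (Ohy n) (x j)) • ξ, Real.cosh (dist (Ohy n) (x j))) ≤ C) →
    (∀ j, -lor (x' j).val
      (Real.sinh (dist (Ohy n) (x' j)) • ξ', Real.cosh (dist (Ohy n) (x' j))) ≤ C) →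
    Tendsto (fun j => dist (Ohy n) (x j)) atTop atTop →
    Tendsto (fun j => dist (Ohy n) (x' j)) atTop atTop →
    (∀ᶠ j in atTop, gp (Ohy n) (x j) (x' j) ≤ T) → c₂ * Real.exp (-T) ≤ dist ξ ξ' := by
  set D := Real.arcosh (max C 1) with hD
  have hD1 : (1 : ℝ) ≤ max C 1 := le_max_right _ _
  refine ⟨2 * Real.exp (-D), by positivity, ?_⟩
  intro x x' ξ ξ' T hξ hξ' hx hx' hd hd' hgp
  have hmono : ∀ (z w : Hy n), -lor z.val w.val ≤ C → dist z w ≤ D := by
    intro z w h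
    have h1 := one_le_neg_lor z w
    rw [dist_def, hD]
    have h2 : -lor z.val w.val ≤ max C 1 := h.trans (le_max_left _ _)
    have h3 : Real.cosh (Real.arcosh (-lor z.val w.val)) ≤ Real.cosh (Real.arcosh (max C 1)) := by
      rw [Real.cosh_arcosh h1, Real.cosh_arcosh hD1]; exact h2
    have h4 := Real.cosh_le_cosh.mp h3
    rwa [abs_of_nonneg (Real.arcosh_nonneg h1), abs_of_nonneg (Real.arcosh_nonneg hD1)] at h4
  set a : ℕ → ℝ := fun j => dist (Ohy n) (x j) with ha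
  set b : ℕ → ℝ := fun j => dist (Ohy n) (x' j) with hb
  -- the inequality at every late time
  have hmain : ∀ᶠ j in atTop, 4 * Real.exp (-2 * T - 2 * D) ≤
      4 * (Real.exp (-2 * a j) + Real.exp (-2 * b j)) + dist ξ ξ' ^ 2 := by
    filter_upwards [hgp] with j hj
    have h1 : dist (x j) (b4c_ray ξ hξ (a j)) ≤ D := hmono _ _ (hx j)
    have h2 : dist (x' j) (b4c_ray ξ' hξ' (b j)) ≤ D := hmono _ _ (hx' j)
    have h3 : a j + b j - 2 * T - 2 * D ≤ dist (b4c_ray ξ hξ (a j)) (b4c_ray ξ' hξ' (b j)) := by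
      have h4 := dist_triangle4 (x j) (b4c_ray ξ hξ (a j)) (b4c_ray ξ' hξ' (b j)) (x' j)
      rw [dist_comm (b4c_ray ξ' hξ' (b j)) (x' j)] at h4
      simp only [gp] at hj
      simp only [ha, hb] at h1 h2 h4 ⊢
      linarith
    have h5 := cosh_dist (b4c_ray ξ hξ (a j)) (b4c_ray ξ' hξ' (b j))
    have h6 : Real.exp (a j + b j - 2 * T - 2 * D) ≤
        2 * Real.cosh (dist (b4c_ray ξ hξ (a j)) (b4c_ray ξ' hξ' (b j))) := by
      rw [Real.cosh_eq]
      have h7 := Real.exp_le_exp.mpr h3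
      have h8 := Real.exp_pos (-dist (b4c_ray ξ hξ (a j)) (b4c_ray ξ' hξ' (b j)))
      linarith
    have h9 : -lor (b4c_ray ξ hξ (a j)).val (b4c_ray ξ' hξ' (b j)).val =
        Real.cosh (a j) * Real.cosh (b j) - Real.sinh (a j) * Real.sinh (b j) * inner ℝ ξ ξ' := by
      simp only [lor, b4c_ray, real_inner_smul_right, real_inner_smul_left]
      ring
    have h10 : inner ℝ ξ ξ' = 1 - dist ξ ξ' ^ 2 / 2 := by
      have := norm_sub_sq_real ξ ξ'
      rw [hξ, hξ'] at this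
      rw [dist_eq_norm]
      linarith
    rw [h5, h9, h10] at h6
    have hca := Real.cosh_eq (a j)
    have hsa := Real.sinh_eq (a j)
    have hcb := Real.cosh_eq (b j)
    have hsb := Real.sinh_eq (b j)
    have hA := Real.exp_pos (a j)
    have hB := Real.exp_pos (b j)
    have hAA : Real.exp (-a j) = (Real.exp (a j))⁻¹ := Real.exp_neg _
    have hBB : Real.exp (-b j) = (Real.exp (b j))⁻¹ := Real.exp_neg _
    have e1 : Real.exp (a j + b j - 2 * T - 2 * D) =
        Real.exp (a j) * Real.exp (b j) * Real.exp (-2 * T - 2 * D) := by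
      rw [← Real.exp_add, ← Real.exp_add]; ring_nf
    have e2 : Real.exp (-2 * a j) = (Real.exp (a j))⁻¹ ^ 2 := by
      rw [← Real.exp_neg, ← Real.exp_nat_mul]; push_cast; ring_nf
    have e3 : Real.exp (-2 * b j) = (Real.exp (b j))⁻¹ ^ 2 := by
      rw [← Real.exp_neg, ← Real.exp_nat_mul]; push_cast; ring_nf
    rw [e1, hca, hsa, hcb, hsb, hAA, hBB] at h6
    rw [e2, e3]
    set A := Real.exp (a j)
    set B := Real.exp (b j)
    have hA1 : 1 ≤ A := Real.one_le_exp dist_nonneg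
    have hB1 : 1 ≤ B := Real.one_le_exp dist_nonneg
    have h11 : 2 * ((A + A⁻¹) / 2 * ((B + B⁻¹) / 2) -
        (A - A⁻¹) / 2 * ((B - B⁻¹) / 2) * (1 - dist ξ ξ' ^ 2 / 2)) =
        A * B * (B⁻¹ ^ 2 + A⁻¹ ^ 2 + (1 - A⁻¹ ^ 2) * (1 - B⁻¹ ^ 2) * (dist ξ ξ' ^ 2 / 4)) := by
      field_simp
      ring
    rw [h11] at h6
    have h12 := le_of_mul_le_mul_left h6 (mul_pos hA hB)
    have h13 : (1 - A⁻¹ ^ 2) * (1 - B⁻¹ ^ 2) * (dist ξ ξ' ^ 2 / 4) ≤ dist ξ ξ' ^ 2 / 4 := by
      have hi1 : 0 ≤ A⁻¹ ^ 2 := sq_nonneg _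
      have hi2 : 0 ≤ B⁻¹ ^ 2 := sq_nonneg _
      have hi3 : A⁻¹ ^ 2 ≤ 1 := pow_le_one₀ (inv_nonneg.mpr hA.le) (inv_le_one_of_one_le₀ hA1)
      have hi4 : B⁻¹ ^ 2 ≤ 1 := pow_le_one₀ (inv_nonneg.mpr hB.le) (inv_le_one_of_one_le₀ hB1)
      have hi5 : (1 - A⁻¹ ^ 2) * (1 - B⁻¹ ^ 2) ≤ 1 := by nlinarith
      have hi6 : 0 ≤ dist ξ ξ' ^ 2 / 4 := by positivity
      nlinarith
    linarith
  have hlim : Tendsto (fun j => 4 * (Real.exp (-2 * a j) + Real.exp (-2 * b j)) +
      dist ξ ξ' ^ 2) atTop (𝓝 (4 * (0 + 0) + dist ξ ξ' ^ 2)) := by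
    have h1 : Tendsto (fun j => Real.exp (-2 * a j)) atTop (𝓝 0) :=
      Real.tendsto_exp_atBot.comp (hd.const_mul_atTop_of_neg (by norm_num))
    have h2 : Tendsto (fun j => Real.exp (-2 * b j)) atTop (𝓝 0) :=
      Real.tendsto_exp_atBot.comp (hd'.const_mul_atTop_of_neg (by norm_num))
    exact ((h1.add h2).const_mul 4).add tendsto_const_nhds
  have h1 := ge_of_tendsto hlim hmain
  have h2 : 4 * Real.exp (-2 * T - 2 * D) = (2 * Real.exp (-D) * Real.exp (-T)) ^ 2 := by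
    rw [mul_pow, mul_pow, ← Real.exp_nat_mul, ← Real.exp_nat_mul, mul_assoc, ← Real.exp_add]
    push_cast
    ring_nf
  rw [h2] at h1
  have h3 : (2 * Real.exp (-D) * Real.exp (-T)) ^ 2 ≤ dist ξ ξ' ^ 2 := by linarith
  exact le_of_abs_le (abs_le_of_sq_le_sq h3 dist_nonneg)

end Pool.Agent.MP_8db1a4_gt
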