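import Mathlib

set_option autoImplicit false

namespace Pool.Agent.MP_8db1a4_gt

open Set Filter Topology

theorem b4d_first {N : ℕ} {w w' : ℕ → Fin N} (h : w ≠ w') :
    ∃ m, (∀ i < m, w i = w' i) ∧ w m ≠ w' m := by
  classical
  have hex : ∃ m, w m ≠ w' m := by
    by_contra hcon
    push Not at hcon
    exact h (funext hcon)
  exact ⟨Nat.find hex, fun i hi => not_not.mp (Nat.find_min hex hi), Nat.find_spec hex⟩

theorem dimH_coding {E : Type*} [MetricSpace E] (N : ℕ) (hN : 2 ≤ N) (Φ : (ℕ → Fin N) → E)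
    (c P : ℝ) (hc : 0 < c) (hP : 0 < P)
    (h : ∀ (w w' : ℕ → Fin N) (m : ℕ), (∀ i < m, w i = w' i) → w m ≠ w' m →
      c * Real.exp (-((m + 1) * P)) ≤ dist (Φ w) (Φ w')) :
    ENNReal.ofReal (Real.log N / P) ≤ dimH (range Φ) := by
  classical
  have : NeZero N := ⟨by omega⟩
  have hinj : Function.Injective Φ := by
    intro w w' hww
    by_contra hne
    obtain ⟨m, hm1, hm2⟩ := b4d_first hne
    have h1 := h w w' m hm1 hm2
    rw [hww, dist_self] at h1
    have h2 : 0 < c * Real.exp (-((m + 1) * P)) := by positivity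
    linarith
  have hN1 : (1 : ℝ) < N := by exact_mod_cast (by omega : 1 < N)
  have hN0 : (0 : ℝ) < N := by linarith
  have hlog : 0 < Real.log N := Real.log_pos hN1
  set r : ℝ := Real.log N / P with hr
  have hr0 : 0 < r := div_pos hlog hP
  set C : ℝ := N * c ^ (-r) with hC
  have hC0 : 0 < C := by positivity
  set f : E → ℝ := fun x => Real.ofDigits (Function.invFun Φ x) with hf
  have hfΦ : ∀ w, f (Φ w) = Real.ofDigits w := by
    intro w
    simp only [hf]
    rw [Function.leftInverse_invFun hinj w]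
  have key : ∀ w w', dist (f (Φ w)) (f (Φ w')) ≤ C * dist (Φ w) (Φ w') ^ r := by
    intro w w'
    by_cases hww : w = w'
    · rw [hww, dist_self]
      positivity
    · obtain ⟨m, hm1, hm2⟩ := b4d_first hww
      rw [hfΦ, hfΦ, Real.dist_eq]
      refine (Real.abs_ofDigits_sub_ofDigits_le hm1).trans ?_
      have h1 := h w w' m hm1 hm2
      have h2 : (c * Real.exp (-((m + 1) * P))) ^ r ≤ dist (Φ w) (Φ w') ^ r :=
        Real.rpow_le_rpow (by positivity) h1 hr0.le
      have h3 : (c * Real.exp (-((m + 1) * P))) ^ r = c ^ r * Real.exp (-((m + 1) * Real.log N)) := by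
        rw [Real.mul_rpow hc.le (Real.exp_pos _).le, ← Real.exp_mul]
        congr 2
        rw [hr]
        field_simp
      have h4 : Real.exp (-((m + 1) * Real.log N)) = ((N : ℝ) ^ (m + 1))⁻¹ := by
        rw [Real.exp_neg, ← Real.log_rpow hN0, Real.exp_log (by positivity)]
        norm_cast
      have h5 : ((N : ℝ) ^ m)⁻¹ = C * (c ^ r * ((N : ℝ) ^ (m + 1))⁻¹) := by
        rw [hC, Real.rpow_neg hc.le]
        have : c ^ r ≠ 0 := (Real.rpow_pos_of_pos hc r).ne'
        field_simp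
        rw [pow_succ]
      rw [h5]
      rw [h3, h4] at h2
      gcongr
  have hhol : HolderOnWith C.toNNReal r.toNNReal f (range Φ) := by
    rintro _ ⟨w, rfl⟩ _ ⟨w', rfl⟩
    rw [edist_dist, edist_dist, Real.coe_toNNReal r hr0.le,
      ENNReal.ofReal_rpow_of_nonneg dist_nonneg hr0.le]
    rw [show ((C.toNNReal : NNReal) : ENNReal) = ENNReal.ofReal C from rfl,
      ← ENNReal.ofReal_mul hC0.le]
    exact ENNReal.ofReal_le_ofReal (key w w')
  have hrn : 0 < r.toNNReal := Real.toNNReal_pos.mpr hr0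
  have h6 := hhol.dimH_image_le hrn
  have h7 : Icc (0 : ℝ) 1 ⊆ f '' range Φ := by
    intro y hy
    obtain ⟨w, -, hw⟩ := Real.ofDigits_SurjOn (b := N) (by omega) hy
    exact ⟨Φ w, ⟨w, rfl⟩, by rw [hfΦ, hw]⟩
  have h8 : dimH (Icc (0 : ℝ) 1) = 1 := by
    rw [Real.dimH_of_nonempty_interior]
    · simp
    · rw [interior_Icc]
      exact ⟨1 / 2, by norm_num, by norm_num⟩
  have h9 : (1 : ENNReal) ≤ dimH (range Φ) / (r.toNNReal : ENNReal) := by
    rw [← h8]
    exact (dimH_mono h7).trans h6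
  have hrne : (r.toNNReal : ENNReal) ≠ 0 := by
    rw [Ne, ENNReal.coe_eq_zero]
    exact hrn.ne'
  rw [ENNReal.le_div_iff_mul_le (Or.inl hrne) (Or.inl ENNReal.coe_ne_top), one_mul] at h9
  exact h9

end Pool.Agent.MP_8db1a4_gt
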