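import Pool.Agent.MP_8db1a4_gt.Geo.B1b
import Pool.Agent.MP_8db1a4_gt.Geo.B1c
import Pool.Agent.MP_8db1a4_gt.Geo.B4a
import Pool.Agent.MP_8db1a4_gt.Geo.B4b
import Pool.Agent.MP_8db1a4_gt.Geo.B4c
import Pool.Agent.MP_8db1a4_gt.Geo.B4d

set_option autoImplicit false

/-! [K-B4e] growth of orbits is at most the dimension of the conical limit set. -/

namespace Pool.Agent.MP_8db1a4_gt.B4e

open Set Filter Topology

/-- Partial products of a word. -/
def b4e_wp {G : Type*} [Group G] (b : ℕ → G) : ℕ → G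
  | 0 => 1
  | j + 1 => b4e_wp b j * b j

theorem b4e_wp_congr {G : Type*} [Group G] (b b' : ℕ → G) (m : ℕ) (h : ∀ i < m, b i = b' i) :
    ∀ i ≤ m, b4e_wp b i = b4e_wp b' i := by
  intro i
  induction i with
  | zero => intro _; rfl
  | succ i ih =>
    intro hi
    show b4e_wp b i * b i = b4e_wp b' i * b' i
    rw [ih (by omega), h i (by omega)]

section Iso

variable {G X : Type*} [Group G] [MetricSpace X] [MulAction G X] [IsIsometricSMul G X]

theorem b4e_dist_smul (g : G) (x y : X) : dist (g • x) (g • y) = dist x y :=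
  dist_smul g x y

theorem b4e_gp_smul (g : G) (p x y : X) : gp (g • p) (g • x) (g • y) = gp p x y := by
  unfold gp
  simp only [dist_smul]

theorem b4e_dist_step (b : ℕ → G) (o : X) (m : ℕ) :
    dist (b4e_wp b m • o) (b4e_wp b (m + 1) • o) = dist o (b m • o) := by
  show dist (b4e_wp b m • o) ((b4e_wp b m * b m) • o) = _
  rw [mul_smul, dist_smul]

theorem b4e_gp_step (b : ℕ → G) (o : X) (m : ℕ) :
    gp (b4e_wp b (m + 1) • o) (b4e_wp b m • o) (b4e_wp b (m + 2) • o)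
      = gp o ((b m)⁻¹ • o) (b (m + 1) • o) := by
  have h1 : b4e_wp b m • o = b4e_wp b (m + 1) • ((b m)⁻¹ • o) := by
    show _ = (b4e_wp b m * b m) • _
    rw [smul_smul]
    congr 1
    group
  have h2 : b4e_wp b (m + 2) • o = b4e_wp b (m + 1) • (b (m + 1) • o) := by
    show (b4e_wp b (m + 1) * b (m + 1)) • o = _
    rw [mul_smul]
  rw [h1, h2, b4e_gp_smul]

theorem b4e_dist_branch (b b' : ℕ → G) (o : X) (m : ℕ) (h : b4e_wp b m = b4e_wp b' m) :
    dist (b4e_wp b (m + 1) • o) (b4e_wp b' (m + 1) • o) = dist (b m • o) (b' m • o) := by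
  show dist ((b4e_wp b m * b m) • o) ((b4e_wp b' m * b' m) • o) = _
  rw [← h, mul_smul, mul_smul, dist_smul]

end Iso

/-- The dimension bound from one Schottky-type set. -/
theorem b4e_dim_ge {n : ℕ} {G : Type*} [Group G] (ρ : G →* (LV n →L[ℝ] LV n))
    (h : LorAction ρ) (c₁ R : ℝ) (hc₁ : 0 ≤ c₁) (hR : 3 * c₁ + 17 ≤ R) (B : Finset G)
    (hB2 : 2 ≤ B.card)
    (h1 : letI := hyAction h; ∀ b ∈ B, |dist (Ohy n) (b • Ohy n) - R| ≤ c₁)
    (h2 : letI := hyAction h; ∀ b ∈ B, ∀ b' ∈ B, gp (Ohy n) (b⁻¹ • Ohy n) (b' • Ohy n) ≤ c₁)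
    (h3 : letI := hyAction h; ∀ b ∈ B, ∀ b' ∈ B, b ≠ b' →
      6 * c₁ + 33 ≤ dist (b • Ohy n) (b' • Ohy n)) :
    ENNReal.ofReal (Real.log B.card / (R + c₁)) ≤ dimH (conLim ρ) := by
  let _ := hyAction h
  have : IsIsometricSMul G (Hy n) := hy_isometric h
  have hX := hy_hypGeo n
  set N := B.card with hN
  let e : Fin N ≃ B := B.equivFin.symm
  let bw : (ℕ → Fin N) → ℕ → G := fun w j => (e (w j) : G)
  have hbw : ∀ w j, bw w j ∈ B := fun w j => (e (w j)).2
  let x : (ℕ → Fin N) → ℕ → Hy n := fun w j => b4e_wp (bw w) j • Ohy n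
  have hx0 : ∀ w, x w 0 = Ohy n := fun w => one_smul G _
  have hstep : ∀ w m, dist (x w m) (x w (m + 1)) = dist (Ohy n) (bw w m • Ohy n) :=
    fun w m => b4e_dist_step _ _ _
  have hL : 2 * c₁ + 4 * (4 : ℝ) + 1 ≤ R - c₁ := by linarith
  have hlow : ∀ w m, R - c₁ ≤ dist (x w m) (x w (m + 1)) := by
    intro w m
    rw [hstep]
    have := (abs_le.mp (h1 _ (hbw w m))).1
    linarith
  have hup : ∀ w m, dist (x w m) (x w (m + 1)) ≤ R + c₁ := by
    intro w m
    rw [hstep]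
    have := (abs_le.mp (h1 _ (hbw w m))).2
    linarith
  have hgp : ∀ w m, gp (x w (m + 1)) (x w m) (x w (m + 2)) ≤ c₁ := by
    intro w m
    show gp (b4e_wp (bw w) (m + 1) • Ohy n) (b4e_wp (bw w) m • Ohy n)
      (b4e_wp (bw w) (m + 2) • Ohy n) ≤ c₁
    rw [b4e_gp_step]
    exact h2 _ (hbw w m) _ (hbw w (m + 1))
  have hchain : ∀ w i j k, i ≤ j → j ≤ k → gp (x w j) (x w i) (x w k) ≤ c₁ + 2 * 4 :=
    fun w => chain_gp hX c₁ (R - c₁) hc₁ hL (x w) (hlow w) (hgp w)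
  have hdist : ∀ w (m : ℕ), (m : ℝ) ≤ dist (Ohy n) (x w m) := by
    intro w m
    have := chain_dist hX c₁ (R - c₁) hc₁ hL (x w) (hlow w) (hgp w) m
    rwa [hx0] at this
  have htend : ∀ w, Tendsto (fun j => dist (Ohy n) (x w j)) atTop atTop := fun w =>
    tendsto_atTop_mono (hdist w) tendsto_natCast_atTop_atTop
  obtain ⟨C, hC⟩ := exists_limit_point n (c₁ + 2 * 4)
  have hlim : ∀ w, ∃ ξ : EuclideanSpace ℝ (Fin n), ‖ξ‖ = 1 ∧ ∀ j, -lor (x w j).val
      (Real.sinh (dist (Ohy n) (x w j)) • ξ, Real.cosh (dist (Ohy n) (x w j))) ≤ C := by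
    intro w
    refine hC (x w) (hx0 w) ?_ (htend w)
    intro j k hjk
    have := hchain w 0 j k (Nat.zero_le _) hjk
    rwa [hx0] at this
  choose Φ hΦ1 hΦ2 using hlim
  obtain ⟨c₂, hc₂, hang⟩ := angle_lower n C
  have hsep : ∀ (w w' : ℕ → Fin N) (m : ℕ), (∀ i < m, w i = w' i) → w m ≠ w' m →
      c₂ * Real.exp (-((m + 1) * (R + c₁))) ≤ dist (Φ w) (Φ w') := by
    intro w w' m hag hne
    refine hang (x w) (x w') (Φ w) (Φ w') _ (hΦ1 w) (hΦ1 w') (hΦ2 w) (hΦ2 w') (htend w)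
      (htend w') ?_
    have hpre : ∀ i ≤ m, b4e_wp (bw w) i = b4e_wp (bw w') i := by
      refine b4e_wp_congr _ _ m ?_
      intro i hi
      show (e (w i) : G) = (e (w' i) : G)
      rw [hag i hi]
    have hbr : ∀ j j', m < j → m < j' → gp (x w 0) (x w j) (x w' j') ≤ (m + 1) * (R + c₁) := by
      refine chain_branch hX c₁ (R - c₁) (R + c₁) (6 * c₁ + 33) hc₁ hL (by linarith)
        (by linarith) (x w) (x w') (hlow w) (hlow w') (hup w) (hup w') (hgp w) (hgp w') m ?_ ?_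
      · intro i hi
        show b4e_wp (bw w) i • Ohy n = b4e_wp (bw w') i • Ohy n
        rw [hpre i hi]
      · show _ ≤ dist (b4e_wp (bw w) (m + 1) • Ohy n) (b4e_wp (bw w') (m + 1) • Ohy n)
        rw [b4e_dist_branch _ _ _ _ (hpre m le_rfl)]
        refine h3 _ (hbw w m) _ (hbw w' m) ?_
        intro hcon
        exact hne (e.injective (Subtype.ext hcon))
    filter_upwards [eventually_gt_atTop m] with j hj
    have := hbr j j hj hj
    rwa [hx0] at this
  have hP : 0 < R + c₁ := by linarith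
  have hdim := dimH_coding N hB2 Φ c₂ (R + c₁) hc₂ hP hsep
  refine hdim.trans (dimH_mono ?_)
  rintro _ ⟨w, rfl⟩
  exact ⟨hΦ1 w, C, b4e_wp (bw w), fun j => dist (Ohy n) (x w j), htend w, fun k => hΦ2 w k⟩

theorem b4e_shells {G X : Type*} [Group G] [MetricSpace X] [MulAction G X]
    (hprop : ProperAct G X) (o : X) (K s₁ s : ℝ) (hK : 0 < K) (hs₁ : 0 < s₁) (hss : s₁ < s)
    (hsh : ∀ R : ℕ, ({g : G | (R : ℝ) ≤ dist o (g • o) ∧ dist o (g • o) ≤ R + 1}.ncard : ℝ)
      ≤ K * Real.exp (s₁ * R)) : GrowthLE G o s := by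
  refine ⟨K * (1 / (s - s₁) + 1), by
    have : 0 < s - s₁ := by linarith
    positivity, ?_⟩
  intro r hr
  have hd : 0 < s - s₁ := by linarith
  set m := ⌊r⌋₊ with hm
  have hmr : (m : ℝ) ≤ r := Nat.floor_le hr
  let A : ℕ → Set G := fun R => {g : G | (R : ℝ) ≤ dist o (g • o) ∧ dist o (g • o) ≤ R + 1}
  have hfin : ∀ R, (A R).Finite := fun R => (hprop o o (R + 1)).subset (fun g hg => hg.2)
  have hsub : {g : G | dist o (g • o) ≤ r} ⊆ ⋃ i ∈ Finset.range (m + 1), A i := by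
    intro g hg
    have hg' : dist o (g • o) ≤ r := hg
    refine mem_iUnion₂.mpr ⟨⌊dist o (g • o)⌋₊, ?_, ?_, ?_⟩
    · exact Finset.mem_range.mpr (Nat.lt_succ_of_le (Nat.floor_mono hg'))
    · exact Nat.floor_le dist_nonneg
    · exact (Nat.lt_floor_add_one _).le
  have hfinU : (⋃ i ∈ Finset.range (m + 1), A i).Finite :=
    Set.Finite.biUnion (Finset.finite_toSet _) (fun i _ => hfin i)
  have h1 : ({g : G | dist o (g • o) ≤ r}.ncard : ℝ) ≤ ∑ i ∈ Finset.range (m + 1), ((A i).ncard : ℝ) := by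
    have h2 : {g : G | dist o (g • o) ≤ r}.ncard ≤ (⋃ i ∈ Finset.range (m + 1), A i).ncard :=
      Set.ncard_le_ncard hsub hfinU
    have h3 : (⋃ i ∈ Finset.range (m + 1), A i).ncard ≤ ∑ i ∈ Finset.range (m + 1), (A i).ncard := by
      exact Finset.set_ncard_biUnion_le _ _
    exact_mod_cast h2.trans h3
  have h4 : ∑ i ∈ Finset.range (m + 1), ((A i).ncard : ℝ) ≤ (m + 1) * (K * Real.exp (s₁ * r)) := by
    have : ∀ i ∈ Finset.range (m + 1), ((A i).ncard : ℝ) ≤ K * Real.exp (s₁ * r) := by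
      intro i hi
      refine (hsh i).trans ?_
      have hi' : (i : ℝ) ≤ r := by
        have : i ≤ m := Nat.lt_succ_iff.mp (Finset.mem_range.mp hi)
        exact (Nat.cast_le.mpr this).trans hmr
      have : Real.exp (s₁ * i) ≤ Real.exp (s₁ * r) :=
        Real.exp_le_exp.mpr (mul_le_mul_of_nonneg_left hi' hs₁.le)
      exact mul_le_mul_of_nonneg_left this hK.le
    have h5 := Finset.sum_le_card_nsmul _ _ _ this
    rw [Finset.card_range, nsmul_eq_mul] at h5
    push_cast at h5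
    exact h5
  refine h1.trans (h4.trans ?_)
  have h6 : (m : ℝ) + 1 ≤ (1 / (s - s₁) + 1) * Real.exp ((s - s₁) * r) := by
    have h7 : (s - s₁) * r + 1 ≤ Real.exp ((s - s₁) * r) := Real.add_one_le_exp _
    have h8 : 0 ≤ (s - s₁) * r := by positivity
    have h9 : r ≤ 1 / (s - s₁) * Real.exp ((s - s₁) * r) := by
      rw [div_mul_eq_mul_div, one_mul, le_div_iff₀ hd]
      linarith
    nlinarith
  have h10 : Real.exp (s * r) = Real.exp ((s - s₁) * r) * Real.exp (s₁ * r) := by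
    rw [← Real.exp_add]; congr 1; ring
  rw [h10]
  have h11 : 0 < Real.exp (s₁ * r) := Real.exp_pos _
  calc ((m : ℝ) + 1) * (K * Real.exp (s₁ * r))
      ≤ ((1 / (s - s₁) + 1) * Real.exp ((s - s₁) * r)) * (K * Real.exp (s₁ * r)) :=
        mul_le_mul_of_nonneg_right h6 (by positivity)
    _ = _ := by ring

theorem growth_of_dimH {n : ℕ} {G : Type*} [Group G] (ρ : G →* (LV n →L[ℝ] LV n))
    (h : LorAction ρ) (hd : LorDiscrete ρ) (F : Finset G) (c₀ : ℝ)
    (hF : letI := hyAction h; ∀ z w : Hy n, ∃ a ∈ F, gp (Ohy n) z (a • w) ≤ c₀)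
    (s : ℝ) (hs0 : 0 < s) (hs : dimH (conLim ρ) < ENNReal.ofReal s) :
    letI := hyAction h; GrowthLE G (Ohy n) s := by
  let _ := hyAction h
  have : IsIsometricSMul G (Hy n) := hy_isometric h
  have hX := hy_hypGeo n
  have hprop : ProperAct G (Hy n) := hy_properAct h hd
  obtain ⟨c₁, hc₁, hD⟩ := exists_schottky hX (hy_packing n) hprop (Ohy n) F c₀ hF
  obtain ⟨η, hη, R₀, hsch⟩ := hD (6 * c₁ + 33)
  obtain ⟨y, hy1, hy2⟩ := exists_between hs
  have hytop : y ≠ ⊤ := ne_top_of_lt hy2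
  have hypos : 0 < y := lt_of_le_of_lt zero_le hy1
  set s₁ := y.toReal with hs₁
  have hy_eq : ENNReal.ofReal s₁ = y := ENNReal.ofReal_toReal hytop
  have hs₁pos : 0 < s₁ := ENNReal.toReal_pos hypos.ne' hytop
  have hss : s₁ < s := by
    rw [← hy_eq] at hy2
    exact (ENNReal.ofReal_lt_ofReal_iff hs0).mp hy2
  have hdimlt : dimH (conLim ρ) < ENNReal.ofReal s₁ := by rw [hy_eq]; exact hy1
  set R₁ : ℝ := max R₀ (3 * c₁ + 17) with hR₁
  set K₁ : ℝ := Real.exp (s₁ * c₁) / η with hK₁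
  have hK₁pos : 0 < K₁ := div_pos (Real.exp_pos _) hη
  let A : ℕ → Set G := fun R => {g : G | (R : ℝ) ≤ dist (Ohy n) (g • Ohy n) ∧
    dist (Ohy n) (g • Ohy n) ≤ R + 1}
  have hfin : ∀ R, (A R).Finite := fun R =>
    (hprop (Ohy n) (Ohy n) (R + 1)).subset (fun g hg => hg.2)
  have hbig : ∀ R : ℕ, R₁ ≤ R → ((A R).ncard : ℝ) ≤ K₁ * Real.exp (s₁ * R) := by
    intro R hR
    obtain ⟨B, hB1, hB2, hB3, hB4⟩ := hsch R ((le_max_left _ _).trans hR) (hfin R).toFinset
      (fun g hg => by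
        have := (hfin R).mem_toFinset.mp hg
        exact this)
    rw [← Set.ncard_eq_toFinset_card _ (hfin R)] at hB1
    have hRpos : 0 ≤ s₁ * R := by positivity
    have hA : ((A R).ncard : ℝ) ≤ B.card / η := by
      rw [le_div_iff₀ hη]; linarith
    refine hA.trans ?_
    have hgoal : (B.card : ℝ) ≤ Real.exp (s₁ * c₁) * Real.exp (s₁ * R) := by
      rcases Nat.lt_or_ge B.card 2 with hlt | hge
      · have h1 : (B.card : ℝ) ≤ 1 := by exact_mod_cast Nat.lt_succ_iff.mp hlt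
        have h2 : 1 ≤ Real.exp (s₁ * c₁) := Real.one_le_exp (by positivity)
        have h3 : 1 ≤ Real.exp (s₁ * R) := Real.one_le_exp hRpos
        nlinarith
      · have hdim := b4e_dim_ge ρ h c₁ R hc₁ ((le_max_right _ _).trans hR) B hge hB2 hB3 hB4
        have hlt := hdim.trans_lt hdimlt
        have hlt' : Real.log B.card / (R + c₁) < s₁ := (ENNReal.ofReal_lt_ofReal_iff hs₁pos).mp hlt
        have hP : 0 < (R : ℝ) + c₁ := by
          have := (le_max_right R₀ (3 * c₁ + 17)).trans hR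
          linarith
        rw [div_lt_iff₀ hP] at hlt'
        have hBpos : (0 : ℝ) < B.card := by
          have : 0 < B.card := by omega
          exact_mod_cast this
        rw [← Real.exp_add, ← Real.log_le_iff_le_exp hBpos]
        nlinarith
    calc (B.card : ℝ) / η ≤ (Real.exp (s₁ * c₁) * Real.exp (s₁ * R)) / η :=
          div_le_div_of_nonneg_right hgoal hη.le
      _ = K₁ * Real.exp (s₁ * R) := by rw [hK₁]; ring
  set m₁ := ⌈R₁⌉₊ with hm₁
  set K : ℝ := K₁ + ∑ i ∈ Finset.range m₁, ((A i).ncard : ℝ) with hK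
  have hsum : 0 ≤ ∑ i ∈ Finset.range m₁, ((A i).ncard : ℝ) :=
    Finset.sum_nonneg (fun i _ => Nat.cast_nonneg _)
  refine b4e_shells hprop (Ohy n) K s₁ s (by linarith) hs₁pos hss ?_
  intro R
  show ((A R).ncard : ℝ) ≤ _
  have hexp : 1 ≤ Real.exp (s₁ * R) := Real.one_le_exp (by positivity)
  rcases lt_or_ge R m₁ with hlt | hge
  · have h1 : ((A R).ncard : ℝ) ≤ ∑ i ∈ Finset.range m₁, ((A i).ncard : ℝ) :=
      Finset.single_le_sum (f := fun i => ((A i).ncard : ℝ)) (fun i _ => Nat.cast_nonneg _)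
        (Finset.mem_range.mpr hlt)
    nlinarith
  · have h1 := hbig R ((Nat.le_ceil R₁).trans (by exact_mod_cast hge))
    nlinarith

end Pool.Agent.MP_8db1a4_gt.B4e

namespace Pool.Agent.MP_8db1a4_gt

export B4e (growth_of_dimH)

end Pool.Agent.MP_8db1a4_gt
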