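import Pool.Agent.MP_8db1a4_gt.Geo.B2
import Pool.Agent.MP_8db1a4_gt.Geo.B3d
import Pool.Agent.MP_8db1a4_gt.Geo.B1c
import Pool.Agent.MP_8db1a4_gt.Geo.B3c

set_option autoImplicit false

/-! Task B5: no common fixed point at infinity (MP_8db1a4_gt). -/

namespace Pool.Agent.MP_8db1a4_gt.B5

open Set Filter Topology Pool.Agent.MP_8db1a4_gt

variable {n : ℕ} {G : Type*} [Group G] {ρ : G →* (LV n →L[ℝ] LV n)}

/-- A distance bound from a bound on the form. -/
theorem b5_dist_le {x y : Hy n} {r : ℝ} (hr : 0 ≤ r) (h : -lor x.val y.val ≤ Real.cosh r) :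
    dist x y ≤ r := by
  rw [← cosh_dist] at h
  have := Real.cosh_le_cosh.mp h
  rwa [abs_of_nonneg dist_nonneg, abs_of_nonneg hr] at this

theorem b5_factor_pos (h : LorAction ρ) (g : G) (u : EuclideanSpace ℝ (Fin n)) (hu : ‖u‖ = 1)
    (a : ℝ) (hg : ρ g (u, 1) = a • ((u, 1) : LV n)) : 0 < a := by
  have h0 : a ≠ 0 := by
    rintro rfl
    rw [zero_smul] at hg
    have h1 : ρ g⁻¹ (ρ g ((u, 1) : LV n)) = (u, 1) := rho_inv_apply ρ g _
    rw [hg, map_zero] at h1
    have := congrArg Prod.snd h1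
    simp at this
  have hc : ∀ t : ℝ, 0 < t → 0 < a + t * (ρ g ((0, 1) : LV n)).2 := by
    intro t ht
    have hX : ((u, 1 + t) : LV n) ∈ LCone n := by
      show ‖u‖ < 1 + t
      rw [hu]; linarith
    have h1 := h.cone g _ hX
    have h2 : ((u, 1 + t) : LV n) = (u, 1) + t • ((0, 1) : LV n) := by
      ext <;> simp
    rw [h2, map_add, map_smul, hg] at h1
    have h3 : 0 < (a • ((u, 1) : LV n) + t • ρ g ((0, 1) : LV n)).2 :=
      lt_of_le_of_lt (norm_nonneg _) h1
    simpa using h3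
  have hge : 0 ≤ a := by
    by_contra hneg
    push Not at hneg
    set q := (ρ g ((0, 1) : LV n)).2 with hq
    have h1 := hc 1 one_pos
    have hqpos : 0 < q := by linarith
    have h2 := hc (-a / (2 * q)) (by apply div_pos <;> linarith)
    have h3 : -a / (2 * q) * q = -a / 2 := by field_simp
    rw [h3] at h2
    linarith
  exact lt_of_le_of_ne hge (Ne.symm h0)

theorem b5_pow_factor (g : G) (v : LV n) (a : ℝ) (hg : ρ g v = a • v) (j : ℕ) :
    ρ (g ^ j) v = a ^ j • v := by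
  induction j with
  | zero => simp
  | succ j ih =>
    rw [pow_succ, map_mul]
    show ρ (g ^ j) (ρ g v) = _
    rw [hg, map_smul, ih, smul_smul, pow_succ]
    congr 1; ring

theorem b5_inv_factor (g : G) (v : LV n) (a : ℝ) (ha : a ≠ 0) (hg : ρ g v = a • v) :
    ρ g⁻¹ v = a⁻¹ • v := by
  have h1 : ρ g⁻¹ (ρ g v) = v := rho_inv_apply ρ g v
  rw [hg, map_smul] at h1
  calc ρ g⁻¹ v = a⁻¹ • (a • ρ g⁻¹ v) := by rw [smul_smul, inv_mul_cancel₀ ha, one_smul]
    _ = a⁻¹ • v := by rw [h1]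

theorem b5_zpow_factor (g : G) (v : LV n) (a : ℝ) (ha : a ≠ 0) (hg : ρ g v = a • v) (j : ℤ) :
    ρ (g ^ j) v = a ^ j • v := by
  rcases j with j | j
  · simpa using b5_pow_factor g v a hg j
  · rw [zpow_negSucc, zpow_negSucc]
    exact b5_inv_factor _ v _ (pow_ne_zero _ ha) (b5_pow_factor g v a hg (j + 1))

/-- Commutation inside a cyclic centralizer. -/
theorem b5_comm_of_cyclic {x g k : G} (hc : IsCyclic (Subgroup.centralizer {x}))
    (hg : g * x = x * g) (hk : k * x = x * k) : g * k = k * g := by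
  haveI := hc
  have hg' : g ∈ Subgroup.centralizer {x} := by
    rw [Subgroup.mem_centralizer_singleton_iff]; exact hg
  have hk' : k ∈ Subgroup.centralizer {x} := by
    rw [Subgroup.mem_centralizer_singleton_iff]; exact hk
  obtain ⟨c, hcgen⟩ := IsCyclic.exists_generator (α := Subgroup.centralizer {x})
  obtain ⟨i, hi⟩ := hcgen ⟨g, hg'⟩
  obtain ⟨j, hj⟩ := hcgen ⟨k, hk'⟩
  have h1 : (⟨g, hg'⟩ : Subgroup.centralizer {x}) * ⟨k, hk'⟩ = ⟨k, hk'⟩ * ⟨g, hg'⟩ := by
    rw [← hi, ← hj]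
    exact (Commute.refl c).zpow_zpow i j
  exact congrArg Subtype.val h1

/-- Case of a factor `> 1`: everything fixing the null direction commutes with `g`. -/
theorem b5_loxodromic (h : LorAction ρ) (hd : LorDiscrete ρ) (htf : TorsFree G)
    (hcyc : ∀ g : G, g ≠ 1 → IsCyclic (Subgroup.centralizer {g}))
    (u : EuclideanSpace ℝ (Fin n)) (hu : ‖u‖ = 1) (g k : G) (a b : ℝ) (ha : 1 < a)
    (hg : ρ g (u, 1) = a • ((u, 1) : LV n)) (hk : ρ k (u, 1) = b • ((u, 1) : LV n)) :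
    g * k = k * g := by
  letI := hyAction h
  haveI := hy_isometric h
  have hb : 0 < b := b5_factor_pos h k u hu b hk
  have ha0 : a ≠ 0 := by linarith
  set w : G := g * k * g⁻¹ * k⁻¹ with hw
  have hw1 : ρ w (u, 1) = (1 : ℝ) • ((u, 1) : LV n) := by
    have i1 := b5_inv_factor g _ a ha0 hg
    have i2 := b5_inv_factor k _ b hb.ne' hk
    rw [hw, map_mul, map_mul, map_mul]
    show ρ g (ρ k (ρ g⁻¹ (ρ k⁻¹ (u, 1)))) = _
    simp only [map_smul, i1, i2, hk, hg, smul_smul]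
    congr 1
    field_simp
  by_contra hne
  have hwne : w ≠ 1 := by
    intro h1
    apply hne
    rw [hw] at h1
    have := mul_inv_eq_one.mp h1
    have h2 : g * k * g⁻¹ = k := this
    calc g * k = g * k * g⁻¹ * g := by group
      _ = k * g := by rw [h2]
  have hgne : g ≠ 1 := by
    rintro rfl
    apply hne; simp
  obtain ⟨D, hD⟩ := ray_orbit ρ h g u hu a ha hg
  obtain ⟨c, hc0, hc⟩ := ray_motion ρ h w u hu 1 one_pos hw1
  obtain ⟨r, hr0, hr⟩ : ∃ r : ℝ, 0 ≤ r ∧ 1 + c ≤ Real.cosh r :=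
    ⟨Real.arcosh (1 + c), Real.arcosh_nonneg (by linarith), by
      rw [Real.cosh_arcosh (by linarith)]⟩
  have hla : 0 < Real.log a := Real.log_pos ha
  have hbound : ∀ j : ℕ, dist (Ohy n) (((g ^ j)⁻¹ * w * g ^ j) • Ohy n) ≤ 2 * D + r := by
    intro j
    have t0 : (0 : ℝ) ≤ j * Real.log a := by positivity
    have h1 : dist (w • rayPt u hu (j * Real.log a)) (rayPt u hu (j * Real.log a)) ≤ r := by
      apply b5_dist_le hr0
      have h2 := hc (j * Real.log a)
      rw [Real.log_one, add_zero] at h2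
      refine h2.trans (le_trans ?_ hr)
      have h3 : Real.exp (-2 * (j * Real.log a)) ≤ 1 := by
        rw [Real.exp_le_one_iff]; linarith
      nlinarith
    have h4 : dist (Ohy n) (((g ^ j)⁻¹ * w * g ^ j) • Ohy n) =
        dist (g ^ j • Ohy n) (w • g ^ j • Ohy n) := by
      rw [← dist_smul (g ^ j) (Ohy n), smul_smul, smul_smul]
      congr 2
      group
    rw [h4]
    have h5 := hD j
    have t1 := dist_triangle (g ^ j • Ohy n) (rayPt u hu (j * Real.log a)) (w • g ^ j • Ohy n)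
    have t2 := dist_triangle (rayPt u hu (j * Real.log a)) (w • rayPt u hu (j * Real.log a))
      (w • g ^ j • Ohy n)
    have t3 : dist (w • rayPt u hu (j * Real.log a)) (w • g ^ j • Ohy n) =
        dist (g ^ j • Ohy n) (rayPt u hu (j * Real.log a)) := by
      rw [dist_smul, dist_comm]
    have t4 : dist (rayPt u hu (j * Real.log a)) (w • rayPt u hu (j * Real.log a)) =
        dist (w • rayPt u hu (j * Real.log a)) (rayPt u hu (j * Real.log a)) := dist_comm _ _
    linarith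
  have hfin := hy_properAct h hd (Ohy n) (Ohy n) (2 * D + r)
  obtain ⟨i, j, hij, heq⟩ : ∃ i j : ℕ, i < j ∧
      (g ^ i)⁻¹ * w * g ^ i = (g ^ j)⁻¹ * w * g ^ j := by
    by_contra hcon
    push Not at hcon
    have hinj : Function.Injective (fun j : ℕ => (g ^ j)⁻¹ * w * g ^ j) := by
      intro i j hij
      rcases lt_trichotomy i j with hlt | rfl | hlt
      · exact absurd hij (hcon i j hlt)
      · rfl
      · exact absurd hij.symm (hcon j i hlt)
    exact (Set.infinite_of_injective_forall_mem hinj (fun j => hbound j)) hfin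
  obtain ⟨m, rfl⟩ := Nat.exists_eq_add_of_lt hij
  set x : G := g ^ (m + 1) with hx
  have hxne : x ≠ 1 := fun h1 => hgne (htf g (m + 1) (Nat.succ_pos m) h1)
  have hwx : w * x = x * w := by
    have e1 : g ^ (i + m + 1) = g ^ i * x := by rw [hx, ← pow_add]; ring_nf
    have e2 : g ^ (i + m + 1) = x * g ^ i := by rw [hx, ← pow_add]; ring_nf
    have e3 : (g ^ (i + m + 1))⁻¹ * w * g ^ (i + m + 1) = (g ^ i)⁻¹ * (x⁻¹ * w * x) * g ^ i := by
      nth_rewrite 1 [e2]
      rw [e2]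
      group
    rw [e3] at heq
    have e4 : w = x⁻¹ * w * x := by
      have := mul_right_cancel heq
      exact mul_left_cancel this
    calc w * x = x * (x⁻¹ * w * x) := by group
      _ = x * w := by rw [← e4]
  have hgx : g * x = x * g := by rw [hx, ← pow_succ, ← pow_succ']
  haveI := hcyc x hxne
  have hwm : w ∈ Subgroup.centralizer {x} := by
    rw [Subgroup.mem_centralizer_singleton_iff]; exact hwx
  have hgm : g ∈ Subgroup.centralizer {x} := by
    rw [Subgroup.mem_centralizer_singleton_iff]; exact hgx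
  obtain ⟨z, hz⟩ := IsCyclic.exists_generator (α := Subgroup.centralizer {x})
  obtain ⟨p, hp⟩ := hz ⟨w, hwm⟩
  obtain ⟨q, hq⟩ := hz ⟨g, hgm⟩
  have hp' : ((z : G)) ^ p = w := congrArg Subtype.val hp
  have hq' : ((z : G)) ^ q = g := congrArg Subtype.val hq
  have hpq : w ^ q = g ^ p := by
    rw [← hp', ← hq', ← zpow_mul, ← zpow_mul, mul_comm]
  have f1 := b5_zpow_factor w _ 1 one_ne_zero hw1 q
  have f2 := b5_zpow_factor g _ a ha0 hg p
  rw [hpq, f2, one_zpow] at f1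
  have f3 : a ^ p = 1 := by
    have := congrArg Prod.snd f1
    simpa using this
  have f4 : p = 0 := by
    by_contra hp0
    rcases lt_or_gt_of_ne hp0 with hlt | hgt
    · exact absurd f3 (ne_of_lt (zpow_lt_one_of_neg₀ ha hlt))
    · exact absurd f3 (ne_of_gt (one_lt_zpow₀ ha hgt))
  rw [f4, zpow_zero] at hp'
  exact hwne hp'.symm

/-- Parabolic elements: a nontrivial power is small far out on the ray. -/
theorem b5_parabolic (h : LorAction ρ) (htf : TorsFree G)
    (ε : ℝ) (hB : letI := hyAction h; SmallSets (X := Hy n) (smallAt ρ ε) (elemSub G))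
    (u : EuclideanSpace ℝ (Fin n)) (hu : ‖u‖ = 1) (g : G) (hgne : g ≠ 1)
    (hg : ρ g (u, 1) = (1 : ℝ) • ((u, 1) : LV n)) :
    ∃ T : ℝ, ∀ t ≥ T, ∃ x ∈ smallAt ρ ε (rayPt u hu t), x ≠ 1 ∧ g * x = x * g := by
  classical
  letI := hyAction h
  haveI := hy_isometric h
  obtain ⟨M, hM, hpig⟩ := hB.pigeon 1
  have hpow : ∀ j : ℕ, ∃ T : ℝ, ∀ t ≥ T, dist (rayPt u hu t) (g ^ j • rayPt u hu t) ≤ 1 := by
    intro j
    have hj : ρ (g ^ j) (u, 1) = (1 : ℝ) • ((u, 1) : LV n) := by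
      have := b5_pow_factor g _ 1 hg j
      rwa [one_pow] at this
    obtain ⟨c, hc0, hc⟩ := ray_motion ρ h (g ^ j) u hu 1 one_pos hj
    have hlim : Tendsto (fun t : ℝ => 1 + c * Real.exp (-2 * t)) atTop (𝓝 (1 + c * 0)) := by
      refine Tendsto.const_add _ (Tendsto.const_mul _ ?_)
      refine Real.tendsto_exp_atBot.comp ?_
      exact tendsto_id.const_mul_atTop_of_neg (by norm_num)
    have h1 : 1 + c * 0 < Real.cosh 1 := by
      rw [mul_zero, add_zero]
      exact Real.one_lt_cosh.mpr one_ne_zero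
    obtain ⟨T, hT⟩ := eventually_atTop.mp (hlim.eventually_lt_const h1)
    refine ⟨T, fun t ht => ?_⟩
    rw [dist_comm]
    apply b5_dist_le zero_le_one
    have h2 := hc t
    rw [Real.log_one, add_zero] at h2
    exact h2.trans (hT t ht).le
  choose T hT using hpow
  have hex : ∃ T₀ : ℝ, ∀ j ∈ Finset.range (M + 1), T j ≤ T₀ := by
    obtain ⟨T₀, hT₀⟩ := ((Finset.range (M + 1)).image T).exists_le
    exact ⟨T₀, fun j hj => hT₀ _ (Finset.mem_image_of_mem T hj)⟩
  obtain ⟨T₀, hT₀⟩ := hex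
  refine ⟨T₀, fun t ht => ?_⟩
  have hinj : Function.Injective (fun j : ℕ => g ^ j) := by
    intro i j hij
    have key : ∀ i j : ℕ, i < j → g ^ i ≠ g ^ j := by
      intro i j hlt heq
      obtain ⟨m, rfl⟩ := Nat.exists_eq_add_of_lt hlt
      apply hgne
      apply htf g (m + 1) (Nat.succ_pos m)
      have : g ^ i * g ^ (m + 1) = g ^ i * 1 := by
        rw [← pow_add, mul_one, heq]; ring_nf
      exact mul_left_cancel this
    rcases lt_trichotomy i j with hlt | rfl | hlt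
    · exact absurd hij (key i j hlt)
    · rfl
    · exact absurd hij.symm (key j i hlt)
  set S : Finset G := (Finset.range (M + 1)).image (fun j => g ^ j) with hS
  have hScard : S.card = M + 1 := by
    rw [hS, Finset.card_image_of_injective _ hinj, Finset.card_range]
  have hSdisp : ∀ x ∈ S, dist (rayPt u hu t) (x • rayPt u hu t) ≤ 1 := by
    intro x hx
    rw [hS, Finset.mem_image] at hx
    obtain ⟨j, hj, rfl⟩ := hx
    exact hT j t ((hT₀ j hj).trans ht)
  have hSne : S.Nonempty := by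
    rw [← Finset.card_pos, hScard]; omega
  obtain ⟨g₀, hg₀, hcard⟩ := hpig (rayPt u hu t) S hSdisp hSne
  set F : Set G := {x ∈ (S : Set G) | g₀⁻¹ * x ∈ smallAt ρ ε (rayPt u hu t)} with hF
  have hFfin : F.Finite := S.finite_toSet.subset (fun x hx => hx.1)
  have hF2 : 1 < F.ncard := by
    rw [hScard] at hcard
    by_contra hle
    push Not at hle
    have h1 : (F.ncard : ℝ) ≤ 1 := by exact_mod_cast hle
    have hM' : (0 : ℝ) < M := by exact_mod_cast hM
    push_cast at hcard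
    nlinarith
  obtain ⟨x, hx, hxne⟩ : ∃ x ∈ F, x ≠ g₀ := by
    by_contra hcon
    push Not at hcon
    have : F ⊆ {g₀} := fun x hx => hcon x hx
    have := Set.ncard_le_ncard this (Set.finite_singleton _)
    rw [Set.ncard_singleton] at this
    omega
  have hcomm : ∀ y ∈ S, Commute g y := by
    intro y hy
    rw [hS, Finset.mem_image] at hy
    obtain ⟨j, -, rfl⟩ := hy
    exact (Commute.refl g).pow_right j
  refine ⟨g₀⁻¹ * x, hx.2, ?_, ?_⟩
  · intro h1
    apply hxne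
    have := inv_mul_eq_one.mp h1
    exact this.symm
  · exact ((hcomm g₀ hg₀).inv_right.mul_right (hcomm x hx.1)).eq

/-! ### [K-B5] no common fixed point at infinity -/

theorem no_common_fixed {n : ℕ} {G : Type*} [Group G] (ρ : G →* (LV n →L[ℝ] LV n))
    (h : LorAction ρ) (hd : LorDiscrete ρ) (htf : TorsFree G)
    (hcyc : ∀ g : G, g ≠ 1 → IsCyclic (Subgroup.centralizer {g}))
    (g₁ g₂ : G) (hne : g₁ * g₂ ≠ g₂ * g₁) (ξ : LV n) (hξ : ξ ≠ 0) (hξ0 : lor ξ ξ = 0)
    (a b : ℝ) (h₁ : ρ g₁ ξ = a • ξ) (h₂ : ρ g₂ ξ = b • ξ) : False := by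
  -- normalisation
  have hn : ‖ξ.1‖ ^ 2 = ξ.2 ^ 2 := by
    have : lor ξ ξ = ‖ξ.1‖ ^ 2 - ξ.2 ^ 2 := by
      simp only [lor, real_inner_self_eq_norm_sq]; ring
    linarith
  have hξ2 : ξ.2 ≠ 0 := by
    intro h0
    apply hξ
    have : ξ.1 = 0 := by
      rw [← norm_eq_zero, ← sq_eq_zero_iff, hn, h0]; ring
    exact Prod.ext this h0
  set u : EuclideanSpace ℝ (Fin n) := (ξ.2)⁻¹ • ξ.1 with hu'
  have hu : ‖u‖ = 1 := by
    have h1 : ‖u‖ ^ 2 = 1 := by
      rw [hu', norm_smul, mul_pow, hn, norm_inv, Real.norm_eq_abs, inv_pow, sq_abs]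
      field_simp
    have h2 : ‖u‖ ^ 2 = 1 ^ 2 := by rw [h1]; ring
    exact (sq_eq_sq₀ (norm_nonneg _) zero_le_one).mp h2
  have hueq : ((u, 1) : LV n) = (ξ.2)⁻¹ • ξ := by
    ext1
    · rfl
    · simp [inv_mul_cancel₀ hξ2]
  have k₁ : ρ g₁ (u, 1) = a • ((u, 1) : LV n) := by
    rw [hueq, map_smul, h₁, smul_comm]
  have k₂ : ρ g₂ (u, 1) = b • ((u, 1) : LV n) := by
    rw [hueq, map_smul, h₂, smul_comm]
  have ha := b5_factor_pos h g₁ u hu a k₁
  have hb := b5_factor_pos h g₂ u hu b k₂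
  have lox : ∀ (g k : G) (c e : ℝ), c ≠ 1 → 0 < c → ρ g (u, 1) = c • ((u, 1) : LV n) →
      ρ k (u, 1) = e • ((u, 1) : LV n) → g * k = k * g := by
    intro g k c e hc1 hc0 hg hk
    rcases lt_or_gt_of_ne hc1 with hlt | hgt
    · have hg' := b5_inv_factor g _ c hc0.ne' hg
      have h1 := b5_loxodromic h hd htf hcyc u hu g⁻¹ k c⁻¹ e ((one_lt_inv₀ hc0).mpr hlt) hg' hk
      have h2 : Commute g⁻¹ k := h1
      exact (Commute.inv_left_iff.mp h2).eq
    · exact b5_loxodromic h hd htf hcyc u hu g k c e hgt hg hk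
  by_cases ha1 : a = 1
  swap
  · exact hne (lox g₁ g₂ a b ha1 ha k₁ k₂)
  by_cases hb1 : b = 1
  swap
  · exact hne (lox g₂ g₁ b a hb1 hb k₂ k₁).symm
  rw [ha1] at k₁
  rw [hb1] at k₂
  have hg₁ : g₁ ≠ 1 := by rintro rfl; exact hne (by simp)
  have hg₂ : g₂ ≠ 1 := by rintro rfl; exact hne (by simp)
  letI := hyAction h
  obtain ⟨ε, -, hB⟩ := exists_smallSets ρ h hd htf hcyc
  obtain ⟨T₁, hT₁⟩ := b5_parabolic h htf ε hB u hu g₁ hg₁ k₁
  obtain ⟨T₂, hT₂⟩ := b5_parabolic h htf ε hB u hu g₂ hg₂ k₂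
  obtain ⟨x₁, hx₁, hx₁n, hc₁⟩ := hT₁ (max T₁ T₂) (le_max_left _ _)
  obtain ⟨x₂, hx₂, hx₂n, hc₂⟩ := hT₂ (max T₁ T₂) (le_max_right _ _)
  obtain ⟨Γ, hΓ, hsub⟩ := hB.cover (rayPt u hu (max T₁ T₂)) ⟨x₁, hx₁, hx₁n⟩
  have hcom : x₁ * x₂ = x₂ * x₁ := hB.comm Γ hΓ x₁ (hsub hx₁) x₂ (hsub hx₂)
  have e1 : g₁ * x₂ = x₂ * g₁ := b5_comm_of_cyclic (hcyc x₁ hx₁n) hc₁ hcom.symm
  exact hne (b5_comm_of_cyclic (hcyc x₂ hx₂n) e1 hc₂)

end Pool.Agent.MP_8db1a4_gt.B5

namespace Pool.Agent.MP_8db1a4_gt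

export B5 (no_common_fixed)

end Pool.Agent.MP_8db1a4_gt
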