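import Pool.Agent.MP_8db1a4_gt.SmallDefs
import Pool.Agent.MP_8db1a4_gt.Geo.B1c

set_option autoImplicit false

namespace Pool.Agent.MP_8db1a4_gt

open Set Filter Topology

theorem b6_lor_O {n : ℕ} (Y : LV n) : lor (Ohy n).val Y = -Y.2 := by
  simp [lor, Ohy]

theorem b6_cosh_O {n : ℕ} (z : Hy n) : Real.cosh (dist (Ohy n) z) = z.val.2 := by
  rw [cosh_dist, b6_lor_O, neg_neg]

/-- A null vector orthogonal to the null vector `(ζ,1)` is a multiple of it. -/
theorem b6_null {n : ℕ} {ζ : EuclideanSpace ℝ (Fin n)} (hζ : ‖ζ‖ = 1) {Y : LV n}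
    (hY : lor Y Y = 0) (h0 : lor ((ζ, 1) : LV n) Y = 0) : Y = Y.2 • ((ζ, 1) : LV n) := by
  have h1 : inner ℝ ζ Y.1 = Y.2 := by
    simp only [lor] at h0
    linarith
  have h2 : ‖Y.1‖ ^ 2 = Y.2 ^ 2 := by
    simp only [lor, real_inner_self_eq_norm_sq] at hY
    linarith
  have h3 : ‖Y.1 - Y.2 • ζ‖ ^ 2 = 0 := by
    rw [norm_sub_sq_real, inner_smul_right, real_inner_comm, h1, norm_smul, hζ, h2,
      Real.norm_eq_abs, mul_one, sq_abs]
    ring
  have h4 : Y.1 - Y.2 • ζ = 0 := by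
    rw [← norm_eq_zero]
    exact pow_eq_zero_iff (two_ne_zero) |>.mp h3
  refine Prod.ext ?_ ?_
  · simpa using sub_eq_zero.mp h4
  · simp

theorem b6_dir {n : ℕ} (z : Hy n) : z.val = z.val.2 • (((z.val.2)⁻¹ • z.val.1, 1) : LV n) := by
  have h : 0 < z.val.2 := lt_of_le_of_lt (norm_nonneg _) z.mem
  refine Prod.ext ?_ ?_
  · simp [smul_smul, mul_inv_cancel₀ h.ne']
  · simp

theorem b6_norm_dir {n : ℕ} (z : Hy n) :
    ‖(z.val.2)⁻¹ • z.val.1‖ ^ 2 = 1 - (z.val.2)⁻¹ ^ 2 := by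
  have h : 0 < z.val.2 := lt_of_le_of_lt (norm_nonneg _) z.mem
  have h1 := z.lor_self
  simp only [lor, real_inner_self_eq_norm_sq] at h1
  rw [norm_smul, mul_pow, Real.norm_eq_abs, sq_abs]
  have h2 : ‖z.val.1‖ ^ 2 = z.val.2 ^ 2 - 1 := by nlinarith
  rw [h2]
  field_simp

theorem exists_transversal {n : ℕ} {G : Type*} [Group G] (ρ : G →* (LV n →L[ℝ] LV n))
    (h : LorAction ρ) (g₁ g₂ : G)
    (hno : ∀ ξ : LV n, ξ ≠ 0 → lor ξ ξ = 0 → ∀ a b : ℝ, ρ g₁ ξ = a • ξ → ρ g₂ ξ = b • ξ → False) :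
    letI := hyAction h; ∃ c₀ : ℝ, ∀ z w : Hy n, ∃ a ∈ ({1, g₁, g₂} : Set G),
      gp (Ohy n) z (a • w) ≤ c₀ := by
  letI := hyAction h
  show ∃ c₀ : ℝ, ∀ z w : Hy n, ∃ a ∈ ({1, g₁, g₂} : Set G), gp (Ohy n) z (a • w) ≤ c₀
  by_contra hcon
  push Not at hcon
  choose z w hzw using fun j : ℕ => hcon (j : ℝ)
  -- directions
  set u : ℕ → EuclideanSpace ℝ (Fin n) × EuclideanSpace ℝ (Fin n) := fun j =>
    (((z j).val.2)⁻¹ • (z j).val.1, ((w j).val.2)⁻¹ • (w j).val.1) with hu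
  have hpos : ∀ x : Hy n, 0 < x.val.2 := fun x => lt_of_le_of_lt (norm_nonneg _) x.mem
  have hnorm : ∀ x : Hy n, ‖(x.val.2)⁻¹ • x.val.1‖ ≤ 1 := by
    intro x
    have h1 := b6_norm_dir x
    have h2 : (0 : ℝ) ≤ (x.val.2)⁻¹ ^ 2 := sq_nonneg _
    nlinarith [norm_nonneg ((x.val.2)⁻¹ • x.val.1)]
  have hK : IsCompact (Metric.closedBall (0 : EuclideanSpace ℝ (Fin n)) 1 ×ˢ
      Metric.closedBall (0 : EuclideanSpace ℝ (Fin n)) 1) :=
    (isCompact_closedBall _ _).prod (isCompact_closedBall _ _)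
  obtain ⟨⟨ζ, ω⟩, -, φ, hφ, hlim⟩ := hK.tendsto_subseq (x := u) fun j => by
    refine ⟨?_, ?_⟩
    · rw [mem_closedBall_zero_iff]
      exact hnorm _
    · rw [mem_closedBall_zero_iff]
      exact hnorm _
  -- distances tend to infinity
  have hdz : ∀ j : ℕ, (j : ℝ) ≤ dist (Ohy n) (z j) := by
    intro j
    have h1 := hzw j 1 (by simp)
    rw [one_smul] at h1
    unfold gp at h1
    have h2 := dist_triangle (Ohy n) (z j) (w j)
    linarith
  have hdw : ∀ j : ℕ, (j : ℝ) ≤ dist (Ohy n) (w j) := by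
    intro j
    have h1 := hzw j 1 (by simp)
    rw [one_smul] at h1
    unfold gp at h1
    have h2 := dist_triangle (Ohy n) (w j) (z j)
    rw [dist_comm (w j) (z j)] at h2
    linarith
  have hbig : ∀ x : ℕ → Hy n, (∀ j : ℕ, (j : ℝ) ≤ dist (Ohy n) (x j)) →
      Tendsto (fun j => (x j).val.2) atTop atTop := by
    intro x hx
    have h1 : ∀ j : ℕ, (j : ℝ) ≤ (x j).val.2 := by
      intro j
      rw [← b6_cosh_O]
      have h2 : dist (Ohy n) (x j) ≤ Real.cosh (dist (Ohy n) (x j)) := by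
        have h3 := Real.add_one_le_exp (dist (Ohy n) (x j))
        have h4 : (0 : ℝ) ≤ dist (Ohy n) (x j) := dist_nonneg
        have h5 := Real.cosh_sq (dist (Ohy n) (x j))
        have h6 : dist (Ohy n) (x j) ≤ Real.sinh (dist (Ohy n) (x j)) := Real.self_le_sinh_iff.mpr h4
        have h7 := Real.sinh_lt_cosh (dist (Ohy n) (x j))
        linarith
      exact (hx j).trans h2
    exact tendsto_atTop_mono h1 tendsto_natCast_atTop_atTop
  have hone : ∀ x : ℕ → Hy n, (∀ j : ℕ, (j : ℝ) ≤ dist (Ohy n) (x j)) →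
      ∀ v : EuclideanSpace ℝ (Fin n),
      Tendsto (fun j => ((x (φ j)).val.2)⁻¹ • (x (φ j)).val.1) atTop (𝓝 v) → ‖v‖ = 1 := by
    intro x hx v hv
    have h1 : Tendsto (fun j => ‖((x (φ j)).val.2)⁻¹ • (x (φ j)).val.1‖ ^ 2) atTop
        (𝓝 (‖v‖ ^ 2)) := hv.norm.pow 2
    have h2 : Tendsto (fun j => ‖((x (φ j)).val.2)⁻¹ • (x (φ j)).val.1‖ ^ 2) atTop (𝓝 1) := by
      simp_rw [b6_norm_dir]
      have h3 : Tendsto (fun j => ((x (φ j)).val.2)⁻¹) atTop (𝓝 0) :=
        ((hbig x hx).comp hφ.tendsto_atTop).inv_tendsto_atTop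
      have h4 := (h3.pow 2).const_sub 1
      simpa using h4
    have h5 := tendsto_nhds_unique h1 h2
    have h6 : (0 : ℝ) ≤ ‖v‖ := norm_nonneg v
    nlinarith
  have hlz : Tendsto (fun j => ((z (φ j)).val.2)⁻¹ • (z (φ j)).val.1) atTop (𝓝 ζ) :=
    (continuous_fst.tendsto (ζ, ω)).comp hlim
  have hlw : Tendsto (fun j => ((w (φ j)).val.2)⁻¹ • (w (φ j)).val.1) atTop (𝓝 ω) :=
    (continuous_snd.tendsto (ζ, ω)).comp hlim
  have hζ : ‖ζ‖ = 1 := hone z hdz ζ hlz
  have hω : ‖ω‖ = 1 := hone w hdw ω hlw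
  -- orthogonality
  have horth : ∀ a ∈ ({1, g₁, g₂} : Set G), lor ((ζ, 1) : LV n) (ρ a ((ω, 1) : LV n)) = 0 := by
    intro a ha
    have hc1 : Tendsto (fun j => -lor ((((z (φ j)).val.2)⁻¹ • (z (φ j)).val.1, 1) : LV n)
        (ρ a ((((w (φ j)).val.2)⁻¹ • (w (φ j)).val.1, 1) : LV n))) atTop
        (𝓝 (-lor ((ζ, 1) : LV n) (ρ a ((ω, 1) : LV n)))) := by
      have h1 : Tendsto (fun j => ((((z (φ j)).val.2)⁻¹ • (z (φ j)).val.1, (1 : ℝ)) : LV n)) atTop
          (𝓝 ((ζ, 1) : LV n)) := hlz.prodMk_nhds tendsto_const_nhds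
      have h2 : Tendsto (fun j => ((((w (φ j)).val.2)⁻¹ • (w (φ j)).val.1, (1 : ℝ)) : LV n)) atTop
          (𝓝 ((ω, 1) : LV n)) := hlw.prodMk_nhds tendsto_const_nhds
      have h3 := (ρ a).continuous.tendsto ((ω, 1) : LV n) |>.comp h2
      exact (((continuous_lor n).tendsto _).comp (h1.prodMk_nhds h3)).neg
    have hc2 : Tendsto (fun j => 4 * Real.exp (-(2 * (φ j : ℝ))) *
        (ρ a ((((w (φ j)).val.2)⁻¹ • (w (φ j)).val.1, 1) : LV n)).2) atTop
        (𝓝 (4 * 0 * (ρ a ((ω, 1) : LV n)).2)) := by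
      have h2 : Tendsto (fun j => ((((w (φ j)).val.2)⁻¹ • (w (φ j)).val.1, (1 : ℝ)) : LV n)) atTop
          (𝓝 ((ω, 1) : LV n)) := hlw.prodMk_nhds tendsto_const_nhds
      have h3 := (continuous_snd.tendsto _).comp
        ((ρ a).continuous.tendsto ((ω, 1) : LV n) |>.comp h2)
      have h4 : Tendsto (fun j => Real.exp (-(2 * (φ j : ℝ)))) atTop (𝓝 0) := by
        apply Real.tendsto_exp_atBot.comp
        apply tendsto_neg_atTop_atBot.comp
        exact (tendsto_natCast_atTop_atTop.comp hφ.tendsto_atTop).const_mul_atTop (by norm_num)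
      exact (h4.const_mul 4).mul h3
    have hb1 : ∀ j, 0 ≤ -lor ((((z (φ j)).val.2)⁻¹ • (z (φ j)).val.1, 1) : LV n)
        (ρ a ((((w (φ j)).val.2)⁻¹ • (w (φ j)).val.1, 1) : LV n)) ∧
        -lor ((((z (φ j)).val.2)⁻¹ • (z (φ j)).val.1, 1) : LV n)
        (ρ a ((((w (φ j)).val.2)⁻¹ • (w (φ j)).val.1, 1) : LV n)) ≤
        4 * Real.exp (-(2 * (φ j : ℝ))) *
        (ρ a ((((w (φ j)).val.2)⁻¹ • (w (φ j)).val.1, 1) : LV n)).2 := by
      intro j
      set Z := z (φ j) with hZ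
      set W := w (φ j) with hW
      have hZ2 := hpos Z
      have hW2 := hpos W
      set ZD : LV n := ((Z.val.2)⁻¹ • Z.val.1, 1) with hZD
      set WD : LV n := ((W.val.2)⁻¹ • W.val.1, 1) with hWD
      have e1 : Z.val = Z.val.2 • ZD := b6_dir Z
      have e2 : W.val = W.val.2 • WD := b6_dir W
      have e3 : -lor Z.val (ρ a W.val) = Z.val.2 * W.val.2 * (-lor ZD (ρ a WD)) := by
        conv_lhs => rw [e1, e2]
        rw [map_smul, lor_smul_left, lor_smul_right]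
        ring
      have e4 : (ρ a W.val).2 = W.val.2 * (ρ a WD).2 := by
        conv_lhs => rw [e2]
        rw [map_smul]
        rfl
      have e5 : Real.cosh (dist Z (a • W)) = -lor Z.val (ρ a W.val) := cosh_dist Z (a • W)
      have e6 : Real.cosh (dist (Ohy n) Z) = Z.val.2 := b6_cosh_O Z
      have e7 : Real.cosh (dist (Ohy n) (a • W)) = (ρ a W.val).2 := b6_cosh_O (a • W)
      have h1 := hzw (φ j) a ha
      rw [← hZ, ← hW] at h1
      unfold gp at h1
      have h2 : Real.cosh (dist Z (a • W)) ≤ Real.exp (dist Z (a • W)) := by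
        rw [Real.cosh_eq]
        have : Real.exp (-dist Z (a • W)) ≤ Real.exp (dist Z (a • W)) := by
          apply Real.exp_le_exp.mpr
          have := dist_nonneg (x := Z) (y := a • W)
          linarith
        linarith
      have h3 : Real.exp (dist Z (a • W)) ≤ Real.exp (-(2 * (φ j : ℝ))) *
          (Real.exp (dist (Ohy n) Z) * Real.exp (dist (Ohy n) (a • W))) := by
        rw [← Real.exp_add, ← Real.exp_add]
        apply Real.exp_le_exp.mpr
        linarith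
      have h4 : ∀ t : ℝ, Real.exp t ≤ 2 * Real.cosh t := by
        intro t
        rw [Real.cosh_eq]
        have := Real.exp_pos (-t)
        linarith
      have h5 : -lor Z.val (ρ a W.val) ≤ Real.exp (-(2 * (φ j : ℝ))) *
          ((2 * Z.val.2) * (2 * (ρ a W.val).2)) := by
        rw [← e5]
        refine h2.trans (h3.trans ?_)
        rw [← e6, ← e7]
        gcongr
        · exact h4 _
        · exact h4 _
      have h6 : 1 ≤ -lor Z.val (ρ a W.val) := one_le_neg_lor Z (a • W)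
      rw [e3] at h5 h6
      rw [e4] at h5
      have hzw0 : 0 < Z.val.2 * W.val.2 := mul_pos hZ2 hW2
      constructor
      · by_contra hneg
        push Not at hneg
        nlinarith
      · have h7 : Z.val.2 * W.val.2 * (-lor ZD (ρ a WD)) ≤ Z.val.2 * W.val.2 *
            (4 * Real.exp (-(2 * (φ j : ℝ))) * (ρ a WD).2) := by
          calc Z.val.2 * W.val.2 * (-lor ZD (ρ a WD)) ≤ _ := h5
            _ = _ := by ring
        exact le_of_mul_le_mul_left h7 hzw0
    have h0 : -lor ((ζ, 1) : LV n) (ρ a ((ω, 1) : LV n)) = 0 := by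
      apply le_antisymm
      · have h1 := le_of_tendsto_of_tendsto hc1 hc2 (Eventually.of_forall fun j => (hb1 j).2)
        simpa using h1
      · exact ge_of_tendsto hc1 (Eventually.of_forall fun j => (hb1 j).1)
    linarith
  have hnull : ∀ a : G, lor (ρ a ((ω, 1) : LV n)) (ρ a ((ω, 1) : LV n)) = 0 := by
    intro a
    rw [h.lor_eq]
    simp only [lor, real_inner_self_eq_norm_sq, hω]
    norm_num
  have h1 := b6_null hζ (hnull 1) (horth 1 (by simp))
  have hωζ : ω = ζ := by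
    have h2 : ρ 1 ((ω, 1) : LV n) = ((ω, 1) : LV n) := by simp
    rw [h2] at h1
    have h3 := congrArg Prod.fst h1
    simpa using h3
  subst hωζ
  refine hno ((ω, 1) : LV n) ?_ ?_ _ _ (b6_null hζ (hnull g₁) (horth g₁ (by simp)))
    (b6_null hζ (hnull g₂) (horth g₂ (by simp)))
  · intro h0
    have := congrArg Prod.snd h0
    simp at this
  · simp only [lor, real_inner_self_eq_norm_sq, hω]
    norm_num

end Pool.Agent.MP_8db1a4_gt
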