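import Pool.Agent.MP_8db1a4_gt.SmallDefs

set_option autoImplicit false

namespace Pool.Agent.MP_8db1a4_gt

open Set

private theorem b7_zpow_eq_one {G : Type*} [Group G] (htf : TorsFree G) (c : G) (hc : c ≠ 1)
    (k : ℤ) (hk : c ^ k = 1) : k = 0 := by
  by_contra hne
  apply hc
  have hpos : 0 < k.natAbs := Int.natAbs_pos.mpr hne
  refine htf c k.natAbs hpos ?_
  rcases Int.natAbs_eq k with h | h
  · rw [h, zpow_natCast] at hk
    exact hk
  · rw [h, zpow_neg, zpow_natCast, inv_eq_one] at hk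
    exact hk

/-- [K-B7] a maximal elementary subgroup is its own normalizer. -/
theorem elemSub_normalizer {G : Type*} [Group G] (htf : TorsFree G)
    (hcyc : ∀ g : G, g ≠ 1 → IsCyclic (Subgroup.centralizer {g})) (Γ : Subgroup G)
    (hΓ : Γ ∈ elemSub G) (h : G) (hh : Γ.map (MulAut.conj h).toMonoidHom = Γ) : h ∈ Γ := by
  obtain ⟨g, hg, rfl⟩ := hΓ
  obtain ⟨⟨c, hcm⟩, hcgen⟩ := (hcyc g hg).exists_generator
  have hgen : ∀ x ∈ Subgroup.centralizer {g}, ∃ k : ℤ, c ^ k = x := by
    intro x hx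
    obtain ⟨k, hk⟩ := Subgroup.mem_zpowers_iff.mp (hcgen ⟨x, hx⟩)
    refine ⟨k, ?_⟩
    have := congrArg Subtype.val hk
    simpa using this
  have hgm : g ∈ Subgroup.centralizer {g} := by
    rw [Subgroup.mem_centralizer_singleton_iff]
  have hmem : ∀ x : G, x * c = c * x → x ∈ Subgroup.centralizer {g} := by
    intro x hx
    obtain ⟨m, hm⟩ := hgen g hgm
    rw [Subgroup.mem_centralizer_singleton_iff, ← hm]
    exact (Commute.zpow_right hx m).eq
  have hc1 : c ≠ 1 := by
    rintro rfl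
    obtain ⟨m, hm⟩ := hgen g hgm
    rw [one_zpow] at hm
    exact hg hm.symm
  have h1 : h * c * h⁻¹ ∈ Subgroup.centralizer {g} := by
    have : (MulAut.conj h).toMonoidHom c ∈
        (Subgroup.centralizer {g}).map (MulAut.conj h).toMonoidHom :=
      Subgroup.mem_map_of_mem _ hcm
    rw [hh] at this
    simpa using this
  have h2 : h⁻¹ * c * h ∈ Subgroup.centralizer {g} := by
    have : c ∈ (Subgroup.centralizer {g}).map (MulAut.conj h).toMonoidHom := by
      rw [hh]; exact hcm
    obtain ⟨y, hy, hyc⟩ := this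
    have hy' : h * y * h⁻¹ = c := by simpa using hyc
    have : h⁻¹ * c * h = y := by rw [← hy']; group
    rw [this]; exact hy
  obtain ⟨a, ha⟩ := hgen _ h1
  obtain ⟨b, hb⟩ := hgen _ h2
  have hab : c ^ (a * b) = c := by
    rw [zpow_mul, ha, conj_zpow, hb]; group
  have hab1 : a * b - 1 = 0 := by
    apply b7_zpow_eq_one htf c hc1
    rw [zpow_sub, hab, zpow_one, mul_inv_cancel]
  have hab2 : a * b = 1 := by linarith
  rcases Int.mul_eq_one_iff_eq_one_or_neg_one.mp hab2 with ⟨h3, -⟩ | ⟨h3, -⟩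
  · rw [h3, zpow_one] at ha
    apply hmem
    calc h * c = (h * c * h⁻¹) * h := by group
      _ = c * h := by rw [← ha]
  · rw [h3, zpow_neg, zpow_one] at ha
    -- `h c h⁻¹ = c⁻¹`
    have hsq : (h * h) * c = c * (h * h) := by
      have e1 : h * c = c⁻¹ * h := by
        calc h * c = (h * c * h⁻¹) * h := by group
          _ = c⁻¹ * h := by rw [← ha]
      have e2 : h * c⁻¹ = c * h := by
        have : h * c⁻¹ * h⁻¹ = c := by
          have h5 : (h * c * h⁻¹)⁻¹ = c := by rw [← ha, inv_inv]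
          calc h * c⁻¹ * h⁻¹ = (h * c * h⁻¹)⁻¹ := by group
            _ = c := h5
        calc h * c⁻¹ = (h * c⁻¹ * h⁻¹) * h := by group
          _ = c * h := by rw [this]
      calc (h * h) * c = h * (h * c) := by group
        _ = (h * c⁻¹) * h := by rw [e1]; group
        _ = c * (h * h) := by rw [e2]; group
    obtain ⟨k, hk⟩ := hgen _ (hmem _ hsq)
    have hk2 : c ^ (-k) = h * h := by
      have : h * (c ^ k) * h⁻¹ = h * h := by rw [hk]; group
      rw [← this, ← conj_zpow, ← ha]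
      rw [zpow_neg, inv_zpow]
    have hk3 : k + k = 0 := by
      apply b7_zpow_eq_one htf c hc1
      have : c ^ k = c ^ (-k) := by rw [hk, hk2]
      rw [zpow_add]
      nth_rewrite 1 [this]
      rw [← zpow_add]
      simp
    have hk0 : k = 0 := by linarith
    rw [hk0, zpow_zero] at hk
    have : h = 1 := htf h 2 (by norm_num) (by rw [pow_two]; exact hk.symm)
    rw [this]
    exact Subgroup.one_mem _

theorem exists_not_commute {G : Type*} [Group G] (hncyc : ¬ IsCyclic G)
    (hcyc : ∀ g : G, g ≠ 1 → IsCyclic (Subgroup.centralizer {g})) :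
    ∃ g₁ g₂ : G, g₁ * g₂ ≠ g₂ * g₁ := by
  by_contra hcon
  push Not at hcon
  apply hncyc
  by_cases hex : ∃ g : G, g ≠ 1
  · obtain ⟨g, hg⟩ := hex
    obtain ⟨⟨c, hcm⟩, hcgen⟩ := (hcyc g hg).exists_generator
    refine ⟨⟨c, fun x => ?_⟩⟩
    have hx : x ∈ Subgroup.centralizer {g} := by
      rw [Subgroup.mem_centralizer_singleton_iff]
      exact hcon x g
    obtain ⟨k, hk⟩ := Subgroup.mem_zpowers_iff.mp (hcgen ⟨x, hx⟩)
    refine Subgroup.mem_zpowers_iff.mpr ⟨k, ?_⟩
    have := congrArg Subtype.val hk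
    simpa using this
  · push Not at hex
    refine ⟨⟨1, fun x => ?_⟩⟩
    rw [hex x]
    exact (Subgroup.zpowers (1 : G)).one_mem

end Pool.Agent.MP_8db1a4_gt
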