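import Pool.Agent.MP_8db1a4_gt.Collar
import Pool.Agent.MP_8db1a4_gt.Geo.B1c

set_option autoImplicit false

/-! [K-C1a] the potential: summability, continuity, homogeneity, invariance. -/

namespace Pool.Agent.MP_8db1a4_gt

open Set

/-- Summability of `exp (-s a)` from a growth bound. -/
theorem c1a_summable_exp {G : Type*} (a : G → ℝ) (ha : ∀ g, 0 ≤ a g) (C s₀ s : ℝ)
    (hs : s₀ < s) (hfin : ∀ r : ℝ, {g : G | a g ≤ r}.Finite)
    (hgr : ∀ r : ℝ, 0 ≤ r → ({g : G | a g ≤ r}.ncard : ℝ) ≤ C * Real.exp (s₀ * r)) :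
    Summable (fun g => Real.exp (-(s * a g))) := by
  classical
  by_cases hs0 : 0 ≤ s
  swap
  · -- then everything is finite anyway
    have hs0' : s < 0 := not_le.1 hs0
    have hbound : ∀ r : ℝ, 0 ≤ r → ({g : G | a g ≤ r}.ncard : ℝ) ≤ C := by
      intro r hr
      refine (hgr r hr).trans ?_
      have hC : 0 ≤ C := by
        have := hgr 0 le_rfl
        rw [mul_zero, Real.exp_zero, mul_one] at this
        exact le_trans (Nat.cast_nonneg _) this
      have h1 : Real.exp (s₀ * r) ≤ 1 := by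
        rw [Real.exp_le_one_iff]
        nlinarith
      nlinarith
    have hfinG : Finite G := by
      by_contra hinf
      rw [not_finite_iff_infinite] at hinf
      obtain ⟨t, ht⟩ := Infinite.exists_subset_card_eq G (⌊C⌋₊ + 1)
      have hne : t.Nonempty := by
        rw [← Finset.card_pos, ht]
        omega
      obtain ⟨r, hr⟩ : ∃ r : ℝ, 0 ≤ r ∧ ∀ g ∈ t, a g ≤ r :=
        ⟨t.sup' hne a, (ha _).trans (Finset.le_sup' a hne.choose_spec),
          fun g hg => Finset.le_sup' a hg⟩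
      have h2 : (t : Set G) ⊆ {g : G | a g ≤ r} := fun g hg => hr.2 g hg
      have h3 := Set.ncard_le_ncard h2 (hfin r)
      rw [Set.ncard_coe_finset, ht] at h3
      have h4 := hbound r hr.1
      have h5 : ((⌊C⌋₊ + 1 : ℕ) : ℝ) ≤ C := le_trans (by exact_mod_cast h3) h4
      have h6 := Nat.lt_floor_add_one C
      push_cast at h5
      linarith
    have := Fintype.ofFinite G
    exact (hasSum_fintype (fun g => Real.exp (-(s * a g)))).summable
  set q : ℝ := Real.exp (s₀ - s) with hq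
  have hq0 : 0 ≤ q := (Real.exp_pos _).le
  have hq1 : q < 1 := by
    rw [hq, Real.exp_lt_one_iff]
    linarith
  have hgeo : Summable (fun j : ℕ => C * Real.exp s₀ * q ^ j) :=
    (summable_geometric_of_lt_one hq0 hq1).mul_left _
  have hC : 0 ≤ C := by
    have := hgr 0 le_rfl
    rw [mul_zero, Real.exp_zero, mul_one] at this
    exact le_trans (Nat.cast_nonneg _) this
  refine summable_of_sum_le (c := ∑' j : ℕ, C * Real.exp s₀ * q ^ j)
    (fun g => (Real.exp_pos _).le) ?_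
  intro F
  have h1 : ∑ g ∈ F, Real.exp (-(s * a g)) ≤
      ∑ g ∈ F, Real.exp (-(s * (⌊a g⌋₊ : ℝ))) := by
    refine Finset.sum_le_sum fun g _ => ?_
    rw [Real.exp_le_exp]
    have := Nat.floor_le (ha g)
    nlinarith
  refine h1.trans ?_
  rw [Finset.sum_comp (fun j : ℕ => Real.exp (-(s * (j : ℝ)))) (fun g => ⌊a g⌋₊)]
  have h2 : ∀ j ∈ F.image (fun g => ⌊a g⌋₊),
      (F.filter (fun g => ⌊a g⌋₊ = j)).card • Real.exp (-(s * (j : ℝ))) ≤
        C * Real.exp s₀ * q ^ j := by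
    intro j _
    have h3 : ((F.filter (fun g => ⌊a g⌋₊ = j)).card : ℝ) ≤ C * Real.exp (s₀ * (j + 1)) := by
      refine le_trans ?_ (hgr (j + 1) (by positivity))
      have h4 : ((F.filter (fun g => ⌊a g⌋₊ = j) : Finset G) : Set G) ⊆
          {g : G | a g ≤ (j : ℝ) + 1} := by
        intro g hg
        rw [Finset.mem_coe, Finset.mem_filter] at hg
        have := Nat.lt_floor_add_one (a g)
        rw [hg.2] at this
        exact this.le
      have h5 := Set.ncard_le_ncard h4 (hfin _)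
      rw [Set.ncard_coe_finset] at h5
      exact_mod_cast h5
    rw [nsmul_eq_mul]
    have h6 : C * Real.exp (s₀ * (j + 1)) * Real.exp (-(s * (j : ℝ))) =
        C * Real.exp s₀ * q ^ j := by
      rw [hq, ← Real.exp_nat_mul, mul_assoc, mul_assoc, ← Real.exp_add, ← Real.exp_add]
      congr 2
      ring
    rw [← h6]
    exact mul_le_mul_of_nonneg_right h3 (Real.exp_pos _).le
  refine (Finset.sum_le_sum h2).trans ?_
  exact hgeo.sum_le_tsum _ fun j _ => by positivity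

section Pot

variable {n : ℕ} {G : Type*} [Group G] (ρ : G →* (LV n →L[ℝ] LV n))

theorem c1a_lor_ge {X Y : LV n} (hX : X ∈ LCone n) (hY : Y ∈ LCone n) :
    (X.2 - ‖X.1‖) * Y.2 ≤ -lor X Y := by
  have hX' : ‖X.1‖ < X.2 := hX
  have hY' : ‖Y.1‖ < Y.2 := hY
  have h1 := real_inner_le_norm X.1 Y.1
  have h2 : ‖X.1‖ * ‖Y.1‖ ≤ ‖X.1‖ * Y.2 := mul_le_mul_of_nonneg_left hY'.le (norm_nonneg _)
  unfold lor
  linarith

theorem c1a_snd (h : LorAction ρ) (g : G) :
    (letI := hyAction h; (ρ g (Ohy n).val).2 = Real.cosh (dist (Ohy n) (g • Ohy n))) := by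
  letI := hyAction h
  show (ρ g (Ohy n).val).2 = Real.cosh (dist (Ohy n) (g • Ohy n))
  rw [cosh_dist]
  have : (g • Ohy n).val = ρ g (Ohy n).val := rfl
  rw [this]
  simp [lor, Ohy]

theorem c1a_finite (h : LorAction ρ) (hd : LorDiscrete ρ) (r : ℝ) :
    (letI := hyAction h; {g : G | dist (Ohy n) (g • Ohy n) ≤ r}.Finite) := by
  letI := hyAction h
  refine (hd (Real.cosh r)).subset ?_
  intro g hg
  have hg' : dist (Ohy n) (g • Ohy n) ≤ r := hg
  have h1 : -lor (Ohy n).val (ρ g (Ohy n).val) = Real.cosh (dist (Ohy n) (g • Ohy n)) := by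
    rw [cosh_dist]
    rfl
  show -lor (Ohy n).val (ρ g (Ohy n).val) ≤ Real.cosh r
  rw [h1]
  exact Real.cosh_le_cosh.2 (by
    rw [abs_of_nonneg dist_nonneg, abs_of_nonneg (dist_nonneg.trans hg')]
    exact hg')

theorem c1a_summable_cosh (h : LorAction ρ) (hd : LorDiscrete ρ) (s₀ s : ℝ) (hs₀ : 0 ≤ s₀)
    (hs : s₀ < s) (hg : letI := hyAction h; GrowthLE G (Ohy n) s₀) (c : ℝ) (hc : 0 < c) :
    (letI := hyAction h;
      Summable (fun g : G => (c * Real.cosh (dist (Ohy n) (g • Ohy n))) ^ (-s))) := by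
  letI := hyAction h
  obtain ⟨C, _, hC⟩ := hg
  have h1 := c1a_summable_exp (fun g : G => dist (Ohy n) (g • Ohy n)) (fun _ => dist_nonneg)
    C s₀ s hs (c1a_finite ρ h hd) hC
  have hs' : -s ≤ 0 := by linarith
  refine Summable.of_nonneg_of_le (fun g => Real.rpow_nonneg
    (mul_nonneg hc.le (Real.cosh_pos _).le) _) (fun g => ?_) (h1.mul_left ((c / 2) ^ (-s)))
  have h2 : Real.exp (dist (Ohy n) (g • Ohy n)) / 2 ≤
      Real.cosh (dist (Ohy n) (g • Ohy n)) := by
    rw [Real.cosh_eq]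
    have := Real.exp_pos (-dist (Ohy n) (g • Ohy n))
    linarith
  have h3 : c / 2 * Real.exp (dist (Ohy n) (g • Ohy n)) ≤
      c * Real.cosh (dist (Ohy n) (g • Ohy n)) := by
    have := mul_le_mul_of_nonneg_left h2 hc.le
    linarith
  have h4 : (c * Real.cosh (dist (Ohy n) (g • Ohy n))) ^ (-s) ≤
      (c / 2 * Real.exp (dist (Ohy n) (g • Ohy n))) ^ (-s) :=
    Real.rpow_le_rpow_of_nonpos (by positivity) h3 hs'
  refine h4.trans (le_of_eq ?_)
  rw [Real.mul_rpow (by positivity) (Real.exp_pos _).le, ← Real.exp_mul]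
  congr 2
  ring

theorem c1a_term_le (h : LorAction ρ) (s : ℝ) (hs : 0 < s) (c : ℝ) (hc : 0 < c) (X : LV n)
    (hX : X ∈ LCone n) (hXc : c ≤ X.2 - ‖X.1‖) (g : G) :
    (letI := hyAction h; (-lor X (ρ g (Ohy n).val)) ^ (-s) ≤
      (c * Real.cosh (dist (Ohy n) (g • Ohy n))) ^ (-s)) := by
  letI := hyAction h
  show (-lor X (ρ g (Ohy n).val)) ^ (-s) ≤ (c * Real.cosh (dist (Ohy n) (g • Ohy n))) ^ (-s)
  have h1 := c1a_lor_ge hX (h.cone g _ (Ohy n).mem)
  rw [c1a_snd ρ h g] at h1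
  refine Real.rpow_le_rpow_of_nonpos (mul_pos hc (Real.cosh_pos _)) ?_ (by linarith)
  exact (mul_le_mul_of_nonneg_right hXc (Real.cosh_pos _).le).trans h1

theorem c1a_lor_pos (h : LorAction ρ) {X : LV n} (hX : X ∈ LCone n) (g : G) :
    0 < -lor X (ρ g (Ohy n).val) := by
  have h1 := c1a_lor_ge hX (h.cone g _ (Ohy n).mem)
  rw [c1a_snd ρ h g] at h1
  have hX' : ‖X.1‖ < X.2 := hX
  exact lt_of_lt_of_le (mul_pos (by linarith) (Real.cosh_pos _)) h1

theorem psum_summable (h : LorAction ρ) (hd : LorDiscrete ρ) (s₀ s : ℝ) (hs₀ : 0 ≤ s₀)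
    (hs : s₀ < s) (hg : letI := hyAction h; GrowthLE G (Ohy n) s₀) (X : LV n) (hX : X ∈ LCone n) :
    Summable (fun g : G => (-lor X (ρ g (Ohy n).val)) ^ (-s)) := by
  have hX' : ‖X.1‖ < X.2 := hX
  have hc : 0 < X.2 - ‖X.1‖ := by linarith
  exact Summable.of_nonneg_of_le (fun g => Real.rpow_nonneg (c1a_lor_pos ρ h hX g).le _)
    (fun g => c1a_term_le ρ h s (by linarith) _ hc X hX le_rfl g)
    (c1a_summable_cosh ρ h hd s₀ s hs₀ hs hg _ hc)

theorem c1a_psum_pos (h : LorAction ρ) (hd : LorDiscrete ρ) (s₀ s : ℝ) (hs₀ : 0 ≤ s₀)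
    (hs : s₀ < s) (hg : letI := hyAction h; GrowthLE G (Ohy n) s₀) (X : LV n) (hX : X ∈ LCone n) :
    0 < Psum ρ s X :=
  (psum_summable ρ h hd s₀ s hs₀ hs hg X hX).tsum_pos
    (fun g => Real.rpow_nonneg (c1a_lor_pos ρ h hX g).le _) 1
    (Real.rpow_pos_of_pos (c1a_lor_pos ρ h hX 1) _)

theorem c1a_psum_continuousOn (h : LorAction ρ) (hd : LorDiscrete ρ) (s₀ s : ℝ) (hs₀ : 0 ≤ s₀)
    (hs : s₀ < s) (hg : letI := hyAction h; GrowthLE G (Ohy n) s₀) :
    ContinuousOn (Psum ρ s) (LCone n) := by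
  intro X hX
  have hX' : ‖X.1‖ < X.2 := hX
  set c : ℝ := (X.2 - ‖X.1‖) / 2 with hc
  have hc0 : 0 < c := by
    rw [hc]
    linarith
  have hopen : IsOpen {Y : LV n | c < Y.2 - ‖Y.1‖} :=
    isOpen_lt continuous_const (continuous_snd.sub continuous_fst.norm)
  have hmem : X ∈ {Y : LV n | c < Y.2 - ‖Y.1‖} := by
    show c < X.2 - ‖X.1‖
    rw [hc]
    linarith
  have hsub : {Y : LV n | c < Y.2 - ‖Y.1‖} ⊆ LCone n := by
    intro Y hY
    have hY' : c < Y.2 - ‖Y.1‖ := hY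
    show ‖Y.1‖ < Y.2
    linarith
  have hcont : ContinuousOn (Psum ρ s) {Y : LV n | c < Y.2 - ‖Y.1‖} := by
    refine continuousOn_tsum (fun g => ?_) (c1a_summable_cosh ρ h hd s₀ s hs₀ hs hg c hc0) ?_
    · refine ContinuousOn.rpow_const ?_ fun Y hY => Or.inl (c1a_lor_pos ρ h (hsub hY) g).ne'
      have : Continuous (fun Y : LV n => -lor Y (ρ g (Ohy n).val)) := by
        have h1 : (fun Y : LV n => -lor Y (ρ g (Ohy n).val)) =
            fun Y => -lor (ρ g (Ohy n).val) Y := by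
          funext Y
          rw [lor_comm]
        rw [h1]
        exact (continuous_lor_right _).neg
      exact this.continuousOn
    · intro g Y hY
      rw [Real.norm_of_nonneg (Real.rpow_nonneg (c1a_lor_pos ρ h (hsub hY) g).le _)]
      exact c1a_term_le ρ h s (by linarith) c hc0 Y (hsub hY) (le_of_lt hY) g
  exact ((hcont X hmem).continuousAt (hopen.mem_nhds hmem)).continuousWithinAt

theorem fpot_continuousOn (h : LorAction ρ) (hd : LorDiscrete ρ) (s₀ s : ℝ) (hs₀ : 0 ≤ s₀)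
    (hs : s₀ < s) (hg : letI := hyAction h; GrowthLE G (Ohy n) s₀) :
    ContinuousOn (fpot ρ s) (LCone n) := by
  unfold fpot
  refine ContinuousOn.sub (ContinuousOn.neg (ContinuousOn.mul continuousOn_const ?_)) ?_
  · exact (continuous_rad n).continuousOn.log fun X hX => (rad_pos hX).ne'
  · exact (c1a_psum_continuousOn ρ h hd s₀ s hs₀ hs hg).log
      fun X hX => (c1a_psum_pos ρ h hd s₀ s hs₀ hs hg X hX).ne'

theorem fpot_smul (h : LorAction ρ) (hd : LorDiscrete ρ) (s₀ s : ℝ) (hs₀ : 0 ≤ s₀)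
    (hs : s₀ < s) (hg : letI := hyAction h; GrowthLE G (Ohy n) s₀) (X : LV n) (hX : X ∈ LCone n)
    (t : ℝ) (ht : 0 < t) : fpot ρ s (t • X) = fpot ρ s X := by
  have h1 : Psum ρ s (t • X) = t ^ (-s) * Psum ρ s X := by
    unfold Psum
    rw [← tsum_mul_left]
    refine tsum_congr fun g => ?_
    rw [lor_smul_left, ← mul_neg, Real.mul_rpow ht.le (c1a_lor_pos ρ h hX g).le]
  unfold fpot
  rw [h1, rad_smul X ht.le, Real.log_mul ht.ne' (rad_pos hX).ne',
    Real.log_mul (Real.rpow_pos_of_pos ht _).ne' (c1a_psum_pos ρ h hd s₀ s hs₀ hs hg X hX).ne',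
    Real.log_rpow ht]
  ring

theorem fpot_inv (h : LorAction ρ) (s : ℝ) (g : G) (X : LV n) :
    fpot ρ s (ρ g X) = fpot ρ s X := by
  have h1 : Psum ρ s (ρ g X) = Psum ρ s X := by
    unfold Psum
    rw [← Equiv.tsum_eq (Equiv.mulLeft g) (fun g' : G => (-lor (ρ g X) (ρ g' (Ohy n).val)) ^ (-s))]
    refine tsum_congr fun g' => ?_
    show (-lor (ρ g X) (ρ (g * g') (Ohy n).val)) ^ (-s) = _
    rw [map_mul]
    show (-lor (ρ g X) (ρ g (ρ g' (Ohy n).val))) ^ (-s) = _
    rw [h.lor_eq]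
  unfold fpot
  rw [h1, rad_rho h]

end Pot

end Pool.Agent.MP_8db1a4_gt
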