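import Pool.Agent.MP_8db1a4_gt.Collar
import Pool.Agent.MP_8db1a4_gt.Geo.B1a
import Pool.Agent.MP_8db1a4_gt.Geo.C1a

set_option autoImplicit false

/-! [K-C1c], [K-C1d]: second differences and Lipschitz constant of the potential in a chart. -/

namespace Pool.Agent.MP_8db1a4_gt.C1c

open Set

section Abs

variable {ι E : Type*} [NormedAddCommGroup E] [InnerProductSpace ℝ E] {s : ℝ} {ω : ι → ℝ}
  {β : ι → E}

/-- The normalised sum in the chart. -/
noncomputable def c1c_I (s : ℝ) (ω : ι → ℝ) (β : ι → E) (ζ : E) : ℝ :=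
  ∑' i, ω i * (1 - inner ℝ (β i) ζ) ^ (-s)

theorem c1c_inner_bd (hβ : ∀ i, ‖β i‖ ≤ 1) (ζ : E) (i : ι) : |inner ℝ (β i) ζ| ≤ ‖ζ‖ :=
  (abs_real_inner_le_norm _ _).trans (by nlinarith [norm_nonneg ζ, hβ i, norm_nonneg (β i)])

theorem c1c_summable (hs : 0 ≤ s) (hω : ∀ i, 0 ≤ ω i) (hω1 : HasSum ω 1) (hβ : ∀ i, ‖β i‖ ≤ 1)
    (ζ : E) (hζ : ‖ζ‖ < 1) : Summable (fun i => ω i * (1 - inner ℝ (β i) ζ) ^ (-s)) := by
  refine Summable.of_nonneg_of_le (fun i => mul_nonneg (hω i) (Real.rpow_nonneg ?_ _))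
    (fun i => ?_) (hω1.summable.mul_right ((1 - ‖ζ‖) ^ (-s)))
  · have := abs_le.mp (c1c_inner_bd hβ ζ i)
    linarith
  · apply mul_le_mul_of_nonneg_left _ (hω i)
    apply Real.rpow_le_rpow_of_nonpos (by linarith) _ (by linarith)
    have := abs_le.mp (c1c_inner_bd hβ ζ i)
    linarith

theorem c1c_lower (hs : 0 ≤ s) (hω : ∀ i, 0 ≤ ω i) (hω1 : HasSum ω 1) (hβ : ∀ i, ‖β i‖ ≤ 1)
    (ζ : E) (hζ : ‖ζ‖ < 1) (r : ℝ) (hr : ‖ζ‖ ≤ r) : (1 + r) ^ (-s) ≤ c1c_I s ω β ζ := by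
  have h1 := hω1.mul_right ((1 + r) ^ (-s))
  rw [one_mul] at h1
  refine hasSum_le (fun i => ?_) h1 (c1c_summable hs hω hω1 hβ ζ hζ).hasSum
  apply mul_le_mul_of_nonneg_left _ (hω i)
  have := abs_le.mp (c1c_inner_bd hβ ζ i)
  apply Real.rpow_le_rpow_of_nonpos (by linarith) (by linarith) (by linarith)

theorem c1c_pos (hs : 0 ≤ s) (hω : ∀ i, 0 ≤ ω i) (hω1 : HasSum ω 1) (hβ : ∀ i, ‖β i‖ ≤ 1)
    (ζ : E) (hζ : ‖ζ‖ < 1) : 0 < c1c_I s ω β ζ :=
  lt_of_lt_of_le (Real.rpow_pos_of_pos (by have := norm_nonneg ζ; linarith) _)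
    (c1c_lower hs hω hω1 hβ ζ hζ ‖ζ‖ le_rfl)

theorem c1c_second (s c b l : ℝ) (hs : 0 ≤ s) (hl : 0 < l) (h : l ≤ c - |b|) :
    (c - b) ^ (-s) + (c + b) ^ (-s) - 2 * c ^ (-s) ≤ s * (s + 1) * l ^ (-s - 2) * b ^ 2 := by
  have hb1 := le_abs_self b
  have hb2 := neg_abs_le b
  have hconv : ConvexOn ℝ (Ici l)
      (fun x : ℝ => (s * (s + 1) * l ^ (-s - 2)) / 2 * x ^ 2 - x ^ (-s)) := by
    refine convexOn_of_hasDerivWithinAt2_nonneg
      (f' := fun x => (s * (s + 1) * l ^ (-s - 2)) * x - (-s) * x ^ (-s - 1))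
      (f'' := fun x => (s * (s + 1) * l ^ (-s - 2)) - (-s) * ((-s - 1) * x ^ (-s - 1 - 1)))
      (convex_Ici l) ?_ ?_ ?_ ?_
    · intro x hx
      have hx' : l ≤ x := hx
      have hx0 : x ≠ 0 := by linarith
      apply ContinuousAt.continuousWithinAt
      apply ContinuousAt.sub (by fun_prop)
      exact Real.continuousAt_rpow_const x (-s) (Or.inl hx0)
    · intro x hx
      rw [interior_Ici] at hx
      have hx' : l < x := hx
      have hx0 : x ≠ 0 := by linarith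
      apply HasDerivAt.hasDerivWithinAt
      have h1 : HasDerivAt (fun x : ℝ => (s * (s + 1) * l ^ (-s - 2)) / 2 * x ^ 2)
          ((s * (s + 1) * l ^ (-s - 2)) * x) x := by
        have := (hasDerivAt_pow 2 x).const_mul ((s * (s + 1) * l ^ (-s - 2)) / 2)
        refine this.congr_deriv ?_
        push_cast
        ring
      exact h1.sub (Real.hasDerivAt_rpow_const (Or.inl hx0))
    · intro x hx
      rw [interior_Ici] at hx
      have hx' : l < x := hx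
      have hx0 : x ≠ 0 := by linarith
      apply HasDerivAt.hasDerivWithinAt
      have h1 : HasDerivAt (fun x : ℝ => (s * (s + 1) * l ^ (-s - 2)) * x)
          (s * (s + 1) * l ^ (-s - 2)) x := by
        have := (hasDerivAt_id x).const_mul (s * (s + 1) * l ^ (-s - 2))
        simpa using this
      exact h1.sub ((Real.hasDerivAt_rpow_const (Or.inl hx0)).const_mul (-s))
    · intro x hx
      rw [interior_Ici] at hx
      have hx' : l < x := hx
      have h2 : x ^ (-s - 1 - 1) ≤ l ^ (-s - 2) := by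
        rw [show -s - 1 - 1 = -s - 2 by ring]
        exact Real.rpow_le_rpow_of_nonpos hl hx'.le (by linarith)
      have h3 : 0 ≤ s * (s + 1) := by positivity
      nlinarith [mul_le_mul_of_nonneg_left h2 h3]
  have h1 : c - b ∈ Ici l := by
    show l ≤ c - b
    linarith
  have h2 : c + b ∈ Ici l := by
    show l ≤ c + b
    linarith
  have h3 := hconv.2 h1 h2 (by norm_num : (0 : ℝ) ≤ 1 / 2) (by norm_num : (0 : ℝ) ≤ 1 / 2)
    (by norm_num)
  simp only [smul_eq_mul] at h3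
  rw [show 1 / 2 * (c - b) + 1 / 2 * (c + b) = c by ring] at h3
  nlinarith

theorem c1c_log_le {x y : ℝ} (hx : 0 < x) (hy : 0 < y) :
    Real.log x ≤ Real.log y + (x / y - 1) := by
  have h := Real.log_le_sub_one_of_pos (div_pos hx hy)
  rw [Real.log_div hx.ne' hy.ne'] at h
  linarith

theorem c1c_abs (hs : 0 ≤ s) (hω : ∀ i, 0 ≤ ω i) (hω1 : HasSum ω 1) (hβ : ∀ i, ‖β i‖ ≤ 1)
    (c : ℝ) (ε : ℝ) (hε : 0 < ε) : ∃ r > (0 : ℝ), r ≤ 1 / 8 ∧ ∀ m h : E, ‖m‖ ≤ r → ‖h‖ ≤ r →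
      s * ‖h‖ ^ 2 - s * (s + 1) * (1 + ε) * ∑' i, ω i * (inner ℝ (β i) h) ^ 2
        ≤ (-(s / 2) * Real.log (1 - ‖m + h‖ ^ 2) - c - Real.log (c1c_I s ω β (m + h))) +
          (-(s / 2) * Real.log (1 - ‖m - h‖ ^ 2) - c - Real.log (c1c_I s ω β (m - h))) -
          2 * (-(s / 2) * Real.log (1 - ‖m‖ ^ 2) - c - Real.log (c1c_I s ω β m)) := by
  -- choice of r
  have hcont : ContinuousAt (fun r : ℝ => (1 - 2 * r) ^ (-s - 2) * (1 + r) ^ s) 0 := by
    apply ContinuousAt.mul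
    · exact ContinuousAt.rpow_const (by fun_prop) (Or.inl (by norm_num))
    · exact ContinuousAt.rpow_const (by fun_prop) (Or.inl (by norm_num))
  have hev : ∀ᶠ r in nhds (0 : ℝ), (1 - 2 * r) ^ (-s - 2) * (1 + r) ^ s < 1 + ε := by
    have h0 : (1 - 2 * (0 : ℝ)) ^ (-s - 2) * (1 + (0 : ℝ)) ^ s < 1 + ε := by
      simp only [mul_zero, sub_zero, add_zero, Real.one_rpow, mul_one]
      linarith
    exact hcont.eventually_lt continuousAt_const h0
  obtain ⟨δ, hδ, hδ'⟩ := Metric.eventually_nhds_iff.mp hev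
  refine ⟨min (1 / 8) (δ / 2), by positivity, min_le_left _ _, ?_⟩
  intro m h hm hh
  set r : ℝ := min (1 / 8) (δ / 2) with hr
  have hr0 : 0 < r := by positivity
  have hr8 : r ≤ 1 / 8 := min_le_left _ _
  have hrδ : r ≤ δ / 2 := min_le_right _ _
  have hrr : (1 - 2 * r) ^ (-s - 2) * (1 + r) ^ s < 1 + ε := by
    apply hδ'
    rw [Real.dist_eq, sub_zero, abs_of_pos hr0]
    linarith
  have hm0 := norm_nonneg m
  have hh0 := norm_nonneg h
  have hmp : ‖m + h‖ ≤ 2 * r := (norm_add_le _ _).trans (by linarith)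
  have hmm : ‖m - h‖ ≤ 2 * r := (norm_sub_le _ _).trans (by linarith)
  have hmp0 := norm_nonneg (m + h)
  have hmm0 := norm_nonneg (m - h)
  have hpar := parallelogram_law_with_norm ℝ m h
  have hA : 0 < 1 - ‖m + h‖ ^ 2 := by nlinarith
  have hB : 0 < 1 - ‖m - h‖ ^ 2 := by nlinarith
  have hC : 0 < 1 - ‖m‖ ^ 2 := by nlinarith
  -- first part
  have hlog1 : Real.log (1 - ‖m + h‖ ^ 2) + Real.log (1 - ‖m - h‖ ^ 2) -
      2 * Real.log (1 - ‖m‖ ^ 2) ≤ -2 * ‖h‖ ^ 2 := by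
    have h1 := c1c_log_le hA hC
    have h2 := c1c_log_le hB hC
    have h3 : (1 - ‖m + h‖ ^ 2) / (1 - ‖m‖ ^ 2) + (1 - ‖m - h‖ ^ 2) / (1 - ‖m‖ ^ 2) - 2 ≤
        -2 * ‖h‖ ^ 2 := by
      rw [← add_div, div_sub' hC.ne', div_le_iff₀ hC]
      nlinarith [mul_nonneg (sq_nonneg ‖h‖) (sq_nonneg ‖m‖)]
    linarith
  -- second part
  have hmlt : ‖m‖ < 1 := by linarith
  have hplt : ‖m + h‖ < 1 := by linarith
  have hnlt : ‖m - h‖ < 1 := by linarith
  have hI0 := c1c_pos hs hω hω1 hβ m hmlt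
  have hIp := c1c_pos hs hω hω1 hβ (m + h) hplt
  have hIm := c1c_pos hs hω hω1 hβ (m - h) hnlt
  have hlow := c1c_lower hs hω hω1 hβ m hmlt r hm
  have hQs : Summable (fun i => ω i * (inner ℝ (β i) h) ^ 2) := by
    refine Summable.of_nonneg_of_le (fun i => mul_nonneg (hω i) (sq_nonneg _)) (fun i => ?_)
      (hω1.summable.mul_right (‖h‖ ^ 2))
    apply mul_le_mul_of_nonneg_left _ (hω i)
    rw [← sq_abs]
    exact pow_le_pow_left₀ (abs_nonneg _) (c1c_inner_bd hβ h i) 2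
  set Q : ℝ := ∑' i, ω i * (inner ℝ (β i) h) ^ 2 with hQ
  have hQ0 : 0 ≤ Q := tsum_nonneg fun i => mul_nonneg (hω i) (sq_nonneg _)
  have hdiff : c1c_I s ω β (m + h) + c1c_I s ω β (m - h) - 2 * c1c_I s ω β m ≤
      s * (s + 1) * (1 - 2 * r) ^ (-s - 2) * Q := by
    have h1 := (((c1c_summable hs hω hω1 hβ (m + h) hplt).hasSum.add
      (c1c_summable hs hω hω1 hβ (m - h) hnlt).hasSum).sub
      ((c1c_summable hs hω hω1 hβ m hmlt).hasSum.mul_left 2))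
    have h2 := hQs.hasSum.mul_left (s * (s + 1) * (1 - 2 * r) ^ (-s - 2))
    refine hasSum_le (fun i => ?_) h1 h2
    have hbm := c1c_inner_bd hβ m i
    have hbh := c1c_inner_bd hβ h i
    have hbm' := abs_le.mp hbm
    have h3 := c1c_second s (1 - inner ℝ (β i) m) (inner ℝ (β i) h) (1 - 2 * r) hs (by linarith)
      (by linarith [hbm'.2])
    have h4 := mul_le_mul_of_nonneg_left h3 (hω i)
    rw [inner_add_right, inner_sub_right,
      show (1 : ℝ) - (inner ℝ (β i) m + inner ℝ (β i) h) =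
        1 - inner ℝ (β i) m - inner ℝ (β i) h by ring,
      show (1 : ℝ) - (inner ℝ (β i) m - inner ℝ (β i) h) =
        1 - inner ℝ (β i) m + inner ℝ (β i) h by ring]
    nlinarith [h4]
  have hlog2 : Real.log (c1c_I s ω β (m + h)) + Real.log (c1c_I s ω β (m - h)) -
      2 * Real.log (c1c_I s ω β m) ≤ s * (s + 1) * (1 + ε) * Q := by
    have h1 := c1c_log_le hIp hI0
    have h2 := c1c_log_le hIm hI0
    have h3 : c1c_I s ω β (m + h) / c1c_I s ω β m + c1c_I s ω β (m - h) / c1c_I s ω β m - 2 ≤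
        s * (s + 1) * (1 + ε) * Q := by
      rw [← add_div, div_sub' hI0.ne', div_le_iff₀ hI0]
      have h4 : (1 - 2 * r) ^ (-s - 2) ≤ (1 + ε) * c1c_I s ω β m := by
        have h5 : (1 + r) ^ s * (1 + r) ^ (-s) = 1 := by
          rw [← Real.rpow_add (by linarith)]; simp
        have h6 : 0 < (1 + r) ^ (-s) := Real.rpow_pos_of_pos (by linarith) _
        have h7 : (1 - 2 * r) ^ (-s - 2) ≤ (1 + ε) * (1 + r) ^ (-s) := by
          have h8 := mul_le_mul_of_nonneg_right hrr.le h6.le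
          rw [mul_assoc, h5, mul_one] at h8
          exact h8
        have h9 := mul_le_mul_of_nonneg_left hlow (by linarith : (0 : ℝ) ≤ 1 + ε)
        linarith
      have h5 : s * (s + 1) * (1 - 2 * r) ^ (-s - 2) * Q ≤
          s * (s + 1) * ((1 + ε) * c1c_I s ω β m) * Q := by
        apply mul_le_mul_of_nonneg_right _ hQ0
        apply mul_le_mul_of_nonneg_left h4 (by positivity)
      linarith
    linarith
  nlinarith [hlog1, hlog2]

theorem c1c_lip (hs : 0 ≤ s) (hω : ∀ i, 0 ≤ ω i) (hω1 : HasSum ω 1) (hβ : ∀ i, ‖β i‖ ≤ 1)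
    (c r : ℝ) (hr0 : 0 < r) (hr1 : r < 1) (x y : E) (hx : ‖x‖ ≤ r) (hy : ‖y‖ ≤ r) :
    (-(s / 2) * Real.log (1 - ‖x‖ ^ 2) - c - Real.log (c1c_I s ω β x)) -
      (-(s / 2) * Real.log (1 - ‖y‖ ^ 2) - c - Real.log (c1c_I s ω β y)) ≤
      (s * r / (1 - r ^ 2) + s / (1 - r)) * ‖x - y‖ := by
  have hx0 := norm_nonneg x
  have hy0 := norm_nonneg y
  have hd0 := norm_nonneg (x - y)
  have hA : 0 < 1 - ‖x‖ ^ 2 := by nlinarith
  have hB : 0 < 1 - ‖y‖ ^ 2 := by nlinarith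
  have hr2 : 0 < 1 - r ^ 2 := by nlinarith
  have hr3 : 0 < 1 - r := by linarith
  have htri : ‖x‖ - ‖y‖ ≤ ‖x - y‖ := norm_sub_norm_le x y
  have hlog1 : Real.log (1 - ‖y‖ ^ 2) - Real.log (1 - ‖x‖ ^ 2) ≤ 2 * r / (1 - r ^ 2) * ‖x - y‖ := by
    have h1 := c1c_log_le hB hA
    have h2 : (1 - ‖y‖ ^ 2) / (1 - ‖x‖ ^ 2) - 1 ≤ 2 * r / (1 - r ^ 2) * ‖x - y‖ := by
      rw [div_sub' hA.ne', div_le_iff₀ hA, div_mul_eq_mul_div, div_mul_eq_mul_div,
        le_div_iff₀ hr2]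
      have h3 : 1 - ‖y‖ ^ 2 - (1 - ‖x‖ ^ 2) * 1 ≤ 2 * r * ‖x - y‖ := by
        nlinarith
      have h4 : 1 - r ^ 2 ≤ 1 - ‖x‖ ^ 2 := by nlinarith
      have h5 : 0 ≤ 2 * r * ‖x - y‖ := by positivity
      calc (1 - ‖y‖ ^ 2 - (1 - ‖x‖ ^ 2) * 1) * (1 - r ^ 2) ≤ 2 * r * ‖x - y‖ * (1 - r ^ 2) :=
            mul_le_mul_of_nonneg_right h3 hr2.le
        _ ≤ 2 * r * ‖x - y‖ * (1 - ‖x‖ ^ 2) := mul_le_mul_of_nonneg_left h4 h5
    linarith
  have hxlt : ‖x‖ < 1 := by linarith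
  have hylt : ‖y‖ < 1 := by linarith
  have hIx := c1c_pos hs hω hω1 hβ x hxlt
  have hIy := c1c_pos hs hω hω1 hβ y hylt
  set D : ℝ := 1 + ‖x - y‖ / (1 - r) with hD
  have hD1 : 1 ≤ D := by
    have : 0 ≤ ‖x - y‖ / (1 - r) := by positivity
    linarith
  have hD0 : 0 < D := by linarith
  have hcmp : c1c_I s ω β y * D ^ (-s) ≤ c1c_I s ω β x := by
    have h1 := (c1c_summable hs hω hω1 hβ y hylt).hasSum.mul_right (D ^ (-s))
    refine hasSum_le (fun i => ?_) h1 (c1c_summable hs hω hω1 hβ x hxlt).hasSum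
    rw [mul_assoc]
    apply mul_le_mul_of_nonneg_left _ (hω i)
    have hbx := abs_le.mp (c1c_inner_bd hβ x i)
    have hby := abs_le.mp (c1c_inner_bd hβ y i)
    have hbd := abs_le.mp (c1c_inner_bd hβ (x - y) i)
    rw [← Real.mul_rpow (by linarith) hD0.le]
    apply Real.rpow_le_rpow_of_nonpos (by linarith) _ (by linarith)
    rw [inner_sub_right] at hbd
    have h2 : ‖x - y‖ ≤ (1 - inner ℝ (β i) y) * (‖x - y‖ / (1 - r)) := by
      rw [mul_div_assoc', le_div_iff₀ hr3, mul_comm]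
      apply mul_le_mul_of_nonneg_right _ hd0
      linarith
    rw [hD, mul_add, mul_one]
    linarith
  have hlog2 : Real.log (c1c_I s ω β y) - Real.log (c1c_I s ω β x) ≤ s / (1 - r) * ‖x - y‖ := by
    have h1 : Real.log (c1c_I s ω β y * D ^ (-s)) ≤ Real.log (c1c_I s ω β x) :=
      Real.log_le_log (mul_pos hIy (Real.rpow_pos_of_pos hD0 _)) hcmp
    rw [Real.log_mul hIy.ne' (Real.rpow_pos_of_pos hD0 _).ne', Real.log_rpow hD0] at h1
    have h2 : Real.log D ≤ ‖x - y‖ / (1 - r) := by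
      have := Real.log_le_sub_one_of_pos hD0
      linarith
    have h3 : s * Real.log D ≤ s * (‖x - y‖ / (1 - r)) := mul_le_mul_of_nonneg_left h2 hs
    have h4 : s * (‖x - y‖ / (1 - r)) = s / (1 - r) * ‖x - y‖ := by ring
    linarith
  have h5 : (s / 2) * (Real.log (1 - ‖y‖ ^ 2) - Real.log (1 - ‖x‖ ^ 2)) ≤
      (s / 2) * (2 * r / (1 - r ^ 2) * ‖x - y‖) := mul_le_mul_of_nonneg_left hlog1 (by linarith)
  have h6 : (s / 2) * (2 * r / (1 - r ^ 2) * ‖x - y‖) = s * r / (1 - r ^ 2) * ‖x - y‖ := by ring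
  rw [add_mul]
  linarith

end Abs

section Pot

variable {n : ℕ} {G : Type*} [Group G] (ρ : G →* (LV n →L[ℝ] LV n))

theorem c1c_chart (h : LorAction ρ) (hd : LorDiscrete ρ) (s₀ s : ℝ) (hs₀ : 0 ≤ s₀)
    (hs : s₀ < s) (hg : letI := hyAction h; GrowthLE G (Ohy n) s₀) (x₀ : Hy n) :
    ∃ (ω : G → ℝ) (β : G → EuclideanSpace ℝ (Fin n)) (c : ℝ), (∀ g, 0 ≤ ω g) ∧ HasSum ω 1 ∧
      (∀ g, ‖β g‖ ≤ 1) ∧ ∀ ζ : EuclideanSpace ℝ (Fin n), ‖ζ‖ < 1 →
        fpot ρ s (boost x₀.val (ζ, 1)) =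
          -(s / 2) * Real.log (1 - ‖ζ‖ ^ 2) - c - Real.log (c1c_I s ω β ζ) := by
  have hs0 : 0 ≤ s := by linarith
  set z : G → LV n := fun g => unboost x₀.val (ρ g (Ohy n).val) with hz
  have hzc : ∀ g, z g ∈ LCone n := fun g =>
    unboost_mem_cone x₀ _ (h.cone g _ (Ohy n).mem)
  have hq : ∀ g, 0 < (z g).2 := fun g => lt_of_le_of_lt (norm_nonneg _) (hzc g)
  set β : G → EuclideanSpace ℝ (Fin n) := fun g => ((z g).2)⁻¹ • (z g).1 with hβdef
  have hβ : ∀ g, ‖β g‖ ≤ 1 := by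
    intro g
    have h1 : ‖(z g).1‖ < (z g).2 := hzc g
    rw [hβdef]
    simp only [norm_smul, norm_inv, Real.norm_of_nonneg (hq g).le]
    rw [inv_mul_le_iff₀ (hq g)]
    linarith
  have hlor : ∀ (g : G) (ζ : EuclideanSpace ℝ (Fin n)),
      -lor (boost x₀.val (ζ, 1)) (ρ g (Ohy n).val) = (z g).2 * (1 - inner ℝ (β g) ζ) := by
    intro g ζ
    have h1 : ρ g (Ohy n).val = boost x₀.val (z g) := (boost_unboost x₀ _).symm
    rw [h1, lor_boost]
    simp only [lor, hβdef, real_inner_smul_left]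
    rw [real_inner_comm ζ (z g).1]
    have := (hq g).ne'
    field_simp
    ring
  have hx0 : boost x₀.val ((0 : EuclideanSpace ℝ (Fin n)), (1 : ℝ)) = x₀.val := boost_O x₀
  have hsum : Summable (fun g : G => ((z g).2) ^ (-s)) := by
    have h1 := psum_summable ρ h hd s₀ s hs₀ hs hg x₀.val x₀.mem
    refine h1.congr fun g => ?_
    have h2 := hlor g 0
    rw [hx0, inner_zero_right, sub_zero, mul_one] at h2
    rw [h2]
  set K : ℝ := ∑' g : G, ((z g).2) ^ (-s) with hK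
  have hK0 : 0 < K := by
    have h1 := hsum.tsum_pos (fun g => Real.rpow_nonneg (hq g).le _) 1
      (Real.rpow_pos_of_pos (hq 1) _)
    exact h1
  set ω : G → ℝ := fun g => ((z g).2) ^ (-s) / K with hωdef
  have hω : ∀ g, 0 ≤ ω g := fun g => div_nonneg (Real.rpow_nonneg (hq g).le _) hK0.le
  have hω1 : HasSum ω 1 := by
    have h1 := hsum.hasSum.div_const K
    rwa [← hK, div_self hK0.ne'] at h1
  refine ⟨ω, β, Real.log K, hω, hω1, hβ, ?_⟩
  intro ζ hζ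
  have hζ0 := norm_nonneg ζ
  have hI := c1c_pos hs0 hω hω1 hβ ζ hζ
  have hP : Psum ρ s (boost x₀.val (ζ, 1)) = K * c1c_I s ω β ζ := by
    unfold Psum c1c_I
    rw [← tsum_mul_left]
    congr 1
    ext g
    rw [hlor g ζ]
    have hb := abs_le.mp (c1c_inner_bd hβ ζ g)
    rw [Real.mul_rpow (hq g).le (by linarith)]
    simp only [hωdef]
    field_simp
  have hR : rad (boost x₀.val (ζ, 1)) = Real.sqrt (1 - ‖ζ‖ ^ 2) := by
    unfold rad
    rw [lor_boost]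
    congr 1
    simp only [lor, real_inner_self_eq_norm_sq]
    ring
  unfold fpot
  rw [hP, hR, Real.log_mul hK0.ne' hI.ne', Real.log_sqrt (by nlinarith)]
  ring

/-- [K-C1c] second differences of the potential in the chart `ζ ↦ boost x₀ (ζ,1)`. -/
theorem fpot_second_diff (h : LorAction ρ) (hd : LorDiscrete ρ) (s₀ s : ℝ) (hs₀ : 0 ≤ s₀)
    (hs : s₀ < s) (hg : letI := hyAction h; GrowthLE G (Ohy n) s₀) (x₀ : Hy n) :
    ∃ (ω : G → ℝ) (β : G → EuclideanSpace ℝ (Fin n)), (∀ g, 0 ≤ ω g) ∧ HasSum ω 1 ∧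
      (∀ g, ‖β g‖ ≤ 1) ∧
      ∀ ε > (0 : ℝ), ∃ r > (0 : ℝ), ∀ m h' : EuclideanSpace ℝ (Fin n), ‖m‖ ≤ r → ‖h'‖ ≤ r →
        s * ‖h'‖ ^ 2 - s * (s + 1) * (1 + ε) * ∑' g, ω g * (inner ℝ (β g) h') ^ 2
          ≤ fpot ρ s (boost x₀.val (m + h', 1)) + fpot ρ s (boost x₀.val (m - h', 1)) -
            2 * fpot ρ s (boost x₀.val (m, 1)) := by
  obtain ⟨ω, β, c, hω, hω1, hβ, hf⟩ := c1c_chart ρ h hd s₀ s hs₀ hs hg x₀
  refine ⟨ω, β, hω, hω1, hβ, ?_⟩
  intro ε hε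
  obtain ⟨r, hr0, hr8, H⟩ := c1c_abs (s := s) (by linarith) hω hω1 hβ c ε hε
  refine ⟨r, hr0, fun m h' hm hh => ?_⟩
  have h1 := H m h' hm hh
  have hmp : ‖m + h'‖ < 1 := lt_of_le_of_lt (norm_add_le _ _) (by linarith)
  have hmm : ‖m - h'‖ < 1 := lt_of_le_of_lt (norm_sub_le _ _) (by linarith)
  rw [hf _ hmp, hf _ hmm, hf m (by linarith)]
  exact h1

/-- [K-C1d] Lipschitz constant of the potential in the chart. -/
theorem fpot_lipschitz (h : LorAction ρ) (hd : LorDiscrete ρ) (s₀ s : ℝ) (hs₀ : 0 ≤ s₀)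
    (hs : s₀ < s) (hg : letI := hyAction h; GrowthLE G (Ohy n) s₀) (x₀ : Hy n) :
    ∀ ε > (0 : ℝ), ∃ r > (0 : ℝ), ∀ x y : EuclideanSpace ℝ (Fin n), ‖x‖ ≤ r → ‖y‖ ≤ r →
      |fpot ρ s (boost x₀.val (x, 1)) - fpot ρ s (boost x₀.val (y, 1))| ≤ (s + ε) * ‖x - y‖ := by
  obtain ⟨ω, β, c, hω, hω1, hβ, hf⟩ := c1c_chart ρ h hd s₀ s hs₀ hs hg x₀
  have hs0 : 0 ≤ s := by linarith
  intro ε hε
  have hcont : ContinuousAt (fun r : ℝ => s * r / (1 - r ^ 2) + s / (1 - r)) 0 := by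
    apply ContinuousAt.add
    · exact ContinuousAt.div (by fun_prop) (by fun_prop) (by norm_num)
    · exact ContinuousAt.div (by fun_prop) (by fun_prop) (by norm_num)
  have hev : ∀ᶠ r in nhds (0 : ℝ), s * r / (1 - r ^ 2) + s / (1 - r) < s + ε := by
    have h0 : s * 0 / (1 - (0 : ℝ) ^ 2) + s / (1 - 0) < s + ε := by
      simp only [mul_zero, zero_div, sub_zero, div_one]
      linarith
    exact hcont.eventually_lt continuousAt_const h0
  obtain ⟨δ, hδ, hδ'⟩ := Metric.eventually_nhds_iff.mp hev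
  refine ⟨min (1 / 8) (δ / 2), by positivity, ?_⟩
  intro x y hx hy
  set r : ℝ := min (1 / 8) (δ / 2) with hr
  have hr0 : 0 < r := by positivity
  have hr8 : r ≤ 1 / 8 := min_le_left _ _
  have hrδ : r ≤ δ / 2 := min_le_right _ _
  have hrr : s * r / (1 - r ^ 2) + s / (1 - r) < s + ε := by
    apply hδ'
    rw [Real.dist_eq, sub_zero, abs_of_pos hr0]
    linarith
  rw [hf x (by linarith), hf y (by linarith)]
  have hd0 := norm_nonneg (x - y)
  have h1 := c1c_lip hs0 hω hω1 hβ c r hr0 (by linarith) x y hx hy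
  have h2 := c1c_lip hs0 hω hω1 hβ c r hr0 (by linarith) y x hy hx
  rw [norm_sub_rev] at h2
  have h3 : (s * r / (1 - r ^ 2) + s / (1 - r)) * ‖x - y‖ ≤ (s + ε) * ‖x - y‖ :=
    mul_le_mul_of_nonneg_right hrr.le hd0
  rw [abs_le]
  constructor <;> linarith

end Pot

end Pool.Agent.MP_8db1a4_gt.C1c

namespace Pool.Agent.MP_8db1a4_gt

export C1c (fpot_second_diff fpot_lipschitz)

end Pool.Agent.MP_8db1a4_gt
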