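import Pool.Agent.MP_8db1a4_gt.Collar

set_option autoImplicit false

/-! [K-C5] type II in a Euclidean chart (MP_8db1a4_gt), by helper29. -/

namespace Pool.Agent.MP_8db1a4_gt

open Set Filter Topology

theorem c5_strict {E : Type*} [NormedAddCommGroup E] [NormedSpace ℝ E] (φ : E → ℝ)
    (φ' : E →L[ℝ] ℝ) (h : HasStrictFDerivAt φ φ' 0) (ε : ℝ) (hε : 0 < ε) :
    ∃ δ > (0 : ℝ), ∀ x y : E, ‖x‖ ≤ δ → ‖y‖ ≤ δ →
      |φ x - φ y - φ' (x - y)| ≤ ε * ‖x - y‖ := by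
  have h1 := h.isLittleO.def hε
  rw [Metric.eventually_nhds_iff] at h1
  obtain ⟨δ, hδ, h2⟩ := h1
  refine ⟨δ / 2, by positivity, fun x y hx hy => ?_⟩
  have h3 : dist ((x, y) : E × E) (0, 0) < δ := by
    rw [Prod.dist_eq, max_lt_iff]
    simp only [dist_zero_right]
    constructor <;> linarith
  have h4 := h2 h3
  simpa [Real.norm_eq_abs] using h4

theorem c5_rad {E : Type*} [NormedAddCommGroup E] [InnerProductSpace ℝ E] :
    HasStrictFDerivAt (fun x : E => (Real.sqrt (1 - ‖x‖ ^ 2))⁻¹) (0 : E →L[ℝ] ℝ) 0 := by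
  have h1 : HasStrictFDerivAt (fun x : E => ‖x‖ ^ 2) (2 • (innerSL ℝ (0 : E))) 0 :=
    hasStrictFDerivAt_norm_sq 0
  have h2 : HasStrictFDerivAt (fun x : E => 1 - ‖x‖ ^ 2) (-(2 • (innerSL ℝ (0 : E)))) 0 :=
    h1.const_sub 1
  have h3 : HasStrictDerivAt (fun y : ℝ => (Real.sqrt y)⁻¹)
      (-(1 / (2 * Real.sqrt 1)) / (Real.sqrt 1) ^ 2) 1 := by
    have ha := Real.hasStrictDerivAt_sqrt (x := 1) (by norm_num)
    have hb : HasStrictDerivAt (fun y : ℝ => y⁻¹) (-(Real.sqrt 1 ^ 2)⁻¹) (Real.sqrt 1) :=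
      hasStrictDerivAt_inv (by norm_num)
    refine (hb.comp (1 : ℝ) ha).congr_deriv ?_
    simp
  have h4 : HasStrictDerivAt (fun y : ℝ => (Real.sqrt y)⁻¹)
      (-(1 / (2 * Real.sqrt 1)) / (Real.sqrt 1) ^ 2) (1 - ‖(0 : E)‖ ^ 2) := by
    simpa using h3
  have h5 := h4.comp_hasStrictFDerivAt (0 : E) h2
  have h6 : ((-(1 / (2 * Real.sqrt 1)) / (Real.sqrt 1) ^ 2) • (-(2 • (innerSL ℝ (0 : E)))) :
      E →L[ℝ] ℝ) = 0 := by
    simp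
  rw [h6] at h5
  exact h5

theorem c5_S {E : Type*} [NormedAddCommGroup E] [InnerProductSpace ℝ E] (L : E → ℝ)
    (e₀ : E) (hL : HasStrictFDerivAt L (innerSL ℝ e₀) 0) :
    HasStrictFDerivAt (fun x : E => L x / Real.sqrt (1 - ‖x‖ ^ 2)) (innerSL ℝ e₀) 0 := by
  have h1 := hL.mul (c5_rad (E := E))
  have h2 : (L 0 • (0 : E →L[ℝ] ℝ) + (Real.sqrt (1 - ‖(0 : E)‖ ^ 2))⁻¹ • innerSL ℝ e₀) =
      innerSL ℝ e₀ := by
    simp
  rw [h2] at h1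
  exact h1

theorem c5_a : (84 / 100 : ℝ) ≤ (2 : ℝ) ^ (-(1 / 4) : ℝ) := by
  have h0 : (0 : ℝ) ≤ (2 : ℝ) ^ (-(1 / 4) : ℝ) := by positivity
  have h1 : ((2 : ℝ) ^ (-(1 / 4) : ℝ)) ^ 4 = 1 / 2 := by
    rw [← Real.rpow_natCast, ← Real.rpow_mul (by norm_num)]
    norm_num
  by_contra h
  push Not at h
  have h2 : ((2 : ℝ) ^ (-(1 / 4) : ℝ)) ^ 4 ≤ (84 / 100 : ℝ) ^ 4 :=
    pow_le_pow_left₀ h0 h.le 4
  rw [h1] at h2
  norm_num at h2

theorem c5_G (κ : ℝ) (hκ4 : κ ≤ 1 / 4) :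
    ∃ D : ℝ, D ≤ -(1239 / 10000) ∧ HasStrictDerivAt (colG κ) D 2 := by
  set a : ℝ := (2 : ℝ) ^ (-(1 / 4) : ℝ) with ha
  have ha84 : 84 / 100 ≤ a := c5_a
  have h1 : HasStrictDerivAt (fun S : ℝ => S ^ (-(1 / 4) : ℝ))
      ((-(1 / 4)) * (2 : ℝ) ^ ((-(1 / 4) : ℝ) - 1)) 2 :=
    Real.hasStrictDerivAt_rpow_const_of_ne (by norm_num) _
  have h2 : (2 : ℝ) ^ ((-(1 / 4) : ℝ) - 1) = a / 2 := by
    rw [Real.rpow_sub (by norm_num), Real.rpow_one]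
  rw [h2] at h1
  have h3a : HasStrictDerivAt (fun S : ℝ => S ^ (-(1 / 4) : ℝ) - κ) _ 2 := h1.sub_const κ
  have h3 := HasStrictDerivAt.fun_mul h3a h3a
  refine ⟨-(1 / 4) * a * (a - κ), by nlinarith, ?_⟩
  have h4 : HasStrictDerivAt (fun S : ℝ => (S ^ (-(1 / 4) : ℝ) - κ) ^ 2)
      (-(1 / 4) * a * (a - κ)) 2 := by
    have h3' : HasStrictDerivAt (fun S : ℝ => (S ^ (-(1 / 4) : ℝ) - κ) ^ 2) _ 2 :=
      h3.congr_of_eventuallyEq (Eventually.of_forall fun S => by simp [pow_two])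
    refine h3'.congr_deriv ?_
    rw [← ha]
    ring
  refine h4.congr_of_eventuallyEq ?_
  have h5 : ∀ᶠ S : ℝ in 𝓝 2, κ < S ^ (-(1 / 4) : ℝ) := by
    have hc : ContinuousAt (fun S : ℝ => S ^ (-(1 / 4) : ℝ)) 2 :=
      Real.continuousAt_rpow_const _ _ (Or.inl (by norm_num))
    exact hc.eventually (lt_mem_nhds (by linarith : κ < (2 : ℝ) ^ (-(1 / 4) : ℝ)))
  filter_upwards [h5] with S hS
  unfold colG
  rw [max_eq_left (by linarith)]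

theorem typeII_euclid {E : Type*} [NormedAddCommGroup E] [InnerProductSpace ℝ E]
    (s : ℝ) (hs : 0 < s) (κ : ℝ) (hκ : 0 < κ) (hκ4 : κ ≤ 1 / 4) (f L : E → ℝ)
    (hf : ∀ ε > (0 : ℝ), ∃ r > (0 : ℝ), ∀ x y : E, ‖x‖ ≤ r → ‖y‖ ≤ r →
      |f x - f y| ≤ (s + ε) * ‖x - y‖)
    (e₀ : E) (he₀ : ‖e₀‖ ^ 2 = 5) (hL0 : L 0 = 2) (hL : HasStrictFDerivAt L (innerSL ℝ e₀) 0) :
    ∃ r > (0 : ℝ), ∃ c > (0 : ℝ),
      (∀ u : E, inner ℝ u e₀ = 0 → ‖u‖ ≤ r → ∀ t t' : ℝ, -r ≤ t → t ≤ t' → t' ≤ r →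
        L (u - t' • e₀) / Real.sqrt (1 - ‖u - t' • e₀‖ ^ 2) ≤
          L (u - t • e₀) / Real.sqrt (1 - ‖u - t • e₀‖ ^ 2) ∧
        f (u - t' • e₀) - 8 * (s + 1) * colG κ (L (u - t' • e₀) / Real.sqrt (1 - ‖u - t' • e₀‖ ^ 2))
          ≤ f (u - t • e₀) - 8 * (s + 1) * colG κ (L (u - t • e₀) / Real.sqrt (1 - ‖u - t • e₀‖ ^ 2))
            - c * (t' - t)) ∧
      (∀ t : ℝ, 0 < t → t ≤ r → L (-(t • e₀)) / Real.sqrt (1 - ‖t • e₀‖ ^ 2) < 2) := by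
  obtain ⟨D, hD, hG⟩ := c5_G κ hκ4
  have hS := c5_S L e₀ hL
  have hS0 : L 0 / Real.sqrt (1 - ‖(0 : E)‖ ^ 2) = 2 := by simp [hL0]
  have hGS : HasStrictFDerivAt
      (fun x : E => colG κ (L x / Real.sqrt (1 - ‖x‖ ^ 2))) (D • innerSL ℝ e₀) 0 := by
    have hG' : HasStrictDerivAt (colG κ) D (L 0 / Real.sqrt (1 - ‖(0 : E)‖ ^ 2)) := by
      rw [hS0]; exact hG
    exact hG'.comp_hasStrictFDerivAt (0 : E) hS
  obtain ⟨δ1, hδ1, h1⟩ := c5_strict _ _ hS 1 one_pos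
  obtain ⟨δ2, hδ2, h2⟩ := c5_strict _ _ hGS (1 / 100) (by norm_num)
  obtain ⟨δ3, hδ3, h3⟩ := hf 1 one_pos
  have hn0 : 0 ≤ ‖e₀‖ := norm_nonneg _
  have hn1 : ‖e₀‖ ≤ 224 / 100 := by nlinarith
  have hin : inner ℝ e₀ e₀ = (5 : ℝ) := by rw [real_inner_self_eq_norm_sq, he₀]
  set δ : ℝ := min δ1 (min δ2 δ3) with hδ
  have hδ0 : 0 < δ := lt_min hδ1 (lt_min hδ2 hδ3)
  have hδa : δ ≤ δ1 := min_le_left _ _
  have hδb : δ ≤ δ2 := (min_le_right _ _).trans (min_le_left _ _)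
  have hδc : δ ≤ δ3 := (min_le_right _ _).trans (min_le_right _ _)
  have key : ∀ u : E, ‖u‖ ≤ δ / 4 → ∀ t : ℝ, -(δ / 4) ≤ t → t ≤ δ / 4 →
      ‖u - t • e₀‖ ≤ δ := by
    intro u hu t ht1 ht2
    have hta : |t| ≤ δ / 4 := abs_le.2 ⟨ht1, ht2⟩
    calc ‖u - t • e₀‖ ≤ ‖u‖ + ‖t • e₀‖ := norm_sub_le _ _
      _ = ‖u‖ + |t| * ‖e₀‖ := by rw [norm_smul, Real.norm_eq_abs]
      _ ≤ δ / 4 + (δ / 4) * (224 / 100) := by
          have := mul_le_mul hta hn1 hn0 (by positivity : 0 ≤ δ / 4)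
          linarith
      _ ≤ δ := by linarith
  have hdiff : ∀ (u : E) (t t' : ℝ), (u - t' • e₀) - (u - t • e₀) = -((t' - t) • e₀) := by
    intro u t t'
    rw [sub_smul]; abel
  have hlin : ∀ (u : E) (t t' : ℝ),
      (innerSL ℝ e₀) ((u - t' • e₀) - (u - t • e₀)) = -(5 * (t' - t)) := by
    intro u t t'
    rw [hdiff]
    simp only [map_neg, map_smul, innerSL_apply_apply, hin, smul_eq_mul]
    ring
  have hnrm : ∀ (u : E) (t t' : ℝ), t ≤ t' →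
      ‖(u - t' • e₀) - (u - t • e₀)‖ = (t' - t) * ‖e₀‖ := by
    intro u t t' htt
    rw [hdiff, norm_neg, norm_smul, Real.norm_eq_abs, abs_of_nonneg (by linarith)]
  refine ⟨δ / 4, by positivity, 1, one_pos, ?_, ?_⟩
  · intro u _ hu t t' ht htt ht'
    have hx := key u hu t' (by linarith) ht'
    have hy := key u hu t ht (by linarith)
    have e1 := h1 _ _ (hx.trans hδa) (hy.trans hδa)
    have e2 := h2 _ _ (hx.trans hδb) (hy.trans hδb)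
    have e3 := h3 _ _ (hx.trans hδc) (hy.trans hδc)
    rw [hlin, hnrm u t t' htt] at e1
    simp only [smul_apply, hlin, smul_eq_mul] at e2
    rw [hnrm u t t' htt] at e2 e3
    have e1' := abs_le.1 e1
    have e2' := abs_le.1 e2
    have e3' := abs_le.1 e3
    have hT : 0 ≤ t' - t := by linarith
    have hTn : (t' - t) * ‖e₀‖ ≤ (t' - t) * (224 / 100) := mul_le_mul_of_nonneg_left hn1 hT
    have hDT : D * (t' - t) ≤ -(1239 / 10000) * (t' - t) := mul_le_mul_of_nonneg_right hD hT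
    refine ⟨by nlinarith [e1'.2], ?_⟩
    set A := colG κ (L (u - t' • e₀) / Real.sqrt (1 - ‖u - t' • e₀‖ ^ 2))
    set B := colG κ (L (u - t • e₀) / Real.sqrt (1 - ‖u - t • e₀‖ ^ 2))
    have hAB : (597 / 1000) * (t' - t) ≤ A - B := by
      have := e2'.1
      nlinarith
    have hs1 : 0 ≤ 8 * (s + 1) := by linarith
    have hAB2 := mul_le_mul_of_nonneg_left hAB hs1
    have hf2 : f (u - t' • e₀) - f (u - t • e₀) ≤ (s + 1) * ((t' - t) * (224 / 100)) :=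
      e3'.2.trans (mul_le_mul_of_nonneg_left hTn (by linarith))
    have hsT : 0 ≤ s * (t' - t) := mul_nonneg hs.le hT
    nlinarith
  · intro t ht0 htr
    have hx := key 0 (by simpa using (by positivity : (0 : ℝ) ≤ δ / 4)) t (by linarith) htr
    have hy := key 0 (by simpa using (by positivity : (0 : ℝ) ≤ δ / 4)) 0 (by linarith)
      (by positivity)
    have e1 := h1 _ _ (hx.trans hδa) (hy.trans hδa)
    rw [hlin, hnrm 0 0 t ht0.le] at e1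
    have e1' := (abs_le.1 e1).2
    simp only [zero_sub, zero_smul, sub_zero, norm_neg] at e1'
    rw [hS0] at e1'
    nlinarith

end Pool.Agent.MP_8db1a4_gt
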