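import Pool.Agent.MP_8db1a4_gt.CollarDefs
import Pool.Agent.MP_8db1a4_gt.Geo.B1a

set_option autoImplicit false

/-! [KAP-C7] transfer from the Euclidean chart to the types I and II (MP_8db1a4_gt). -/

namespace Pool.Agent.MP_8db1a4_gt

open Set

variable {n : ℕ}

/-! ### the chart -/

/-- the linear part of the chart at `x₀` -/
noncomputable def c7_iota (x₀ : Hy n) : EuclideanSpace ℝ (Fin n) →ₗ[ℝ] LV n :=
  (boost x₀.val : LV n →ₗ[ℝ] LV n).comp (LinearMap.inl ℝ _ _)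

theorem c7_iota_apply (x₀ : Hy n) (ζ : EuclideanSpace ℝ (Fin n)) :
    c7_iota x₀ ζ = boost x₀.val (ζ, 0) := rfl

theorem c7_boost_O (x₀ : Hy n) : boost x₀.val ((0, 1) : LV n) = x₀.val := boost_O x₀

theorem c7_boost_inj (x₀ : Hy n) {X Y : LV n} (h : boost x₀.val X = boost x₀.val Y) : X = Y := by
  rw [← unboost_boost x₀ X, h, unboost_boost]

/-- a point of the chart -/
theorem c7_chart (x₀ : Hy n) (ζ : EuclideanSpace ℝ (Fin n)) :
    x₀.val + c7_iota x₀ ζ = boost x₀.val (ζ, 1) := by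
  calc x₀.val + c7_iota x₀ ζ = boost x₀.val ((0, 1) : LV n) + boost x₀.val ((ζ, 0) : LV n) := by
        rw [c7_boost_O, c7_iota_apply]
    _ = boost x₀.val ((0, 1) + (ζ, 0)) := (map_add _ _ _).symm
    _ = boost x₀.val (ζ, 1) := by simp

theorem c7_disjoint (x₀ : Hy n) (W : Submodule ℝ (EuclideanSpace ℝ (Fin n))) :
    Disjoint (ℝ ∙ x₀.val) (W.map (c7_iota x₀)) := by
  rw [Submodule.disjoint_def]
  intro v hv hv'
  obtain ⟨a, rfl⟩ := Submodule.mem_span_singleton.mp hv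
  obtain ⟨ζ, _, hζ⟩ := Submodule.mem_map.mp hv'
  have h1 : boost x₀.val ((ζ, 0) : LV n) = boost x₀.val (a • ((0, 1) : LV n)) := by
    rw [← c7_iota_apply, hζ, map_smul, c7_boost_O]
  have h2 := c7_boost_inj x₀ h1
  have h3 : (0 : ℝ) = a := by
    have := congrArg Prod.snd h2
    simpa using this
  rw [← h3, zero_smul]

theorem c7_isCompl (x₀ : Hy n) (W : Submodule ℝ (EuclideanSpace ℝ (Fin n))) :
    IsCompl ((ℝ ∙ x₀.val) ⊔ Wᗮ.map (c7_iota x₀)) (W.map (c7_iota x₀)) := by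
  constructor
  · rw [Submodule.disjoint_def]
    intro v hv hv'
    obtain ⟨y, hy, z, hz, rfl⟩ := Submodule.mem_sup.mp hv
    obtain ⟨a, rfl⟩ := Submodule.mem_span_singleton.mp hy
    obtain ⟨p, hp, rfl⟩ := Submodule.mem_map.mp hz
    obtain ⟨q, hq, hqe⟩ := Submodule.mem_map.mp hv'
    have h1 : boost x₀.val ((q, 0) : LV n) = boost x₀.val (a • ((0, 1) : LV n) + (p, 0)) := by
      rw [← c7_iota_apply, hqe, map_add, map_smul, c7_boost_O, ← c7_iota_apply]
    have h2 := c7_boost_inj x₀ h1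
    have h3 : (0 : ℝ) = a := by
      have := congrArg Prod.snd h2
      simpa using this
    have h4 : q = p := by
      have := congrArg Prod.fst h2
      simpa using this
    subst h4
    have h5 : q = 0 := by
      have := (Submodule.mem_orthogonal W q).mp hp q hq
      exact inner_self_eq_zero.mp this
    rw [← h3, h5]
    simp
  · rw [codisjoint_iff, eq_top_iff]
    intro v _
    obtain ⟨p, hp, q, hq, hpq⟩ := Submodule.exists_add_mem_mem_orthogonal (K := W)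
      (unboost x₀.val v).1
    have h1 : (unboost x₀.val v).2 • x₀.val + c7_iota x₀ q + c7_iota x₀ p = v := by
      calc (unboost x₀.val v).2 • x₀.val + c7_iota x₀ q + c7_iota x₀ p
          = (unboost x₀.val v).2 • boost x₀.val ((0, 1) : LV n) + boost x₀.val ((q, 0) : LV n) +
              boost x₀.val ((p, 0) : LV n) := by
            rw [c7_boost_O, c7_iota_apply, c7_iota_apply]
        _ = boost x₀.val ((unboost x₀.val v).2 • ((0, 1) : LV n) + (q, 0) + (p, 0)) := by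
            rw [map_add, map_add, map_smul]
        _ = boost x₀.val (unboost x₀.val v) := by
            congr 1
            ext1
            · simp [hpq, add_comm]
            · simp
        _ = v := boost_unboost x₀ v
    rw [← h1]
    refine Submodule.add_mem_sup (Submodule.add_mem_sup ?_ ?_) ?_
    · exact Submodule.smul_mem _ _ (Submodule.mem_span_singleton_self _)
    · exact Submodule.mem_map_of_mem hq
    · exact Submodule.mem_map_of_mem hp

theorem c7_norm_le (x₀ : Hy n) (ζ : EuclideanSpace ℝ (Fin n)) :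
    ‖ζ‖ ≤ (‖unboost x₀.val‖ + 1) * ‖c7_iota x₀ ζ‖ := by
  have h1 : ‖unboost x₀.val (c7_iota x₀ ζ)‖ ≤ ‖unboost x₀.val‖ * ‖c7_iota x₀ ζ‖ :=
    ContinuousLinearMap.le_opNorm _ _
  rw [c7_iota_apply, unboost_boost] at h1
  have h2 : ‖ζ‖ ≤ ‖((ζ, 0) : LV n)‖ := norm_fst_le ((ζ, 0) : LV n)
  rw [c7_iota_apply]
  nlinarith [norm_nonneg (boost x₀.val ((ζ, 0) : LV n))]

theorem c7_norm_ge (x₀ : Hy n) (ζ : EuclideanSpace ℝ (Fin n)) :
    ‖c7_iota x₀ ζ‖ ≤ (‖boost x₀.val‖ + 1) * ‖ζ‖ := by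
  have h1 : ‖boost x₀.val ((ζ, 0) : LV n)‖ ≤ ‖boost x₀.val‖ * ‖((ζ, 0) : LV n)‖ :=
    ContinuousLinearMap.le_opNorm _ _
  have h2 : ‖((ζ, 0) : LV n)‖ = ‖ζ‖ := by
    rw [Prod.norm_def]
    simp
  rw [h2] at h1
  rw [c7_iota_apply]
  nlinarith [norm_nonneg ζ]

theorem typeI_of_chart (T' : Set (LV n)) (hT' : IsOpen (LCone n \ T')) (F : LV n → ℝ) (k : ℕ)
    (x₀ : Hy n) (hx₀ : x₀.val ∉ T') (W : Submodule ℝ (EuclideanSpace ℝ (Fin n)))
    (hW : Module.finrank ℝ Wᗮ + 1 ≤ k) (r c : ℝ) (hr : 0 < r) (hc : 0 < c)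
    (h : ∀ m h' : EuclideanSpace ℝ (Fin n), ‖m‖ ≤ r → ‖h'‖ ≤ r → h' ∈ W →
      c * ‖h'‖ ^ 2 ≤ F (boost x₀.val (m + h', 1)) + F (boost x₀.val (m - h', 1)) -
        2 * F (boost x₀.val (m, 1))) :
    TypeI (LCone n) T' F k x₀.val := by
  obtain ⟨ε, hε, hball⟩ := Metric.isOpen_iff.mp hT' x₀.val ⟨x₀.mem, hx₀⟩
  set K : ℝ := ‖unboost x₀.val‖ + 1 with hK
  set K' : ℝ := ‖boost x₀.val‖ + 1 with hK'
  have hKpos : 0 < K := by positivity
  have hK'pos : 0 < K' := by positivity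
  refine ⟨Wᗮ.map (c7_iota x₀), W.map (c7_iota x₀), ?_, c7_disjoint x₀ Wᗮ, c7_isCompl x₀ W,
    min (r / (2 * K)) (ε / 4), lt_min (by positivity) (by positivity), c / K' ^ 2, by positivity,
    ?_, ?_⟩
  · have := Submodule.finrank_map_le (c7_iota x₀) Wᗮ
    omega
  · intro y hy
    apply hball
    rw [Metric.mem_closedBall] at hy
    rw [Metric.mem_ball]
    have : min (r / (2 * K)) (ε / 4) ≤ ε / 4 := min_le_right _ _
    linarith
  · intro u hu w hw h' hh' hun hwn hhn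
    obtain ⟨p, hp, rfl⟩ := Submodule.mem_map.mp hu
    obtain ⟨q, hq, rfl⟩ := Submodule.mem_map.mp hw
    obtain ⟨q', hq', rfl⟩ := Submodule.mem_map.mp hh'
    have hρ : min (r / (2 * K)) (ε / 4) ≤ r / (2 * K) := min_le_left _ _
    have hKr : K * (r / (2 * K)) = r / 2 := by field_simp
    have hbd : ∀ ζ : EuclideanSpace ℝ (Fin n), ‖c7_iota x₀ ζ‖ ≤ min (r / (2 * K)) (ε / 4) →
        ‖ζ‖ ≤ r / 2 := by
      intro ζ hζ
      calc ‖ζ‖ ≤ K * ‖c7_iota x₀ ζ‖ := c7_norm_le x₀ ζ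
        _ ≤ K * (r / (2 * K)) := by gcongr; exact hζ.trans hρ
        _ = r / 2 := hKr
    have hp' := hbd p hun
    have hq1 := hbd q hwn
    have hq2 := hbd q' hhn
    have hm : ‖p + q‖ ≤ r := (norm_add_le _ _).trans (by linarith)
    have key := h (p + q) q' hm (by linarith) hq'
    have e1 : x₀.val + c7_iota x₀ p + c7_iota x₀ q + c7_iota x₀ q' =
        boost x₀.val (p + q + q', 1) := by
      rw [← c7_chart, map_add, map_add]
      abel
    have e2 : x₀.val + c7_iota x₀ p + c7_iota x₀ q - c7_iota x₀ q' =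
        boost x₀.val (p + q - q', 1) := by
      rw [← c7_chart, map_sub, map_add]
      abel
    have e3 : x₀.val + c7_iota x₀ p + c7_iota x₀ q = boost x₀.val (p + q, 1) := by
      rw [← c7_chart, map_add]
      abel
    rw [e1, e2, e3]
    refine le_trans ?_ key
    have h5 := c7_norm_ge x₀ q'
    have h6 : ‖c7_iota x₀ q'‖ ^ 2 ≤ K' ^ 2 * ‖q'‖ ^ 2 := by
      rw [← mul_pow]
      exact pow_le_pow_left₀ (norm_nonneg _) h5 2
    calc c / K' ^ 2 * ‖c7_iota x₀ q'‖ ^ 2 ≤ c / K' ^ 2 * (K' ^ 2 * ‖q'‖ ^ 2) := by gcongr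
      _ = c * ‖q'‖ ^ 2 := by field_simp

theorem typeII_of_chart (T' : Set (LV n)) (F : LV n → ℝ) (x₀ : Hy n)
    (e₀ : EuclideanSpace ℝ (Fin n)) (he₀ : e₀ ≠ 0) (r c : ℝ) (hr : 0 < r) (hc : 0 < c)
    (hint : ∀ t : ℝ, 0 < t → t ≤ r → boost x₀.val (-(t • e₀), 1) ∈ interior T')
    (h : ∀ u : EuclideanSpace ℝ (Fin n), inner ℝ u e₀ = 0 → ‖u‖ ≤ r →
      ∀ t t' : ℝ, -r ≤ t → t ≤ t' → t' ≤ r →
        (boost x₀.val (u - t • e₀, 1) ∈ T' → boost x₀.val (u - t' • e₀, 1) ∈ T') ∧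
        (boost x₀.val (u - t • e₀, 1) ∉ T' → boost x₀.val (u - t' • e₀, 1) ∉ T' →
          F (boost x₀.val (u - t' • e₀, 1)) ≤ F (boost x₀.val (u - t • e₀, 1)) - c * (t' - t))) :
    TypeII (LCone n) T' F x₀.val := by
  obtain ⟨ε, hε, hball⟩ := Metric.isOpen_iff.mp (isOpen_LCone n) x₀.val x₀.mem
  set K : ℝ := ‖unboost x₀.val‖ + 1 with hK
  have hKpos : 0 < K := by positivity
  set ν : LV n := -c7_iota x₀ e₀ with hν
  have hspan : (ℝ ∙ e₀).map (c7_iota x₀) = (ℝ ∙ ν) := by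
    rw [Submodule.map_span, Set.image_singleton, hν]
    apply le_antisymm
    · rw [Submodule.span_singleton_le_iff_mem]
      rw [Submodule.mem_span_singleton]
      exact ⟨-1, by simp⟩
    · rw [Submodule.span_singleton_le_iff_mem]
      rw [Submodule.mem_span_singleton]
      exact ⟨-1, by simp⟩
  have hcompl := c7_isCompl x₀ (ℝ ∙ e₀)
  rw [hspan] at hcompl
  have hν0 : ν ≠ 0 := by
    intro h0
    apply he₀
    have h1 : c7_iota x₀ e₀ = 0 := by
      rw [hν] at h0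
      exact neg_eq_zero.mp h0
    have h2 := c7_norm_le x₀ e₀
    rw [h1, norm_zero, mul_zero] at h2
    exact norm_le_zero_iff.mp h2
  have hpt : ∀ (p : EuclideanSpace ℝ (Fin n)) (t : ℝ),
      x₀.val + c7_iota x₀ p + t • ν = boost x₀.val (p - t • e₀, 1) := by
    intro p t
    rw [← c7_chart, map_sub, map_smul, hν, smul_neg]
    abel
  refine ⟨(ℝ ∙ e₀)ᗮ.map (c7_iota x₀), ν, ?_, c7_disjoint x₀ _, hcompl,
    min (min (r / K) r) (ε / (2 * (1 + ‖ν‖))), ?_, c, hc, ?_, ?_, ?_⟩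
  · intro hmem
    have h1 := (Submodule.disjoint_def.mp hcompl.disjoint) ν hmem
      (Submodule.mem_span_singleton_self _)
    exact hν0 h1
  · have : 0 < 1 + ‖ν‖ := by positivity
    exact lt_min (lt_min (by positivity) hr) (by positivity)
  · intro u hu hun t ht
    apply hball
    rw [Metric.mem_ball, dist_eq_norm]
    have e1 : x₀.val + u + t • ν - x₀.val = u + t • ν := by abel
    rw [e1]
    have hpos : 0 < 1 + ‖ν‖ := by positivity
    have h1 : min (min (r / K) r) (ε / (2 * (1 + ‖ν‖))) ≤ ε / (2 * (1 + ‖ν‖)) := min_le_right _ _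
    have h2 : ‖u + t • ν‖ ≤ ε / (2 * (1 + ‖ν‖)) * (1 + ‖ν‖) := by
      refine (norm_add_le _ _).trans ?_
      rw [norm_smul, Real.norm_eq_abs]
      have h3 : |t| * ‖ν‖ ≤ ε / (2 * (1 + ‖ν‖)) * ‖ν‖ := by
        gcongr
        exact ht.trans h1
      have h4 := hun.trans h1
      linarith
    have h5 : ε / (2 * (1 + ‖ν‖)) * (1 + ‖ν‖) = ε / 2 := by field_simp
    rw [h5] at h2
    linarith
  · intro t ht htr
    have h1 := hpt 0 t
    rw [map_zero, add_zero, zero_sub] at h1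
    rw [h1]
    exact hint t ht (htr.trans ((min_le_left _ _).trans (min_le_right _ _)))
  · intro u hu hun t t' ht htt ht'
    obtain ⟨p, hp, rfl⟩ := Submodule.mem_map.mp hu
    rw [hpt, hpt]
    have hr1 : min (min (r / K) r) (ε / (2 * (1 + ‖ν‖))) ≤ r :=
      (min_le_left _ _).trans (min_le_right _ _)
    have hr2 : min (min (r / K) r) (ε / (2 * (1 + ‖ν‖))) ≤ r / K :=
      (min_le_left _ _).trans (min_le_left _ _)
    refine h p (Submodule.mem_orthogonal_singleton_iff_inner_left.mp hp) ?_ t t' (by linarith) htt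
      (by linarith)
    calc ‖p‖ ≤ K * ‖c7_iota x₀ p‖ := c7_norm_le x₀ p
      _ ≤ K * (r / K) := by gcongr; exact hun.trans hr2
      _ = r := by field_simp

theorem typeI_smul {V : Type*} [NormedAddCommGroup V] [NormedSpace ℝ V] (C T' : Set V)
    (hC : Conic C) (hT : Conic T') (F : V → ℝ) (hF : ∀ x ∈ C, ∀ t : ℝ, 0 < t → F (t • x) = F x)
    (k : ℕ) (x : V) (t : ℝ) (ht : 0 < t) (h : TypeI C T' F k x) : TypeI C T' F k (t • x) := by
  obtain ⟨U, W, hk, hd, hcompl, r, hr, c, hc, hball, hmain⟩ := h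
  have hspan : (ℝ ∙ (t • x)) = (ℝ ∙ x) :=
    Submodule.span_singleton_smul_eq (IsUnit.mk0 t ht.ne') x
  have hti : 0 < t⁻¹ := inv_pos.mpr ht
  refine ⟨U, W, hk, by rwa [hspan], by rwa [hspan], t * r, by positivity, c / t ^ 2, by positivity,
    ?_, ?_⟩
  · intro y hy
    have h1 : t⁻¹ • y ∈ Metric.closedBall x (3 * r) := by
      rw [Metric.mem_closedBall, dist_eq_norm] at hy ⊢
      have e1 : t⁻¹ • y - x = t⁻¹ • (y - t • x) := by
        rw [smul_sub, smul_smul, inv_mul_cancel₀ ht.ne', one_smul]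
      rw [e1, norm_smul, Real.norm_of_nonneg hti.le]
      calc t⁻¹ * ‖y - t • x‖ ≤ t⁻¹ * (3 * (t * r)) := by gcongr
        _ = 3 * r := by field_simp
    have h2 := hball h1
    have e2 : t • (t⁻¹ • y) = y := by rw [smul_smul, mul_inv_cancel₀ ht.ne', one_smul]
    refine ⟨?_, fun hyT => h2.2 (hT y hyT _ hti)⟩
    rw [← e2]
    exact hC _ h2.1 t ht
  · intro u hu w hw h' hh' hun hwn hhn
    have hsc : ∀ v : V, ‖v‖ ≤ t * r → ‖t⁻¹ • v‖ ≤ r := by
      intro v hv
      rw [norm_smul, Real.norm_of_nonneg hti.le]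
      calc t⁻¹ * ‖v‖ ≤ t⁻¹ * (t * r) := by gcongr
        _ = r := by field_simp
    have hu' := hsc u hun
    have hw' := hsc w hwn
    have hh'' := hsc h' hhn
    have key := hmain (t⁻¹ • u) (U.smul_mem _ hu) (t⁻¹ • w) (W.smul_mem _ hw) (t⁻¹ • h')
      (W.smul_mem _ hh') hu' hw' hh''
    have hin : ∀ a b d : V, ‖a‖ ≤ r → ‖b‖ ≤ r → ‖d‖ ≤ r → x + a + b + d ∈ C := by
      intro a b d ha hb hd'
      refine (hball ?_).1
      rw [Metric.mem_closedBall, dist_eq_norm]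
      have e1 : x + a + b + d - x = a + b + d := by abel
      rw [e1]
      have h1 := norm_add_le (a + b) d
      have h2 := norm_add_le a b
      linarith
    have e1 : t • x + u + w + h' = t • (x + t⁻¹ • u + t⁻¹ • w + t⁻¹ • h') := by
      simp only [smul_add, smul_smul, mul_inv_cancel₀ ht.ne', one_smul]
    have e2 : t • x + u + w - h' = t • (x + t⁻¹ • u + t⁻¹ • w + -(t⁻¹ • h')) := by
      simp only [smul_add, smul_neg, smul_smul, mul_inv_cancel₀ ht.ne', one_smul]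
      abel
    have e3 : t • x + u + w = t • (x + t⁻¹ • u + t⁻¹ • w + 0) := by
      simp only [smul_add, smul_smul, mul_inv_cancel₀ ht.ne', one_smul, add_zero]
    rw [e1, e2, e3, hF _ (hin _ _ _ hu' hw' hh'') t ht,
      hF _ (hin _ _ _ hu' hw' (by rwa [norm_neg])) t ht,
      hF _ (hin _ _ _ hu' hw' (by rw [norm_zero]; exact hr.le)) t ht, add_zero,
      ← sub_eq_add_neg]
    refine le_trans (le_of_eq ?_) key
    rw [norm_smul, Real.norm_of_nonneg hti.le]
    field_simp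

theorem typeII_smul {V : Type*} [NormedAddCommGroup V] [NormedSpace ℝ V] (C T' : Set V)
    (hC : Conic C) (hT : Conic T') (hTC : T' ⊆ C) (F : V → ℝ)
    (hF : ∀ x ∈ C, ∀ t : ℝ, 0 < t → F (t • x) = F x)
    (x : V) (t : ℝ) (ht : 0 < t) (h : TypeII C T' F x) : TypeII C T' F (t • x) := by
  obtain ⟨U, ν, hν, hd, hcompl, r, hr, c, hc, hin, hint, hmain⟩ := h
  have hspan : (ℝ ∙ (t • x)) = (ℝ ∙ x) :=
    Submodule.span_singleton_smul_eq (IsUnit.mk0 t ht.ne') x
  have hti : 0 < t⁻¹ := inv_pos.mpr ht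
  have hpt : ∀ (u : V) (a : ℝ), t • x + u + a • ν = t • (x + t⁻¹ • u + (t⁻¹ * a) • ν) := by
    intro u a
    simp only [smul_add, smul_smul, mul_inv_cancel₀ ht.ne', one_smul, ← mul_assoc, one_mul]
  have hsc : ∀ v : V, ‖v‖ ≤ t * r → ‖t⁻¹ • v‖ ≤ r := by
    intro v hv
    rw [norm_smul, Real.norm_of_nonneg hti.le]
    calc t⁻¹ * ‖v‖ ≤ t⁻¹ * (t * r) := by gcongr
      _ = r := by field_simp
  have hle : ∀ a : ℝ, a ≤ t * r → t⁻¹ * a ≤ r := by
    intro a ha
    calc t⁻¹ * a ≤ t⁻¹ * (t * r) := by gcongr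
      _ = r := by field_simp
  have hge : ∀ a : ℝ, -(t * r) ≤ a → -r ≤ t⁻¹ * a := by
    intro a ha
    calc -r = t⁻¹ * (-(t * r)) := by field_simp
      _ ≤ t⁻¹ * a := by gcongr
  have hmemT : ∀ y : V, t • y ∈ T' ↔ y ∈ T' := by
    intro y
    constructor
    · intro hy
      have := hT _ hy _ hti
      rwa [smul_smul, inv_mul_cancel₀ ht.ne', one_smul] at this
    · exact fun hy => hT y hy t ht
  have hint' : ∀ y ∈ interior T', t • y ∈ interior T' := by
    intro y hy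
    rw [mem_interior]
    refine ⟨(fun v => t⁻¹ • v) ⁻¹' interior T', ?_, ?_, ?_⟩
    · intro v hv
      have h1 : t⁻¹ • v ∈ T' := interior_subset hv
      have h2 := hT _ h1 t ht
      rwa [smul_smul, mul_inv_cancel₀ ht.ne', one_smul] at h2
    · exact isOpen_interior.preimage (continuous_const_smul _)
    · show t⁻¹ • (t • y) ∈ interior T'
      rwa [smul_smul, inv_mul_cancel₀ ht.ne', one_smul]
  refine ⟨U, ν, by rwa [hspan], by rwa [hspan], by rwa [hspan], t * r, by positivity, c / t,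
    by positivity, ?_, ?_, ?_⟩
  · intro u hu hun a ha
    rw [hpt]
    refine hC _ (hin _ (U.smul_mem _ hu) (hsc u hun) _ ?_) t ht
    rw [abs_le] at ha ⊢
    exact ⟨hge a ha.1, hle a ha.2⟩
  · intro a ha har
    have h1 := hpt 0 a
    rw [smul_zero, add_zero, add_zero] at h1
    rw [h1]
    exact hint' _ (hint _ (by positivity) (hle a har))
  · intro u hu hun a a' ha haa ha'
    rw [hpt, hpt]
    have hb : t⁻¹ * a ≤ t⁻¹ * a' := by gcongr
    have h1 := hge a ha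
    have h2 := hle a' ha'
    have key := hmain _ (U.smul_mem _ hu) (hsc u hun) _ _ h1 hb h2
    have hCa := hin _ (U.smul_mem t⁻¹ hu) (hsc u hun) (t⁻¹ * a)
      (abs_le.mpr ⟨h1, hb.trans h2⟩)
    have hCa' := hin _ (U.smul_mem t⁻¹ hu) (hsc u hun) (t⁻¹ * a')
      (abs_le.mpr ⟨h1.trans hb, h2⟩)
    rw [hmemT, hmemT, hF _ hCa t ht, hF _ hCa' t ht]
    refine ⟨key.1, fun h3 h4 => (key.2 h3 h4).trans (le_of_eq ?_)⟩
    field_simp

end Pool.Agent.MP_8db1a4_gt
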