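import Pool.Agent.MP_8db1a4_gt.Collar
import Pool.Agent.MP_8db1a4_gt.Geo.C1a

set_option autoImplicit false

/-! [K-C1e] lower bound of the potential from a counting estimate (MP_8db1a4_gt). -/

namespace Pool.Agent.MP_8db1a4_gt

open Set

theorem c1e_finite {n : ℕ} {G : Type*} [Group G] {ρ : G →* (LV n →L[ℝ] LV n)}
    (h : LorAction ρ) (hd : LorDiscrete ρ) (x : Hy n) (R : ℝ) :
    letI := hyAction h; {g : G | dist x (g • Ohy n) ≤ R}.Finite := by
  let := hyAction h
  refine (hd (Real.cosh (dist (Ohy n) x + R))).subset ?_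
  intro g hg
  have hg' : dist x (g • Ohy n) ≤ R := hg
  show -lor (Ohy n).val (ρ g (Ohy n).val) ≤ _
  have h1 := cosh_dist (Ohy n) (g • Ohy n)
  rw [hy_smul_val h] at h1
  rw [← h1]
  apply Real.cosh_le_cosh.mpr
  rw [abs_of_nonneg dist_nonneg]
  have h2 := dist_triangle (Ohy n) x (g • Ohy n)
  have h3 := le_abs_self (dist (Ohy n) x + R)
  linarith

theorem c1e_geom (q : ℝ) (hq : 0 < q) (hq1 : q < 1) (m : ℕ) (t : Finset ℕ)
    (ht : ∀ j ∈ t, m ≤ j) : ∑ j ∈ t, q ^ j ≤ q ^ m * (1 - q)⁻¹ := by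
  have h1 : ∑ j ∈ t, q ^ j = q ^ m * ∑ i ∈ t.image (fun j => j - m), q ^ i := by
    rw [Finset.sum_image, Finset.mul_sum]
    · apply Finset.sum_congr rfl
      intro j hj
      rw [← pow_add, Nat.add_sub_cancel' (ht j hj)]
    · intro i hi j hj hij
      have h2 := ht i hi
      have h3 := ht j hj
      simp only at hij
      omega
  rw [h1]
  apply mul_le_mul_of_nonneg_left _ (pow_pos hq m).le
  rw [← tsum_geometric_of_lt_one hq.le hq1]
  exact (summable_geometric_of_lt_one hq.le hq1).sum_le_tsum _ (fun i _ => (pow_pos hq i).le)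

theorem c1e_sum {G : Type*} (a : G → ℝ) (ha : ∀ g, 0 ≤ a g)
    (hfin : ∀ R : ℝ, {g | a g ≤ R}.Finite) (C s' s : ℝ) (hs' : 0 < s') (hs : s' < s)
    (hc : ∀ R : ℝ, 0 ≤ R → ({g | a g ≤ R}.ncard : ℝ) ≤ C * Real.exp (s' * R)) (hC : 0 < C)
    (D : ℝ) (hD : ∀ g, D ≤ a g) (F : Finset G) :
    ∑ g ∈ F, Real.exp (-(s * a g)) ≤
      C * Real.exp s * (1 - Real.exp (-(s - s')))⁻¹ * Real.exp (-((s - s') * D)) := by
  classical
  have hq : 0 < Real.exp (-(s - s')) := Real.exp_pos _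
  have hq1 : Real.exp (-(s - s')) < 1 := by
    rw [Real.exp_lt_one_iff]; linarith
  have h1 : ∀ j ∈ F.image (fun g => ⌊a g⌋₊),
      ∑ g ∈ F with ⌊a g⌋₊ = j, Real.exp (-(s * a g)) ≤
        C * Real.exp s' * Real.exp (-(s - s')) ^ j := by
    intro j hj
    have h2 : ∑ g ∈ F with ⌊a g⌋₊ = j, Real.exp (-(s * a g)) ≤
        ∑ g ∈ F with ⌊a g⌋₊ = j, Real.exp (-(s * j)) := by
      apply Finset.sum_le_sum
      intro g hg
      rw [Finset.mem_filter] at hg
      apply Real.exp_le_exp.mpr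
      have h3 : (j : ℝ) ≤ a g := by
        rw [← hg.2]; exact Nat.floor_le (ha g)
      nlinarith
    refine h2.trans ?_
    rw [Finset.sum_const, nsmul_eq_mul]
    have h4 : (({g ∈ F | ⌊a g⌋₊ = j} : Finset G).card : ℝ) ≤ C * Real.exp (s' * (j + 1)) := by
      refine le_trans ?_ (hc (j + 1) (by positivity))
      have h9 : (({g ∈ F | ⌊a g⌋₊ = j} : Finset G) : Set G) ⊆ {g | a g ≤ (j : ℝ) + 1} := by
        intro g hg
        have hg' : ⌊a g⌋₊ = j := (Finset.mem_filter.mp (Finset.mem_coe.mp hg)).2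
        show a g ≤ (j : ℝ) + 1
        rw [← hg']
        exact (Nat.lt_floor_add_one (a g)).le
      have h10 := Set.ncard_le_ncard h9 (hfin _)
      rw [Set.ncard_coe_finset] at h10
      exact Nat.cast_le.mpr h10
    calc (({g ∈ F | ⌊a g⌋₊ = j} : Finset G).card : ℝ) * Real.exp (-(s * j))
        ≤ C * Real.exp (s' * (j + 1)) * Real.exp (-(s * j)) :=
          mul_le_mul_of_nonneg_right h4 (Real.exp_pos _).le
      _ = C * Real.exp s' * Real.exp (-(s - s')) ^ j := by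
          rw [← Real.exp_nat_mul, mul_assoc, mul_assoc, ← Real.exp_add, ← Real.exp_add]
          congr 2
          ring
  have h5 : ∑ j ∈ F.image (fun g => ⌊a g⌋₊), Real.exp (-(s - s')) ^ j ≤
      Real.exp (-(s - s')) ^ ⌊D⌋₊ * (1 - Real.exp (-(s - s')))⁻¹ := by
    apply c1e_geom _ hq hq1
    intro j hj
    obtain ⟨g, hg, rfl⟩ := Finset.mem_image.mp hj
    exact Nat.floor_le_floor (hD g)
  have h6 : Real.exp (-(s - s')) ^ ⌊D⌋₊ ≤ Real.exp (s - s') * Real.exp (-((s - s') * D)) := by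
    rw [← Real.exp_nat_mul, ← Real.exp_add]
    apply Real.exp_le_exp.mpr
    have h7 := Nat.lt_floor_add_one D
    nlinarith
  have h8 : 0 < (1 - Real.exp (-(s - s')))⁻¹ := inv_pos.mpr (by linarith)
  rw [← Finset.sum_fiberwise_of_maps_to (g := fun g => ⌊a g⌋₊)
    (t := F.image (fun g => ⌊a g⌋₊)) (fun g hg => Finset.mem_image_of_mem _ hg)]
  calc ∑ j ∈ F.image (fun g => ⌊a g⌋₊), ∑ g ∈ F with ⌊a g⌋₊ = j, Real.exp (-(s * a g))
      ≤ ∑ j ∈ F.image (fun g => ⌊a g⌋₊), C * Real.exp s' * Real.exp (-(s - s')) ^ j :=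
        Finset.sum_le_sum h1
    _ = C * Real.exp s' * ∑ j ∈ F.image (fun g => ⌊a g⌋₊), Real.exp (-(s - s')) ^ j := by
        rw [Finset.mul_sum]
    _ ≤ C * Real.exp s' * (Real.exp (-(s - s')) ^ ⌊D⌋₊ * (1 - Real.exp (-(s - s')))⁻¹) :=
        mul_le_mul_of_nonneg_left h5 (by positivity)
    _ ≤ C * Real.exp s' * ((Real.exp (s - s') * Real.exp (-((s - s') * D))) *
          (1 - Real.exp (-(s - s')))⁻¹) := by
        apply mul_le_mul_of_nonneg_left _ (by positivity)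
        exact mul_le_mul_of_nonneg_right h6 h8.le
    _ = C * (Real.exp s' * Real.exp (s - s')) * (1 - Real.exp (-(s - s')))⁻¹ *
          Real.exp (-((s - s') * D)) := by ring
    _ = C * Real.exp s * (1 - Real.exp (-(s - s')))⁻¹ * Real.exp (-((s - s') * D)) := by
        rw [← Real.exp_add]
        congr 4
        ring

theorem c1e_cosh (a s : ℝ) (hs : 0 < s) :
    Real.cosh a ^ (-s) ≤ 2 ^ s * Real.exp (-(s * a)) := by
  have h1 : Real.exp a / 2 ≤ Real.cosh a := by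
    rw [Real.cosh_eq]
    have := Real.exp_pos (-a)
    linarith
  have h2 : 0 < Real.exp a / 2 := by positivity
  have h3 : Real.cosh a ^ (-s) ≤ (Real.exp a / 2) ^ (-s) :=
    Real.rpow_le_rpow_of_nonpos h2 h1 (by linarith)
  refine h3.trans (le_of_eq ?_)
  rw [Real.div_rpow (Real.exp_pos a).le (by norm_num), ← Real.exp_mul,
    Real.rpow_neg (by norm_num : (0:ℝ) ≤ 2), div_inv_eq_mul, mul_comm]
  congr 2
  ring

section Pot

variable {n : ℕ} {G : Type*} [Group G] (ρ : G →* (LV n →L[ℝ] LV n))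

/-- [K-C1e] lower bound of the potential from a counting estimate. -/
theorem fpot_lower (h : LorAction ρ) (hd : LorDiscrete ρ) (s₀ s' s : ℝ) (hs₀ : 0 ≤ s₀)
    (hs₀' : s₀ < s') (hs : s' < s) (hg : letI := hyAction h; GrowthLE G (Ohy n) s₀) (C : ℝ)
    (hC : 0 < C) :
    ∃ C' : ℝ, ∀ x : Hy n, (letI := hyAction h; ∀ R : ℝ, 0 ≤ R →
      ({g : G | dist x (g • Ohy n) ≤ R}.ncard : ℝ) ≤ C * Real.exp (s' * R)) →
      ∀ D : ℝ, (letI := hyAction h; ∀ g : G, D ≤ dist x (g • Ohy n)) →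
        (s - s') * D - C' ≤ fpot ρ s x.val := by
  let := hyAction h
  have hs'0 : 0 < s' := lt_of_le_of_lt hs₀ hs₀'
  have hs0 : 0 < s := hs'0.trans hs
  have hq1 : Real.exp (-(s - s')) < 1 := by
    rw [Real.exp_lt_one_iff]; linarith
  have h8 : 0 < (1 - Real.exp (-(s - s')))⁻¹ := inv_pos.mpr (by linarith)
  set K : ℝ := 2 ^ s * (C * Real.exp s * (1 - Real.exp (-(s - s')))⁻¹) with hK
  have hKpos : 0 < K := by positivity
  refine ⟨Real.log K, fun x hx D hD => ?_⟩
  have hx' : ∀ R : ℝ, 0 ≤ R →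
      ({g : G | dist x (g • Ohy n) ≤ R}.ncard : ℝ) ≤ C * Real.exp (s' * R) := hx
  have hD' : ∀ g : G, D ≤ dist x (g • Ohy n) := hD
  have hterm : ∀ g : G, -lor x.val (ρ g (Ohy n).val) = Real.cosh (dist x (g • Ohy n)) := by
    intro g
    rw [cosh_dist, hy_smul_val h]
  have hpos : ∀ g : G, 0 < (-lor x.val (ρ g (Ohy n).val)) ^ (-s) := by
    intro g
    rw [hterm g]
    exact Real.rpow_pos_of_pos (Real.cosh_pos _) _
  have hbound : ∀ F : Finset G, ∑ g ∈ F, (-lor x.val (ρ g (Ohy n).val)) ^ (-s) ≤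
      K * Real.exp (-((s - s') * D)) := by
    intro F
    calc ∑ g ∈ F, (-lor x.val (ρ g (Ohy n).val)) ^ (-s)
        ≤ ∑ g ∈ F, 2 ^ s * Real.exp (-(s * dist x (g • Ohy n))) := by
          apply Finset.sum_le_sum
          intro g _
          rw [hterm g]
          exact c1e_cosh _ _ hs0
      _ = 2 ^ s * ∑ g ∈ F, Real.exp (-(s * dist x (g • Ohy n))) := by rw [Finset.mul_sum]
      _ ≤ 2 ^ s * (C * Real.exp s * (1 - Real.exp (-(s - s')))⁻¹ *
            Real.exp (-((s - s') * D))) := by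
          apply mul_le_mul_of_nonneg_left _ (by positivity)
          exact c1e_sum (fun g : G => dist x (g • Ohy n)) (fun g => dist_nonneg)
            (fun R => c1e_finite h hd x R) C s' s hs'0 hs hx' hC D hD' F
      _ = K * Real.exp (-((s - s') * D)) := by rw [hK]; ring
  have hsum : Summable (fun g : G => (-lor x.val (ρ g (Ohy n).val)) ^ (-s)) :=
    summable_of_sum_le (fun g => (hpos g).le) hbound
  have hP0 : 0 < Psum ρ s x.val := by
    unfold Psum
    exact hsum.tsum_pos (fun g => (hpos g).le) 1 (hpos 1)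
  have hP1 : Psum ρ s x.val ≤ K * Real.exp (-((s - s') * D)) := by
    unfold Psum
    exact Real.tsum_le_of_sum_le (fun g => (hpos g).le) hbound
  have hlog : Real.log (Psum ρ s x.val) ≤ Real.log K + -((s - s') * D) := by
    rw [← Real.log_exp (-((s - s') * D)), ← Real.log_mul hKpos.ne' (Real.exp_pos _).ne']
    exact Real.log_le_log hP0 hP1
  unfold fpot
  rw [rad_hy, Real.log_one]
  linarith

end Pot

end Pool.Agent.MP_8db1a4_gt
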