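import Pool.Agent.MP_8db1a4_gt.Collar

set_option autoImplicit false

/-! [KAP-S2] elementary properties of the support function (MP_8db1a4_gt). -/

namespace Pool.Agent.MP_8db1a4_gt

open Set

variable {n : ℕ}

/-- [K-S2] one normal vector -/
theorem lor_le_sinh (x y : Hy n) (e : LV n) (he : lor e e = 1) (a : ℝ) (ha : 0 ≤ a)
    (hx : lor x.val e ≤ Real.sinh a) : lor y.val e ≤ Real.sinh (a + dist x y) := by
  have hxx := x.lor_self
  have hyy := y.lor_self
  have hC := cosh_dist x y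
  set d : ℝ := dist x y with hd
  set p : ℝ := lor x.val e with hp
  set q : ℝ := Real.arsinh p with hq
  have hsq : Real.sinh q = p := Real.sinh_arsinh p
  have hxy : lor x.val y.val = -Real.cosh d := by linarith
  have hw : lor (y.val - Real.cosh d • x.val) x.val = 0 := by
    rw [lor_sub_left, lor_smul_left, lor_comm y.val x.val, hxy, hxx]; ring
  have he' : lor (e + p • x.val) x.val = 0 := by
    rw [lor_add_left, lor_smul_left, lor_comm e x.val, hxx, ← hp]; ring
  have hcau := lor_cauchy x.mem hw he'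
  have h1 : lor (y.val - Real.cosh d • x.val) (y.val - Real.cosh d • x.val) =
      Real.sinh d ^ 2 := by
    rw [lor_sub_left, lor_sub_right, lor_sub_right, lor_smul_left, lor_smul_left, lor_smul_right,
      lor_smul_right, lor_comm y.val x.val, hxy, hxx, hyy, Real.sinh_sq]; ring
  have h2 : lor (e + p • x.val) (e + p • x.val) = Real.cosh q ^ 2 := by
    rw [lor_add_left, lor_add_right, lor_add_right, lor_smul_left, lor_smul_left, lor_smul_right,
      lor_smul_right, lor_comm e x.val, he, hxx, ← hp, Real.cosh_sq, hsq]; ring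
  have h3 : lor (y.val - Real.cosh d • x.val) (e + p • x.val) =
      lor y.val e - Real.cosh d * p := by
    rw [lor_add_right, lor_smul_right, hw, lor_sub_left, lor_smul_left, ← hp]; ring
  rw [h1, h2, h3] at hcau
  have hd0 : 0 ≤ Real.sinh d := Real.sinh_nonneg_iff.2 dist_nonneg
  have hq0 : 0 < Real.cosh q := Real.cosh_pos q
  have h4 : lor y.val e - Real.cosh d * p ≤ Real.sinh d * Real.cosh q := by
    have h5 : (lor y.val e - Real.cosh d * p) ^ 2 ≤ (Real.sinh d * Real.cosh q) ^ 2 := by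
      rw [mul_pow]; exact hcau
    exact (abs_le_of_sq_le_sq' h5 (mul_nonneg hd0 hq0.le)).2
  have h6 : lor y.val e ≤ Real.sinh (q + d) := by
    rw [Real.sinh_add, hsq]
    linarith
  have h7 : q ≤ a := by
    rw [← Real.sinh_le_sinh, hsq]
    exact hx
  exact h6.trans (Real.sinh_le_sinh.2 (by linarith))

/-- [K-S2] -/
theorem lfun_bddAbove (𝒯 : Set (Hy n)) (hne : 𝒯.Nonempty) (X : LV n) (hX : X ∈ LCone n) :
    BddAbove ((fun e => lor X e) '' Efun 𝒯) := by
  obtain ⟨h₀, hh₀⟩ := hne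
  obtain ⟨x, hx⟩ := exists_smul_hy hX
  refine ⟨rad X * Real.sinh (0 + dist h₀ x), ?_⟩
  rintro _ ⟨e, he, rfl⟩
  show lor X e ≤ _
  have h1 := lor_le_sinh h₀ x e he.1 0 le_rfl (by rw [Real.sinh_zero]; exact he.2 h₀ hh₀)
  have h2 : lor X e = rad X * lor x.val e := by
    conv_lhs => rw [hx]
    rw [lor_smul_left]
  rw [h2]
  exact mul_le_mul_of_nonneg_left h1 (rad_pos hX).le

/-- [K-S2] -/
theorem lfun_le_sinh (𝒯 : Set (Hy n)) (hne : 𝒯.Nonempty) (x y : Hy n) (a : ℝ) (ha : 0 ≤ a)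
    (hx : Lfun 𝒯 x.val ≤ Real.sinh a) : Lfun 𝒯 y.val ≤ Real.sinh (a + dist x y) := by
  unfold Lfun at hx ⊢
  refine Real.sSup_le ?_ (Real.sinh_nonneg_iff.2 (add_nonneg ha dist_nonneg))
  rintro _ ⟨e, he, rfl⟩
  refine lor_le_sinh x y e he.1 a ha ?_
  exact (le_csSup (lfun_bddAbove 𝒯 hne x.val x.mem) ⟨e, he, rfl⟩).trans hx

theorem lfun_hull_nonpos (𝒯 : Set (Hy n)) (x : Hy n) (hx : x ∈ hullHy 𝒯) :
    Lfun 𝒯 x.val ≤ 0 := by
  obtain ⟨t, ht, hxt⟩ := hx
  unfold Lfun
  refine Real.sSup_le ?_ le_rfl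
  rintro _ ⟨e, he, rfl⟩
  show lor x.val e ≤ 0
  have hconv : Convex ℝ {X : LV n | lor X e ≤ 0} := by
    intro X hX Y hY a b ha hb _
    show lor (a • X + b • Y) e ≤ 0
    rw [lor_add_left, lor_smul_left, lor_smul_left]
    have hX' : lor X e ≤ 0 := hX
    have hY' : lor Y e ≤ 0 := hY
    nlinarith [mul_nonneg ha (neg_nonneg.2 hX'), mul_nonneg hb (neg_nonneg.2 hY')]
  have hsub : convexHull ℝ (Hy.val '' 𝒯) ⊆ {X : LV n | lor X e ≤ 0} := by
    refine convexHull_min ?_ hconv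
    rintro _ ⟨h', hh', rfl⟩
    exact he.2 h' hh'
  have h1 : lor (t • x.val) e ≤ 0 := hsub hxt
  rw [lor_smul_left] at h1
  by_contra hcon
  push Not at hcon
  have := mul_pos ht hcon
  linarith

end Pool.Agent.MP_8db1a4_gt
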