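import Pool.Agent.MP_8db1a4_gt.Geo.S2
import Pool.Agent.MP_8db1a4_gt.Collar

set_option autoImplicit false

/-! [K-S5] regularity and homogeneity of the support functions (MP_8db1a4_gt). -/

namespace Pool.Agent.MP_8db1a4_gt.S5

open Set Pool.Agent.MP_8db1a4_gt
open scoped Pointwise

variable {n : ℕ}

theorem s5_lfun_convexOn (𝒯 : Set (Hy n)) (hne : 𝒯.Nonempty) (hE : (Efun 𝒯).Nonempty) :
    ConvexOn ℝ (LCone n) (Lfun 𝒯) := by
  refine ⟨convex_LCone n, ?_⟩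
  intro X hX Y hY a b ha hb hab
  refine csSup_le (hE.image _) ?_
  rintro _ ⟨e, he, rfl⟩
  show lor (a • X + b • Y) e ≤ a • Lfun 𝒯 X + b • Lfun 𝒯 Y
  rw [lor_add_left, lor_smul_left, lor_smul_left, smul_eq_mul, smul_eq_mul]
  have h1 : lor X e ≤ Lfun 𝒯 X := le_csSup (lfun_bddAbove 𝒯 hne X hX) ⟨e, he, rfl⟩
  have h2 : lor Y e ≤ Lfun 𝒯 Y := le_csSup (lfun_bddAbove 𝒯 hne Y hY) ⟨e, he, rfl⟩
  exact add_le_add (mul_le_mul_of_nonneg_left h1 ha) (mul_le_mul_of_nonneg_left h2 hb)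

theorem s5_lfun_smul (𝒯 : Set (Hy n)) (X : LV n) (t : ℝ) (ht : 0 ≤ t) :
    Lfun 𝒯 (t • X) = t * Lfun 𝒯 X := by
  unfold Lfun
  have h1 : (fun e => lor (t • X) e) '' Efun 𝒯 = t • ((fun e => lor X e) '' Efun 𝒯) := by
    ext r
    simp only [mem_image, mem_smul_set, smul_eq_mul, lor_smul_left]
    constructor
    · rintro ⟨e, he, rfl⟩
      exact ⟨_, ⟨e, he, rfl⟩, rfl⟩
    · rintro ⟨_, ⟨e, he, rfl⟩, rfl⟩
      exact ⟨e, he, rfl⟩
  rw [h1, Real.sSup_smul_of_nonneg ht, smul_eq_mul]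

/-- reversed Cauchy-Schwarz. -/
theorem s5_rev_cauchy {X Y : LV n} (hX : X ∈ LCone n) (hY : Y ∈ LCone n) :
    rad X * rad Y ≤ -lor X Y := by
  obtain ⟨x, hx⟩ := exists_smul_hy hX
  obtain ⟨y, hy⟩ := exists_smul_hy hY
  have h1 := one_le_neg_lor x y
  have h2 : lor X Y = rad X * rad Y * lor x.val y.val := by
    calc lor X Y = lor (rad X • x.val) (rad Y • y.val) := by rw [← hx, ← hy]
      _ = _ := by rw [lor_smul_left, lor_smul_right]; ring
  have h3 : 0 < rad X * rad Y := mul_pos (rad_pos hX) (rad_pos hY)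
  rw [h2]
  nlinarith

theorem s5_rad_concaveOn (n : ℕ) : ConcaveOn ℝ (LCone n) (rad : LV n → ℝ) := by
  refine ⟨convex_LCone n, ?_⟩
  intro X hX Y hY a b ha hb hab
  rw [smul_eq_mul, smul_eq_mul]
  show a * rad X + b * rad Y ≤ Real.sqrt (-lor (a • X + b • Y) (a • X + b • Y))
  apply Real.le_sqrt_of_sq_le
  have h1 := s5_rev_cauchy hX hY
  have h2 := rad_sq hX
  have h3 := rad_sq hY
  have h4 : -lor (a • X + b • Y) (a • X + b • Y) =
      a ^ 2 * (-lor X X) + b ^ 2 * (-lor Y Y) + 2 * (a * b) * (-lor X Y) := by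
    rw [lor_add_left, lor_add_right, lor_add_right, lor_smul_left, lor_smul_left, lor_smul_left,
      lor_smul_left, lor_smul_right, lor_smul_right, lor_smul_right, lor_smul_right,
      lor_comm Y X]
    ring
  rw [h4, ← h2, ← h3]
  have h5 : 2 * (a * b) * (rad X * rad Y) ≤ 2 * (a * b) * (-lor X Y) :=
    mul_le_mul_of_nonneg_left h1 (by positivity)
  nlinarith

theorem sfun_continuousOn (𝒯 : Set (Hy n)) (hne : 𝒯.Nonempty) (hE : (Efun 𝒯).Nonempty) :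
    ContinuousOn (Sfun 𝒯) (LCone n) := by
  have h1 : ContinuousOn (Lfun 𝒯) (LCone n) := by
    have := (s5_lfun_convexOn 𝒯 hne hE).continuousOn_interior
    rwa [(isOpen_LCone n).interior_eq] at this
  exact h1.div (continuous_rad n).continuousOn (fun X hX => (rad_pos hX).ne')

theorem sfun_smul (𝒯 : Set (Hy n)) (X : LV n) (t : ℝ) (ht : 0 < t) :
    Sfun 𝒯 (t • X) = Sfun 𝒯 X := by
  unfold Sfun
  rw [s5_lfun_smul 𝒯 X t ht.le, rad_smul X ht.le, mul_div_mul_left _ _ ht.ne']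

theorem sfun_convex (𝒯 : Set (Hy n)) (hne : 𝒯.Nonempty) (hE : (Efun 𝒯).Nonempty) (a : ℝ)
    (ha : 0 ≤ a) : Convex ℝ {X ∈ LCone n | Sfun 𝒯 X < a} := by
  have h1 : ConvexOn ℝ (LCone n) (fun X => Lfun 𝒯 X - a * rad X) := by
    have h2 := (s5_lfun_convexOn 𝒯 hne hE).sub ((s5_rad_concaveOn n).smul ha)
    exact h2
  have h2 := h1.convex_lt 0
  have h3 : {X ∈ LCone n | Sfun 𝒯 X < a} = {X ∈ LCone n | Lfun 𝒯 X - a * rad X < 0} := by
    ext X
    constructor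
    · rintro ⟨hX, hlt⟩
      refine ⟨hX, ?_⟩
      have h4 : Lfun 𝒯 X / rad X < a := hlt
      rw [div_lt_iff₀ (rad_pos hX)] at h4
      linarith
    · rintro ⟨hX, hlt⟩
      refine ⟨hX, ?_⟩
      show Lfun 𝒯 X / rad X < a
      rw [div_lt_iff₀ (rad_pos hX)]
      linarith
  rw [h3]
  exact h2

end Pool.Agent.MP_8db1a4_gt.S5

namespace Pool.Agent.MP_8db1a4_gt

export S5 (sfun_continuousOn sfun_smul sfun_convex)

end Pool.Agent.MP_8db1a4_gt
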