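import Pool.Agent.MP_8db1a4_gt.Geo.CM1
import Pool.Agent.MP_8db1a4_gt.Geo.C1a
import Pool.Agent.MP_8db1a4_gt.Geo.C1e
import Pool.Agent.MP_8db1a4_gt.Geo.S5
import Pool.Agent.MP_8db1a4_gt.Geo.S2

set_option autoImplicit false

/-! [KAP-CM2] the Morse function (MP_8db1a4_gt). -/

namespace Pool.Agent.MP_8db1a4_gt.CM2

open Set

variable {n : ℕ}

theorem cm2_colG_nonneg (κ S : ℝ) : 0 ≤ colG κ S := sq_nonneg _

theorem cm2_colG_le_one {κ S : ℝ} (hκ : 0 < κ) (hS : 1 ≤ S) : colG κ S ≤ 1 := by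
  unfold colG
  have h1 : S ^ (-(1 / 4) : ℝ) ≤ 1 := Real.rpow_le_one_of_one_le_of_nonpos hS (by norm_num)
  have h2 : max (S ^ (-(1 / 4) : ℝ) - κ) 0 ≤ 1 := max_le (by linarith) zero_le_one
  have h3 : 0 ≤ max (S ^ (-(1 / 4) : ℝ) - κ) 0 := le_max_right _ _
  nlinarith

theorem cm2_colG_continuousAt (κ : ℝ) {S : ℝ} (hS : 0 < S) : ContinuousAt (colG κ) S := by
  unfold colG
  have h1 : ContinuousAt (fun S : ℝ => S ^ (-(1 / 4) : ℝ)) S :=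
    Real.continuousAt_rpow_const S _ (Or.inl hS.ne')
  exact ((h1.sub continuousAt_const).sup continuousAt_const).pow 2

section Family

variable {G : Type*} [Group G] {ρ : G →* (LV n →L[ℝ] LV n)} {h : LorAction ρ} {s₀ s' s κ : ℝ}
  {k : ℕ} {ι : Type*} [MulAction G ι] {𝒯 : ι → Set (Hy n)}

theorem cm2_two_lt {X : LV n} (hX : X ∈ LCone n \ ⋃ i, Tc (𝒯 i)) (i : ι) :
    2 < Sfun (𝒯 i) X := by
  by_contra hcon
  push Not at hcon
  exact hX.2 (mem_iUnion.2 ⟨i, hX.1, hcon⟩)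

theorem cm2_colSum_nonneg (κ : ℝ) (𝒯 : ι → Set (Hy n)) (X : LV n) : 0 ≤ colSum κ 𝒯 X := by
  unfold colSum
  refine finsum_nonneg fun i => ?_
  split_ifs
  · exact cm2_colG_nonneg _ _
  · exact le_rfl

theorem cm2_colSum_le_one (D : FamilyData ρ h s₀ s' s κ k 𝒯) {X : LV n}
    (hX : X ∈ LCone n \ ⋃ i, Tc (𝒯 i)) : colSum κ 𝒯 X ≤ 1 := by
  obtain ⟨N, -, hXN, -, hN⟩ := family_local D X hX.1 (fun i => (cm2_two_lt hX i).le)
  rcases hN with ⟨i, hi, -⟩ | ⟨h0, -⟩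
  · rw [(hi X hXN).2]
    exact cm2_colG_le_one D.hκ (hi X hXN).1.le
  · rw [h0 X hXN]
    exact zero_le_one

theorem cm2_s_pos (D : FamilyData ρ h s₀ s' s κ k 𝒯) : s₀ < s ∧ 0 < s := by
  have h1 := D.hs₀
  have h2 := D.hs₀s'
  have h3 := D.hs's
  exact ⟨by linarith, by linarith⟩

theorem fmor_continuousOn (D : FamilyData ρ h s₀ s' s κ k 𝒯) :
    ContinuousOn (Fmor ρ s κ 𝒯) (LCone n \ ⋃ i, Tc (𝒯 i)) := by
  intro X hX
  obtain ⟨N, hNo, hXN, hNC, hN⟩ := family_local D X hX.1 (fun i => (cm2_two_lt hX i).le)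
  have hfp : ContinuousAt (fpot ρ s) X :=
    (fpot_continuousOn ρ h D.disc s₀ s D.hs₀ (cm2_s_pos D).1 D.growth).continuousAt
      ((isOpen_LCone n).mem_nhds hX.1)
  have hnhds : N ∈ nhds X := hNo.mem_nhds hXN
  have hcol : ContinuousAt (colSum κ 𝒯) X := by
    rcases hN with ⟨i, hi, -⟩ | ⟨h0, -⟩
    · have hS : ContinuousAt (Sfun (𝒯 i)) X :=
        (sfun_continuousOn (𝒯 i) (D.nonempty i) (family_efun D i)).continuousAt
          ((isOpen_LCone n).mem_nhds hX.1)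
      have h1 : ContinuousAt (fun Y => colG κ (Sfun (𝒯 i) Y)) X :=
        ContinuousAt.comp (f := Sfun (𝒯 i)) (g := colG κ)
          (cm2_colG_continuousAt κ (by linarith [(hi X hXN).1])) hS
      refine h1.congr ?_
      filter_upwards [hnhds] with Y hY
      exact (hi Y hY).2.symm
    · refine (continuousAt_const (y := (0 : ℝ))).congr ?_
      filter_upwards [hnhds] with Y hY
      exact (h0 Y hY).symm
  exact (hfp.sub (continuousAt_const.mul hcol)).continuousWithinAt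

theorem fmor_smul (D : FamilyData ρ h s₀ s' s κ k 𝒯) (X : LV n) (hX : X ∈ LCone n) (t : ℝ)
    (ht : 0 < t) : Fmor ρ s κ 𝒯 (t • X) = Fmor ρ s κ 𝒯 X := by
  unfold Fmor
  rw [fpot_smul ρ h D.disc s₀ s D.hs₀ (cm2_s_pos D).1 D.growth X hX t ht]
  congr 2
  unfold colSum
  refine finsum_congr fun i => ?_
  rw [sfun_smul (𝒯 i) X t ht]

theorem fmor_inv (D : FamilyData ρ h s₀ s' s κ k 𝒯) (g : G) (X : LV n) (hX : X ∈ LCone n) :
    Fmor ρ s κ 𝒯 (ρ g X) = Fmor ρ s κ 𝒯 X := by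
  unfold Fmor
  rw [fpot_inv ρ h s g X]
  congr 2
  unfold colSum
  rw [← finsum_comp_equiv (MulAction.toPerm g : Equiv.Perm ι)]
  refine finsum_congr fun i => ?_
  rw [MulAction.toPerm_apply, family_equiv D g i X]

theorem cm2_notMem (D : FamilyData ρ h s₀ s' s κ k 𝒯) (x : Hy n)
    (hx : x.val ∉ ⋃ i, Tc (𝒯 i)) (i : ι) : x ∉ 𝒯 i := by
  intro hxi
  refine hx (mem_iUnion.2 ⟨i, x.mem, ?_⟩)
  have h1 : Lfun (𝒯 i) x.val ≤ 0 := by
    refine lfun_hull_nonpos (𝒯 i) x ⟨1, one_pos, ?_⟩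
    rw [one_smul]
    exact subset_convexHull ℝ _ ⟨x, hxi, rfl⟩
  unfold Sfun
  rw [rad_hy, div_one]
  linarith

theorem fmor_lower (D : FamilyData ρ h s₀ s' s κ k 𝒯) :
    ∃ C' : ℝ, ∀ x : Hy n, x.val ∉ ⋃ i, Tc (𝒯 i) → ∀ Dd : ℝ,
      (letI := hyAction h; ∀ g : G, Dd ≤ dist x (g • Ohy n)) →
        (s - s') * Dd - C' ≤ Fmor ρ s κ 𝒯 x.val := by
  obtain ⟨C, hC, hdec⟩ := D.decay
  obtain ⟨C', hC'⟩ := fpot_lower ρ h D.disc s₀ s' s D.hs₀ D.hs₀s' D.hs's D.growth C hC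
  refine ⟨C' + 8 * (s + 1), fun x hx Dd hDd => ?_⟩
  have h1 := hC' x (hdec x (cm2_notMem D x hx)) Dd hDd
  have h2 := cm2_colSum_le_one D (X := x.val) ⟨x.mem, hx⟩
  have h3 := (cm2_s_pos D).2
  unfold Fmor
  have h4 : 8 * (s + 1) * colSum κ 𝒯 x.val ≤ 8 * (s + 1) * 1 :=
    mul_le_mul_of_nonneg_left h2 (by linarith)
  linarith

theorem fmor_bdd (D : FamilyData ρ h s₀ s' s κ k 𝒯) (Z : Set (LV n)) (hZ : IsCompact Z)
    (hZC : Z ⊆ LCone n) : ∃ c : ℝ, ∀ x ∈ Z \ ⋃ i, Tc (𝒯 i), Fmor ρ s κ 𝒯 x ≤ c := by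
  have h1 : ContinuousOn (fpot ρ s) Z :=
    (fpot_continuousOn ρ h D.disc s₀ s D.hs₀ (cm2_s_pos D).1 D.growth).mono hZC
  obtain ⟨c, hc⟩ := hZ.bddAbove_image h1
  refine ⟨c, fun x hx => ?_⟩
  have h2 : fpot ρ s x ≤ c := hc ⟨x, hx.1, rfl⟩
  have h3 := (cm2_s_pos D).2
  unfold Fmor
  have h4 : 0 ≤ 8 * (s + 1) * colSum κ 𝒯 x :=
    mul_nonneg (by linarith) (cm2_colSum_nonneg _ _ _)
  linarith

end Family

end Pool.Agent.MP_8db1a4_gt.CM2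

namespace Pool.Agent.MP_8db1a4_gt

export CM2 (fmor_continuousOn fmor_smul fmor_inv fmor_lower fmor_bdd)

end Pool.Agent.MP_8db1a4_gt
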