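import Pool.Agent.MP_8db1a4_gt.Geo.B1a
import Pool.Agent.MP_8db1a4_gt.Collar

set_option autoImplicit false

/-! [K-S1] strict differentiability and convexity of the support function (MP_8db1a4_gt). -/

namespace Pool.Agent.MP_8db1a4_gt.S1

open Set Pool.Agent.MP_8db1a4_gt

variable {n : ℕ}

/-- The unit normals in the frame at `x₀`. -/
def s1_K (𝒯 : Set (Hy n)) (x₀ : Hy n) : Set (LV n) :=
  {u | lor u u = 1 ∧ ∀ h ∈ 𝒯, lor (unboost x₀.val h.val) u ≤ 0}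

theorem s1_lfun_eq (𝒯 : Set (Hy n)) (x₀ : Hy n) (ζ : EuclideanSpace ℝ (Fin n)) :
    Lfun 𝒯 (boost x₀.val (ζ, 1)) =
      sSup ((fun u : LV n => inner ℝ ζ u.1 - u.2) '' s1_K 𝒯 x₀) := by
  unfold Lfun
  congr 1
  ext r
  constructor
  · rintro ⟨e, he, rfl⟩
    refine ⟨unboost x₀.val e, ⟨?_, ?_⟩, ?_⟩
    · rw [lor_unboost]; exact he.1
    · intro h hh; rw [lor_unboost]; exact he.2 h hh
    · show inner ℝ ζ (unboost x₀.val e).1 - (unboost x₀.val e).2 = lor (boost x₀.val (ζ, 1)) e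
      have h1 : lor (boost x₀.val (ζ, 1)) e = lor (ζ, 1) (unboost x₀.val e) := by
        rw [← lor_boost x₀ (ζ, 1) (unboost x₀.val e), boost_unboost]
      rw [h1]; simp [lor]
  · rintro ⟨u, hu, rfl⟩
    refine ⟨boost x₀.val u, ⟨?_, ?_⟩, ?_⟩
    · rw [lor_boost]; exact hu.1
    · intro h hh
      have h1 := hu.2 h hh
      rw [← lor_boost x₀, boost_unboost] at h1
      exact h1
    · show lor (boost x₀.val (ζ, 1)) (boost x₀.val u) = inner ℝ ζ u.1 - u.2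
      rw [lor_boost]; simp [lor]

theorem s1_nonempty {𝒯 : Set (Hy n)} (hE : (Efun 𝒯).Nonempty) (x₀ : Hy n) :
    (s1_K 𝒯 x₀).Nonempty := by
  obtain ⟨e, he⟩ := hE
  refine ⟨unboost x₀.val e, ?_, ?_⟩
  · rw [lor_unboost]; exact he.1
  · intro h hh; rw [lor_unboost]; exact he.2 h hh

theorem s1_norm_sq {𝒯 : Set (Hy n)} {x₀ : Hy n} {u : LV n} (hu : u ∈ s1_K 𝒯 x₀) :
    ‖u.1‖ ^ 2 = 1 + u.2 ^ 2 := by
  have h1 := hu.1
  simp only [lor, real_inner_self_eq_norm_sq] at h1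
  linarith

theorem s1_norm_le {𝒯 : Set (Hy n)} {x₀ : Hy n} {u : LV n} (hu : u ∈ s1_K 𝒯 x₀) :
    ‖u.1‖ ≤ 1 + |u.2| := by
  have h1 := s1_norm_sq hu
  have h2 := abs_nonneg u.2
  have h3 := sq_abs u.2
  nlinarith [norm_nonneg u.1]

/-- the second coordinate of a normal is bounded below. -/
theorem s1_lower {𝒯 : Set (Hy n)} (hne : 𝒯.Nonempty) (x₀ : Hy n) :
    ∃ A : ℝ, 0 ≤ A ∧ ∀ u ∈ s1_K 𝒯 x₀, -A ≤ u.2 := by
  obtain ⟨h, hh⟩ := hne
  have hη : unboost x₀.val h.val ∈ LCone n := unboost_mem_cone x₀ _ h.mem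
  have hη1 : lor (unboost x₀.val h.val) (unboost x₀.val h.val) = -1 := by
    rw [lor_unboost]; exact h.lor_self
  refine ⟨‖(unboost x₀.val h.val).1‖, norm_nonneg _, ?_⟩
  intro u hu
  have h1 := hu.2 h hh
  have h2 := s1_norm_sq hu
  revert hη hη1 h1
  generalize unboost x₀.val h.val = η
  intro hη hη1 h1
  by_contra hcon
  push Not at hcon
  have h3 : ‖η.1‖ < η.2 := hη
  have h4 : ‖η.1‖ ^ 2 - η.2 ^ 2 = -1 := by
    simp only [lor, real_inner_self_eq_norm_sq] at hη1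
    linarith
  have h5 : -(‖η.1‖ * ‖u.1‖) ≤ inner ℝ η.1 u.1 := by
    have := abs_real_inner_le_norm η.1 u.1
    have h6 := neg_abs_le (inner ℝ η.1 u.1 : ℝ)
    linarith
  simp only [lor] at h1
  -- `-u.2 * η.2 ≤ ‖η.1‖ * ‖u.1‖`
  have h6 : -u.2 * η.2 ≤ ‖η.1‖ * ‖u.1‖ := by nlinarith
  have h7 : 0 ≤ -u.2 * η.2 := by
    have := norm_nonneg η.1
    nlinarith
  have h8 : (-u.2 * η.2) ^ 2 ≤ (‖η.1‖ * ‖u.1‖) ^ 2 := pow_le_pow_left₀ h7 h6 2
  have h9 : (‖η.1‖ * ‖u.1‖) ^ 2 = ‖η.1‖ ^ 2 * (1 + u.2 ^ 2) := by rw [mul_pow, h2]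
  have h10 : (-u.2 * η.2) ^ 2 = u.2 ^ 2 * (‖η.1‖ ^ 2 + 1) := by
    have : η.2 ^ 2 = ‖η.1‖ ^ 2 + 1 := by linarith
    rw [mul_pow, this]; ring
  rw [h9, h10] at h8
  have h11 : u.2 ^ 2 ≤ ‖η.1‖ ^ 2 := by nlinarith
  have h12 : ‖η.1‖ < -u.2 := by linarith
  nlinarith [norm_nonneg η.1]

theorem s1_bdd {𝒯 : Set (Hy n)} (hne : 𝒯.Nonempty) (x₀ : Hy n) (ζ : EuclideanSpace ℝ (Fin n))
    (hζ : ‖ζ‖ ≤ 1) :
    BddAbove ((fun u : LV n => inner ℝ ζ u.1 - u.2) '' s1_K 𝒯 x₀) := by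
  obtain ⟨A, hA, hAu⟩ := s1_lower hne x₀
  refine ⟨1 + 2 * A, ?_⟩
  rintro _ ⟨u, hu, rfl⟩
  show inner ℝ ζ u.1 - u.2 ≤ 1 + 2 * A
  have h1 := hAu u hu
  have h2 := s1_norm_le hu
  have h3 := real_inner_le_norm ζ u.1
  have h4 : ‖ζ‖ * ‖u.1‖ ≤ 1 * (1 + |u.2|) :=
    mul_le_mul hζ h2 (norm_nonneg _) zero_le_one
  rcases le_total 0 u.2 with h5 | h5
  · rw [abs_of_nonneg h5] at h4; linarith
  · rw [abs_of_nonpos h5] at h4; linarith

theorem s1_le {𝒯 : Set (Hy n)} (hne : 𝒯.Nonempty) (x₀ : Hy n) (ζ : EuclideanSpace ℝ (Fin n))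
    (hζ : ‖ζ‖ ≤ 1) {u : LV n} (hu : u ∈ s1_K 𝒯 x₀) :
    inner ℝ ζ u.1 - u.2 ≤ Lfun 𝒯 (boost x₀.val (ζ, 1)) := by
  rw [s1_lfun_eq]
  exact le_csSup (s1_bdd hne x₀ ζ hζ) ⟨u, hu, rfl⟩

theorem lfun_convex (𝒯 : Set (Hy n)) (hne : 𝒯.Nonempty) (hE : (Efun 𝒯).Nonempty) (x₀ : Hy n) :
    ConvexOn ℝ (Metric.ball (0 : EuclideanSpace ℝ (Fin n)) 1)
      (fun ζ : EuclideanSpace ℝ (Fin n) => Lfun 𝒯 (boost x₀.val (ζ, 1))) := by
  refine ⟨convex_ball _ _, ?_⟩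
  intro x hx y hy a b ha hb hab
  have hx1 : ‖x‖ ≤ 1 := by rw [mem_ball_zero_iff] at hx; exact hx.le
  have hy1 : ‖y‖ ≤ 1 := by rw [mem_ball_zero_iff] at hy; exact hy.le
  show Lfun 𝒯 (boost x₀.val (a • x + b • y, 1)) ≤
    a • Lfun 𝒯 (boost x₀.val (x, 1)) + b • Lfun 𝒯 (boost x₀.val (y, 1))
  rw [s1_lfun_eq 𝒯 x₀ (a • x + b • y)]
  refine csSup_le ((s1_nonempty hE x₀).image _) ?_
  rintro _ ⟨u, hu, rfl⟩
  show inner ℝ (a • x + b • y) u.1 - u.2 ≤ _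
  have h1 := mul_le_mul_of_nonneg_left (s1_le hne x₀ x hx1 hu) ha
  have h2 := mul_le_mul_of_nonneg_left (s1_le hne x₀ y hy1 hu) hb
  rw [inner_add_left, real_inner_smul_left, real_inner_smul_left, smul_eq_mul, smul_eq_mul]
  have h3 : u.2 = a * u.2 + b * u.2 := by rw [← add_mul, hab, one_mul]
  nlinarith

theorem s1_isClosed (𝒯 : Set (Hy n)) (x₀ : Hy n) : IsClosed (s1_K 𝒯 x₀) := by
  have h1 : s1_K 𝒯 x₀ = {u | lor u u = 1} ∩ ⋂ h ∈ 𝒯, {u | lor (unboost x₀.val h.val) u ≤ 0} := by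
    ext u
    simp [s1_K]
  rw [h1]
  refine IsClosed.inter ?_ ?_
  · refine isClosed_eq ?_ continuous_const
    exact (continuous_lor n).comp (continuous_id.prodMk continuous_id)
  · exact isClosed_biInter fun h _ => isClosed_le (continuous_lor_right _) continuous_const

/-- The compact part of the set of normals. -/
theorem s1_compact {𝒯 : Set (Hy n)} (hne : 𝒯.Nonempty) (x₀ : Hy n) :
    IsCompact (s1_K 𝒯 x₀ ∩ {u | u.2 ≤ 1}) := by
  obtain ⟨A, hA, hAu⟩ := s1_lower hne x₀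
  refine Metric.isCompact_of_isClosed_isBounded
    ((s1_isClosed 𝒯 x₀).inter (isClosed_le continuous_snd continuous_const)) ?_
  refine (Metric.isBounded_iff_subset_closedBall 0).mpr ⟨2 + A, ?_⟩
  rintro u ⟨hu, hu1⟩
  rw [mem_closedBall_zero_iff, Prod.norm_def]
  have hu1' : u.2 ≤ 1 := hu1
  have h1 := hAu u hu
  have h2 := s1_norm_le hu
  have h3 : |u.2| ≤ 1 + A := by
    rw [abs_le]; constructor <;> linarith
  refine max_le (by linarith) ?_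
  rw [Real.norm_eq_abs]; linarith

/-- normals with large last coordinate have negative values. -/
theorem s1_large {𝒯 : Set (Hy n)} {x₀ : Hy n} {u : LV n} (hu : u ∈ s1_K 𝒯 x₀)
    (ζ : EuclideanSpace ℝ (Fin n)) (hζ : ‖ζ‖ ≤ 1 / 2) (hu1 : 1 < u.2) :
    inner ℝ ζ u.1 - u.2 ≤ 0 := by
  have h2 := s1_norm_le hu
  have h3 := real_inner_le_norm ζ u.1
  have h4 : ‖ζ‖ * ‖u.1‖ ≤ 1 / 2 * (1 + |u.2|) :=
    mul_le_mul hζ h2 (norm_nonneg _) (by norm_num)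
  rw [abs_of_pos (by linarith)] at h4
  linarith

/-- existence of maximizers. -/
theorem s1_exists_max {𝒯 : Set (Hy n)} (hne : 𝒯.Nonempty) (hE : (Efun 𝒯).Nonempty) (x₀ : Hy n)
    (ζ : EuclideanSpace ℝ (Fin n)) (hζ : ‖ζ‖ ≤ 1 / 2) (hpos : 0 < Lfun 𝒯 (boost x₀.val (ζ, 1))) :
    ∃ u ∈ s1_K 𝒯 x₀, u.2 ≤ 1 ∧ inner ℝ ζ u.1 - u.2 = Lfun 𝒯 (boost x₀.val (ζ, 1)) := by
  have hζ1 : ‖ζ‖ ≤ 1 := by linarith
  have hne' : ((fun u : LV n => inner ℝ ζ u.1 - u.2) '' s1_K 𝒯 x₀).Nonempty :=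
    (s1_nonempty hE x₀).image _
  -- the compact part is nonempty
  have h1 : (s1_K 𝒯 x₀ ∩ {u | u.2 ≤ 1}).Nonempty := by
    rw [s1_lfun_eq] at hpos
    obtain ⟨_, ⟨u, hu, rfl⟩, hlt⟩ := exists_lt_of_lt_csSup hne' hpos
    refine ⟨u, hu, ?_⟩
    by_contra hcon
    have hcon' : 1 < u.2 := not_le.mp hcon
    have := s1_large hu ζ hζ hcon'
    exact absurd hlt (not_lt.mpr this)
  have hcont : ContinuousOn (fun u : LV n => inner ℝ ζ u.1 - u.2)
      (s1_K 𝒯 x₀ ∩ {u | u.2 ≤ 1}) := by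
    apply Continuous.continuousOn
    fun_prop
  obtain ⟨u, ⟨hu, hu1⟩, hmax⟩ := (s1_compact hne x₀).exists_isMaxOn h1 hcont
  refine ⟨u, hu, hu1, ?_⟩
  apply le_antisymm (s1_le hne x₀ ζ hζ1 hu)
  by_contra hcon
  push Not at hcon
  have hlt2 : max (inner ℝ ζ u.1 - u.2) 0 < Lfun 𝒯 (boost x₀.val (ζ, 1)) := max_lt hcon hpos
  rw [s1_lfun_eq] at hlt2
  obtain ⟨_, ⟨v, hv, rfl⟩, hlt⟩ := exists_lt_of_lt_csSup hne' hlt2
  have hlt' : max (inner ℝ ζ u.1 - u.2) 0 < inner ℝ ζ v.1 - v.2 := hlt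
  by_cases hv1 : v.2 ≤ 1
  · have h2 : inner ℝ ζ v.1 - v.2 ≤ inner ℝ ζ u.1 - u.2 := hmax ⟨hv, hv1⟩
    have h3 := le_max_left (inner ℝ ζ u.1 - u.2) 0
    linarith
  · have := s1_large hv ζ hζ (not_le.mp hv1)
    have h3 := le_max_right (inner ℝ ζ u.1 - u.2) 0
    linarith

/-- uniqueness of the maximizer at the center. -/
theorem s1_unique {𝒯 : Set (Hy n)} (hne : 𝒯.Nonempty) (x₀ : Hy n)
    {u v : LV n} (hu : u ∈ s1_K 𝒯 x₀) (hv : v ∈ s1_K 𝒯 x₀)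
    (hpos : 0 < Lfun 𝒯 (boost x₀.val (0, 1)))
    (hu2 : -u.2 = Lfun 𝒯 (boost x₀.val (0, 1))) (hv2 : -v.2 = Lfun 𝒯 (boost x₀.val (0, 1))) :
    u = v := by
  set α : ℝ := Lfun 𝒯 (boost x₀.val (0, 1)) with hα
  have hnu := s1_norm_sq hu
  have hnv := s1_norm_sq hv
  have hu2' : u.2 = -α := by linarith
  have hv2' : v.2 = -α := by linarith
  rw [hu2'] at hnu
  rw [hv2'] at hnv
  have hss : lor (u + v) (u + v) = 2 + 2 * lor u v := by
    rw [lor_add_left, lor_add_right, lor_add_right, hu.1, hv.1, lor_comm v u]; ring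
  have huv : lor u v = inner ℝ u.1 v.1 - α ^ 2 := by
    simp only [lor, hu2', hv2']; ring
  have key : 1 ≤ lor u v := by
    by_contra hcon
    push Not at hcon
    rcases le_or_gt (lor (u + v) (u + v)) 0 with h0 | h0
    · -- past causal sum
      obtain ⟨h, hh⟩ := hne
      have hη : unboost x₀.val h.val ∈ LCone n := unboost_mem_cone x₀ _ h.mem
      have h1 := hu.2 h hh
      have h2 := hv.2 h hh
      have h3 : lor (unboost x₀.val h.val) (u + v) ≤ 0 := by rw [lor_add_right]; linarith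
      revert hη h3
      generalize unboost x₀.val h.val = η
      intro hη h3
      have h4 : ‖η.1‖ < η.2 := hη
      have h5 : ‖(u + v).1‖ ^ 2 ≤ (2 * α) ^ 2 := by
        have : lor (u + v) (u + v) = ‖(u + v).1‖ ^ 2 - (u + v).2 ^ 2 := by
          simp only [lor, real_inner_self_eq_norm_sq]; ring
        rw [this, Prod.snd_add, hu2', hv2'] at h0
        nlinarith
      have h6 : ‖(u + v).1‖ ≤ 2 * α := by
        have := norm_nonneg (u + v).1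
        nlinarith
      have h7 : lor η (u + v) = inner ℝ η.1 (u + v).1 + η.2 * (2 * α) := by
        simp only [lor, Prod.snd_add, hu2', hv2']; ring
      have h8 : -(‖η.1‖ * ‖(u + v).1‖) ≤ inner ℝ η.1 (u + v).1 := by
        have := abs_real_inner_le_norm η.1 (u + v).1
        have h6 := neg_abs_le (inner ℝ η.1 (u + v).1 : ℝ)
        linarith
      have h9 : ‖η.1‖ * ‖(u + v).1‖ ≤ ‖η.1‖ * (2 * α) :=
        mul_le_mul_of_nonneg_left h6 (norm_nonneg _)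
      have h10 : ‖η.1‖ * (2 * α) < η.2 * (2 * α) := mul_lt_mul_of_pos_right h4 (by linarith)
      rw [h7] at h3
      linarith
    · -- normalise the sum
      set N : ℝ := Real.sqrt (lor (u + v) (u + v)) with hN
      have hNpos : 0 < N := Real.sqrt_pos.mpr h0
      have hNsq : N ^ 2 = lor (u + v) (u + v) := Real.sq_sqrt h0.le
      have hmem : N⁻¹ • (u + v) ∈ s1_K 𝒯 x₀ := by
        refine ⟨?_, ?_⟩
        · rw [lor_smul_left, lor_smul_right, ← hNsq]; field_simp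
        · intro h hh
          rw [lor_smul_right, lor_add_right]
          have h1 := hu.2 h hh
          have h2 := hv.2 h hh
          exact mul_nonpos_of_nonneg_of_nonpos (inv_pos.mpr hNpos).le (by linarith)
      have h1 := s1_le hne x₀ 0 (by simp) hmem
      have h2 : inner ℝ (0 : EuclideanSpace ℝ (Fin n)) (N⁻¹ • (u + v)).1 - (N⁻¹ • (u + v)).2
          = N⁻¹ * (2 * α) := by
        rw [inner_zero_left, Prod.smul_snd, Prod.snd_add, hu2', hv2', smul_eq_mul]; ring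
      rw [h2, ← hα] at h1
      have h3 : 2 * α ≤ N * α := by
        have := mul_le_mul_of_nonneg_left h1 hNpos.le
        rwa [← mul_assoc, mul_inv_cancel₀ hNpos.ne', one_mul] at this
      have h4 : 2 ≤ N := by
        by_contra hc
        push Not at hc
        nlinarith
      have h5 : 4 ≤ lor (u + v) (u + v) := by rw [← hNsq]; nlinarith
      rw [hss] at h5
      linarith
  have h1 : ‖u.1 - v.1‖ ^ 2 ≤ 0 := by
    rw [@norm_sub_sq_real]
    rw [huv] at key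
    linarith
  have h2 : u.1 - v.1 = 0 := by
    rw [← norm_eq_zero]
    have := norm_nonneg (u.1 - v.1)
    nlinarith
  exact Prod.ext (sub_eq_zero.mp h2) (by rw [hu2', hv2'])

theorem lfun_strict (𝒯 : Set (Hy n)) (hne : 𝒯.Nonempty) (hE : (Efun 𝒯).Nonempty) (x₀ : Hy n)
    (hpos : 0 < Lfun 𝒯 x₀.val) :
    ∃ e₀ : EuclideanSpace ℝ (Fin n), ‖e₀‖ ^ 2 = 1 + Lfun 𝒯 x₀.val ^ 2 ∧
      HasStrictFDerivAt (fun ζ : EuclideanSpace ℝ (Fin n) => Lfun 𝒯 (boost x₀.val (ζ, 1)))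
        (innerSL ℝ e₀) 0 := by
  have hx₀ : boost x₀.val ((0 : EuclideanSpace ℝ (Fin n)), (1 : ℝ)) = x₀.val := boost_O x₀
  have hpos' : 0 < Lfun 𝒯 (boost x₀.val ((0 : EuclideanSpace ℝ (Fin n)), (1 : ℝ))) := by
    rw [hx₀]; exact hpos
  obtain ⟨u₀, hu₀, hu₀1, hu₀m⟩ := s1_exists_max hne hE x₀ 0 (by simp) hpos'
  rw [inner_zero_left, zero_sub] at hu₀m
  set α : ℝ := Lfun 𝒯 (boost x₀.val ((0 : EuclideanSpace ℝ (Fin n)), (1 : ℝ))) with hα
  have hα' : Lfun 𝒯 x₀.val = α := by rw [hα, hx₀]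
  have hn0 := s1_norm_sq hu₀
  refine ⟨u₀.1, ?_, ?_⟩
  · rw [hn0, hα', ← hu₀m]; ring
  · obtain ⟨A, hA, hAu⟩ := s1_lower hne x₀
    -- bound of the norms of normals in the compact part
    have hM : ∀ u ∈ s1_K 𝒯 x₀, u.2 ≤ 1 → ‖u.1‖ ≤ 2 + A := by
      intro u hu hu1
      have h1 := hAu u hu
      have h2 := s1_norm_le hu
      have h3 : |u.2| ≤ 1 + A := by
        rw [abs_le]; constructor <;> linarith
      linarith
    have hlow : ∀ ζ : EuclideanSpace ℝ (Fin n), ‖ζ‖ ≤ 1 → α - ‖ζ‖ * (2 + A) ≤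
        Lfun 𝒯 (boost x₀.val (ζ, 1)) := by
      intro ζ hζ
      have h1 := s1_le hne x₀ ζ hζ hu₀
      have h2 := abs_real_inner_le_norm ζ u₀.1
      have h3 := neg_abs_le (inner ℝ ζ u₀.1 : ℝ)
      have h4 : ‖ζ‖ * ‖u₀.1‖ ≤ ‖ζ‖ * (2 + A) :=
        mul_le_mul_of_nonneg_left (hM u₀ hu₀ hu₀1) (norm_nonneg _)
      linarith
    -- maximizers near `0` are close to `u₀`
    have hclose : ∀ ε > (0 : ℝ), ∃ r > (0 : ℝ), r ≤ 1 / 2 ∧
        ∀ ζ : EuclideanSpace ℝ (Fin n), ‖ζ‖ ≤ r →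
        ∃ u ∈ s1_K 𝒯 x₀, inner ℝ ζ u.1 - u.2 = Lfun 𝒯 (boost x₀.val (ζ, 1)) ∧
          ‖u.1 - u₀.1‖ ≤ ε := by
      intro ε hε
      -- the set of far normals
      have hcomp : IsCompact ((s1_K 𝒯 x₀ ∩ {u | u.2 ≤ 1}) ∩ {u : LV n | ε ≤ ‖u.1 - u₀.1‖}) :=
        (s1_compact hne x₀).inter_right
          (isClosed_le continuous_const ((continuous_fst.sub continuous_const).norm))
      obtain ⟨β, hβ, hβu⟩ : ∃ β : ℝ, β < α ∧
          ∀ u ∈ (s1_K 𝒯 x₀ ∩ {u | u.2 ≤ 1}) ∩ {u : LV n | ε ≤ ‖u.1 - u₀.1‖}, -u.2 ≤ β := by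
        rcases eq_empty_or_nonempty
          ((s1_K 𝒯 x₀ ∩ {u | u.2 ≤ 1}) ∩ {u : LV n | ε ≤ ‖u.1 - u₀.1‖}) with hem | hnem
        · refine ⟨α - 1, by linarith, ?_⟩
          intro u hu
          rw [hem] at hu
          exact absurd hu (notMem_empty u)
        · have hcont : ContinuousOn (fun u : LV n => -u.2)
              ((s1_K 𝒯 x₀ ∩ {u | u.2 ≤ 1}) ∩ {u : LV n | ε ≤ ‖u.1 - u₀.1‖}) := by
            apply Continuous.continuousOn
            fun_prop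
          obtain ⟨w, hw, hmax⟩ := hcomp.exists_isMaxOn hnem hcont
          refine ⟨-w.2, ?_, fun u hu => hmax hu⟩
          have h1 := s1_le hne x₀ 0 (by simp) hw.1.1
          rw [inner_zero_left, zero_sub] at h1
          refine lt_of_le_of_ne h1 ?_
          intro heq
          have h2 := s1_unique hne x₀ hw.1.1 hu₀ hpos' heq hu₀m
          have h3 : ε ≤ ‖w.1 - u₀.1‖ := hw.2
          rw [h2, sub_self, norm_zero] at h3
          linarith
      set D : ℝ := 2 + A with hD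
      have hDpos : 0 < D := by linarith
      refine ⟨min (1 / 2) (min (α / (2 * D)) ((α - β) / (4 * D))), ?_, min_le_left _ _, ?_⟩
      · refine lt_min (by norm_num) (lt_min (by positivity) ?_)
        have : 0 < α - β := by linarith
        positivity
      · intro ζ hζ
        have hζ1 : ‖ζ‖ ≤ 1 / 2 := hζ.trans (min_le_left _ _)
        have hζ2 : ‖ζ‖ ≤ α / (2 * D) := hζ.trans ((min_le_right _ _).trans (min_le_left _ _))
        have hζ3 : ‖ζ‖ ≤ (α - β) / (4 * D) :=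
          hζ.trans ((min_le_right _ _).trans (min_le_right _ _))
        have h1 := hlow ζ (by linarith)
        have h2 : ‖ζ‖ * D ≤ α / 2 := by
          have := mul_le_mul_of_nonneg_right hζ2 hDpos.le
          have h5 : α / (2 * D) * D = α / 2 := by field_simp
          rwa [h5] at this
        have h3 : ‖ζ‖ * D ≤ (α - β) / 4 := by
          have := mul_le_mul_of_nonneg_right hζ3 hDpos.le
          have h5 : (α - β) / (4 * D) * D = (α - β) / 4 := by field_simp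
          rwa [h5] at this
        have hLpos : 0 < Lfun 𝒯 (boost x₀.val (ζ, 1)) := by linarith
        obtain ⟨u, hu, hu1, hum⟩ := s1_exists_max hne hE x₀ ζ hζ1 hLpos
        refine ⟨u, hu, hum, ?_⟩
        by_contra hcon
        push Not at hcon
        have h4 := hβu u ⟨⟨hu, hu1⟩, hcon.le⟩
        have h5 := real_inner_le_norm ζ u.1
        have h6 : ‖ζ‖ * ‖u.1‖ ≤ ‖ζ‖ * D := mul_le_mul_of_nonneg_left (hM u hu hu1) (norm_nonneg _)
        linarith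
    -- conclusion
    rw [hasStrictFDerivAt_iff_isLittleO, Asymptotics.isLittleO_iff]
    intro ε hε
    obtain ⟨r, hr, hr2, hrζ⟩ := hclose ε hε
    have hnhds : Metric.ball (0 : EuclideanSpace ℝ (Fin n)) r ×ˢ
        Metric.ball (0 : EuclideanSpace ℝ (Fin n)) r ∈
        nhds ((0 : EuclideanSpace ℝ (Fin n)), (0 : EuclideanSpace ℝ (Fin n))) :=
      prod_mem_nhds (Metric.ball_mem_nhds _ hr) (Metric.ball_mem_nhds _ hr)
    filter_upwards [hnhds]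
    rintro ⟨p, q⟩ ⟨hp, hq⟩
    rw [mem_ball_zero_iff] at hp hq
    obtain ⟨up, hup, hupm, hupc⟩ := hrζ p hp.le
    obtain ⟨uq, huq, huqm, huqc⟩ := hrζ q hq.le
    have hp1 : ‖p‖ ≤ 1 := by linarith
    have hq1 : ‖q‖ ≤ 1 := by linarith
    have h1 := s1_le hne x₀ q hq1 hup
    have h2 := s1_le hne x₀ p hp1 huq
    show ‖Lfun 𝒯 (boost x₀.val (p, 1)) - Lfun 𝒯 (boost x₀.val (q, 1)) -
      innerSL ℝ u₀.1 (p - q)‖ ≤ ε * ‖p - q‖
    rw [innerSL_apply_apply, Real.norm_eq_abs, abs_le]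
    have e1 : inner ℝ u₀.1 (p - q) = (inner ℝ (p - q) u₀.1 : ℝ) := real_inner_comm _ _
    have h3 : (inner ℝ (p - q) (up.1 - u₀.1) : ℝ) ≤ ‖p - q‖ * ε :=
      (real_inner_le_norm _ _).trans (mul_le_mul_of_nonneg_left hupc (norm_nonneg _))
    have h4 : -(‖p - q‖ * ε) ≤ (inner ℝ (p - q) (uq.1 - u₀.1) : ℝ) := by
      have := abs_real_inner_le_norm (p - q) (uq.1 - u₀.1)
      have h6 := neg_abs_le (inner ℝ (p - q) (uq.1 - u₀.1) : ℝ)
      have h7 : ‖p - q‖ * ‖uq.1 - u₀.1‖ ≤ ‖p - q‖ * ε :=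
        mul_le_mul_of_nonneg_left huqc (norm_nonneg _)
      linarith
    rw [inner_sub_right, inner_sub_left, inner_sub_left] at h3 h4
    rw [e1, inner_sub_left]
    rw [← hupm, ← huqm] at *
    constructor <;> nlinarith

end Pool.Agent.MP_8db1a4_gt.S1

namespace Pool.Agent.MP_8db1a4_gt

export S1 (lfun_strict lfun_convex)

end Pool.Agent.MP_8db1a4_gt
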