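import Pool.Agent.MP_8db1a4_gt.Geo.CM1
import Pool.Agent.MP_8db1a4_gt.Geo.CM2
import Pool.Agent.MP_8db1a4_gt.Geo.C1c
import Pool.Agent.MP_8db1a4_gt.Geo.S1
import Pool.Agent.MP_8db1a4_gt.Geo.C5
import Pool.Agent.MP_8db1a4_gt.Geo.C7
import Pool.Agent.MP_8db1a4_gt.Geo.S5
import Pool.Agent.MP_8db1a4_gt.Geo.B1a

set_option autoImplicit false

/-! [KAP-CM4] type II points (MP_8db1a4_gt). -/

namespace Pool.Agent.MP_8db1a4_gt.CM4

open Set

variable {n : ℕ}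

theorem cm4_rad (x₀ : Hy n) (ζ : EuclideanSpace ℝ (Fin n)) :
    rad (boost x₀.val (ζ, 1)) = Real.sqrt (1 - ‖ζ‖ ^ 2) := by
  unfold rad
  rw [lor_boost]
  congr 1
  simp only [lor, real_inner_self_eq_norm_sq]
  ring

theorem cm4_chart_zero (x₀ : Hy n) : boost x₀.val ((0 : EuclideanSpace ℝ (Fin n)), (1 : ℝ)) =
    x₀.val := boost_O x₀

theorem cm4_chart_continuous (x₀ : Hy n) :
    Continuous (fun ζ : EuclideanSpace ℝ (Fin n) => boost x₀.val (ζ, (1 : ℝ))) :=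
  (boost x₀.val).continuous.comp (continuous_id.prodMk continuous_const)

section Family

variable {G : Type*} [Group G] {ρ : G →* (LV n →L[ℝ] LV n)} {h : LorAction ρ} {s₀ s' s κ : ℝ}
  {k : ℕ} {ι : Type*} [MulAction G ι] {𝒯 : ι → Set (Hy n)}

/-- the statement at points of the hyperboloid -/
theorem cm4_hy (D : FamilyData ρ h s₀ s' s κ k 𝒯) (x₀ : Hy n) (i : ι)
    (hi : Sfun (𝒯 i) x₀.val = 2) (h2 : ∀ j, 2 ≤ Sfun (𝒯 j) x₀.val) :
    TypeII (LCone n) (⋃ i, Tc (𝒯 i)) (Fmor ρ s κ 𝒯) x₀.val := by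
  have hs : 0 < s := lt_of_le_of_lt D.hs₀ (D.hs₀s'.trans D.hs's)
  have hL2 : Lfun (𝒯 i) x₀.val = 2 := by
    have h1 := hi
    unfold Sfun at h1
    rwa [rad_hy, div_one] at h1
  have hTci : x₀.val ∈ Tc (𝒯 i) := ⟨x₀.mem, hi.le⟩
  have hE := family_efun D i
  obtain ⟨e₀, he₀, hstrict⟩ := lfun_strict (𝒯 i) (D.nonempty i) hE x₀ (by rw [hL2]; norm_num)
  rw [hL2] at he₀
  have he₀5 : ‖e₀‖ ^ 2 = 5 := by rw [he₀]; norm_num
  -- the local structure of the collars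
  obtain ⟨N, hNo, hxN, hNC, hN⟩ := family_local D x₀.val x₀.mem h2
  have hN' : (∀ X ∈ N, 1 < Sfun (𝒯 i) X ∧ colSum κ 𝒯 X = colG κ (Sfun (𝒯 i) X)) ∧
      ∀ j, j ≠ i → ∀ X ∈ N, X ∉ Tc (𝒯 j) := by
    rcases hN with ⟨i', hi1, hi2⟩ | ⟨_, hj⟩
    · have : i = i' := by
        by_contra hne
        exact hi2 i hne _ hxN hTci
      subst this
      exact ⟨hi1, hi2⟩
    · exact absurd hTci (hj i _ hxN)
  obtain ⟨hN1, hN2⟩ := hN'
  have hmem : ∀ X ∈ N, (X ∈ ⋃ j, Tc (𝒯 j)) ↔ Sfun (𝒯 i) X ≤ 2 := by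
    intro X hX
    constructor
    · intro hXT
      obtain ⟨j, hj⟩ := mem_iUnion.1 hXT
      by_cases hji : j = i
      · subst hji
        exact hj.2
      · exact absurd hj (hN2 j hji X hX)
    · intro hXS
      exact mem_iUnion.2 ⟨i, hNC hX, hXS⟩
  -- the Euclidean statement
  obtain ⟨r₁, hr₁, c, hc, hmono, hneg⟩ := typeII_euclid s hs κ D.hκ D.hκ4
    (fun ζ : EuclideanSpace ℝ (Fin n) => fpot ρ s (boost x₀.val (ζ, 1)))
    (fun ζ : EuclideanSpace ℝ (Fin n) => Lfun (𝒯 i) (boost x₀.val (ζ, 1)))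
    (fpot_lipschitz ρ h D.disc s₀ s D.hs₀ (D.hs₀s'.trans D.hs's) D.growth x₀) e₀ he₀5
    (by rw [cm4_chart_zero, hL2]) hstrict
  -- a small ball on which the chart stays in `N`
  obtain ⟨r₂, hr₂, hr₂N⟩ : ∃ r₂ > (0 : ℝ), ∀ ζ : EuclideanSpace ℝ (Fin n), ‖ζ‖ ≤ r₂ →
      boost x₀.val (ζ, (1 : ℝ)) ∈ N := by
    have hopen : IsOpen ((fun ζ : EuclideanSpace ℝ (Fin n) => boost x₀.val (ζ, (1 : ℝ))) ⁻¹' N) :=
      hNo.preimage (cm4_chart_continuous x₀)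
    have h0 : (0 : EuclideanSpace ℝ (Fin n)) ∈
        (fun ζ : EuclideanSpace ℝ (Fin n) => boost x₀.val (ζ, (1 : ℝ))) ⁻¹' N := by
      rw [mem_preimage, cm4_chart_zero]
      exact hxN
    obtain ⟨δ, hδ, hball⟩ := Metric.isOpen_iff.1 hopen 0 h0
    refine ⟨δ / 2, by linarith, fun ζ hζ => hball ?_⟩
    rw [Metric.mem_ball, dist_zero_right]
    linarith
  have hS : ∀ ζ : EuclideanSpace ℝ (Fin n), Sfun (𝒯 i) (boost x₀.val (ζ, 1)) =
      Lfun (𝒯 i) (boost x₀.val (ζ, 1)) / Real.sqrt (1 - ‖ζ‖ ^ 2) := by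
    intro ζ
    unfold Sfun
    rw [cm4_rad]
  set r : ℝ := min r₁ (r₂ / 4) with hr
  have hrpos : 0 < r := lt_min hr₁ (by linarith)
  have he₀3 : ‖e₀‖ ≤ 3 := by
    by_contra hcon
    push Not at hcon
    nlinarith
  have hin : ∀ u : EuclideanSpace ℝ (Fin n), ‖u‖ ≤ r → ∀ t : ℝ, -r ≤ t → t ≤ r →
      boost x₀.val (u - t • e₀, 1) ∈ N := by
    intro u hu t ht1 ht2
    apply hr₂N
    have h3 : ‖u - t • e₀‖ ≤ ‖u‖ + |t| * ‖e₀‖ := by
      refine (norm_sub_le _ _).trans ?_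
      rw [norm_smul, Real.norm_eq_abs]
    have h4 : |t| ≤ r := abs_le.2 ⟨ht1, ht2⟩
    have h5 : |t| * ‖e₀‖ ≤ r * 3 := mul_le_mul h4 he₀3 (norm_nonneg _) hrpos.le
    have h6 : r ≤ r₂ / 4 := min_le_right _ _
    linarith
  refine typeII_of_chart _ _ x₀ e₀ (by
    intro h0
    rw [h0] at he₀5
    norm_num at he₀5) r c hrpos hc ?_ ?_
  · intro t ht htr
    have h7 := hneg t ht (htr.trans (min_le_left _ _))
    have h8 : Sfun (𝒯 i) (boost x₀.val (-(t • e₀), 1)) < 2 := by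
      rw [hS, norm_neg]
      exact h7
    have h9 : boost x₀.val (-(t • e₀), 1) ∈ N := by
      have := hin 0 (by rw [norm_zero]; exact hrpos.le) t (by linarith) htr
      rwa [zero_sub] at this
    have hcont := sfun_continuousOn (𝒯 i) (D.nonempty i) hE
    have hop : IsOpen {X ∈ LCone n | Sfun (𝒯 i) X < 2} := by
      have := hcont.isOpen_inter_preimage (isOpen_LCone n) (isOpen_Iio (a := (2 : ℝ)))
      exact this
    refine mem_interior.2 ⟨_, ?_, hop, ⟨hNC h9, h8⟩⟩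
    intro X hX
    exact mem_iUnion.2 ⟨i, hX.1, le_of_lt hX.2⟩
  · intro u hu hur t t' ht htt' ht'
    have h10 := hmono u hu (hur.trans (min_le_left _ _)) t t'
      (by have := min_le_left r₁ (r₂ / 4); linarith) htt'
      (ht'.trans (min_le_left _ _))
    have h11 := hin u hur t ht (htt'.trans ht')
    have h12 := hin u hur t' (ht.trans htt') ht'
    constructor
    · intro h13
      rw [hmem _ h11, hS] at h13
      rw [hmem _ h12, hS]
      exact h10.1.trans h13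
    · intro _ _
      unfold Fmor
      rw [(hN1 _ h11).2, (hN1 _ h12).2, hS, hS]
      exact h10.2

theorem fmor_typeII (D : FamilyData ρ h s₀ s' s κ k 𝒯) (x : LV n) (hx : x ∈ ⋃ i, Tc (𝒯 i))
    (hcl : x ∈ closure (LCone n \ ⋃ i, Tc (𝒯 i))) :
    TypeII (LCone n) (⋃ i, Tc (𝒯 i)) (Fmor ρ s κ 𝒯) x := by
  obtain ⟨i, hi⟩ := mem_iUnion.1 hx
  have hxC : x ∈ LCone n := hi.1
  have h2 := family_boundary D x hxC hcl
  obtain ⟨x₀, hx₀⟩ := exists_smul_hy hxC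
  have hr := rad_pos hxC
  have hS : ∀ j, Sfun (𝒯 j) x = Sfun (𝒯 j) x₀.val := by
    intro j
    conv_lhs => rw [hx₀]
    exact sfun_smul _ _ _ hr
  have hmain : TypeII (LCone n) (⋃ i, Tc (𝒯 i)) (Fmor ρ s κ 𝒯) x₀.val := by
    refine cm4_hy D x₀ i ?_ ?_
    · rw [← hS]
      exact le_antisymm hi.2 (h2 i)
    · intro j
      rw [← hS]
      exact h2 j
  have hTconic : Conic (⋃ i, Tc (𝒯 i)) := by
    intro X hX t ht
    obtain ⟨j, hj⟩ := mem_iUnion.1 hX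
    refine mem_iUnion.2 ⟨j, smul_mem_LCone hj.1 ht, ?_⟩
    rw [sfun_smul _ _ _ ht]
    exact hj.2
  have := typeII_smul (LCone n) (⋃ i, Tc (𝒯 i)) (fun X hX t ht => smul_mem_LCone hX ht) hTconic
    (iUnion_subset fun j X hX => hX.1) (Fmor ρ s κ 𝒯)
    (fun X hX t ht => fmor_smul D X hX t ht) x₀.val (rad x) hr hmain
  rw [hx₀]
  exact this

end Family

end Pool.Agent.MP_8db1a4_gt.CM4

namespace Pool.Agent.MP_8db1a4_gt

export CM4 (fmor_typeII)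

end Pool.Agent.MP_8db1a4_gt
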