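import Pool.Agent.MP_8db1a4_gt.CollarDefs
import Pool.Agent.MP_8db1a4_gt.TopDefs
import Pool.Agent.MP_8db1a4_gt.Geo.B1c

set_option autoImplicit false

/-! [K-E2] the cone action (MP_8db1a4_gt). -/

namespace Pool.Agent.MP_8db1a4_gt.E2

open Set Pool.Agent.MP_8db1a4_gt

variable {n : ℕ}

/-- a compact subset of the cone has bounded normalised height. -/
theorem e2_bound (Z : Set (LV n)) (hZ : IsCompact Z) (hZC : Z ⊆ LCone n) :
    ∃ B : ℝ, 0 < B ∧ ∀ z ∈ Z, z.2 / rad z ≤ B := by
  have hcont : ContinuousOn (fun z : LV n => z.2 / rad z) Z :=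
    continuous_snd.continuousOn.div (continuous_rad n).continuousOn
      (fun z hz => (rad_pos (hZC hz)).ne')
  obtain ⟨B, hB⟩ := (hZ.image_of_continuousOn hcont).bddAbove
  refine ⟨max B 1, lt_max_of_lt_right one_pos, ?_⟩
  intro z hz
  exact (hB ⟨z, hz, rfl⟩).trans (le_max_left _ _)

theorem e2_neg_lor_O (X : LV n) : -lor (Ohy n).val X = X.2 := by
  simp [lor, Ohy]

theorem e2_proper {G : Type*} [Group G] (ρ : G →* (LV n →L[ℝ] LV n)) (h : LorAction ρ)
    (hd : LorDiscrete ρ) (Z₁ Z₂ : Set (LV n)) (h1 : IsCompact Z₁) (h2 : IsCompact Z₂)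
    (h1C : Z₁ ⊆ LCone n) (h2C : Z₂ ⊆ LCone n) :
    {g : G | (ρ g '' coneOver Z₁ ∩ coneOver Z₂).Nonempty}.Finite := by
  obtain ⟨B₁, hB₁, hB₁z⟩ := e2_bound Z₁ h1 h1C
  obtain ⟨B₂, hB₂, hB₂z⟩ := e2_bound Z₂ h2 h2C
  refine (hd (Real.cosh (Real.arcosh B₁ + Real.arcosh B₂))).subset ?_
  rintro g ⟨_, ⟨X, ⟨t, ht, y, hy, rfl⟩, rfl⟩, ⟨t', ht', y', hy', heq⟩⟩
  have hyC := h1C hy
  have hyC' := h2C hy'
  obtain ⟨x, hx⟩ := exists_smul_hy hyC
  obtain ⟨x', hx'⟩ := exists_smul_hy hyC'
  have hr := rad_pos hyC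
  have hr' := rad_pos hyC'
  -- `ρ g x = x'`
  have e1 : (t * rad y) • ρ g x.val = (t' * rad y') • x'.val := by
    have h3 : ρ g (t • y) = (t * rad y) • ρ g x.val := by
      conv_lhs => rw [hx]
      rw [smul_smul, map_smul]
    have h4 : t' • y' = (t' * rad y') • x'.val := by
      conv_lhs => rw [hx']
      rw [smul_smul]
    rw [← h3, ← h4]; exact heq
  have hpos : 0 < t * rad y := mul_pos ht hr
  have hpos' : 0 < t' * rad y' := mul_pos ht' hr'
  have e2 : t * rad y = t' * rad y' := by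
    have h3 := congrArg rad e1
    rw [rad_smul _ hpos.le, rad_smul _ hpos'.le, rad_rho h, rad_hy, rad_hy, mul_one, mul_one] at h3
    exact h3
  have e3 : ρ g x.val = x'.val := by
    rw [e2] at e1
    exact smul_right_injective _ hpos'.ne' e1
  letI := hyAction h
  have e4 : g • x = x' := Hy.ext' e3
  -- distances
  have hdx : dist (Ohy n) x ≤ Real.arcosh B₁ := by
    have h3 : x.val.2 ≤ B₁ := by
      have h4 := hB₁z y hy
      have h5 : y.2 = rad y * x.val.2 := by
        conv_lhs => rw [hx]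
        simp
      rw [h5, mul_div_cancel_left₀ _ hr.ne'] at h4
      exact h4
    rw [dist_def]
    have h6 := one_le_neg_lor (Ohy n) x
    rw [e2_neg_lor_O] at *
    exact (Real.arcosh_le_arcosh (by linarith) hB₁).mpr h3
  have hdx' : dist (Ohy n) x' ≤ Real.arcosh B₂ := by
    have h3 : x'.val.2 ≤ B₂ := by
      have h4 := hB₂z y' hy'
      have h5 : y'.2 = rad y' * x'.val.2 := by
        conv_lhs => rw [hx']
        simp
      rw [h5, mul_div_cancel_left₀ _ hr'.ne'] at h4
      exact h4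
    rw [dist_def]
    have h6 := one_le_neg_lor (Ohy n) x'
    rw [e2_neg_lor_O] at *
    exact (Real.arcosh_le_arcosh (by linarith) hB₂).mpr h3
  have hd1 : dist (Ohy n) (g • Ohy n) ≤ Real.arcosh B₁ + Real.arcosh B₂ := by
    have h3 := dist_triangle (Ohy n) x' (g • Ohy n)
    have h4 : dist x' (g • Ohy n) = dist x (Ohy n) := by
      rw [← e4]; exact hy_dist_smul h g x (Ohy n)
    rw [h4, dist_comm x] at h3
    linarith
  show -lor (Ohy n).val (ρ g (Ohy n).val) ≤ _
  have h5 : -lor (Ohy n).val (ρ g (Ohy n).val) = Real.cosh (dist (Ohy n) (g • Ohy n)) :=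
    (cosh_dist (Ohy n) (g • Ohy n)).symm
  rw [h5, Real.cosh_le_cosh, abs_of_nonneg dist_nonneg]
  exact hd1.trans (le_abs_self _)

theorem lor_coneAction {G : Type*} [Group G] (ρ : G →* (LV n →L[ℝ] LV n)) (h : LorAction ρ)
    (hd : LorDiscrete ρ) (htf : TorsFree G) : ConeAction ρ (LCone n) where
  isOpen := isOpen_LCone n
  convex := convex_LCone n
  conic := fun _ hX _ ht => smul_mem_LCone hX ht
  inv := fun g X hX => h.cone g X hX
  zero_notMem := zero_notMem_LCone n
  proper := fun Z₁ Z₂ h1 h2 h1C h2C => e2_proper ρ h hd Z₁ Z₂ h1 h2 h1C h2C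
  free := by
    intro g hg x hx t heq
    have hgx := h.cone g x hx
    have hx2 : 0 < x.2 := lt_of_le_of_lt (norm_nonneg _) hx
    have hgx2 : 0 < (ρ g x).2 := lt_of_le_of_lt (norm_nonneg _) hgx
    rw [heq] at hgx2
    have ht : 0 < t := by
      rw [Prod.smul_snd, smul_eq_mul] at hgx2
      exact pos_of_mul_pos_left hgx2 hx2.le
    have hr := rad_rho h g x
    rw [heq, rad_smul x ht.le] at hr
    have ht1 : t = 1 := by
      have := rad_pos hx
      exact mul_right_cancel₀ this.ne' (by rw [hr, one_mul])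
    rw [ht1, one_smul] at heq
    -- all powers fix `x`
    have hpow : ∀ k : ℕ, ρ (g ^ k) x = x := by
      intro k
      induction k with
      | zero => simp
      | succ k ih =>
        rw [pow_succ, map_mul]
        show ρ (g ^ k) (ρ g x) = x
        rw [heq, ih]
    have hfin := e2_proper ρ h hd {x} {x} isCompact_singleton isCompact_singleton
      (singleton_subset_iff.mpr hx) (singleton_subset_iff.mpr hx)
    have hmem : ∀ k : ℕ, g ^ k ∈ {g : G | (ρ g '' coneOver {x} ∩ coneOver {x}).Nonempty} := by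
      intro k
      have hxc : x ∈ coneOver ({x} : Set (LV n)) := ⟨1, one_pos, x, rfl, by rw [one_smul]⟩
      exact ⟨x, ⟨x, hxc, hpow k⟩, hxc⟩
    obtain ⟨i, -, j, -, hij, hgij⟩ := Set.infinite_univ.exists_ne_map_eq_of_mapsTo
      (f := fun k : ℕ => g ^ k) (fun k _ => hmem k) hfin
    apply hg
    rcases lt_or_gt_of_ne hij with hlt | hlt
    · refine htf g (j - i) (by omega) ?_
      have h3 : g ^ i * g ^ (j - i) = g ^ i := by
        rw [← pow_add, show i + (j - i) = j by omega]; exact hgij.symm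
      exact mul_eq_left.mp h3
    · refine htf g (i - j) (by omega) ?_
      have h3 : g ^ j * g ^ (i - j) = g ^ j := by
        rw [← pow_add, show j + (i - j) = i by omega]; exact hgij
      exact mul_eq_left.mp h3

end Pool.Agent.MP_8db1a4_gt.E2

namespace Pool.Agent.MP_8db1a4_gt

export E2 (lor_coneAction)

end Pool.Agent.MP_8db1a4_gt
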