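import Pool.Agent.MP_8db1a4_gt.Geo.CM3
import Pool.Agent.MP_8db1a4_gt.Geo.CM4
import Pool.Agent.MP_8db1a4_gt.Geo.E2
import Pool.Agent.MP_8db1a4_gt.Geo.B1c
import Pool.Agent.MP_8db1a4_gt.Geo.S5
import Pool.Agent.MP_8db1a4_gt.Morse

set_option autoImplicit false

/-! [K-CM5] apply the Morse theorem to the family. -/

namespace Pool.Agent.MP_8db1a4_gt.CM5

open Set Pool.Agent.MP_8db1a4_gt

variable {n : ℕ} {G : Type*} [Group G] {ρ : G →* (LV n →L[ℝ] LV n)} {h : LorAction ρ}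
  {s₀ s' s κ : ℝ} {k : ℕ} {ι : Type*} [MulAction G ι] {𝒯 : ι → Set (Hy n)}

theorem cm5_isCompact_ball (n : ℕ) (D : ℝ) :
    IsCompact {X : LV n | ‖X.1‖ ≤ X.2 ∧ lor X X = -1 ∧ X.2 ≤ D} := by
  refine Metric.isCompact_of_isClosed_isBounded ?_ ?_
  · refine IsClosed.inter (isClosed_le (f := fun X : LV n => ‖X.1‖) (g := fun X : LV n => X.2)
      (by fun_prop) (by fun_prop)) ?_
    refine IsClosed.inter (isClosed_eq (f := fun X : LV n => lor X X) (g := fun _ => (-1 : ℝ)) ?_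
      continuous_const) (isClosed_le (f := fun X : LV n => X.2) (g := fun _ => D)
      (by fun_prop) (by fun_prop))
    unfold lor
    fun_prop
  · refine (Metric.isBounded_iff_subset_closedBall 0).2 ⟨D, fun X hX => ?_⟩
    obtain ⟨h1, -, h3⟩ := hX
    rw [mem_closedBall_zero_iff]
    refine norm_prod_le_iff.2 ⟨h1.trans h3, ?_⟩
    rw [Real.norm_of_nonneg ((norm_nonneg _).trans h1)]
    exact h3

theorem cm5_tc_smul {T : Set (Hy n)} (X : LV n) (hX : X ∈ Tc T) (t : ℝ) (ht : 0 < t) :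
    t • X ∈ Tc T :=
  ⟨smul_mem_LCone hX.1 ht, by rw [sfun_smul T X t ht]; exact hX.2⟩

theorem cm5_uc_smul {T : Set (Hy n)} (X : LV n) (hX : X ∈ Uc T) (t : ℝ) (ht : 0 < t) :
    t • X ∈ Uc T :=
  ⟨smul_mem_LCone hX.1 ht, by
    show Sfun T (t • X) < 3
    rw [sfun_smul T X t ht]
    exact hX.2⟩

theorem cm5_normalise {X : LV n} (hX : X ∈ LCone n \ ⋃ i, Tc (𝒯 i)) :
    ∃ x : Hy n, X = rad X • x.val ∧ x.val ∉ ⋃ i, Tc (𝒯 i) := by
  obtain ⟨x, hx⟩ := exists_smul_hy hX.1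
  refine ⟨x, hx, fun h1 => hX.2 ?_⟩
  rw [mem_iUnion] at h1 ⊢
  obtain ⟨i, hi⟩ := h1
  refine ⟨i, ?_⟩
  rw [hx]
  exact cm5_tc_smul _ hi _ (rad_pos hX.1)

theorem family_vanishing (D : FamilyData ρ h s₀ s' s κ k 𝒯) {A : Type*} [AddCommGroup A]
    (τ : G →* AddMonoid.End A) (z : (Fin (k + 1) → LV n) → A) (hz : Equivar ρ τ z)
    (hdz : EqOnS (LCone n) (dC z) 0) :
    ∃ b : (Fin k → LV n) → A, Equivar ρ τ b ∧ EqOnS (LCone n) (dC b) z := by
  have hss : 0 < s - s' := sub_pos.2 D.hs's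
  obtain ⟨C', hC'⟩ := fmor_lower D
  refine morse (A := A) ρ τ D.tf (LCone n) (lor_coneAction ρ h D.disc D.tf) k D.hk
    (fun i => Tc (𝒯 i)) (fun i => Uc (𝒯 i)) ?_ ?_ ?_ ?_ ?_ ?_ ?_ ?_ D.stab ?_ (family_tc_closed D)
    (Fmor ρ s κ 𝒯) (fmor_continuousOn D) (fun X hX t ht => fmor_smul D X hX t ht)
    (fun g X hX => fmor_inv D g X hX) ?_ (fun Z hZ hZC => fmor_bdd D Z hZ hZC) ?_
    (fun x hx => fmor_typeI D x hx) (fun x hx hcl => fmor_typeII D x hx hcl) z hz hdz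
  · intro i X hX
    exact ⟨hX.1, lt_of_le_of_lt hX.2 (by norm_num)⟩
  · intro i X hX
    exact hX.1
  · intro i
    exact (sfun_continuousOn (𝒯 i) (D.nonempty i) (family_efun D i)).isOpen_inter_preimage
      (isOpen_LCone n) isOpen_Iio
  · intro i
    exact sfun_convex (𝒯 i) (D.nonempty i) (family_efun D i) 3 (by norm_num)
  · intro i X hX t ht
    exact cm5_uc_smul X hX t ht
  · intro i j hij
    exact family_uc_disjoint D i j hij
  · intro g i X hX
    refine ⟨h.cone g X hX.1, ?_⟩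
    show Sfun (𝒯 (g • i)) (ρ g X) < 3
    rw [family_equiv D g i X]
    exact hX.2
  · intro g i X hX
    refine ⟨h.cone g X hX.1, ?_⟩
    show Sfun (𝒯 (g • i)) (ρ g X) ≤ 2
    rw [family_equiv D g i X]
    exact hX.2
  · intro i X hX t ht
    exact cm5_tc_smul X hX t ht
  · refine ⟨-C' - 1, fun X hX => ?_⟩
    obtain ⟨x, hx, hxT⟩ := cm5_normalise hX
    have h1 := hC' x hxT 0 (by
      intro g
      exact dist_nonneg)
    rw [hx, fmor_smul D x.val x.mem _ (rad_pos hX.1)]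
    linarith
  · intro c
    set R : ℝ := (c + C' + 1) / (s - s') with hR
    set Z : Set (LV n) := {X : LV n | ‖X.1‖ ≤ X.2 ∧ lor X X = -1 ∧ X.2 ≤ Real.cosh R} with hZ
    have hZC : Z ⊆ LCone n := by
      rintro X ⟨h1, h2, -⟩
      refine lt_of_le_of_ne h1 fun h3 => ?_
      have h5 : inner ℝ X.1 X.1 = ‖X.1‖ * ‖X.1‖ := real_inner_self_eq_norm_mul_norm _
      simp only [lor, h5, h3] at h2
      linarith
    refine ⟨Z, cm5_isCompact_ball n _, hZC, fun X hX hXc => ?_⟩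
    obtain ⟨x, hx, hxT⟩ := cm5_normalise hX
    have hr := rad_pos hX.1
    by_contra hcon
    push Not at hcon
    have h1 := hC' x hxT R (by
      letI := hyAction h
      intro g
      by_contra hlt
      rw [not_le] at hlt
      have hRp : 0 ≤ R := dist_nonneg.trans hlt.le
      refine hcon g⁻¹ ⟨rad X, hr, ρ g⁻¹ x.val, ⟨?_, ?_, ?_⟩, ?_⟩
      · exact le_of_lt (show ‖(ρ g⁻¹ x.val).1‖ < (ρ g⁻¹ x.val).2 from h.cone g⁻¹ _ x.mem)
      · rw [h.lor_eq, x.lor_self]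
      · have h2 : Real.cosh (dist x (g • Ohy n)) = -lor x.val (ρ g (Ohy n).val) := cosh_dist _ _
        rw [← lor_inv_left h] at h2
        have h3 : lor (ρ g⁻¹ x.val) (Ohy n).val = -(ρ g⁻¹ x.val).2 := by
          simp [lor, Ohy]
        rw [h3, neg_neg] at h2
        rw [← h2]
        exact Real.cosh_le_cosh.2 (by
          rw [abs_of_nonneg dist_nonneg, abs_of_nonneg hRp]
          exact hlt.le)
      · conv_lhs => rw [hx]
        rw [map_smul])
    rw [hx, fmor_smul D x.val x.mem _ hr] at hXc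
    have h2 : (s - s') * R = c + C' + 1 := by
      rw [hR]
      field_simp
    rw [h2] at h1
    linarith

end Pool.Agent.MP_8db1a4_gt.CM5

namespace Pool.Agent.MP_8db1a4_gt

export CM5 (family_vanishing)

end Pool.Agent.MP_8db1a4_gt
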