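import Pool.Agent.MP_8db1a4_gt.SmallDefs

set_option autoImplicit false

/-! [K-E1] From isometries of the Poincare ball to Lorentz transformations (MP_8db1a4_gt). -/

namespace Pool.Agent.MP_8db1a4_gt

open Set

section Ext

variable {n : ℕ}

/-- A vector Lorentz-orthogonal to the hyperboloid is zero. -/
theorem e1_eq_zero {W : LV n} (h : ∀ y : Hy n, lor W y.val = 0) : W = 0 := by
  have h1 : ∀ X ∈ LCone n, lor W X = 0 := by
    intro X hX
    obtain ⟨x, hx⟩ := exists_smul_hy hX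
    rw [hx, lor_smul_right, h, mul_zero]
  have h2 : ∀ X : LV n, lor W X = 0 := by
    intro X
    set c : ℝ := ‖X.1‖ + |X.2| + 1 with hc
    have hX : X + c • (Ohy n).val ∈ LCone n := by
      show ‖(X + c • (Ohy n).val).1‖ < (X + c • (Ohy n).val).2
      simp only [Ohy, Prod.fst_add, Prod.smul_fst, smul_zero, add_zero, Prod.snd_add,
        Prod.smul_snd, smul_eq_mul, mul_one]
      have := neg_abs_le X.2
      linarith
    have h3 := h1 _ hX
    rw [lor_add_right, lor_smul_right, h, mul_zero, add_zero] at h3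
    exact h3
  have h3 := h2 (W.1, -W.2)
  simp only [lor, real_inner_self_eq_norm_sq] at h3
  have h4 : ‖W.1‖ ^ 2 + W.2 ^ 2 = 0 := by nlinarith
  have h5 : ‖W.1‖ ^ 2 = 0 := by nlinarith [sq_nonneg ‖W.1‖, sq_nonneg W.2]
  have h6 : W.2 ^ 2 = 0 := by nlinarith [sq_nonneg ‖W.1‖, sq_nonneg W.2]
  have h7 : ‖W.1‖ = 0 := by simpa using h5
  have h8 : W.2 = 0 := by simpa using h6
  exact Prod.ext (norm_eq_zero.mp h7) h8

/-- Every vector is a combination of a point of the hyperboloid and the base point. -/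
theorem e1_decomp (X : LV n) : ∃ (x : Hy n) (r c : ℝ), X = r • x.val - c • (Ohy n).val := by
  set c : ℝ := ‖X.1‖ + |X.2| + 1 with hc
  have hX : X + c • (Ohy n).val ∈ LCone n := by
    show ‖(X + c • (Ohy n).val).1‖ < (X + c • (Ohy n).val).2
    simp only [Ohy, Prod.fst_add, Prod.smul_fst, smul_zero, add_zero, Prod.snd_add,
      Prod.smul_snd, smul_eq_mul, mul_one]
    have := neg_abs_le X.2
    linarith
  obtain ⟨x, hx⟩ := exists_smul_hy hX
  exact ⟨x, _, c, by rw [← hx]; abel⟩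

theorem e1_ext_hy {S T : LV n →L[ℝ] LV n} (h : ∀ x : Hy n, S x.val = T x.val) : S = T := by
  refine ContinuousLinearMap.ext fun X => ?_
  obtain ⟨x, r, c, hX⟩ := e1_decomp X
  rw [hX, map_sub, map_sub, map_smul, map_smul, map_smul, map_smul, h, h]

/-- Lorentz-preserving bijections of the hyperboloid are restrictions of linear maps. -/
theorem e1_exists_linear (F : Hy n → Hy n)
    (hF : ∀ x y, lor (F x).val (F y).val = lor x.val y.val) (hs : Function.Surjective F) :
    ∃ T : LV n →L[ℝ] LV n, (∀ x, T x.val = (F x).val) ∧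
      (∀ X Y, lor (T X) (T Y) = lor X Y) ∧ ∀ X ∈ LCone n, T X ∈ LCone n := by
  have hex : ∀ X : LV n, ∃ V : LV n, ∀ y, lor V (F y).val = lor X y.val := by
    intro X
    obtain ⟨x, r, c, hX⟩ := e1_decomp X
    refine ⟨r • (F x).val - c • (F (Ohy n)).val, fun y => ?_⟩
    rw [hX, lor_sub_left, lor_sub_left, lor_smul_left, lor_smul_left, lor_smul_left,
      lor_smul_left, hF, hF]
  have huniq : ∀ V V' : LV n, (∀ y, lor V (F y).val = lor V' (F y).val) → V = V' := by
    intro V V' h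
    have : V - V' = 0 := by
      apply e1_eq_zero
      intro y
      obtain ⟨x, rfl⟩ := hs y
      rw [lor_sub_left, h, sub_self]
    exact sub_eq_zero.mp this
  choose T hT using hex
  let L : LV n →ₗ[ℝ] LV n :=
    { toFun := T
      map_add' := by
        intro X Y
        apply huniq
        intro y
        rw [lor_add_left, hT, hT, hT, lor_add_left]
      map_smul' := by
        intro c X
        apply huniq
        intro y
        simp only [RingHom.id_apply]
        rw [lor_smul_left, hT, hT, lor_smul_left] }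
  have hL : ∀ X, LinearMap.toContinuousLinearMap L X = T X := fun X => rfl
  have hTx : ∀ x : Hy n, T x.val = (F x).val := by
    intro x
    apply huniq
    intro y
    rw [hT, hF]
  refine ⟨LinearMap.toContinuousLinearMap L, fun x => by rw [hL, hTx], ?_, ?_⟩
  · intro X Y
    have h1 : ∀ y : Hy n, lor (LinearMap.toContinuousLinearMap L X)
        (LinearMap.toContinuousLinearMap L y.val) = lor X y.val := by
      intro y
      rw [hL, hL, hTx, hT]
    obtain ⟨y, r, c, hY⟩ := e1_decomp Y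
    rw [hY, map_sub, map_smul, map_smul, lor_sub_right, lor_smul_right, lor_smul_right,
      lor_sub_right, lor_smul_right, lor_smul_right, h1, h1]
  · intro X hX
    obtain ⟨x, hx⟩ := exists_smul_hy hX
    rw [hx, map_smul, hL, hTx]
    exact smul_mem_LCone (F x).mem (rad_pos hX)

end Ext

section Ball

variable {n : ℕ}

theorem e1_ball_norm (x : ↥(Metric.ball (0 : EuclideanSpace ℝ (Fin n)) 1)) :
    0 < 1 - ‖(x : EuclideanSpace ℝ (Fin n))‖ ^ 2 := by
  have h : ‖(x : EuclideanSpace ℝ (Fin n))‖ < 1 := by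
    have := x.2
    rwa [mem_ball_zero_iff] at this
  have h0 := norm_nonneg (x : EuclideanSpace ℝ (Fin n))
  nlinarith

/-- From the ball to the hyperboloid. -/
noncomputable def e1_kap (x : ↥(Metric.ball (0 : EuclideanSpace ℝ (Fin n)) 1)) : Hy n where
  val := ((2 / (1 - ‖(x : EuclideanSpace ℝ (Fin n))‖ ^ 2)) • (x : EuclideanSpace ℝ (Fin n)),
    (1 + ‖(x : EuclideanSpace ℝ (Fin n))‖ ^ 2) / (1 - ‖(x : EuclideanSpace ℝ (Fin n))‖ ^ 2))
  mem := by
    have h := e1_ball_norm x
    show ‖(2 / (1 - ‖(x : EuclideanSpace ℝ (Fin n))‖ ^ 2)) • (x : EuclideanSpace ℝ (Fin n))‖ <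
      (1 + ‖(x : EuclideanSpace ℝ (Fin n))‖ ^ 2) / (1 - ‖(x : EuclideanSpace ℝ (Fin n))‖ ^ 2)
    rw [norm_smul, Real.norm_of_nonneg (by positivity), div_mul_eq_mul_div]
    apply div_lt_div_of_pos_right _ h
    have h1 : ‖(x : EuclideanSpace ℝ (Fin n))‖ < 1 := by
      have := x.2
      rwa [mem_ball_zero_iff] at this
    nlinarith [sq_nonneg (1 - ‖(x : EuclideanSpace ℝ (Fin n))‖)]
  lor_self := by
    have h := e1_ball_norm x
    unfold lor
    rw [real_inner_smul_left, real_inner_smul_right, real_inner_self_eq_norm_sq]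
    field_simp
    ring

theorem e1_lor_kap (x y : ↥(Metric.ball (0 : EuclideanSpace ℝ (Fin n)) 1)) :
    -lor (e1_kap x).val (e1_kap y).val = 1 +
      2 * ‖(x : EuclideanSpace ℝ (Fin n)) - (y : EuclideanSpace ℝ (Fin n))‖ ^ 2 /
        ((1 - ‖(x : EuclideanSpace ℝ (Fin n))‖ ^ 2) *
          (1 - ‖(y : EuclideanSpace ℝ (Fin n))‖ ^ 2)) := by
  have hx := e1_ball_norm x
  have hy := e1_ball_norm y
  simp only [e1_kap, lor, real_inner_smul_left, real_inner_smul_right]
  rw [@norm_sub_sq_real]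
  field_simp
  ring

/-- From the hyperboloid to the ball. -/
noncomputable def e1_inv (y : Hy n) : ↥(Metric.ball (0 : EuclideanSpace ℝ (Fin n)) 1) :=
  ⟨(1 / (1 + y.val.2)) • y.val.1, by
    have h : ‖y.val.1‖ < y.val.2 := y.mem
    have h0 := norm_nonneg y.val.1
    have h1 : 0 < 1 + y.val.2 := by linarith
    rw [mem_ball_zero_iff, norm_smul, Real.norm_of_nonneg (by positivity), one_div_mul_eq_div,
      div_lt_one (by linarith)]
    linarith⟩

theorem e1_norm_sq (y : Hy n) : ‖y.val.1‖ ^ 2 = y.val.2 ^ 2 - 1 := by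
  have h := y.lor_self
  simp only [lor, real_inner_self_eq_norm_sq] at h
  linarith

theorem e1_kap_inv (y : Hy n) : e1_kap (e1_inv y) = y := by
  apply Hy.ext'
  have h : ‖y.val.1‖ < y.val.2 := y.mem
  have h0 := norm_nonneg y.val.1
  have h1 : 0 < 1 + y.val.2 := by linarith
  have h2 := e1_norm_sq y
  have h3 : ‖(1 / (1 + y.val.2)) • y.val.1‖ ^ 2 = (y.val.2 - 1) / (1 + y.val.2) := by
    rw [norm_smul, mul_pow, h2, Real.norm_of_nonneg (by positivity)]
    field_simp
    ring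
  have h4 : 1 - (y.val.2 - 1) / (1 + y.val.2) = 2 / (1 + y.val.2) := by
    field_simp
    ring
  have h5 : 1 + (y.val.2 - 1) / (1 + y.val.2) = 2 * y.val.2 / (1 + y.val.2) := by
    field_simp
    ring
  refine Prod.ext ?_ ?_
  · simp only [e1_kap, e1_inv]
    rw [h3, h4, smul_smul]
    have h6 : 2 / (2 / (1 + y.val.2)) * (1 / (1 + y.val.2)) = 1 := by field_simp
    rw [h6, one_smul]
  · simp only [e1_kap, e1_inv]
    rw [h3, h4, h5]
    field_simp

theorem e1_inv_kap (x : ↥(Metric.ball (0 : EuclideanSpace ℝ (Fin n)) 1)) :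
    e1_inv (e1_kap x) = x := by
  have hx := e1_ball_norm x
  apply Subtype.ext
  simp only [e1_inv, e1_kap]
  rw [smul_smul]
  have h6 : 1 / (1 + (1 + ‖(x : EuclideanSpace ℝ (Fin n))‖ ^ 2) /
      (1 - ‖(x : EuclideanSpace ℝ (Fin n))‖ ^ 2)) *
      (2 / (1 - ‖(x : EuclideanSpace ℝ (Fin n))‖ ^ 2)) = 1 := by
    have : (1 - ‖(x : EuclideanSpace ℝ (Fin n))‖ ^ 2 + (1 + ‖(x : EuclideanSpace ℝ (Fin n))‖ ^ 2))
      = 2 := by ring
    field_simp
    rw [this]
  rw [h6, one_smul]

theorem e1_kap_zero :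
    e1_kap (⟨0, Metric.mem_ball_self zero_lt_one⟩ :
      ↥(Metric.ball (0 : EuclideanSpace ℝ (Fin n)) 1)) = Ohy n := by
  apply Hy.ext'
  simp [e1_kap, Ohy]

end Ball

theorem exists_lorAction (n : ℕ) (hn : 2 ≤ n)
    (G : Subgroup (Equiv.Perm ↥(Metric.ball (0 : EuclideanSpace ℝ (Fin n)) 1)))
    (hG : ∀ g ∈ G, ∀ x y : ↥(Metric.ball (0 : EuclideanSpace ℝ (Fin n)) 1),
      ‖((g x : EuclideanSpace ℝ (Fin n)) - (g y : EuclideanSpace ℝ (Fin n)))‖ ^ 2 *
        ((1 - ‖(x : EuclideanSpace ℝ (Fin n))‖ ^ 2) * (1 - ‖(y : EuclideanSpace ℝ (Fin n))‖ ^ 2))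
      = ‖((x : EuclideanSpace ℝ (Fin n)) - (y : EuclideanSpace ℝ (Fin n)))‖ ^ 2 *
        ((1 - ‖(g x : EuclideanSpace ℝ (Fin n))‖ ^ 2) *
          (1 - ‖(g y : EuclideanSpace ℝ (Fin n))‖ ^ 2)))
    (hd : ∀ r : ℝ, r < 1 →
      {g : ↥G | ‖(((g : Equiv.Perm ↥(Metric.ball (0 : EuclideanSpace ℝ (Fin n)) 1))
          ⟨0, Metric.mem_ball_self zero_lt_one⟩ : EuclideanSpace ℝ (Fin n)))‖ ≤ r}.Finite) :
    ∃ ρ : ↥G →* (LV n →L[ℝ] LV n), LorAction ρ ∧ LorDiscrete ρ ∧
      conLim ρ ⊆ {ξ : EuclideanSpace ℝ (Fin n) | ‖ξ‖ = 1 ∧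
        ∃ C : ℝ, ∃ u : ℕ → ↥G, ∃ t : ℕ → ℝ,
          (∀ k, 0 ≤ t k ∧ t k < 1) ∧ Filter.Tendsto t Filter.atTop (nhds 1) ∧
          ∀ k, ‖((((u k : ↥G) : Equiv.Perm ↥(Metric.ball (0 : EuclideanSpace ℝ (Fin n)) 1))
                  ⟨0, Metric.mem_ball_self zero_lt_one⟩ : EuclideanSpace ℝ (Fin n)) - t k • ξ)‖ ^ 2
              ≤ C * ((1 - ‖((((u k : ↥G) :
                Equiv.Perm ↥(Metric.ball (0 : EuclideanSpace ℝ (Fin n)) 1))
                  ⟨0, Metric.mem_ball_self zero_lt_one⟩ : EuclideanSpace ℝ (Fin n)))‖ ^ 2) *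
                  (1 - t k ^ 2))} := by
  -- the maps on the hyperboloid
  let F : ↥G → Hy n → Hy n := fun g x => e1_kap ((g : Equiv.Perm _) (e1_inv x))
  have hFlor : ∀ (g : ↥G) x y, lor (F g x).val (F g y).val = lor x.val y.val := by
    intro g x y
    have h1 := e1_lor_kap ((g : Equiv.Perm _) (e1_inv x)) ((g : Equiv.Perm _) (e1_inv y))
    have h2 := e1_lor_kap (e1_inv x) (e1_inv y)
    rw [e1_kap_inv, e1_kap_inv] at h2
    have h3 := hG g.1 g.2 (e1_inv x) (e1_inv y)
    have p1 := e1_ball_norm (e1_inv x)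
    have p2 := e1_ball_norm (e1_inv y)
    have p3 := e1_ball_norm ((g : Equiv.Perm _) (e1_inv x))
    have p4 := e1_ball_norm ((g : Equiv.Perm _) (e1_inv y))
    have h4 : 2 * ‖(((g : Equiv.Perm _) (e1_inv x) :
          ↥(Metric.ball (0 : EuclideanSpace ℝ (Fin n)) 1)) : EuclideanSpace ℝ (Fin n)) -
          (((g : Equiv.Perm _) (e1_inv y) : ↥(Metric.ball (0 : EuclideanSpace ℝ (Fin n)) 1)) :
            EuclideanSpace ℝ (Fin n))‖ ^ 2 /
        ((1 - ‖(((g : Equiv.Perm _) (e1_inv x) :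
            ↥(Metric.ball (0 : EuclideanSpace ℝ (Fin n)) 1)) : EuclideanSpace ℝ (Fin n))‖ ^ 2) *
          (1 - ‖(((g : Equiv.Perm _) (e1_inv y) :
            ↥(Metric.ball (0 : EuclideanSpace ℝ (Fin n)) 1)) : EuclideanSpace ℝ (Fin n))‖ ^ 2)) =
        2 * ‖(e1_inv x : EuclideanSpace ℝ (Fin n)) - (e1_inv y : EuclideanSpace ℝ (Fin n))‖ ^ 2 /
        ((1 - ‖(e1_inv x : EuclideanSpace ℝ (Fin n))‖ ^ 2) *
          (1 - ‖(e1_inv y : EuclideanSpace ℝ (Fin n))‖ ^ 2)) := by
      rw [div_eq_div_iff (mul_pos p3 p4).ne' (mul_pos p1 p2).ne']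
      linarith
    show lor (e1_kap ((g : Equiv.Perm _) (e1_inv x))).val
      (e1_kap ((g : Equiv.Perm _) (e1_inv y))).val = lor x.val y.val
    linarith
  have hFone : ∀ x, F 1 x = x := by
    intro x
    show e1_kap (e1_inv x) = x
    rw [e1_kap_inv]
  have hFmul : ∀ (g h : ↥G) x, F (g * h) x = F g (F h x) := by
    intro g h x
    show e1_kap ((g : Equiv.Perm _) ((h : Equiv.Perm _) (e1_inv x))) =
      e1_kap ((g : Equiv.Perm _) (e1_inv (e1_kap ((h : Equiv.Perm _) (e1_inv x)))))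
    rw [e1_inv_kap]
  have hFsurj : ∀ g : ↥G, Function.Surjective (F g) := by
    intro g y
    refine ⟨F g⁻¹ y, ?_⟩
    rw [← hFmul, mul_inv_cancel, hFone]
  choose T hT1 hT2 hT3 using fun g : ↥G => e1_exists_linear (F g) (hFlor g) (hFsurj g)
  let ρ : ↥G →* (LV n →L[ℝ] LV n) :=
    { toFun := T
      map_one' := by
        apply e1_ext_hy
        intro x
        rw [hT1, hFone]
        rfl
      map_mul' := by
        intro g h
        apply e1_ext_hy
        intro x
        rw [hT1, hFmul]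
        show _ = T g (T h x.val)
        rw [hT1, hT1] }
  have hρO : ∀ g : ↥G, ρ g (Ohy n).val =
      (e1_kap ((g : Equiv.Perm _) ⟨0, Metric.mem_ball_self zero_lt_one⟩)).val := by
    intro g
    show T g (Ohy n).val = _
    rw [hT1]
    show (e1_kap ((g : Equiv.Perm _) (e1_inv (Ohy n)))).val = _
    rw [← e1_kap_zero, e1_inv_kap]
  refine ⟨ρ, ⟨fun g X Y => hT2 g X Y, fun g X hX => hT3 g X hX⟩, ?_, ?_⟩
  · intro R
    have hsub : {g : ↥G | -lor (Ohy n).val (ρ g (Ohy n).val) ≤ R} ⊆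
        {g : ↥G | ‖(((g : Equiv.Perm ↥(Metric.ball (0 : EuclideanSpace ℝ (Fin n)) 1))
          ⟨0, Metric.mem_ball_self zero_lt_one⟩ : EuclideanSpace ℝ (Fin n)))‖ ≤
            Real.sqrt ((|R| - 1) / (|R| + 1))} := by
      intro g hg
      have hg' : -lor (Ohy n).val (ρ g (Ohy n).val) ≤ R := hg
      rw [hρO] at hg'
      show ‖(((g : Equiv.Perm ↥(Metric.ball (0 : EuclideanSpace ℝ (Fin n)) 1))
          ⟨0, Metric.mem_ball_self zero_lt_one⟩ : EuclideanSpace ℝ (Fin n)))‖ ≤
            Real.sqrt ((|R| - 1) / (|R| + 1))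
      set q : ℝ := ‖(((g : Equiv.Perm ↥(Metric.ball (0 : EuclideanSpace ℝ (Fin n)) 1))
          ⟨0, Metric.mem_ball_self zero_lt_one⟩ : EuclideanSpace ℝ (Fin n)))‖ with hq
      have hq1 := e1_ball_norm ((g : Equiv.Perm ↥(Metric.ball (0 : EuclideanSpace ℝ (Fin n)) 1))
        ⟨0, Metric.mem_ball_self zero_lt_one⟩)
      rw [← hq] at hq1
      have h1 : -lor (Ohy n).val
          (e1_kap ((g : Equiv.Perm ↥(Metric.ball (0 : EuclideanSpace ℝ (Fin n)) 1))
            ⟨0, Metric.mem_ball_self zero_lt_one⟩)).val =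
          (1 + q ^ 2) / (1 - q ^ 2) := by
        simp [lor, Ohy, e1_kap, hq]
      rw [h1, div_le_iff₀ hq1] at hg'
      have hR := le_abs_self R
      have hR0 := abs_nonneg R
      apply Real.le_sqrt_of_sq_le
      rw [le_div_iff₀ (by linarith)]
      nlinarith
    refine Set.Finite.subset (hd _ ?_) hsub
    rw [Real.sqrt_lt' one_pos]
    have hR0 := abs_nonneg R
    rw [div_lt_iff₀ (by linarith)]
    linarith
  · rintro ξ ⟨hξ, C, u, s, hs, hC⟩
    refine ⟨hξ, ?_⟩
    obtain ⟨K, hK⟩ := Filter.eventually_atTop.mp (hs.eventually_ge_atTop 0)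
    refine ⟨(C - 1) / 2, fun k => u (k + K),
      fun k => Real.sinh (s (k + K)) / (1 + Real.cosh (s (k + K))), ?_, ?_, ?_⟩
    · intro k
      have h0 : 0 ≤ s (k + K) := hK _ (by omega)
      have h1 : 0 ≤ Real.sinh (s (k + K)) := Real.sinh_nonneg_iff.mpr h0
      have h2 := Real.sinh_lt_cosh (s (k + K))
      have h3 := Real.cosh_pos (s (k + K))
      refine ⟨by positivity, ?_⟩
      rw [div_lt_one (by linarith)]
      linarith
    · have hs' : Filter.Tendsto (fun k => s (k + K)) Filter.atTop Filter.atTop :=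
        hs.comp (Filter.tendsto_add_atTop_nat K)
      have h1 : Filter.Tendsto (fun k => 1 - 4 * (s (k + K))⁻¹) Filter.atTop (nhds 1) := by
        have h2 := (tendsto_inv_atTop_zero.comp hs').const_mul 4
        have h3 := h2.const_sub 1
        simpa using h3
      refine tendsto_of_tendsto_of_tendsto_of_le_of_le' h1 tendsto_const_nhds ?_ ?_
      · filter_upwards [hs'.eventually_gt_atTop 0] with k hk
        have h3 : s (k + K) + 1 ≤ Real.exp (s (k + K)) := Real.add_one_le_exp _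
        have h4 := Real.exp_pos (-s (k + K))
        have h5 : Real.exp (-s (k + K)) ≤ 1 := by
          rw [Real.exp_le_one_iff]; linarith
        rw [le_div_iff₀ (by linarith [Real.cosh_pos (s (k + K))])]
        have h6 := Real.cosh_eq (s (k + K))
        have h7 := Real.sinh_eq (s (k + K))
        have h8 : s (k + K) * (s (k + K))⁻¹ = 1 := mul_inv_cancel₀ hk.ne'
        have h9 : 0 < (s (k + K))⁻¹ := inv_pos.mpr hk
        have h10 : 1 ≤ 2 * (s (k + K))⁻¹ * (1 + Real.cosh (s (k + K))) := by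
          have h11 : s (k + K) / 2 ≤ 1 + Real.cosh (s (k + K)) := by linarith
          nlinarith [mul_le_mul_of_nonneg_left h11 h9.le]
        have h12 : Real.cosh (s (k + K)) - Real.sinh (s (k + K)) ≤ 1 := by
          rw [h6, h7]; linarith
        nlinarith
      · filter_upwards with k
        have h2 := Real.sinh_lt_cosh (s (k + K))
        have h3 := Real.cosh_pos (s (k + K))
        rw [div_le_one (by linarith)]
        linarith
    · intro k
      have h0 : 0 ≤ s (k + K) := hK _ (by omega)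
      have hk := hC (k + K)
      rw [hρO] at hk
      have h2 := Real.sinh_lt_cosh (s (k + K))
      have h3 := Real.cosh_pos (s (k + K))
      have h4 : |Real.sinh (s (k + K))| < Real.cosh (s (k + K)) := by
        rw [abs_of_nonneg (Real.sinh_nonneg_iff.mpr h0)]
        exact h2
      let y : Hy n :=
        { val := (Real.sinh (s (k + K)) • ξ, Real.cosh (s (k + K)))
          mem := by
            show ‖Real.sinh (s (k + K)) • ξ‖ < Real.cosh (s (k + K))
            rw [norm_smul, hξ, mul_one]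
            exact h4
          lor_self := by
            unfold lor
            rw [real_inner_smul_left, real_inner_smul_right, real_inner_self_eq_norm_sq, hξ]
            nlinarith [Real.cosh_sq (s (k + K))] }
      have hy : (e1_inv y : EuclideanSpace ℝ (Fin n)) =
          (Real.sinh (s (k + K)) / (1 + Real.cosh (s (k + K)))) • ξ := by
        show (1 / (1 + Real.cosh (s (k + K)))) • (Real.sinh (s (k + K)) • ξ) = _
        rw [smul_smul, one_div_mul_eq_div]
      have h5 := e1_lor_kap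
        ((u (k + K) : Equiv.Perm ↥(Metric.ball (0 : EuclideanSpace ℝ (Fin n)) 1))
          ⟨0, Metric.mem_ball_self zero_lt_one⟩) (e1_inv y)
      rw [e1_kap_inv, hy] at h5
      have h6 : ‖(Real.sinh (s (k + K)) / (1 + Real.cosh (s (k + K)))) • ξ‖ ^ 2 =
          (Real.sinh (s (k + K)) / (1 + Real.cosh (s (k + K)))) ^ 2 := by
        rw [norm_smul, hξ, mul_one, Real.norm_eq_abs, sq_abs]
      rw [h6] at h5
      have h7 : -lor (e1_kap ((u (k + K) : Equiv.Perm ↥(Metric.ball
          (0 : EuclideanSpace ℝ (Fin n)) 1))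
          ⟨0, Metric.mem_ball_self zero_lt_one⟩)).val y.val ≤ C := hk
      rw [h5] at h7
      have p1 := e1_ball_norm ((u (k + K) : Equiv.Perm ↥(Metric.ball
        (0 : EuclideanSpace ℝ (Fin n)) 1)) ⟨0, Metric.mem_ball_self zero_lt_one⟩)
      have p2 := e1_ball_norm (e1_inv y)
      rw [hy, h6] at p2
      have h8 := (div_le_iff₀ (mul_pos p1 p2)).mp (by linarith :
        2 * ‖(((u (k + K) : Equiv.Perm ↥(Metric.ball (0 : EuclideanSpace ℝ (Fin n)) 1))
          ⟨0, Metric.mem_ball_self zero_lt_one⟩ : EuclideanSpace ℝ (Fin n))) -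
            (Real.sinh (s (k + K)) / (1 + Real.cosh (s (k + K)))) • ξ‖ ^ 2 /
          ((1 - ‖(((u (k + K) : Equiv.Perm ↥(Metric.ball (0 : EuclideanSpace ℝ (Fin n)) 1))
          ⟨0, Metric.mem_ball_self zero_lt_one⟩ : EuclideanSpace ℝ (Fin n)))‖ ^ 2) *
            (1 - (Real.sinh (s (k + K)) / (1 + Real.cosh (s (k + K)))) ^ 2)) ≤ C - 1)
      show ‖(((u (k + K) : Equiv.Perm ↥(Metric.ball (0 : EuclideanSpace ℝ (Fin n)) 1))
          ⟨0, Metric.mem_ball_self zero_lt_one⟩ : EuclideanSpace ℝ (Fin n))) -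
            (Real.sinh (s (k + K)) / (1 + Real.cosh (s (k + K)))) • ξ‖ ^ 2 ≤ _
      linarith

end Pool.Agent.MP_8db1a4_gt
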