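import Pool.Agent.MP_8db1a4_gt.SmallDefs
import Pool.Agent.MP_8db1a4_gt.GCoh
import Pool.Agent.MP_8db1a4_gt.CycBase

set_option autoImplicit false

/-! [K-E3] the cohomology of a torsion-free cyclic group vanishes in degrees at least 2. -/

namespace Pool.Agent.MP_8db1a4_gt

open Set

namespace E3

/-- The diagonal action. -/
noncomputable def e3_map (r : ℝ) : (ℝ × ℝ) →L[ℝ] (ℝ × ℝ) :=
  ContinuousLinearMap.prodMap (r • ContinuousLinearMap.id ℝ ℝ) (r⁻¹ • ContinuousLinearMap.id ℝ ℝ)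

theorem e3_map_apply (r : ℝ) (x : ℝ × ℝ) : e3_map r x = (r * x.1, r⁻¹ * x.2) := by
  rfl

/-- The action of a group mapping to the integers. -/
noncomputable def e3_rho {G : Type} [Group G] (φ : G →* Multiplicative ℤ) :
    G →* ((ℝ × ℝ) →L[ℝ] (ℝ × ℝ)) where
  toFun g := e3_map ((2 : ℝ) ^ (φ g).toAdd)
  map_one' := by
    apply ContinuousLinearMap.ext
    intro x
    rw [e3_map_apply, map_one, toAdd_one, zpow_zero, inv_one, one_mul, one_mul]
    rfl
  map_mul' g h := by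
    apply ContinuousLinearMap.ext
    intro x
    rw [mul_apply_eq_comp, e3_map_apply, e3_map_apply, e3_map_apply, map_mul, toAdd_mul,
      zpow_add₀ (by norm_num : (2 : ℝ) ≠ 0), mul_inv]
    ext
    · simp only; ring
    · simp only; ring

theorem e3_rho_apply {G : Type} [Group G] (φ : G →* Multiplicative ℤ) (g : G) (x : ℝ × ℝ) :
    e3_rho φ g x = ((2 : ℝ) ^ (φ g).toAdd * x.1, ((2 : ℝ) ^ (φ g).toAdd)⁻¹ * x.2) :=
  e3_map_apply _ _

/-- The open quadrant. -/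
def e3_cone : Set (ℝ × ℝ) := {x | 0 < x.1 ∧ 0 < x.2}

theorem e3_bound {Z : Set (ℝ × ℝ)} (hZ : IsCompact Z) (hZC : Z ⊆ e3_cone) :
    ∃ M : ℝ, 0 < M ∧ ∀ p ∈ Z, p.1 ≤ M * p.2 ∧ p.2 ≤ M * p.1 := by
  have h1 : ContinuousOn (fun p : ℝ × ℝ => p.1 / p.2) Z :=
    continuous_fst.continuousOn.div continuous_snd.continuousOn fun p hp => (hZC hp).2.ne'
  have h2 : ContinuousOn (fun p : ℝ × ℝ => p.2 / p.1) Z :=
    continuous_snd.continuousOn.div continuous_fst.continuousOn fun p hp => (hZC hp).1.ne'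
  obtain ⟨M₁, hM₁⟩ := hZ.bddAbove_image h1
  obtain ⟨M₂, hM₂⟩ := hZ.bddAbove_image h2
  refine ⟨max (max M₁ M₂) 1, lt_of_lt_of_le one_pos (le_max_right _ _), fun p hp => ?_⟩
  have hp1 := (hZC hp).1
  have hp2 := (hZC hp).2
  have h3 : p.1 / p.2 ≤ max (max M₁ M₂) 1 :=
    (hM₁ (mem_image_of_mem _ hp)).trans ((le_max_left _ _).trans (le_max_left _ _))
  have h4 : p.2 / p.1 ≤ max (max M₁ M₂) 1 :=
    (hM₂ (mem_image_of_mem _ hp)).trans ((le_max_right _ _).trans (le_max_left _ _))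
  rw [div_le_iff₀ hp2] at h3
  rw [div_le_iff₀ hp1] at h4
  exact ⟨h3, h4⟩

theorem e3_coneAction {G : Type} [Group G] (φ : G →* Multiplicative ℤ)
    (hφ : Function.Injective φ) : ConeAction (e3_rho φ) e3_cone where
  isOpen := (isOpen_lt continuous_const continuous_fst).inter
    (isOpen_lt continuous_const continuous_snd)
  convex := by
    intro x hx y hy a b ha hb hab
    have hx1 := hx.1
    have hx2 := hx.2
    have hy1 := hy.1
    have hy2 := hy.2
    constructor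
    · show 0 < a * x.1 + b * y.1
      rcases eq_or_lt_of_le ha with h | h
      · have : b = 1 := by linarith
        rw [← h, this]
        linarith
      · have h1 := mul_pos h hx1
        have h2 := mul_nonneg hb hy1.le
        linarith
    · show 0 < a * x.2 + b * y.2
      rcases eq_or_lt_of_le ha with h | h
      · have : b = 1 := by linarith
        rw [← h, this]
        linarith
      · have h1 := mul_pos h hx2
        have h2 := mul_nonneg hb hy2.le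
        linarith
  conic := by
    intro x hx t ht
    exact ⟨mul_pos ht hx.1, mul_pos ht hx.2⟩
  inv := by
    intro g x hx
    rw [e3_rho_apply]
    exact ⟨mul_pos (by positivity) hx.1, mul_pos (by positivity) hx.2⟩
  zero_notMem := fun h => lt_irrefl _ h.1
  proper := by
    intro Z₁ Z₂ hZ₁ hZ₂ hZ₁C hZ₂C
    obtain ⟨M₁, hM₁, hb₁⟩ := e3_bound hZ₁ hZ₁C
    obtain ⟨M₂, hM₂, hb₂⟩ := e3_bound hZ₂ hZ₂C
    obtain ⟨N, hN⟩ := pow_unbounded_of_one_lt (M₁ * M₂) (by norm_num : (1 : ℝ) < 2)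
    have hinj : Function.Injective (fun g : G => (φ g).toAdd) := by
      intro g h hgh
      exact hφ (Multiplicative.toAdd.injective hgh)
    refine Set.Finite.subset ((Set.finite_Icc (-(N : ℤ)) N).preimage hinj.injOn) ?_
    rintro g ⟨w, ⟨v, ⟨t₁, ht₁, y₁, hy₁, rfl⟩, rfl⟩, ⟨t₂, ht₂, y₂, hy₂, hw⟩⟩
    rw [e3_rho_apply] at hw
    set r : ℝ := (2 : ℝ) ^ (φ g).toAdd with hr
    have hr0 : 0 < r := by positivity
    have e1 : r * (t₁ * y₁.1) = t₂ * y₂.1 := congrArg Prod.fst hw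
    have e2 : r⁻¹ * (t₁ * y₁.2) = t₂ * y₂.2 := congrArg Prod.snd hw
    have p1 := (hZ₁C hy₁).1
    have p2 := (hZ₁C hy₁).2
    have q1 := hb₁ y₁ hy₁
    have q2 := hb₂ y₂ hy₂
    have k1 : r * r ≤ M₁ * M₂ := by
      have h1 : r * (t₁ * y₁.1) ≤ M₂ * (r⁻¹ * (t₁ * y₁.2)) := by
        rw [e1, e2]
        have := mul_le_mul_of_nonneg_left q2.1 ht₂.le
        linarith
      have h2 : r⁻¹ * (t₁ * y₁.2) ≤ r⁻¹ * (t₁ * (M₁ * y₁.1)) :=
        mul_le_mul_of_nonneg_left (mul_le_mul_of_nonneg_left q1.2 ht₁.le) (by positivity)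
      have h3 : r * (t₁ * y₁.1) ≤ M₂ * (r⁻¹ * (t₁ * (M₁ * y₁.1))) :=
        h1.trans (mul_le_mul_of_nonneg_left h2 hM₂.le)
      have h4 : r * (r * (t₁ * y₁.1)) ≤ r * (M₂ * (r⁻¹ * (t₁ * (M₁ * y₁.1)))) :=
        mul_le_mul_of_nonneg_left h3 hr0.le
      have h5 : r * (M₂ * (r⁻¹ * (t₁ * (M₁ * y₁.1)))) = (M₁ * M₂) * (t₁ * y₁.1) := by
        field_simp
      rw [h5, ← mul_assoc] at h4
      exact le_of_mul_le_mul_right h4 (mul_pos ht₁ p1)
    have k2 : r⁻¹ * r⁻¹ ≤ M₁ * M₂ := by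
      have h1 : r⁻¹ * (t₁ * y₁.2) ≤ M₂ * (r * (t₁ * y₁.1)) := by
        rw [e1, e2]
        have := mul_le_mul_of_nonneg_left q2.2 ht₂.le
        linarith
      have h2 : r * (t₁ * y₁.1) ≤ r * (t₁ * (M₁ * y₁.2)) :=
        mul_le_mul_of_nonneg_left (mul_le_mul_of_nonneg_left q1.1 ht₁.le) hr0.le
      have h3 : r⁻¹ * (t₁ * y₁.2) ≤ M₂ * (r * (t₁ * (M₁ * y₁.2))) :=
        h1.trans (mul_le_mul_of_nonneg_left h2 hM₂.le)
      have h4 : r⁻¹ * (r⁻¹ * (t₁ * y₁.2)) ≤ r⁻¹ * (M₂ * (r * (t₁ * (M₁ * y₁.2)))) :=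
        mul_le_mul_of_nonneg_left h3 (by positivity)
      have h5 : r⁻¹ * (M₂ * (r * (t₁ * (M₁ * y₁.2)))) = (M₁ * M₂) * (t₁ * y₁.2) := by
        field_simp
      rw [h5, ← mul_assoc] at h4
      exact le_of_mul_le_mul_right h4 (mul_pos ht₁ p2)
    have k3 : ((2 : ℝ) ^ ((φ g).toAdd + (φ g).toAdd)) < (2 : ℝ) ^ (N : ℤ) := by
      rw [zpow_add₀ (by norm_num : (2 : ℝ) ≠ 0), zpow_natCast]
      exact lt_of_le_of_lt k1 hN
    have k4 : ((2 : ℝ) ^ (-(φ g).toAdd + -(φ g).toAdd)) < (2 : ℝ) ^ (N : ℤ) := by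
      rw [zpow_add₀ (by norm_num : (2 : ℝ) ≠ 0), zpow_natCast, zpow_neg]
      exact lt_of_le_of_lt k2 hN
    have k5 := (zpow_lt_zpow_iff_right₀ (by norm_num : (1 : ℝ) < 2)).1 k3
    have k6 := (zpow_lt_zpow_iff_right₀ (by norm_num : (1 : ℝ) < 2)).1 k4
    simp only [mem_preimage, mem_Icc]
    omega
  free := by
    intro g hg x hx t h
    rw [e3_rho_apply] at h
    have e1 : (2 : ℝ) ^ (φ g).toAdd * x.1 = t * x.1 := congrArg Prod.fst h
    have e2 : ((2 : ℝ) ^ (φ g).toAdd)⁻¹ * x.2 = t * x.2 := congrArg Prod.snd h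
    have e3 := mul_right_cancel₀ hx.1.ne' e1
    have e4 := mul_right_cancel₀ hx.2.ne' e2
    rw [← zpow_neg, ← e3] at e4
    have e5 := zpow_right_injective₀ (by norm_num : (0 : ℝ) < 2) (by norm_num) e4
    have e6 : (φ g).toAdd = 0 := by omega
    apply hg
    apply hφ
    rw [map_one]
    exact Multiplicative.toAdd.injective e6

theorem cyclic_vanishing (G : Type) [Group G] [IsCyclic G] (htf : TorsFree G)
    (M : Rep.{0, 0, 0} ℤ G) (k : ℕ) (hk : 2 ≤ k) : ¬ Nontrivial (groupCohomology M k) := by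
  obtain ⟨φ, hφ⟩ : ∃ φ : G →* Multiplicative ℤ, Function.Injective φ := by
    rcases finite_or_infinite G with hfin | hinf
    · refine ⟨1, ?_⟩
      have hsub : ∀ g : G, g = 1 := by
        intro g
        obtain ⟨m, hm, hgm⟩ := isOfFinOrder_iff_pow_eq_one.1 (isOfFinOrder_of_finite g)
        exact htf g m hm hgm
      intro a b _
      rw [hsub a, hsub b]
    · have h1 : Nat.card G = Nat.card (Multiplicative ℤ) := by
        rw [Nat.card_eq_zero_of_infinite, Nat.card_eq_zero_of_infinite]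
      exact ⟨(mulEquivOfCyclicCardEq h1).toMonoidHom, (mulEquivOfCyclicCardEq h1).injective⟩
  have hC := e3_coneAction φ hφ
  refine not_nontrivial_of_cone (e3_rho φ) e3_cone hC ⟨(1, 1), one_pos, one_pos⟩ M k (by omega) ?_
  intro z hz hdz
  refine cyclic_base htf (e3_rho φ) (repEnd M) e3_cone hC.convex hC.inv ?_ k hk z hz hdz
  intro g hg x hx
  have := hC.free g hg x hx 1
  rwa [one_smul] at this

end E3

end Pool.Agent.MP_8db1a4_gt

namespace Pool.Agent.MP_8db1a4_gt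

export E3 (cyclic_vanishing)

end Pool.Agent.MP_8db1a4_gt
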