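import Pool.Agent.MP_8db1a4_gt.Coarse

set_option autoImplicit false

/-! Task A1: ping-pong (MP_8db1a4_gt). -/

namespace Pool.Agent.MP_8db1a4_gt

open Set

variable {G X : Type*} [Group G] [MetricSpace X] [MulAction G X] [IsIsometricSMul G X]

omit [Group G] [MulAction G X] [IsIsometricSMul G X] in
theorem a1_gp_four {δ : ℝ} (hX : HypGeo X δ) (w x y z : X) :
    min (gp w x z) (gp w z y) - δ ≤ gp w x y := by
  have h := hX.four x y z w
  unfold gp
  rw [dist_comm x w, dist_comm y w, dist_comm z w, dist_comm y z] at h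
  rcases le_total (dist x z + dist w y) (dist w x + dist z y) with h1 | h1
  · rw [max_eq_right h1] at h
    have := min_le_right ((dist w x + dist w z - dist x z) / 2)
      ((dist w z + dist w y - dist z y) / 2)
    linarith
  · rw [max_eq_left h1] at h
    have := min_le_left ((dist w x + dist w z - dist x z) / 2)
      ((dist w z + dist w y - dist z y) / 2)
    linarith

omit [Group G] [MulAction G X] [IsIsometricSMul G X] in
theorem a1_gp_comm (w x y : X) : gp w x y = gp w y x := by
  unfold gp
  rw [dist_comm x y]; ring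

/-- The attracting set property. -/
theorem a1_attract {δ : ℝ} (hX : HypGeo X δ) (y p : X) (g : G) (hg : dist y (g • y) ≤ 1)
    (hgp : 10 * δ + 10 ≤ dist p (g • p)) (z : X) (hz : gp p z y < 2 * δ + 1) :
    2 * δ + 1 ≤ gp p (g • z) y := by
  have hδ := hX.nonneg
  have e1 : dist p (g⁻¹ • p) = dist p (g • p) := by
    rw [← dist_smul g p (g⁻¹ • p), smul_inv_smul, dist_comm]
  have e2 : dist (g⁻¹ • p) y = dist p (g • y) := by
    rw [← dist_smul g (g⁻¹ • p) y, smul_inv_smul]
  have e3 : dist z (g⁻¹ • p) = dist (g • z) p := by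
    rw [← dist_smul g z (g⁻¹ • p), smul_inv_smul]
  have e4 : dist (g • z) (g • p) = dist z p := dist_smul g z p
  have e5 : dist (g • p) (g • y) = dist p y := dist_smul g p y
  have t1 : dist (g • p) y ≤ dist p y + 1 := by
    have := dist_triangle (g • p) (g • y) y
    rw [e5, dist_comm (g • y) y] at this
    linarith
  have t2 : dist p (g • y) ≤ dist p y + 1 := by
    have := dist_triangle p y (g • y)
    linarith
  have f1 : 5 * δ + 9 / 2 ≤ gp p (g • p) y := by
    unfold gp; linarith
  have f2 : 5 * δ + 9 / 2 ≤ gp p (g⁻¹ • p) y := by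
    unfold gp; rw [e1, e2]; linarith
  have f3 : gp p z (g⁻¹ • p) ≤ 3 * δ + 1 := by
    have h4 := a1_gp_four hX p z y (g⁻¹ • p)
    by_contra hcon
    push Not at hcon
    have : 3 * δ + 1 ≤ min (gp p z (g⁻¹ • p)) (gp p (g⁻¹ • p) y) :=
      le_min hcon.le (by linarith)
    linarith
  have f4 : gp p (g • z) (g • p) + gp p z (g⁻¹ • p) = dist p (g • p) := by
    unfold gp
    rw [e1, e3, e4, dist_comm (g • z) p, dist_comm z p]; ring
  have h5 := a1_gp_four hX p (g • z) y (g • p)
  have : 3 * δ + 1 ≤ min (gp p (g • z) (g • p)) (gp p (g • p) y) :=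
    le_min (by linarith) (by linarith)
  linarith

omit [Group G] [MulAction G X] [IsIsometricSMul G X] in
theorem a1_disjoint {δ : ℝ} (hX : HypGeo X δ) (y y' p : X)
    (hp : dist y p + dist p y' = dist y y') (z : X) (h1 : 2 * δ + 1 ≤ gp p z y)
    (h2 : 2 * δ + 1 ≤ gp p z y') : False := by
  have hδ := hX.nonneg
  have h := a1_gp_four hX p y y' z
  have h0 : gp p y y' = 0 := by
    unfold gp
    rw [dist_comm p y]; linarith
  have : 2 * δ + 1 ≤ min (gp p y z) (gp p z y') := le_min (by rw [a1_gp_comm]; exact h1) h2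
  linarith

omit [Group G] [MulAction G X] [IsIsometricSMul G X] in
theorem a1_base {δ : ℝ} (hX : HypGeo X δ) (y p : X) : gp p p y < 2 * δ + 1 := by
  have hδ := hX.nonneg
  unfold gp
  rw [dist_self]; linarith

/-- Two isometries with small displacement at the two ends of a geodesic and large displacement at an
inner point do not commute. -/
theorem pingpong_not_commute {δ : ℝ} (hX : HypGeo X δ) (y y' p : X)
    (hp : dist y p + dist p y' = dist y y') (g h : G) (hg : dist y (g • y) ≤ 1)
    (hh : dist y' (h • y') ≤ 1) (hgp : 10 * δ + 10 ≤ dist p (g • p))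
    (hhp : 10 * δ + 10 ≤ dist p (h • p)) : g * h ≠ h * g := by
  intro hcomm
  have a1 : 2 * δ + 1 ≤ gp p (h • p) y' := a1_attract hX y' p h hh hhp p (a1_base hX y' p)
  have a2 : 2 * δ + 1 ≤ gp p (g • p) y := a1_attract hX y p g hg hgp p (a1_base hX y p)
  have b1 : 2 * δ + 1 ≤ gp p (g • h • p) y := by
    refine a1_attract hX y p g hg hgp (h • p) ?_
    by_contra hc
    exact a1_disjoint hX y y' p hp _ (not_lt.mp hc) a1
  have b2 : 2 * δ + 1 ≤ gp p (h • g • p) y' := by
    refine a1_attract hX y' p h hh hhp (g • p) ?_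
    by_contra hc
    exact a1_disjoint hX y y' p hp _ a2 (not_lt.mp hc)
  rw [smul_smul] at b1 b2
  rw [← hcomm] at b2
  exact a1_disjoint hX y y' p hp _ b1 b2

open Classical in
/-- The set of words `g₁ h₁ ⋯ g_m h_m`. -/
noncomputable def a1_words (S₁ S₂ : Finset G) : ℕ → Finset G
  | 0 => {1}
  | m + 1 => ((S₁ ×ˢ S₂) ×ˢ a1_words S₁ S₂ m).image fun q => q.1.1 * q.1.2 * q.2

theorem a1_pow_le {a b C : ℝ} (hb : 0 < b) (h : ∀ m : ℕ, a ^ m ≤ C * b ^ m) : a ≤ b := by
  by_contra hcon
  push Not at hcon
  have h1 : 1 < a / b := by rwa [one_lt_div hb]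
  obtain ⟨m, hm⟩ := ((tendsto_pow_atTop_atTop_of_one_lt h1).eventually_gt_atTop C).exists
  have h2 := h m
  rw [div_pow, lt_div_iff₀ (pow_pos hb m)] at hm
  linarith

/-- Free semigroup: alternating products of separated sets are distinct, so growth is large. -/
theorem pingpong_growth {δ : ℝ} (hX : HypGeo X δ) (hprop : ProperAct G X) (o : X) (s : ℝ)
    (hgr : GrowthLE G o s) (y y' p : X) (hp : dist y p + dist p y' = dist y y')
    (S₁ S₂ : Finset G)
    (h₁ : ∀ g ∈ S₁, dist y (g • y) ≤ 1 / 2) (h₂ : ∀ g ∈ S₂, dist y' (g • y') ≤ 1 / 2)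
    (k₁ : ∀ g ∈ S₁, 10 * δ + 10 ≤ dist p (g • p)) (k₂ : ∀ g ∈ S₂, 10 * δ + 10 ≤ dist p (g • p))
    (q₁ : ∀ g ∈ S₁, ∀ g' ∈ S₁, g ≠ g' → 10 * δ + 10 ≤ dist (g • p) (g' • p))
    (q₂ : ∀ g ∈ S₂, ∀ g' ∈ S₂, g ≠ g' → 10 * δ + 10 ≤ dist (g • p) (g' • p)) :
    ((S₁.card : ℝ) * S₂.card) ≤ Real.exp (s * (2 * dist y y' + 1)) := by
  classical
  have at1 : ∀ g ∈ S₁, ∀ z : X, gp p z y < 2 * δ + 1 → 2 * δ + 1 ≤ gp p (g • z) y :=
    fun g hg z hz => a1_attract hX y p g (by linarith [h₁ g hg]) (k₁ g hg) z hz
  have at2 : ∀ g ∈ S₂, ∀ z : X, gp p z y' < 2 * δ + 1 → 2 * δ + 1 ≤ gp p (g • z) y' :=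
    fun g hg z hz => a1_attract hX y' p g (by linarith [h₂ g hg]) (k₂ g hg) z hz
  have nU : ∀ z, 2 * δ + 1 ≤ gp p z y' → gp p z y < 2 * δ + 1 := fun z hz => by
    by_contra hc
    exact a1_disjoint hX y y' p hp z (not_lt.mp hc) hz
  have nU' : ∀ z, 2 * δ + 1 ≤ gp p z y → gp p z y' < 2 * δ + 1 := fun z hz => by
    by_contra hc
    exact a1_disjoint hX y y' p hp z hz (not_lt.mp hc)
  -- all words move `p` outside `U_{y'}`
  have key : ∀ m, ∀ w ∈ a1_words S₁ S₂ m, gp p (w • p) y' < 2 * δ + 1 := by
    intro m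
    induction m with
    | zero =>
      intro w hw
      simp only [a1_words, Finset.mem_singleton] at hw
      rw [hw, one_smul]
      exact a1_base hX y' p
    | succ m ih =>
      intro w hw
      simp only [a1_words, Finset.mem_image, Finset.mem_product] at hw
      obtain ⟨⟨⟨g, h⟩, w'⟩, ⟨⟨hg, hh⟩, hw'⟩, rfl⟩ := hw
      have c1 := at2 h hh _ (ih w' hw')
      have c2 := at1 g hg _ (nU _ c1)
      have c3 := nU' _ c2
      simpa only [mul_smul] using c3
  -- injectivity
  have inj : ∀ m, Set.InjOn (fun q : (G × G) × G => q.1.1 * q.1.2 * q.2)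
      (((S₁ ×ˢ S₂) ×ˢ a1_words S₁ S₂ m : Finset ((G × G) × G)) : Set ((G × G) × G)) := by
    intro m
    rintro ⟨⟨g, h⟩, w⟩ hq ⟨⟨g', h'⟩, w'⟩ hq' heq
    simp only [Finset.coe_product, Set.mem_prod, Finset.mem_coe] at hq hq'
    obtain ⟨⟨hg, hh⟩, hw⟩ := hq
    obtain ⟨⟨hg', hh'⟩, hw'⟩ := hq'
    simp only at heq
    have c1 := at2 h hh _ (key m w hw)
    have c1' := at2 h' hh' _ (key m w' hw')
    have hgg : g = g' := by
      by_contra hne
      have e1 : (g'⁻¹ * g) • h • w • p = h' • w' • p := by
        simp only [smul_smul]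
        rw [← inv_mul_cancel_left g' (h' * w')]
        congr 1
        rw [← mul_assoc g' h' w', ← heq]
        group
      have e2 : 10 * δ + 10 ≤ dist p ((g'⁻¹ * g) • p) := by
        have := q₁ g' hg' g hg (Ne.symm hne)
        rwa [← dist_smul g'⁻¹, inv_smul_smul, smul_smul] at this
      have e3 : dist y ((g'⁻¹ * g) • y) ≤ 1 := by
        have t : dist y ((g'⁻¹ * g) • y) = dist (g' • y) (g • y) := by
          rw [← dist_smul g' y, smul_smul, mul_inv_cancel_left]
        rw [t]
        have := dist_triangle (g' • y) y (g • y)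
        have a := h₁ g hg
        have b := h₁ g' hg'
        rw [dist_comm] at b
        linarith
      have e4 := a1_attract hX y p (g'⁻¹ * g) e3 e2 (h • w • p) (nU _ c1)
      rw [e1] at e4
      exact a1_disjoint hX y y' p hp _ e4 c1'
    subst hgg
    have hhw : h * w = h' * w' := by
      have : g * (h * w) = g * (h' * w') := by rw [← mul_assoc, ← mul_assoc]; exact heq
      exact mul_left_cancel this
    have hhh : h = h' := by
      by_contra hne
      have e1 : (h'⁻¹ * h) • w • p = w' • p := by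
        simp only [smul_smul]
        congr 1
        rw [mul_assoc, hhw]
        group
      have e2 : 10 * δ + 10 ≤ dist p ((h'⁻¹ * h) • p) := by
        have := q₂ h' hh' h hh (Ne.symm hne)
        rwa [← dist_smul h'⁻¹, inv_smul_smul, smul_smul] at this
      have e3 : dist y' ((h'⁻¹ * h) • y') ≤ 1 := by
        have t : dist y' ((h'⁻¹ * h) • y') = dist (h' • y') (h • y') := by
          rw [← dist_smul h' y', smul_smul, mul_inv_cancel_left]
        rw [t]
        have := dist_triangle (h' • y') y' (h • y')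
        have a := h₂ h hh
        have b := h₂ h' hh'
        rw [dist_comm] at b
        linarith
      have e4 := a1_attract hX y' p (h'⁻¹ * h) e3 e2 (w • p) (key m w hw)
      rw [e1] at e4
      exact absurd (key m w' hw') (not_lt.mpr e4)
    subst hhh
    have : w = w' := mul_left_cancel hhw
    rw [this]
  have hcard : ∀ m, (a1_words S₁ S₂ m).card = (S₁.card * S₂.card) ^ m := by
    intro m
    induction m with
    | zero => simp [a1_words]
    | succ m ih =>
      rw [a1_words, Finset.card_image_of_injOn (inj m), Finset.card_product, Finset.card_product,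
        ih, pow_succ]
      ring
  -- displacement of words
  have hdisp : ∀ m : ℕ, ∀ w ∈ a1_words S₁ S₂ m, dist p (w • p) ≤ m * (2 * dist y y' + 1) := by
    intro m
    induction m with
    | zero =>
      intro w hw
      simp only [a1_words, Finset.mem_singleton] at hw
      rw [hw, one_smul]; simp
    | succ m ih =>
      intro w hw
      simp only [a1_words, Finset.mem_image, Finset.mem_product] at hw
      obtain ⟨⟨⟨g, h⟩, w'⟩, ⟨⟨hg, hh⟩, hw'⟩, rfl⟩ := hw
      have d1 : dist p (g • p) ≤ 2 * dist y p + 1 / 2 := by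
        have t1 := dist_triangle p y (g • p)
        have t2 := dist_triangle y (g • y) (g • p)
        rw [dist_smul] at t2
        have := h₁ g hg
        rw [dist_comm p y] at t1
        linarith
      have d2 : dist p (h • p) ≤ 2 * dist p y' + 1 / 2 := by
        have t1 := dist_triangle p y' (h • p)
        have t2 := dist_triangle y' (h • y') (h • p)
        rw [dist_smul] at t2
        have := h₂ h hh
        rw [dist_comm y' p] at t2
        linarith
      have d3 := ih w' hw'
      have d4 : dist p ((g * h * w') • p) ≤ dist p (g • p) + dist p (h • p) + dist p (w' • p) := by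
        have t1 := dist_triangle p (g • p) (g • h • w' • p)
        have t2 := dist_triangle p (h • p) (h • w' • p)
        rw [dist_smul] at t1 t2
        rw [mul_smul, mul_smul]
        linarith
      push_cast
      nlinarith
  obtain ⟨C, hC, hgrow⟩ := hgr
  have hfin : ∀ m : ℕ, (((S₁.card : ℝ) * S₂.card)) ^ m ≤
      (C * Real.exp (s * (2 * dist o p))) * (Real.exp (s * (2 * dist y y' + 1))) ^ m := by
    intro m
    have hr : (0 : ℝ) ≤ m * (2 * dist y y' + 1) + 2 * dist o p := by positivity
    have hsub : (a1_words S₁ S₂ m : Set G) ⊆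
        {g : G | dist o (g • o) ≤ m * (2 * dist y y' + 1) + 2 * dist o p} := by
      intro w hw
      have d1 := hdisp m w hw
      have t1 := dist_triangle o p (w • o)
      have t2 := dist_triangle p (w • p) (w • o)
      rw [dist_smul, dist_comm p o] at t2
      show dist o (w • o) ≤ _
      linarith
    have hle : (a1_words S₁ S₂ m).card ≤
        {g : G | dist o (g • o) ≤ m * (2 * dist y y' + 1) + 2 * dist o p}.ncard := by
      have := Set.ncard_le_ncard hsub (hprop o o _)
      rwa [Set.ncard_coe_finset] at this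
    have hg := hgrow _ hr
    have : ((a1_words S₁ S₂ m).card : ℝ) ≤
        C * Real.exp (s * (m * (2 * dist y y' + 1) + 2 * dist o p)) :=
      (Nat.cast_le.mpr hle).trans hg
    rw [hcard] at this
    push_cast at this
    refine this.trans (le_of_eq ?_)
    rw [← Real.exp_nat_mul, mul_assoc, ← Real.exp_add]
    congr 2
    ring
  exact a1_pow_le (Real.exp_pos _) hfin

end Pool.Agent.MP_8db1a4_gt
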