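import Pool.Agent.MP_8db1a4_gt.Geo.A1

set_option autoImplicit false

/-! [KAP-A2] two different classes (MP_8db1a4_gt). -/

namespace Pool.Agent.MP_8db1a4_gt.A2

open Set

variable {G X : Type*} [Group G] [MetricSpace X] [MulAction G X] [IsIsometricSMul G X]

theorem a2_dist_smul (g : G) (x y : X) : dist (g • x) (g • y) = dist x y := dist_smul g x y

/-- Displacements are upper semicontinuous in the discrete sense. -/
theorem a2_margin (hprop : ProperAct G X) (c : ℝ) (p : X) :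
    ∃ ε : ℝ, 0 < ε ∧ ∀ p' : X, dist p p' < ε → ∀ g : G, dist p' (g • p') ≤ c →
      dist p (g • p) ≤ c := by
  classical
  have hfin : ({g : G | dist p (g • p) ≤ c + 1} ∩ {g : G | c < dist p (g • p)}).Finite :=
    (hprop p p (c + 1)).inter_of_left _
  set T := hfin.toFinset with hT
  have hmem : ∀ g : G, g ∈ T ↔ dist p (g • p) ≤ c + 1 ∧ c < dist p (g • p) := by
    intro g
    rw [hT, Set.Finite.mem_toFinset]
    rfl
  have hmargin : ∃ η : ℝ, 0 < η ∧ η ≤ 1 ∧ ∀ g ∈ T, c + η ≤ dist p (g • p) := by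
    rcases T.eq_empty_or_nonempty with h0 | h0
    · exact ⟨1, one_pos, le_rfl, fun g hg => by rw [h0] at hg; simp at hg⟩
    · obtain ⟨g₀, hg₀, hmin⟩ := T.exists_min_image (fun g => dist p (g • p)) h0
      have h1 := (hmem g₀).1 hg₀
      refine ⟨dist p (g₀ • p) - c, by linarith [h1.2], by linarith [h1.1], fun g hg => ?_⟩
      have := hmin g hg
      linarith
  obtain ⟨η, hη0, hη1, hη⟩ := hmargin
  refine ⟨η / 2, by linarith, fun p' hp' g hg => ?_⟩
  by_contra hcon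
  push Not at hcon
  have h2 : dist p (g • p) ≤ dist p p' + dist p' (g • p') + dist (g • p') (g • p) := by
    have := dist_triangle4 p p' (g • p') (g • p)
    exact this
  rw [a2_dist_smul, dist_comm p' p] at h2
  have h3 : g ∈ T := (hmem g).2 ⟨by linarith, hcon⟩
  have := hη g h3
  linarith

/-- The point `p` is moved a little by many elements of `Γ`. -/
def a2_Big (M : ℕ) (c : ℝ) (Γ : Subgroup G) (p : X) : Prop :=
  ∃ S : Finset G, (∀ g ∈ S, g ∈ Γ ∧ dist p (g • p) ≤ c) ∧ M < S.card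

theorem a2_isClosed (hprop : ProperAct G X) (M : ℕ) (c : ℝ) (Γ : Subgroup G) (D : ℝ) (γ : ℝ → X)
    (hγ : ∀ s ∈ Icc 0 D, ∀ t ∈ Icc 0 D, dist (γ s) (γ t) = |s - t|) :
    IsClosed {t : ℝ | t ∈ Icc 0 D ∧ a2_Big M c Γ (γ t)} := by
  rw [← isOpen_compl_iff, Metric.isOpen_iff]
  intro t ht
  by_cases htI : t ∈ Icc 0 D
  · have hnb : ¬ a2_Big M c Γ (γ t) := fun h => ht ⟨htI, h⟩
    obtain ⟨ε, hε, h⟩ := a2_margin hprop c (γ t)
    refine ⟨ε, hε, fun t' ht' hcon => hnb ?_⟩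
    obtain ⟨htI', S, hS, hcard⟩ := hcon
    refine ⟨S, fun g hg => ⟨(hS g hg).1, h (γ t') ?_ g (hS g hg).2⟩, hcard⟩
    rw [hγ t htI t' htI', abs_sub_comm]
    rw [Metric.mem_ball, Real.dist_eq] at ht'
    exact ht'
  · obtain ⟨ε, hε, h⟩ := Metric.isOpen_iff.1 (isClosed_Icc (a := (0 : ℝ)) (b := D)).isOpen_compl t htI
    exact ⟨ε, hε, fun t' ht' hcon => h ht' hcon.1⟩

/-- Big at both places forces the two classes to be equal. -/
theorem a2_eq_of_big {Bs : X → Set G} {Cl : Set (Subgroup G)} (hB : SmallSets Bs Cl) {c : ℝ}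
    {M : ℕ} (hM : ∀ (y : X) (S : Finset G), (∀ g ∈ S, dist y (g • y) ≤ c) →
      S.Nonempty → ∃ g₀ ∈ S, (S.card : ℝ) ≤ M * ({g ∈ (S : Set G) | g₀⁻¹ * g ∈ Bs y}.ncard : ℝ))
    {Γ : Subgroup G} {p : X} (hbig : a2_Big M c Γ p) : ∃ u ∈ Γ, u ∈ Bs p ∧ u ≠ 1 := by
  classical
  obtain ⟨S, hS, hcard⟩ := hbig
  have hne : S.Nonempty := by
    rw [← Finset.card_pos]
    omega
  obtain ⟨g₀, hg₀, hle⟩ := hM p S (fun g hg => (hS g hg).2) hne
  set A : Set G := {g ∈ (S : Set G) | g₀⁻¹ * g ∈ Bs p} with hA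
  have hAfin : A.Finite := S.finite_toSet.subset (fun g hg => hg.1)
  have h1 : 1 < A.ncard := by
    by_contra hcon
    push Not at hcon
    have h2 : (A.ncard : ℝ) ≤ 1 := by exact_mod_cast hcon
    have h3 : (M : ℝ) < (S.card : ℝ) := by exact_mod_cast hcard
    have h4 : (0 : ℝ) ≤ M := Nat.cast_nonneg _
    nlinarith
  obtain ⟨a, ha, b, hb, hab⟩ := (Set.one_lt_ncard hAfin).1 h1
  have key : ∀ x ∈ A, x ≠ g₀ → ∃ u ∈ Γ, u ∈ Bs p ∧ u ≠ 1 := by
    intro x hx hxg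
    refine ⟨g₀⁻¹ * x, Γ.mul_mem (Γ.inv_mem (hS g₀ hg₀).1) (hS x hx.1).1, hx.2, fun h => hxg ?_⟩
    rw [inv_mul_eq_one] at h
    exact h.symm
  by_cases h : a = g₀
  · exact key b hb (fun hbg => hab (h.trans hbg.symm))
  · exact key a ha h

/-- The greedy choice of a separated set. -/
theorem a2_greedy {Bs : X → Set G} {Cl : Set (Subgroup G)} (hB : SmallSets Bs Cl) {c : ℝ}
    (hc : 0 < c) {M : ℕ} {Γ : Subgroup G} {y p : X} (hy : Bs y ⊆ (Γ : Set G))
    (hnb : ¬ a2_Big M c Γ p) (hfin : {g : G | dist p (g • p) ≤ c}.Finite) :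
    ∃ S : Finset G, (∀ g ∈ S, g ∈ Bs y) ∧ (∀ g ∈ S, c ≤ dist p (g • p)) ∧
      (∀ g ∈ S, ∀ g' ∈ S, g ≠ g' → c ≤ dist (g • p) (g' • p)) ∧
      (Bs y).ncard ≤ (S.card + 1) * M := by
  classical
  let P : Finset G → Prop := fun S => (∀ g ∈ S, c ≤ dist p (g • p)) ∧
    (∀ g ∈ S, ∀ g' ∈ S, g ≠ g' → c ≤ dist (g • p) (g' • p))
  set B := (hB.finite y).toFinset with hBdef
  have hBmem : ∀ g, g ∈ B ↔ g ∈ Bs y := fun g => by rw [hBdef, Set.Finite.mem_toFinset]
  have hne : (B.powerset.filter P).Nonempty := by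
    refine ⟨∅, ?_⟩
    rw [Finset.mem_filter]
    exact ⟨Finset.empty_mem_powerset _, by simp [P]⟩
  obtain ⟨S, hS, hmax⟩ := (B.powerset.filter P).exists_max_image Finset.card hne
  rw [Finset.mem_filter, Finset.mem_powerset] at hS
  obtain ⟨hSB, hS1, hS2⟩ := hS
  refine ⟨S, fun g hg => (hBmem g).1 (hSB hg), hS1, hS2, ?_⟩
  -- every element of `B` is close to an element of `S` or to `1`
  have hclose : ∀ g ∈ B, ∃ g' ∈ insert (1 : G) S, dist p ((g'⁻¹ * g) • p) ≤ c := by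
    intro g hg
    by_contra hcon
    push Not at hcon
    have hgS : g ∉ S := fun h => by
      have := hcon g (Finset.mem_insert_of_mem h)
      rw [inv_mul_cancel, one_smul, dist_self] at this
      linarith
    have h1 : c < dist p (g • p) := by
      have := hcon 1 (Finset.mem_insert_self _ _)
      rwa [inv_one, one_mul] at this
    have h2 : ∀ g' ∈ S, c < dist (g' • p) (g • p) := by
      intro g' hg'
      have := hcon g' (Finset.mem_insert_of_mem hg')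
      rwa [mul_smul, ← a2_dist_smul g', smul_inv_smul] at this
    have hP : insert g S ∈ B.powerset.filter P := by
      rw [Finset.mem_filter, Finset.mem_powerset]
      refine ⟨Finset.insert_subset hg hSB, ?_, ?_⟩
      · intro a ha
        rcases Finset.mem_insert.1 ha with rfl | ha
        · exact h1.le
        · exact hS1 a ha
      · intro a ha b hb hab
        rcases Finset.mem_insert.1 ha with ha' | ha' <;>
          rcases Finset.mem_insert.1 hb with hb' | hb'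
        · exact absurd (ha'.trans hb'.symm) hab
        · rw [dist_comm, ha']
          exact (h2 b hb').le
        · rw [hb']
          exact (h2 a ha').le
        · exact hS2 a ha' b hb' hab
    have := hmax _ hP
    rw [Finset.card_insert_of_notMem hgS] at this
    omega
  set T := hfin.toFinset with hTdef
  have hTmem : ∀ g, g ∈ T ↔ dist p (g • p) ≤ c := fun g => by
    rw [hTdef, Set.Finite.mem_toFinset]
    rfl
  let TΓ := T.filter (fun g => g ∈ Γ)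
  have hTΓ : TΓ.card ≤ M := by
    by_contra hcon
    push Not at hcon
    exact hnb ⟨TΓ, fun g hg => by
      rw [Finset.mem_filter] at hg
      exact ⟨hg.2, (hTmem g).1 hg.1⟩, hcon⟩
  have hsub : B ⊆ (insert (1 : G) S).biUnion (fun g' => TΓ.image (fun u => g' * u)) := by
    intro g hg
    obtain ⟨g', hg', hd⟩ := hclose g hg
    rw [Finset.mem_biUnion]
    refine ⟨g', hg', ?_⟩
    rw [Finset.mem_image]
    refine ⟨g'⁻¹ * g, ?_, by group⟩
    rw [Finset.mem_filter]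
    refine ⟨(hTmem _).2 hd, Γ.mul_mem (Γ.inv_mem ?_) (hy ((hBmem g).1 hg))⟩
    rcases Finset.mem_insert.1 hg' with rfl | hg'
    · exact Γ.one_mem
    · exact hy ((hBmem g').1 (hSB hg'))
  have hcard : B.card ≤ (insert (1 : G) S).card * M :=
    (Finset.card_le_card hsub).trans (Finset.card_biUnion_le_card_mul _ _ _
      fun g' _ => Finset.card_image_le.trans hTΓ)
  have h3 : (Bs y).ncard = B.card := by
    rw [hBdef, Set.ncard_eq_toFinset_card _ (hB.finite y)]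
  rw [h3]
  refine hcard.trans (Nat.mul_le_mul_right _ ?_)
  exact Finset.card_insert_le _ _

theorem two_classes {δ : ℝ} (hX : HypGeo X δ) (hprop : ProperAct G X) (Bs : X → Set G)
    (Cl : Set (Subgroup G)) (hB : SmallSets Bs Cl) (o : X) (s : ℝ) (hs : 0 ≤ s)
    (hgr : GrowthLE G o s) :
    ∃ M₀ C₁ : ℝ, 1 ≤ M₀ ∧ 0 < C₁ ∧ ∀ (y y' : X) (Γ Γ' : Subgroup G), Γ ∈ Cl → Γ' ∈ Cl → Γ ≠ Γ' →
      Bs y ⊆ (Γ : Set G) → Bs y' ⊆ (Γ' : Set G) → M₀ ≤ ((Bs y).ncard : ℝ) →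
      M₀ ≤ ((Bs y').ncard : ℝ) →
      ((Bs y).ncard : ℝ) * ((Bs y').ncard : ℝ) ≤ C₁ * Real.exp (2 * s * dist y y') := by
  have hδ := hX.nonneg
  set c : ℝ := 10 * δ + 10 with hc
  obtain ⟨M, hM0, hM⟩ := hB.pigeon c
  have hM1 : (1 : ℝ) ≤ M := by exact_mod_cast hM0
  refine ⟨2 * M + 1, 4 * (M : ℝ) ^ 2 * Real.exp s, by linarith, by positivity, ?_⟩
  intro y y' Γ Γ' hΓ hΓ' hne hy hy' hcard hcard'
  obtain ⟨γ, hγ0, hγD, hγ⟩ := hX.geod y y'
  set D := dist y y' with hD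
  have hD0 : 0 ≤ D := dist_nonneg
  have hbigy : ∀ (z : X) (Δ : Subgroup G), Bs z ⊆ (Δ : Set G) → (2 * M + 1 : ℝ) ≤ (Bs z).ncard →
      a2_Big M c Δ z := by
    intro z Δ hz hcz
    refine ⟨(hB.finite z).toFinset, fun g hg => ?_, ?_⟩
    · rw [Set.Finite.mem_toFinset] at hg
      exact ⟨hz hg, (hB.disp z g hg).trans (by rw [hc]; linarith)⟩
    · rw [← Set.ncard_eq_toFinset_card _ (hB.finite z)]
      have : (M : ℝ) < ((Bs z).ncard : ℝ) := by linarith
      exact_mod_cast this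
  -- a point which is big for neither class
  have hpt : ∃ t ∈ Icc 0 D, ¬ a2_Big M c Γ (γ t) ∧ ¬ a2_Big M c Γ' (γ t) := by
    by_contra hcon
    push Not at hcon
    have hpre := (isPreconnected_closed_iff.1 (isPreconnected_Icc (a := (0 : ℝ)) (b := D)))
      {t : ℝ | t ∈ Icc 0 D ∧ a2_Big M c Γ (γ t)} {t : ℝ | t ∈ Icc 0 D ∧ a2_Big M c Γ' (γ t)}
      (a2_isClosed hprop M c Γ D γ hγ) (a2_isClosed hprop M c Γ' D γ hγ)
      (by
        intro t ht
        by_cases h : a2_Big M c Γ (γ t)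
        · exact Or.inl ⟨ht, h⟩
        · exact Or.inr ⟨ht, hcon t ht h⟩)
      ⟨0, ⟨le_rfl, hD0⟩, ⟨le_rfl, hD0⟩, by rw [hγ0]; exact hbigy y Γ hy hcard⟩
      ⟨D, ⟨hD0, le_rfl⟩, ⟨hD0, le_rfl⟩, by rw [hγD]; exact hbigy y' Γ' hy' hcard'⟩
    obtain ⟨t, -, ⟨-, h1⟩, ⟨-, h2⟩⟩ := hpre
    obtain ⟨u, hu, hu1, hu2⟩ := a2_eq_of_big hB hM h1
    obtain ⟨v, hv, hv1, hv2⟩ := a2_eq_of_big hB hM h2
    obtain ⟨Γ'', hΓ'', hsub⟩ := hB.cover (γ t) ⟨u, hu1, hu2⟩
    have e1 : Γ = Γ'' := hB.disj Γ hΓ Γ'' hΓ'' u hu (hsub hu1) hu2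
    have e2 : Γ' = Γ'' := hB.disj Γ' hΓ' Γ'' hΓ'' v hv (hsub hv1) hv2
    exact hne (e1.trans e2.symm)
  obtain ⟨t, ht, hn1, hn2⟩ := hpt
  set p := γ t with hp
  have hc0 : 0 < c := by rw [hc]; linarith
  obtain ⟨S₁, hS1a, hS1b, hS1c, hS1d⟩ := a2_greedy hB hc0 hy hn1 (hprop p p c)
  obtain ⟨S₂, hS2a, hS2b, hS2c, hS2d⟩ := a2_greedy hB hc0 hy' hn2 (hprop p p c)
  have hpd : dist y p + dist p y' = dist y y' := by
    have h1 : dist y p = t := by
      have := hγ 0 ⟨le_rfl, hD0⟩ t ht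
      rw [hγ0] at this
      rw [hp, this, zero_sub, abs_neg, abs_of_nonneg ht.1]
    have h2 : dist p y' = D - t := by
      have := hγ t ht D ⟨hD0, le_rfl⟩
      rw [hγD] at this
      rw [hp, this, abs_sub_comm, abs_of_nonneg (by linarith [ht.2])]
    rw [h1, h2, ← hD]
    ring
  have hpp := pingpong_growth hX hprop o s hgr y y' p hpd S₁ S₂
    (fun g hg => (hB.disp y g (hS1a g hg)).trans (by norm_num))
    (fun g hg => (hB.disp y' g (hS2a g hg)).trans (by norm_num)) hS1b hS2b hS1c hS2c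
  have hcnt : ∀ (n k : ℕ), n ≤ (k + 1) * M → (2 * M + 1 : ℝ) ≤ n → (n : ℝ) ≤ 2 * M * k := by
    intro n k h1 h2
    have h3 : (n : ℝ) ≤ (k + 1) * M := by exact_mod_cast h1
    nlinarith
  have a1 := hcnt _ _ hS1d hcard
  have a2 := hcnt _ _ hS2d hcard'
  calc ((Bs y).ncard : ℝ) * ((Bs y').ncard : ℝ)
      ≤ (2 * M * S₁.card) * (2 * M * S₂.card) :=
        mul_le_mul a1 a2 (Nat.cast_nonneg _) (by positivity)
    _ = 4 * (M : ℝ) ^ 2 * ((S₁.card : ℝ) * S₂.card) := by ring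
    _ ≤ 4 * (M : ℝ) ^ 2 * Real.exp (s * (2 * dist y y' + 1)) :=
        mul_le_mul_of_nonneg_left hpp (by positivity)
    _ = 4 * (M : ℝ) ^ 2 * Real.exp s * Real.exp (2 * s * dist y y') := by
        rw [mul_assoc (4 * (M : ℝ) ^ 2), ← Real.exp_add]
        congr 2
        ring

theorem tset_disjoint {δ : ℝ} (hX : HypGeo X δ) (hprop : ProperAct G X) (Bs : X → Set G)
    (Cl : Set (Subgroup G)) (hB : SmallSets Bs Cl) (o : X) (s s' : ℝ) (hs : 0 ≤ s) (hss : s ≤ s')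
    (hgr : GrowthLE G o s) :
    ∃ Λ₀ : ℝ, 1 ≤ Λ₀ ∧ ∀ Λ : ℝ, Λ₀ ≤ Λ → ∀ Γ ∈ Cl, ∀ Γ' ∈ Cl, Γ ≠ Γ' →
      Disjoint (TSet Bs s' Γ Λ) (TSet Bs s' Γ' Λ) := by
  obtain ⟨M₀, C₁, hM, hC, h⟩ := two_classes hX hprop Bs Cl hB o s hs hgr
  refine ⟨M₀ + C₁, by linarith, fun Λ hΛ Γ hΓ Γ' hΓ' hne => ?_⟩
  rw [Set.disjoint_left]
  rintro x ⟨y, hy, -, hy2⟩ ⟨y', hy', -, hy2'⟩
  have hΛ0 : 0 < Λ := by linarith
  have hs' : 0 ≤ s' := hs.trans hss
  have e1 : 1 ≤ Real.exp (2 * s' * dist x y) :=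
    Real.one_le_exp (by positivity)
  have e2 : 1 ≤ Real.exp (2 * s' * dist x y') :=
    Real.one_le_exp (by positivity)
  have b1 : Λ ≤ ((Bs y).ncard : ℝ) := by nlinarith
  have b2 : Λ ≤ ((Bs y').ncard : ℝ) := by nlinarith
  have h1 := h y y' Γ Γ' hΓ hΓ' hne hy hy' (by linarith) (by linarith)
  have h2 : (Λ * Real.exp (2 * s' * dist x y)) * (Λ * Real.exp (2 * s' * dist x y')) ≤
      ((Bs y).ncard : ℝ) * ((Bs y').ncard : ℝ) :=
    mul_le_mul hy2 hy2' (by positivity) (Nat.cast_nonneg _)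
  have h3 : Real.exp (2 * s * dist y y') ≤
      Real.exp (2 * s' * dist x y) * Real.exp (2 * s' * dist x y') := by
    rw [← Real.exp_add, Real.exp_le_exp]
    have h4 : dist y y' ≤ dist x y + dist x y' := by
      have := dist_triangle y x y'
      rwa [dist_comm y x] at this
    calc 2 * s * dist y y' ≤ 2 * s' * dist y y' := by
          have := dist_nonneg (x := y) (y := y')
          nlinarith
      _ ≤ 2 * s' * (dist x y + dist x y') := mul_le_mul_of_nonneg_left h4 (by linarith)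
      _ = _ := by ring
  set E := Real.exp (2 * s' * dist x y) * Real.exp (2 * s' * dist x y') with hE
  have hE0 : 0 < E := by positivity
  have h5 : Λ ^ 2 * E ≤ C₁ * E := by
    calc Λ ^ 2 * E = (Λ * Real.exp (2 * s' * dist x y)) * (Λ * Real.exp (2 * s' * dist x y')) := by
          rw [hE]; ring
      _ ≤ _ := h2
      _ ≤ C₁ * Real.exp (2 * s * dist y y') := h1
      _ ≤ C₁ * E := mul_le_mul_of_nonneg_left h3 hC.le
  have h6 : Λ ^ 2 ≤ C₁ := le_of_mul_le_mul_right h5 hE0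
  nlinarith

theorem tset_nbhd (Bs : X → Set G) (s : ℝ) (hs : 0 ≤ s) (Γ : Subgroup G) (Λ r : ℝ) (hΛ : 0 ≤ Λ)
    (x x' : X) (hx : x ∈ TSet Bs s Γ Λ) (hr : dist x x' ≤ r) :
    x' ∈ TSet Bs s Γ (Λ * Real.exp (-(2 * s * r))) := by
  obtain ⟨y, hy1, hy2, hy3⟩ := hx
  refine ⟨y, hy1, hy2, le_trans ?_ hy3⟩
  rw [mul_assoc, ← Real.exp_add]
  refine mul_le_mul_of_nonneg_left ?_ hΛ
  rw [Real.exp_le_exp]
  have h := dist_triangle x' x y
  rw [dist_comm x' x] at h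
  have h' : 2 * s * dist x' y ≤ 2 * s * (r + dist x y) :=
    mul_le_mul_of_nonneg_left (by linarith) (by linarith)
  nlinarith

theorem tset_smul (Bs : X → Set G) (Cl : Set (Subgroup G)) (hB : SmallSets Bs Cl) (s : ℝ)
    (Γ : Subgroup G) (Λ : ℝ) (g : G) (x : X) (hx : x ∈ TSet Bs s Γ Λ) :
    g • x ∈ TSet Bs s (Γ.map (MulAut.conj g).toMonoidHom) Λ := by
  obtain ⟨y, hy1, ⟨u, hu, hu1⟩, hy3⟩ := hx
  refine ⟨g • y, ?_, ⟨g * u * g⁻¹, hB.conj g y u hu, fun h => hu1 ?_⟩, ?_⟩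
  · intro k hk
    have h1 := hB.conj g⁻¹ (g • y) k hk
    rw [inv_smul_smul, inv_inv] at h1
    exact ⟨g⁻¹ * k * g, hy1 h1, by
      simp only [MulEquiv.coe_toMonoidHom, MulAut.conj_apply]
      group⟩
  · have h2 : g⁻¹ * (g * u * g⁻¹) * g = g⁻¹ * 1 * g := by rw [h]
    have h3 : g⁻¹ * (g * u * g⁻¹) * g = u := by group
    rw [h3] at h2
    rw [h2]
    group
  · rw [a2_dist_smul]
    refine hy3.trans ?_
    have hsub : (fun k => g * k * g⁻¹) '' Bs y ⊆ Bs (g • y) := by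
      rintro _ ⟨k, hk, rfl⟩
      exact hB.conj g y k hk
    have hinj : Function.Injective (fun k : G => g * k * g⁻¹) := by
      intro a b hab
      simpa using hab
    have := Set.ncard_le_ncard hsub (hB.finite _)
    rw [Set.ncard_image_of_injective _ hinj] at this
    exact_mod_cast this

end Pool.Agent.MP_8db1a4_gt.A2

namespace Pool.Agent.MP_8db1a4_gt

export A2 (two_classes tset_disjoint tset_nbhd tset_smul)

end Pool.Agent.MP_8db1a4_gt
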