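import Pool.Agent.MP_8db1a4_gt.SmallDefs
import Pool.Agent.MP_8db1a4_gt.Geo.B1c

set_option autoImplicit false

/-! [K-B3a] the limit direction of a centralizer. -/

namespace Pool.Agent.MP_8db1a4_gt

open Set Filter Topology

theorem b3a_zpow_inj {G : Type*} [Group G] (htf : TorsFree G) (g : G) (hg : g ≠ 1) :
    Function.Injective (fun j : ℕ => g ^ j) := by
  intro i j hij
  have key : ∀ a b : ℕ, a < b → g ^ a = g ^ b → False := by
    intro a b hab h
    have h1 : g ^ (b - a) = 1 := by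
      have h2 : g ^ b = g ^ a * g ^ (b - a) := by rw [← pow_add]; congr 1; omega
      rw [h2] at h
      exact (mul_eq_left.mp h.symm)
    exact hg (htf g (b - a) (by omega) h1)
  rcases lt_trichotomy i j with h | h | h
  · exact (key i j h hij).elim
  · exact h
  · exact (key j i h hij.symm).elim

theorem b3a_tendsto_lor {n : ℕ} {X Y : ℕ → LV n} {A B : LV n} (hX : Tendsto X atTop (𝓝 A))
    (hY : Tendsto Y atTop (𝓝 B)) : Tendsto (fun j => lor (X j) (Y j)) atTop (𝓝 (lor A B)) := by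
  unfold lor
  exact (hX.fst_nhds.inner hY.fst_nhds).sub (hX.snd_nhds.mul hY.snd_nhds)

theorem exists_common_null {n : ℕ} {G : Type*} [Group G] (ρ : G →* (LV n →L[ℝ] LV n))
    (h : LorAction ρ) (hd : LorDiscrete ρ) (htf : TorsFree G) (g : G) (hg : g ≠ 1) :
    ∃ u : EuclideanSpace ℝ (Fin n), ‖u‖ = 1 ∧ ∀ k ∈ Subgroup.centralizer {g},
      ∃ lam : ℝ, 0 < lam ∧ ρ k (u, 1) = lam • ((u, 1) : LV n) := by
  set x : ℕ → LV n := fun j => ρ (g ^ j) (Ohy n).val with hx
  have hxc : ∀ j, x j ∈ LCone n := fun j => h.cone _ _ (Ohy n).mem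
  have hxs : ∀ j, lor (x j) (x j) = -1 := fun j => by
    rw [hx]; simp only [h.lor_eq]; exact (Ohy n).lor_self
  have hb : ∀ j, -lor (Ohy n).val (x j) = (x j).2 := by
    intro j; simp [lor, Ohy]
  have hb0 : ∀ j, 0 < (x j).2 := fun j => lt_of_le_of_lt (norm_nonneg _) (hxc j)
  have hnorm : ∀ j, ‖(x j).1‖ ^ 2 = (x j).2 ^ 2 - 1 := by
    intro j
    have := hxs j
    simp only [lor, real_inner_self_eq_norm_sq] at this
    nlinarith
  have htend : Tendsto (fun j => (x j).2) atTop atTop := by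
    refine tendsto_atTop.mpr (fun R => ?_)
    have hfin : {j : ℕ | (x j).2 ≤ R}.Finite := by
      have h1 := (hd R).preimage ((b3a_zpow_inj htf g hg).injOn)
      refine h1.subset ?_
      intro j hj
      show -lor (Ohy n).val (ρ (g ^ j) (Ohy n).val) ≤ R
      have := hb j
      rw [hx] at this
      simp only at this
      rw [this]
      exact hj
    have h2 : ∀ᶠ j in cofinite, j ∉ {j : ℕ | (x j).2 ≤ R} := hfin.eventually_cofinite_notMem
    rw [Nat.cofinite_eq_atTop] at h2
    filter_upwards [h2] with j hj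
    exact (not_le.mp hj).le
  -- directions
  set a : ℕ → EuclideanSpace ℝ (Fin n) := fun j => ((x j).2)⁻¹ • (x j).1 with ha
  have ha1 : ∀ j, a j ∈ Metric.closedBall (0 : EuclideanSpace ℝ (Fin n)) 1 := by
    intro j
    rw [mem_closedBall_zero_iff]
    simp only [ha, norm_smul, norm_inv, Real.norm_of_nonneg (hb0 j).le]
    rw [inv_mul_le_iff₀ (hb0 j), mul_one]
    have h1 : ‖(x j).1‖ < (x j).2 := hxc j
    exact h1.le
  obtain ⟨u, -, φ, hφ, hu⟩ :=
    (isCompact_closedBall (0 : EuclideanSpace ℝ (Fin n)) 1).tendsto_subseq ha1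
  have htend' : Tendsto (fun j => (x (φ j)).2) atTop atTop := htend.comp hφ.tendsto_atTop
  have hinv : Tendsto (fun j => ((x (φ j)).2)⁻¹) atTop (𝓝 0) := htend'.inv_tendsto_atTop
  have hnorma : ∀ j, ‖a j‖ ^ 2 = 1 - (((x j).2)⁻¹) ^ 2 := by
    intro j
    simp only [ha, norm_smul, norm_inv, Real.norm_of_nonneg (hb0 j).le]
    rw [mul_pow, hnorm]
    have := (hb0 j).ne'
    field_simp
  have hu1 : ‖u‖ = 1 := by
    have h1 : Tendsto (fun j => ‖a (φ j)‖ ^ 2) atTop (𝓝 (‖u‖ ^ 2)) := (hu.norm).pow 2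
    have h2 : Tendsto (fun j => ‖a (φ j)‖ ^ 2) atTop (𝓝 1) := by
      have h3 : Tendsto (fun j => 1 - (((x (φ j)).2)⁻¹) ^ 2) atTop (𝓝 (1 - 0 ^ 2)) :=
        (tendsto_const_nhds).sub (hinv.pow 2)
      simp only [hnorma]
      simpa using h3
    have h4 := tendsto_nhds_unique h1 h2
    have h5 := norm_nonneg u
    nlinarith
  refine ⟨u, hu1, ?_⟩
  intro k hk
  have hkg : k * g = g * k := by
    rw [Subgroup.mem_centralizer_singleton_iff] at hk
    exact hk
  have hkgj : ∀ j : ℕ, k * g ^ j = g ^ j * k := by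
    intro j
    have : Commute k g := hkg
    exact (this.pow_right j).eq
  -- normalised points
  set y : ℕ → LV n := fun j => ((x (φ j)).2)⁻¹ • x (φ j) with hy
  have hylim : Tendsto y atTop (𝓝 ((u, 1) : LV n)) := by
    have h1 : ∀ j, y j = (a (φ j), 1) := by
      intro j
      simp only [hy, ha]
      ext1
      · rfl
      · simp [(hb0 (φ j)).ne']
    have h2 : Tendsto (fun j => ((a (φ j), 1) : LV n)) atTop (𝓝 ((u, 1) : LV n)) :=
      hu.prodMk_nhds tendsto_const_nhds
    exact h2.congr (fun j => (h1 j).symm)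
  have hylim' : Tendsto (fun j => ρ k (y j)) atTop (𝓝 (ρ k (u, 1))) :=
    ((ρ k).continuous.tendsto _).comp hylim
  set z : LV n := ρ k (u, 1) with hz
  have hzle : ‖z.1‖ ≤ z.2 := by
    have h1 : Tendsto (fun j => ‖(ρ k (y j)).1‖) atTop (𝓝 ‖z.1‖) :=
      (continuous_fst.norm.tendsto _).comp hylim'
    have h2 : Tendsto (fun j => (ρ k (y j)).2) atTop (𝓝 z.2) :=
      (continuous_snd.tendsto _).comp hylim'
    refine le_of_tendsto_of_tendsto' h1 h2 (fun j => ?_)
    have h3 : y j ∈ LCone n := smul_mem_LCone (hxc _) (inv_pos.mpr (hb0 _))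
    exact (h.cone k _ h3).le
  have hlor0 : lor z (u, 1) = 0 := by
    have h1 : Tendsto (fun j => lor (ρ k (y j)) (y j)) atTop (𝓝 (lor z (u, 1))) :=
      b3a_tendsto_lor hylim' hylim
    have h2 : ∀ j, lor (ρ k (y j)) (y j)
        = (((x (φ j)).2)⁻¹) ^ 2 * lor (ρ k (Ohy n).val) (Ohy n).val := by
      intro j
      have h3 : lor (ρ k (x (φ j))) (x (φ j)) = lor (ρ k (Ohy n).val) (Ohy n).val := by
        have h4 : ρ k (x (φ j)) = ρ (g ^ φ j) (ρ k (Ohy n).val) := by
          have h5 : ρ (k * g ^ φ j) (Ohy n).val = ρ (g ^ φ j * k) (Ohy n).val := by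
            rw [hkgj]
          rw [map_mul, map_mul] at h5
          exact h5
        rw [h4]
        exact h.lor_eq _ _ _
      simp only [hy, map_smul, lor_smul_left, lor_smul_right, h3]
      ring
    have h6 : Tendsto (fun j => lor (ρ k (y j)) (y j)) atTop (𝓝 0) := by
      simp only [h2]
      simpa using (hinv.pow 2).mul_const (lor (ρ k (Ohy n).val) (Ohy n).val)
    exact tendsto_nhds_unique h1 h6
  have hzz : lor z z = 0 := by
    rw [hz, h.lor_eq]
    simp [lor, hu1]
  have hz1 : ‖z.1‖ ^ 2 = z.2 ^ 2 := by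
    simp only [lor, real_inner_self_eq_norm_sq] at hzz
    nlinarith
  have hz2 : ‖z.1‖ = z.2 := by
    have h1 : 0 ≤ z.2 := (norm_nonneg _).trans hzle
    nlinarith [norm_nonneg z.1]
  have hinner : inner ℝ z.1 u = ‖z.1‖ * ‖u‖ := by
    rw [hu1, hz2]
    simp only [lor] at hlor0
    linarith
  have hz3 : z.1 = z.2 • u := by
    have := inner_eq_norm_mul_iff_real.mp hinner
    rw [hu1, hz2, one_smul] at this
    exact this
  refine ⟨z.2, ?_, ?_⟩
  · rcases eq_or_lt_of_le ((norm_nonneg _).trans hzle) with h0 | h0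
    · exfalso
      have hz0 : z = 0 := by
        ext1
        · rw [hz3, ← h0]; simp
        · exact h0.symm
      have h7 : ρ k⁻¹ z = (u, 1) := rho_inv_apply ρ k _
      rw [hz0, map_zero] at h7
      have := congrArg Prod.snd h7
      simp at this
    · exact h0
  · ext1
    · exact hz3
    · simp

end Pool.Agent.MP_8db1a4_gt
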