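import Mathlib

set_option autoImplicit false

namespace Pool.Agent.MP_8db1a4_gt

open Set

/-- The positive operator `x ↦ ∑ a i ⟨v i, x⟩ v i`. -/
noncomputable def c2_op {E : Type*} [NormedAddCommGroup E] [InnerProductSpace ℝ E]
    [FiniteDimensional ℝ E] {ι : Type*} (a : ι → ℝ) (v : ι → E)
    (hs : ∀ x : E, Summable fun i => (a i * inner ℝ (v i) x) • v i) : E →ₗ[ℝ] E where
  toFun x := ∑' i, (a i * inner ℝ (v i) x) • v i
  map_add' x y := by
    rw [← (hs x).tsum_add (hs y)]
    congr 1
    ext i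
    rw [inner_add_right, mul_add, add_smul]
  map_smul' c x := by
    rw [RingHom.id_apply, ← (hs x).tsum_const_smul]
    congr 1
    ext i
    rw [inner_smul_right, smul_smul]
    congr 1
    ring

theorem exists_W {E : Type*} [NormedAddCommGroup E] [InnerProductSpace ℝ E]
    [FiniteDimensional ℝ E] {ι : Type*} (a : ι → ℝ) (v : ι → E) (ha : ∀ i, 0 ≤ a i)
    (hs : Summable fun i => a i * ‖v i‖ ^ 2) (k : ℕ) (hk : 1 ≤ k) :
    ∃ W : Submodule ℝ E, Module.finrank ℝ Wᗮ + 1 ≤ k ∧ ∀ h ∈ W,
      ∑' i, a i * (inner ℝ (v i) h) ^ 2 ≤ (∑' i, a i * ‖v i‖ ^ 2) / k * ‖h‖ ^ 2 := by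
  classical
  have : CompleteSpace E := FiniteDimensional.complete ℝ E
  -- summability
  have hsv : ∀ x : E, Summable fun i => (a i * inner ℝ (v i) x) • v i := by
    intro x
    apply Summable.of_norm_bounded (hs.mul_right ‖x‖)
    intro i
    rw [norm_smul, Real.norm_eq_abs, abs_mul, abs_of_nonneg (ha i)]
    have h1 : |inner ℝ (v i) x| ≤ ‖v i‖ * ‖x‖ := abs_real_inner_le_norm _ _
    have h2 : a i * |inner ℝ (v i) x| * ‖v i‖ ≤ a i * (‖v i‖ * ‖x‖) * ‖v i‖ := by
      gcongr
      exact ha i
    linarith [h2]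
  have hsq : ∀ x y : E, Summable fun i => a i * (inner ℝ (v i) x) * inner ℝ (v i) y := by
    intro x y
    have h1 := (hsv x).mapL (innerSL ℝ y)
    refine h1.congr fun i => ?_
    rw [innerSL_apply_apply, inner_smul_right, real_inner_comm (v i) y]
  have hin : ∀ x y : E, inner ℝ (c2_op a v hsv x) y =
      ∑' i, a i * (inner ℝ (v i) x) * inner ℝ (v i) y := by
    intro x y
    have h1 := (innerSL ℝ y).map_tsum (hsv x)
    rw [innerSL_apply_apply] at h1
    rw [real_inner_comm]
    refine Eq.trans h1 ?_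
    congr 1
    ext i
    rw [innerSL_apply_apply, inner_smul_right, real_inner_comm (v i) y]
  have hsym : (c2_op a v hsv).IsSymmetric := by
    intro x y
    rw [hin, real_inner_comm, hin]
    congr 1
    ext i
    ring
  set n := Module.finrank ℝ E with hn
  set b := hsym.eigenvectorBasis (n := n) rfl with hb
  set lam := hsym.eigenvalues (n := n) rfl with hlam
  have hTb : ∀ j, c2_op a v hsv (b j) = lam j • b j := fun j =>
    hsym.apply_eigenvectorBasis rfl j
  have hlam' : ∀ j, lam j = ∑' i, a i * (inner ℝ (v i) (b j)) ^ 2 := by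
    intro j
    have h1 := hin (b j) (b j)
    rw [hTb, inner_smul_left, real_inner_self_eq_norm_sq, b.norm_eq_one] at h1
    simp only [conj_trivial, one_pow, mul_one] at h1
    rw [h1]
    congr 1
    ext i
    ring
  have hlam0 : ∀ j, 0 ≤ lam j := by
    intro j
    rw [hlam']
    exact tsum_nonneg fun i => mul_nonneg (ha i) (sq_nonneg _)
  set τ := ∑' i, a i * ‖v i‖ ^ 2 with hτ
  have hτ0 : 0 ≤ τ := tsum_nonneg fun i => mul_nonneg (ha i) (sq_nonneg _)
  have htr : ∑ j, lam j = τ := by
    have h1 : ∀ j, Summable fun i => a i * (inner ℝ (v i) (b j)) ^ 2 := by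
      intro j
      refine (hsq (b j) (b j)).congr fun i => ?_
      ring
    simp_rw [hlam']
    rw [← Summable.tsum_finsetSum (fun j _ => h1 j)]
    congr 1
    ext i
    rw [← Finset.mul_sum]
    congr 1
    have h2 := b.sum_sq_norm_inner_left (v i)
    rw [← h2]
    refine Finset.sum_congr rfl fun j _ => ?_
    rw [Real.norm_eq_abs, sq_abs]
  set J : Finset (Fin n) := Finset.univ.filter fun j => τ / k < lam j with hJ
  have hkpos : (0 : ℝ) < k := by exact_mod_cast hk
  have hcard : J.card + 1 ≤ k := by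
    by_contra hcon
    have hge : k ≤ J.card := by omega
    have hne : J.Nonempty := by
      rw [← Finset.card_pos]
      omega
    have h1 : ∑ j ∈ J, τ / k < ∑ j ∈ J, lam j :=
      Finset.sum_lt_sum_of_nonempty hne fun j hj => (Finset.mem_filter.mp hj).2
    have h2 : ∑ j ∈ J, lam j ≤ ∑ j, lam j :=
      Finset.sum_le_sum_of_subset_of_nonneg (Finset.subset_univ _) fun j _ _ => hlam0 j
    rw [Finset.sum_const, nsmul_eq_mul] at h1
    have h3 : τ ≤ (J.card : ℝ) * (τ / k) := by
      have h4 : (k : ℝ) ≤ (J.card : ℝ) := by exact_mod_cast hge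
      calc τ = (k : ℝ) * (τ / k) := by field_simp
        _ ≤ (J.card : ℝ) * (τ / k) := by gcongr
    linarith
  refine ⟨(Submodule.span ℝ ((J.image b : Finset E) : Set E))ᗮ, ?_, ?_⟩
  · rw [Submodule.orthogonal_orthogonal]
    have h1 := finrank_span_finset_le_card (R := ℝ) (J.image b)
    have h2 : (J.image b).card ≤ J.card := Finset.card_image_le
    unfold Set.finrank at h1
    omega
  · intro h hh
    have h0 : ∀ j ∈ J, inner ℝ (b j) h = (0 : ℝ) := by
      intro j hj
      exact Submodule.inner_right_of_mem_orthogonal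
        (Submodule.subset_span (by simpa using ⟨j, hj, rfl⟩)) hh
    have h1 : ∑' i, a i * (inner ℝ (v i) h) ^ 2 = inner ℝ (c2_op a v hsv h) h := by
      rw [hin]
      congr 1
      ext i
      ring
    rw [h1, ← b.sum_inner_mul_inner (c2_op a v hsv h) h]
    have h2 : ∀ j, inner ℝ (c2_op a v hsv h) (b j) * inner ℝ (b j) h =
        lam j * (inner ℝ (b j) h) ^ 2 := by
      intro j
      rw [hsym h (b j), hTb, inner_smul_right, real_inner_comm]
      ring
    simp_rw [h2]
    have h3 : ‖h‖ ^ 2 = ∑ j, (inner ℝ (b j) h) ^ 2 := by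
      rw [← b.sum_sq_norm_inner_right h]
      refine Finset.sum_congr rfl fun j _ => ?_
      rw [Real.norm_eq_abs, sq_abs]
    rw [h3, Finset.mul_sum]
    refine Finset.sum_le_sum fun j _ => ?_
    by_cases hj : j ∈ J
    · rw [h0 j hj]
      simp
    · have h4 : lam j ≤ τ / k := by
        by_contra hcon
        exact hj (Finset.mem_filter.mpr ⟨Finset.mem_univ _, not_le.mp hcon⟩)
      gcongr

end Pool.Agent.MP_8db1a4_gt
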