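import Pool.Agent.MP_8db1a4_gt.Collar
import Pool.Agent.MP_8db1a4_gt.Geo.C2

set_option autoImplicit false

/-! [KAP-C4] type I in a Euclidean chart (MP_8db1a4_gt), helper23. -/

namespace Pool.Agent.MP_8db1a4_gt.C4

open Set Filter Topology Asymptotics
open Pool.Agent.MP_8db1a4_gt

section general

variable {E : Type*} [NormedAddCommGroup E] [InnerProductSpace ℝ E]

theorem c4_plus {ψ : E → ℝ} {ψ' : E →L[ℝ] ℝ} (h : HasStrictFDerivAt ψ ψ' 0) :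
    (fun p : E × E => ψ (p.1 + p.2) - ψ p.1 - ψ' p.2) =o[𝓝 0] fun p : E × E => ‖p.2‖ := by
  have ht : Tendsto (fun p : E × E => (p.1 + p.2, p.1)) (𝓝 0) (𝓝 ((0 : E), (0 : E))) := by
    have hc : Continuous (fun p : E × E => (p.1 + p.2, p.1)) := by fun_prop
    have h2 := hc.tendsto 0
    simpa using h2
  have h3 := (h.isLittleO.comp_tendsto ht).norm_right
  refine h3.congr (fun p => ?_) (fun p => ?_)
  · simp
  · simp

theorem c4_minus {ψ : E → ℝ} {ψ' : E →L[ℝ] ℝ} (h : HasStrictFDerivAt ψ ψ' 0) :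
    (fun p : E × E => ψ (p.1 - p.2) - ψ p.1 + ψ' p.2) =o[𝓝 0] fun p : E × E => ‖p.2‖ := by
  have ht : Tendsto (fun p : E × E => (p.1 - p.2, p.1)) (𝓝 0) (𝓝 ((0 : E), (0 : E))) := by
    have hc : Continuous (fun p : E × E => (p.1 - p.2, p.1)) := by fun_prop
    have h2 := hc.tendsto 0
    simpa using h2
  have h3 := (h.isLittleO.comp_tendsto ht).norm_right
  refine h3.congr (fun p => ?_) (fun p => ?_)
  · simp
  · simp

theorem c4_sq {X : Type*} {l : Filter X} {f b N : X → ℝ} (h : (fun p => f p - b p) =o[l] N)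
    (hb : b =O[l] N) : (fun p => f p ^ 2 - b p ^ 2) =o[l] fun p => N p ^ 2 := by
  have h1 : (fun p => f p + b p) =O[l] N := by
    have := (h.isBigO.add hb).add hb
    refine this.congr_left (fun p => by ring)
  have h2 := h.mul_isBigO h1
  refine h2.congr (fun p => by ring) (fun p => by ring)

theorem c4_profile (κ y0 y1 : ℝ) :
    (max (y1 - κ) 0) ^ 2 ≤ (max (y0 - κ) 0) ^ 2 + 2 * max (y0 - κ) 0 * (y1 - y0) +
      (y1 - y0) ^ 2 := by
  rcases le_total (y0 - κ) 0 with h0 | h0 <;> rcases le_total (y1 - κ) 0 with h1 | h1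
  · rw [max_eq_right h0, max_eq_right h1]; nlinarith [sq_nonneg (y1 - y0)]
  · rw [max_eq_right h0, max_eq_left h1]; nlinarith
  · rw [max_eq_left h0, max_eq_right h1]; nlinarith [sq_nonneg (y1 - κ)]
  · rw [max_eq_left h0, max_eq_left h1]; nlinarith

theorem c4_exp (x : ℝ) (hx : |x| ≤ 1) :
    Real.exp x ≤ 1 + x + x ^ 2 / 2 + 2 / 9 * |x| ^ 3 := by
  have h := Real.exp_bound hx (n := 3) (by norm_num)
  have h2 := (abs_le.mp h).2
  simp [Finset.sum_range_succ, Nat.factorial] at h2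
  have h3 : |x| ^ 3 * ((3 + 1) / (6 * 3)) = 2 / 9 * |x| ^ 3 := by ring
  linarith

theorem c4_Y (l z : ℝ) (hl : 0 < l) (hz : z < 1) :
    (l / Real.sqrt (1 - z)) ^ (-(1 / 4) : ℝ) =
      Real.exp (-(1 / 4) * (Real.log l - Real.log (1 - z) / 2)) := by
  have h1 : 0 < 1 - z := by linarith
  have h2 : 0 < Real.sqrt (1 - z) := Real.sqrt_pos.mpr h1
  rw [Real.rpow_def_of_pos (by positivity), Real.log_div hl.ne' h2.ne', Real.log_sqrt h1.le]
  congr 1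
  ring

theorem c4_logL (L0 dp dm : ℝ) (h0 : 0 < L0) (hp : 0 < L0 + dp) (hm : 0 < L0 + dm)
    (hs : 0 ≤ dp + dm) (hw : -(dm * dp) / L0 ^ 2 < 1) :
    -(Real.log (L0 + dp) + Real.log (L0 + dm) - 2 * Real.log L0) ≤
      (-(dm * dp) / L0 ^ 2) / (1 - (-(dm * dp) / L0 ^ 2)) := by
  set w := -(dm * dp) / L0 ^ 2 with hwdef
  have hw1 : 0 < 1 - w := by linarith
  have hdd : dm * dp = - (w * L0 ^ 2) := by
    rw [hwdef]; field_simp
  have hprod : L0 ^ 2 * (1 - w) ≤ (L0 + dp) * (L0 + dm) := by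
    have : (L0 + dp) * (L0 + dm) = L0 ^ 2 + L0 * (dp + dm) + dm * dp := by ring
    rw [this, hdd]
    nlinarith [mul_nonneg h0.le hs]
  have hlog : Real.log (L0 ^ 2 * (1 - w)) ≤ Real.log ((L0 + dp) * (L0 + dm)) :=
    Real.log_le_log (by positivity) hprod
  rw [Real.log_mul hp.ne' hm.ne', Real.log_mul (by positivity) hw1.ne', Real.log_pow] at hlog
  have hl2 : 1 - (1 - w)⁻¹ ≤ Real.log (1 - w) := Real.one_sub_inv_le_log_of_pos hw1
  have hl3 : w / (1 - w) = (1 - w)⁻¹ - 1 := by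
    field_simp
    ring
  rw [hl3]
  push_cast at hlog
  linarith

theorem c4_logN (m h : E) (hp : ‖m + h‖ < 1) (hm : ‖m - h‖ < 1) :
    Real.log (1 - ‖m + h‖ ^ 2) + Real.log (1 - ‖m - h‖ ^ 2) - 2 * Real.log (1 - ‖m‖ ^ 2) ≤
      -2 * ‖h‖ ^ 2 := by
  have hA : 0 < 1 - ‖m + h‖ ^ 2 := by nlinarith [norm_nonneg (m + h)]
  have hB : 0 < 1 - ‖m - h‖ ^ 2 := by nlinarith [norm_nonneg (m - h)]
  have hpar : ‖m + h‖ ^ 2 + ‖m - h‖ ^ 2 = 2 * (‖m‖ ^ 2 + ‖h‖ ^ 2) := by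
    have := parallelogram_law_with_norm ℝ m h
    nlinarith [this]
  have hC : 0 < 1 - ‖m‖ ^ 2 - ‖h‖ ^ 2 := by linarith
  have hD : 0 < 1 - ‖m‖ ^ 2 := by nlinarith [sq_nonneg ‖h‖]
  have h1 : Real.log (1 - ‖m + h‖ ^ 2) + Real.log (1 - ‖m - h‖ ^ 2) ≤
      2 * Real.log (1 - ‖m‖ ^ 2 - ‖h‖ ^ 2) := by
    rw [← Real.log_mul hA.ne' hB.ne']
    have : 2 * Real.log (1 - ‖m‖ ^ 2 - ‖h‖ ^ 2) = Real.log ((1 - ‖m‖ ^ 2 - ‖h‖ ^ 2) ^ 2) := by
      rw [Real.log_pow]; norm_num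
    rw [this]
    apply Real.log_le_log (by positivity)
    nlinarith [sq_nonneg (‖m + h‖ ^ 2 - ‖m - h‖ ^ 2)]
  have h2 : Real.log (1 - ‖m‖ ^ 2 - ‖h‖ ^ 2) - Real.log (1 - ‖m‖ ^ 2) ≤ -‖h‖ ^ 2 := by
    rw [← Real.log_div hC.ne' hD.ne']
    have h3 := Real.log_le_sub_one_of_pos (div_pos hC hD)
    have h4 : (1 - ‖m‖ ^ 2 - ‖h‖ ^ 2) / (1 - ‖m‖ ^ 2) - 1 = -(‖h‖ ^ 2 / (1 - ‖m‖ ^ 2)) := by
      field_simp
      ring
    have h5 : ‖h‖ ^ 2 ≤ ‖h‖ ^ 2 / (1 - ‖m‖ ^ 2) := by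
      rw [le_div_iff₀ hD]
      nlinarith [sq_nonneg ‖h‖, sq_nonneg ‖m‖, mul_nonneg (sq_nonneg ‖h‖) (sq_nonneg ‖m‖)]
    linarith
  linarith

/-- The exponent of the profile. -/
noncomputable def c4u (L : E → ℝ) (ζ : E) : ℝ :=
  -(1 / 4) * (Real.log (L ζ) - Real.log (1 - ‖ζ‖ ^ 2) / 2)

theorem c4u_strict {L : E → ℝ} {e₀ : E} {α : ℝ} (hα : 2 ≤ α) (hL0 : L 0 = α)
    (hL : HasStrictFDerivAt L (innerSL ℝ e₀) 0) :
    HasStrictFDerivAt (c4u L) ((-(1 / (4 * α))) • (innerSL ℝ e₀ : E →L[ℝ] ℝ)) 0 := by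
  have h1 : HasStrictFDerivAt (fun ζ => Real.log (L ζ)) ((L 0)⁻¹ • (innerSL ℝ e₀ : E →L[ℝ] ℝ)) 0 :=
    hL.log (by rw [hL0]; linarith)
  have h2 : HasStrictFDerivAt (fun ζ : E => ‖ζ‖ ^ 2) (2 • (innerSL ℝ (0 : E) : E →L[ℝ] ℝ)) 0 :=
    hasStrictFDerivAt_norm_sq (0 : E)
  have h3 : HasStrictFDerivAt (fun ζ : E => 1 - ‖ζ‖ ^ 2)
      (-(2 • (innerSL ℝ (0 : E) : E →L[ℝ] ℝ))) 0 := h2.const_sub 1
  have h4 := h3.log (by simp)
  have h5 := (h1.sub (h4.const_mul (1 / 2 : ℝ))).const_mul (-(1 / 4) : ℝ)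
  refine (h5.congr_fderiv ?_).congr_of_eventuallyEq (Eventually.of_forall fun ζ => ?_)
  · ext v
    simp [hL0]
    field_simp
  · simp only [c4u, Pi.sub_apply]
    ring

theorem c4_main_ineq (L : E → ℝ) (κ : ℝ) (m h : E) (hp : ‖m + h‖ < 1) (hm : ‖m - h‖ < 1)
    (h0 : 0 < L m) (hLp : 0 < L (m + h)) (hLm : 0 < L (m - h))
    (hs : 2 * L m ≤ L (m + h) + L (m - h))
    (hw : -((L (m - h) - L m) * (L (m + h) - L m)) / (L m) ^ 2 < 1)
    (hxp : |c4u L (m + h) - c4u L m| ≤ 1) (hxm : |c4u L (m - h) - c4u L m| ≤ 1) :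
    colG κ (L (m + h) / Real.sqrt (1 - ‖m + h‖ ^ 2)) +
      colG κ (L (m - h) / Real.sqrt (1 - ‖m - h‖ ^ 2)) -
      2 * colG κ (L m / Real.sqrt (1 - ‖m‖ ^ 2)) ≤
    2 * max (Real.exp (c4u L m) - κ) 0 * (Real.exp (c4u L m) *
      (1 / 4 * ((-((L (m - h) - L m) * (L (m + h) - L m)) / (L m) ^ 2) /
        (1 - (-((L (m - h) - L m) * (L (m + h) - L m)) / (L m) ^ 2))) - 1 / 4 * ‖h‖ ^ 2 +
        ((c4u L (m + h) - c4u L m) ^ 2 + (c4u L (m - h) - c4u L m) ^ 2) / 2 +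
        2 / 9 * (|c4u L (m + h) - c4u L m| ^ 3 + |c4u L (m - h) - c4u L m| ^ 3))) +
      ((Real.exp (c4u L (m + h)) - Real.exp (c4u L m)) ^ 2 +
        (Real.exp (c4u L (m - h)) - Real.exp (c4u L m)) ^ 2) := by
  have hpar : ‖m + h‖ ^ 2 + ‖m - h‖ ^ 2 = 2 * (‖m‖ ^ 2 + ‖h‖ ^ 2) := by
    have := parallelogram_law_with_norm ℝ m h
    nlinarith [this]
  have hA : ‖m + h‖ ^ 2 < 1 := by nlinarith [norm_nonneg (m + h)]
  have hB : ‖m - h‖ ^ 2 < 1 := by nlinarith [norm_nonneg (m - h)]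
  have hC : ‖m‖ ^ 2 < 1 := by nlinarith [sq_nonneg ‖h‖]
  unfold colG
  rw [c4_Y _ _ hLp hA, c4_Y _ _ hLm hB, c4_Y _ _ h0 hC]
  change (max (Real.exp (c4u L (m + h)) - κ) 0) ^ 2 + (max (Real.exp (c4u L (m - h)) - κ) 0) ^ 2
    - 2 * (max (Real.exp (c4u L m) - κ) 0) ^ 2 ≤ _
  have e1 := c4_profile κ (Real.exp (c4u L m)) (Real.exp (c4u L (m + h)))
  have e2 := c4_profile κ (Real.exp (c4u L m)) (Real.exp (c4u L (m - h)))
  have hl := c4_logL (L m) (L (m + h) - L m) (L (m - h) - L m) h0 (by linarith) (by linarith)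
    (by linarith) hw
  have hn := c4_logN m h hp hm
  rw [add_sub_cancel, add_sub_cancel] at hl
  have hsum : (c4u L (m + h) - c4u L m) + (c4u L (m - h) - c4u L m) ≤
      1 / 4 * ((-((L (m - h) - L m) * (L (m + h) - L m)) / (L m) ^ 2) /
        (1 - (-((L (m - h) - L m) * (L (m + h) - L m)) / (L m) ^ 2))) - 1 / 4 * ‖h‖ ^ 2 := by
    simp only [c4u]
    linarith
  have x1 := c4_exp _ hxp
  have x2 := c4_exp _ hxm
  have hY : Real.exp (c4u L (m + h)) + Real.exp (c4u L (m - h)) - 2 * Real.exp (c4u L m) ≤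
      Real.exp (c4u L m) *
      (1 / 4 * ((-((L (m - h) - L m) * (L (m + h) - L m)) / (L m) ^ 2) /
        (1 - (-((L (m - h) - L m) * (L (m + h) - L m)) / (L m) ^ 2))) - 1 / 4 * ‖h‖ ^ 2 +
        ((c4u L (m + h) - c4u L m) ^ 2 + (c4u L (m - h) - c4u L m) ^ 2) / 2 +
        2 / 9 * (|c4u L (m + h) - c4u L m| ^ 3 + |c4u L (m - h) - c4u L m| ^ 3)) := by
    have y1 : Real.exp (c4u L (m + h)) =
        Real.exp (c4u L m) * Real.exp (c4u L (m + h) - c4u L m) := by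
      rw [← Real.exp_add]; congr 1; ring
    have y2 : Real.exp (c4u L (m - h)) =
        Real.exp (c4u L m) * Real.exp (c4u L (m - h) - c4u L m) := by
      rw [← Real.exp_add]; congr 1; ring
    have y3 : Real.exp (c4u L (m + h)) + Real.exp (c4u L (m - h)) - 2 * Real.exp (c4u L m) =
        Real.exp (c4u L m) * (Real.exp (c4u L (m + h) - c4u L m) +
          Real.exp (c4u L (m - h) - c4u L m) - 2) := by
      rw [y1, y2]; ring
    rw [y3]
    apply mul_le_mul_of_nonneg_left _ (Real.exp_pos _).le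
    linarith
  have hY2 := mul_le_mul_of_nonneg_left hY
    (show (0 : ℝ) ≤ 2 * max (Real.exp (c4u L m) - κ) 0 by positivity)
  linarith

theorem c4_collar (κ α A : ℝ) (hα : 2 ≤ α) (hA : 0 ≤ A) (L : E → ℝ)
    (hLc : ConvexOn ℝ (Metric.ball 0 1) L) (e₀ : E)
    (hL0 : L 0 = α) (hL : HasStrictFDerivAt L (innerSL ℝ e₀) 0) (ε : ℝ) (hε : 0 < ε) :
    ∀ᶠ p : E × E in 𝓝 0,
      A * (colG κ (L (p.1 + p.2) / Real.sqrt (1 - ‖p.1 + p.2‖ ^ 2)) +
        colG κ (L (p.1 - p.2) / Real.sqrt (1 - ‖p.1 - p.2‖ ^ 2)) -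
        2 * colG κ (L p.1 / Real.sqrt (1 - ‖p.1‖ ^ 2))) ≤
      (1 / 2 * A * (max (α ^ (-(1 / 4) : ℝ) - κ) 0 * α ^ (-(1 / 4) : ℝ))) *
          (5 / 4 * ((inner ℝ e₀ p.2) ^ 2 / α ^ 2) - ‖p.2‖ ^ 2) +
        1 / 8 * A * (α ^ (-(1 / 4) : ℝ)) ^ 2 * ((inner ℝ e₀ p.2) ^ 2 / α ^ 2) + ε * ‖p.2‖ ^ 2 := by
  have hα0 : (0 : ℝ) < α := by linarith
  set y : ℝ := α ^ (-(1 / 4) : ℝ) with hy
  -- the functions
  set a : E × E → ℝ := fun p => inner ℝ e₀ p.2 with ha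
  set N : E × E → ℝ := fun p => ‖p.2‖ with hN
  have haN : a =O[𝓝 0] N := by
    refine IsBigO.of_bound ‖e₀‖ (Eventually.of_forall fun p => ?_)
    simp only [ha, hN, Real.norm_eq_abs, abs_norm]
    exact abs_real_inner_le_norm e₀ p.2
  have haN2 : (fun p => a p ^ 2) =O[𝓝 0] fun p => N p ^ 2 := haN.pow 2
  have hNto : Tendsto N (𝓝 0) (𝓝 0) := by
    have hc : Continuous N := by rw [hN]; fun_prop
    have := hc.tendsto 0
    simpa [hN] using this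
  have hato : Tendsto a (𝓝 0) (𝓝 0) := haN.trans_tendsto hNto
  have hLcont : ContinuousAt L 0 := hL.hasFDerivAt.continuousAt
  have t1 : Tendsto (fun p : E × E => p.1) (𝓝 0) (𝓝 0) := by
    have := (continuous_fst (X := E) (Y := E)).tendsto 0
    simpa using this
  have tp : Tendsto (fun p : E × E => p.1 + p.2) (𝓝 0) (𝓝 0) := by
    have hc : Continuous (fun p : E × E => p.1 + p.2) := by fun_prop
    have := hc.tendsto 0
    simpa using this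
  have tm : Tendsto (fun p : E × E => p.1 - p.2) (𝓝 0) (𝓝 0) := by
    have hc : Continuous (fun p : E × E => p.1 - p.2) := by fun_prop
    have := hc.tendsto 0
    simpa using this
  have hL1 : Tendsto (fun p : E × E => L p.1) (𝓝 0) (𝓝 α) := by
    have := hLcont.tendsto.comp t1
    rwa [hL0] at this
  have hLp : Tendsto (fun p : E × E => L (p.1 + p.2)) (𝓝 0) (𝓝 α) := by
    have := hLcont.tendsto.comp tp
    rwa [hL0] at this
  have hLm : Tendsto (fun p : E × E => L (p.1 - p.2)) (𝓝 0) (𝓝 α) := by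
    have := hLcont.tendsto.comp tm
    rwa [hL0] at this
  -- differences of L
  have hdp : (fun p : E × E => (L (p.1 + p.2) - L p.1) - a p) =o[𝓝 0] N := by
    have := c4_plus hL
    simpa [ha, hN] using this
  have hdm : (fun p : E × E => (L (p.1 - p.2) - L p.1) - (-a p)) =o[𝓝 0] N := by
    have := c4_minus hL
    refine this.congr_left (fun p => ?_)
    simp [ha]
  have hdpO : (fun p : E × E => L (p.1 + p.2) - L p.1) =O[𝓝 0] N := by
    refine (hdp.isBigO.add haN).congr_left (fun p => by ring)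
  have hdd : (fun p : E × E => (L (p.1 - p.2) - L p.1) * (L (p.1 + p.2) - L p.1) + a p ^ 2)
      =o[𝓝 0] fun p => N p ^ 2 := by
    have e1 := hdm.mul_isBigO hdpO
    have e2 := (haN.mul_isLittleO hdp)
    have e3 := e1.sub e2
    refine e3.congr (fun p => by ring) (fun p => by ring)
  -- w
  set w : E × E → ℝ := fun p =>
    -((L (p.1 - p.2) - L p.1) * (L (p.1 + p.2) - L p.1)) / (L p.1) ^ 2 with hwdef
  have hL2 : Tendsto (fun p : E × E => ((L p.1) ^ 2)⁻¹) (𝓝 0) (𝓝 ((α ^ 2)⁻¹)) :=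
    (hL1.pow 2).inv₀ (by positivity)
  have hL2O : (fun p : E × E => ((L p.1) ^ 2)⁻¹) =O[𝓝 0] fun _ => (1 : ℝ) :=
    hL2.isBigO_one ℝ
  have hL2o : (fun p : E × E => ((L p.1) ^ 2)⁻¹ - (α ^ 2)⁻¹) =o[𝓝 0] fun _ => (1 : ℝ) := by
    rw [isLittleO_one_iff]
    have := hL2.sub_const ((α ^ 2)⁻¹)
    simpa using this
  have hw1 : (fun p => w p - a p ^ 2 / α ^ 2) =o[𝓝 0] fun p => N p ^ 2 := by
    have e1 := (hdd.mul_isBigO hL2O).neg_left
    have e2 := haN2.mul_isLittleO hL2o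
    have e3 := e1.add e2
    refine e3.congr (fun p => ?_) (fun p => by ring)
    simp only [hwdef, div_eq_mul_inv]
    ring
  have haα : (fun p => a p ^ 2 / α ^ 2) =O[𝓝 0] fun p => N p ^ 2 := by
    have := haN2.const_mul_left ((α ^ 2)⁻¹)
    refine this.congr_left (fun p => by rw [div_eq_mul_inv]; ring)
  have hwO : w =O[𝓝 0] fun p => N p ^ 2 := by
    refine (hw1.isBigO.add haα).congr_left (fun p => by ring)
  have hN2to : Tendsto (fun p => N p ^ 2) (𝓝 0) (𝓝 0) := by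
    have := hNto.pow 2
    simpa using this
  have hwto : Tendsto w (𝓝 0) (𝓝 0) := hwO.trans_tendsto hN2to
  have hw1to : Tendsto (fun p => 1 - w p) (𝓝 0) (𝓝 1) := by
    have := hwto.const_sub 1
    simpa using this
  have hvw : Tendsto (fun p => w p / (1 - w p)) (𝓝 0) (𝓝 0) := by
    have h0 : Tendsto (fun p => w p / (1 - w p)) (𝓝 0) (𝓝 (0 / 1)) :=
      hwto.div hw1to one_ne_zero
    simpa using h0
  have hev : ∀ᶠ p in 𝓝 0, 1 - w p ≠ 0 := hw1to.eventually_ne one_ne_zero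
  have hv : (fun p => w p / (1 - w p) - a p ^ 2 / α ^ 2) =o[𝓝 0] fun p => N p ^ 2 := by
    have e1 := hwO.mul_isLittleO ((isLittleO_one_iff ℝ).mpr hvw)
    have e2 := (e1.congr_right (fun p => mul_one (N p ^ 2))).add hw1
    refine e2.congr' ?_ EventuallyEq.rfl
    filter_upwards [hev] with p hp
    field_simp
    ring
  -- the exponent
  have hu := c4u_strict hα hL0 hL
  have hbO : (fun p => -(1 / (4 * α)) * a p) =O[𝓝 0] N := haN.const_mul_left _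
  have hxp : (fun p : E × E => (c4u L (p.1 + p.2) - c4u L p.1) - (-(1 / (4 * α)) * a p))
      =o[𝓝 0] N := by
    have := c4_plus hu
    refine this.congr_left (fun p => ?_)
    simp [ha]
  have hxm : (fun p : E × E => (c4u L (p.1 - p.2) - c4u L p.1) - (1 / (4 * α) * a p))
      =o[𝓝 0] N := by
    have := c4_minus hu
    refine this.congr_left (fun p => ?_)
    simp [ha]
    ring
  have hbO' : (fun p => (1 / (4 * α)) * a p) =O[𝓝 0] N := haN.const_mul_left _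
  have hxp2 := c4_sq hxp hbO
  have hxm2 := c4_sq hxm hbO'
  have hxpO : (fun p : E × E => c4u L (p.1 + p.2) - c4u L p.1) =O[𝓝 0] N :=
    (hxp.isBigO.add hbO).congr_left (fun p => by ring)
  have hxmO : (fun p : E × E => c4u L (p.1 - p.2) - c4u L p.1) =O[𝓝 0] N :=
    (hxm.isBigO.add hbO').congr_left (fun p => by ring)
  have hxpto := hxpO.trans_tendsto hNto
  have hxmto := hxmO.trans_tendsto hNto
  have hcube : ∀ f : E × E → ℝ, f =O[𝓝 0] N →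
      (fun p => |f p| ^ 3) =o[𝓝 0] fun p => N p ^ 2 := by
    intro f hf
    have h1 : Tendsto (fun p => |f p|) (𝓝 0) (𝓝 0) := by
      have := (hf.trans_tendsto hNto).abs
      simpa using this
    have h2 : (fun p => |f p|) =O[𝓝 0] N := hf.norm_left
    have h3 := (h2.pow 2).mul_isLittleO ((isLittleO_one_iff ℝ).mpr h1)
    refine h3.congr (fun p => by ring) (fun p => by ring)
  have hcp := hcube _ hxpO
  have hcm := hcube _ hxmO
  -- the bracket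
  set br : E × E → ℝ := fun p =>
    1 / 4 * (w p / (1 - w p)) - 1 / 4 * ‖p.2‖ ^ 2 +
      ((c4u L (p.1 + p.2) - c4u L p.1) ^ 2 + (c4u L (p.1 - p.2) - c4u L p.1) ^ 2) / 2 +
      2 / 9 * (|c4u L (p.1 + p.2) - c4u L p.1| ^ 3 + |c4u L (p.1 - p.2) - c4u L p.1| ^ 3)
    with hbr
  have hbr1 : (fun p => br p - (5 / 16 * (a p ^ 2 / α ^ 2) - 1 / 4 * N p ^ 2)) =o[𝓝 0]
      fun p => N p ^ 2 := by
    have e1 := hv.const_mul_left (1 / 4 : ℝ)
    have e2 := (hxp2.add hxm2).const_mul_left (1 / 2 : ℝ)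
    have e3 := (hcp.add hcm).const_mul_left (2 / 9 : ℝ)
    refine ((e1.add e2).add e3).congr_left (fun p => ?_)
    simp only [hbr, hN]
    field_simp
    ring
  have hbr0 : (fun p => 5 / 16 * (a p ^ 2 / α ^ 2) - 1 / 4 * N p ^ 2) =O[𝓝 0]
      fun p => N p ^ 2 :=
    (haα.const_mul_left _).sub ((isBigO_refl _ _).const_mul_left _)
  have hbrO : br =O[𝓝 0] fun p => N p ^ 2 :=
    (hbr1.isBigO.add hbr0).congr_left (fun p => by ring)
  -- the exponentials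
  have hexp := hu.exp
  have hu0 : Real.exp (c4u L 0) = y := by
    have := c4_Y α 0 hα0 one_pos
    simp only [sub_zero, Real.sqrt_one, div_one] at this
    rw [hy, this]
    simp [c4u, hL0]
  have hcO : (fun p => -(y / (4 * α)) * a p) =O[𝓝 0] N := haN.const_mul_left _
  have hcO' : (fun p => (y / (4 * α)) * a p) =O[𝓝 0] N := haN.const_mul_left _
  have hYp : (fun p : E × E => (Real.exp (c4u L (p.1 + p.2)) - Real.exp (c4u L p.1)) -
      (-(y / (4 * α)) * a p)) =o[𝓝 0] N := by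
    have := c4_plus hexp
    refine this.congr_left (fun p => ?_)
    rw [hu0]
    simp [ha]
    ring
  have hYm : (fun p : E × E => (Real.exp (c4u L (p.1 - p.2)) - Real.exp (c4u L p.1)) -
      ((y / (4 * α)) * a p)) =o[𝓝 0] N := by
    have := c4_minus hexp
    refine this.congr_left (fun p => ?_)
    rw [hu0]
    simp [ha]
    ring
  have hYp2 := c4_sq hYp hcO
  have hYm2 := c4_sq hYm hcO'
  have hYto : Tendsto (fun p : E × E => Real.exp (c4u L p.1)) (𝓝 0) (𝓝 y) := by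
    have h1 : ContinuousAt (fun ζ => Real.exp (c4u L ζ)) 0 := hexp.hasFDerivAt.continuousAt
    have h2 := h1.tendsto.comp t1
    rw [hu0] at h2
    exact h2
  have hcto : (fun p : E × E => max (Real.exp (c4u L p.1) - κ) 0 * Real.exp (c4u L p.1) -
      max (y - κ) 0 * y) =o[𝓝 0] fun _ => (1 : ℝ) := by
    rw [isLittleO_one_iff]
    have h1 := (((hYto.sub_const κ).max (tendsto_const_nhds (x := (0 : ℝ)))).mul hYto).sub_const
      (max (y - κ) 0 * y)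
    simpa using h1
  -- total
  have htot : (fun p : E × E => A * (2 * max (Real.exp (c4u L p.1) - κ) 0 *
      (Real.exp (c4u L p.1) * br p) +
      ((Real.exp (c4u L (p.1 + p.2)) - Real.exp (c4u L p.1)) ^ 2 +
        (Real.exp (c4u L (p.1 - p.2)) - Real.exp (c4u L p.1)) ^ 2)) -
      ((1 / 2 * A * (max (y - κ) 0 * y)) * (5 / 4 * (a p ^ 2 / α ^ 2) - N p ^ 2) +
        1 / 8 * A * y ^ 2 * (a p ^ 2 / α ^ 2))) =o[𝓝 0] fun p => N p ^ 2 := by
    have e1 := (hbrO.mul_isLittleO hcto).const_mul_left (2 * A)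
    have e1' := e1.congr_right (fun p => mul_one (N p ^ 2))
    have e2 := hbr1.const_mul_left (2 * A * (max (y - κ) 0 * y))
    have e3 := (hYp2.add hYm2).const_mul_left A
    refine ((e1'.add e2).add e3).congr_left (fun p => ?_)
    field_simp
    ring
  -- conclusion
  have hfin := htot.def hε
  have q1 : ∀ᶠ p : E × E in 𝓝 0, p.1 + p.2 ∈ Metric.ball (0 : E) 1 :=
    tp.eventually (Metric.ball_mem_nhds 0 one_pos)
  have q2 : ∀ᶠ p : E × E in 𝓝 0, p.1 - p.2 ∈ Metric.ball (0 : E) 1 :=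
    tm.eventually (Metric.ball_mem_nhds 0 one_pos)
  have q3 : ∀ᶠ p : E × E in 𝓝 0, 0 < L p.1 := hL1.eventually (lt_mem_nhds hα0)
  have q4 : ∀ᶠ p : E × E in 𝓝 0, 0 < L (p.1 + p.2) := hLp.eventually (lt_mem_nhds hα0)
  have q5 : ∀ᶠ p : E × E in 𝓝 0, 0 < L (p.1 - p.2) := hLm.eventually (lt_mem_nhds hα0)
  have q6 : ∀ᶠ p in 𝓝 0, w p < 1 := hwto.eventually (gt_mem_nhds one_pos)
  have q7 : ∀ᶠ p : E × E in 𝓝 0, |c4u L (p.1 + p.2) - c4u L p.1| < 1 := by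
    have := hxpto.abs
    rw [abs_zero] at this
    exact this.eventually (gt_mem_nhds one_pos)
  have q8 : ∀ᶠ p : E × E in 𝓝 0, |c4u L (p.1 - p.2) - c4u L p.1| < 1 := by
    have := hxmto.abs
    rw [abs_zero] at this
    exact this.eventually (gt_mem_nhds one_pos)
  filter_upwards [hfin, q1, q2, q3, q4, q5, q6, q7, q8] with p h1 h2 h3 h4 h5 h6 h7 h8 h9
  have hconv : 2 * L p.1 ≤ L (p.1 + p.2) + L (p.1 - p.2) := by
    have := hLc.2 h2 h3 (show (0 : ℝ) ≤ 1 / 2 by norm_num) (show (0 : ℝ) ≤ 1 / 2 by norm_num)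
      (by norm_num)
    have e : (1 / 2 : ℝ) • (p.1 + p.2) + (1 / 2 : ℝ) • (p.1 - p.2) = p.1 := by
      rw [← smul_add]
      have : p.1 + p.2 + (p.1 - p.2) = (2 : ℝ) • p.1 := by
        rw [two_smul]; abel
      rw [this, smul_smul]
      norm_num
    rw [e] at this
    simp only [smul_eq_mul] at this
    linarith
  have h2' : ‖p.1 + p.2‖ < 1 := by simpa using h2
  have h3' : ‖p.1 - p.2‖ < 1 := by simpa using h3
  have hmain := c4_main_ineq L κ p.1 p.2 h2' h3' h4 h5 h6 hconv h7 h8.le h9.le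
  have hmainA := mul_le_mul_of_nonneg_left hmain hA
  have hb := (abs_le.mp (by simpa only [Real.norm_eq_abs, abs_pow, hN, abs_norm] using h1)).2
  refine hmainA.trans ?_
  have hb3 : A * (2 * max (Real.exp (c4u L p.1) - κ) 0 * (Real.exp (c4u L p.1) * br p) +
      ((Real.exp (c4u L (p.1 + p.2)) - Real.exp (c4u L p.1)) ^ 2 +
        (Real.exp (c4u L (p.1 - p.2)) - Real.exp (c4u L p.1)) ^ 2)) ≤
      (1 / 2 * A * (max (y - κ) 0 * y)) * (5 / 4 * (a p ^ 2 / α ^ 2) - ‖p.2‖ ^ 2) +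
        1 / 8 * A * y ^ 2 * (a p ^ 2 / α ^ 2) + ε * ‖p.2‖ ^ 2 := by
    linarith [hb]
  exact hb3

end general

theorem c4_bounds (s : ℝ) (hs : 0 < s) (k : ℕ) (hsk : s + 1 < k) (κ : ℝ) (hκ : 0 < κ)
    (hκs : κ * (8 * (s + 1)) ≤ s * (k - 1 - s)) (α : ℝ) (hα : 2 ≤ α) (hk : 2 ≤ k) (y : ℝ)
    (hy0 : 0 < y) (hy1 : y ≤ 1) :
    ((1 / 2 * (8 * (s + 1)) * (max (y - κ) 0 * y)) * (5 / 4) + 1 / 8 * (8 * (s + 1)) * y ^ 2) *
      ((1 + α ^ 2) / α ^ 2) ≤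
      k * (1 / 2 * (8 * (s + 1)) * (max (y - κ) 0 * y)) + 5 / 32 * (s * (k - 1 - s)) := by
  have hk' : (2 : ℝ) ≤ k := by exact_mod_cast hk
  set lam := 1 / 2 * (8 * (s + 1)) * (max (y - κ) 0 * y) with hlam
  have hlam0 : 0 ≤ lam := by positivity
  have h1 : (1 + α ^ 2) / α ^ 2 ≤ 5 / 4 := by
    rw [div_le_iff₀ (by positivity)]
    nlinarith
  have h2 : 1 / 8 * (8 * (s + 1)) * y ^ 2 ≤ 1 / 4 * lam + 1 / 8 * (s * (k - 1 - s)) := by
    have e1 : y ^ 2 ≤ max (y - κ) 0 * y + κ * y := by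
      have := le_max_left (y - κ) 0
      nlinarith
    have e2 : 1 / 8 * (8 * (s + 1)) * y ^ 2 ≤
        1 / 8 * (8 * (s + 1)) * (max (y - κ) 0 * y + κ * y) :=
      mul_le_mul_of_nonneg_left e1 (by positivity)
    have e3 : κ * (8 * (s + 1)) * y ≤ s * (k - 1 - s) := by
      have : κ * (8 * (s + 1)) * y ≤ κ * (8 * (s + 1)) * 1 :=
        mul_le_mul_of_nonneg_left hy1 (by positivity)
      linarith
    rw [hlam]
    linarith
  have hD : 0 ≤ s * ((k : ℝ) - 1 - s) := mul_nonneg hs.le (by linarith)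
  have h3 : 0 ≤ lam * (5 / 4) + 1 / 8 * (8 * (s + 1)) * y ^ 2 := by positivity
  calc (lam * (5 / 4) + 1 / 8 * (8 * (s + 1)) * y ^ 2) * ((1 + α ^ 2) / α ^ 2)
      ≤ (lam * (5 / 4) + 1 / 8 * (8 * (s + 1)) * y ^ 2) * (5 / 4) :=
        mul_le_mul_of_nonneg_left h1 h3
    _ ≤ (lam * (5 / 4) + (1 / 4 * lam + 1 / 8 * (s * (k - 1 - s)))) * (5 / 4) := by
        apply mul_le_mul_of_nonneg_right _ (by norm_num)
        linarith
    _ ≤ k * lam + 5 / 32 * (s * (k - 1 - s)) := by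
        have e4 : 2 * lam ≤ k * lam := mul_le_mul_of_nonneg_right hk' hlam0
        linarith only [e4, hD, hlam0]

theorem typeI_euclid {E : Type*} [NormedAddCommGroup E] [InnerProductSpace ℝ E]
    [FiniteDimensional ℝ E] {ι : Type*} (k : ℕ) (hk : 2 ≤ k) (s : ℝ) (hs : 0 < s)
    (hsk : s + 1 < k) (κ : ℝ) (hκ : 0 < κ) (hκ4 : κ ≤ 1 / 4)
    (hκs : κ * (8 * (s + 1)) ≤ s * (k - 1 - s)) (α : ℝ) (hα : 2 ≤ α)
    (ω : ι → ℝ) (β : ι → E) (hω : ∀ i, 0 ≤ ω i) (hω1 : HasSum ω 1) (hβ : ∀ i, ‖β i‖ ≤ 1)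
    (f L : E → ℝ)
    (hf : ∀ ε > (0 : ℝ), ∃ r > (0 : ℝ), ∀ m h : E, ‖m‖ ≤ r → ‖h‖ ≤ r →
      s * ‖h‖ ^ 2 - s * (s + 1) * (1 + ε) * ∑' i, ω i * (inner ℝ (β i) h) ^ 2
        ≤ f (m + h) + f (m - h) - 2 * f m)
    (hLc : ConvexOn ℝ (Metric.ball 0 1) L) (e₀ : E) (he₀ : ‖e₀‖ ^ 2 = 1 + α ^ 2)
    (hL0 : L 0 = α) (hL : HasStrictFDerivAt L (innerSL ℝ e₀) 0) :
    ∃ W : Submodule ℝ E, Module.finrank ℝ Wᗮ + 1 ≤ k ∧
      ∃ r > (0 : ℝ), ∃ c > (0 : ℝ), ∀ m h : E, ‖m‖ ≤ r → ‖h‖ ≤ r → h ∈ W →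
        c * ‖h‖ ^ 2 ≤
          (f (m + h) - 8 * (s + 1) * colG κ (L (m + h) / Real.sqrt (1 - ‖m + h‖ ^ 2))) +
          (f (m - h) - 8 * (s + 1) * colG κ (L (m - h) / Real.sqrt (1 - ‖m - h‖ ^ 2))) -
          2 * (f m - 8 * (s + 1) * colG κ (L m / Real.sqrt (1 - ‖m‖ ^ 2))) := by
  have hk' : (2 : ℝ) ≤ k := by exact_mod_cast hk
  have hk0 : (0 : ℝ) < k := by linarith
  have hα0 : (0 : ℝ) < α := by linarith
  have hD : 0 < s * ((k : ℝ) - 1 - s) := mul_pos hs (by linarith)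
  set D : ℝ := s * ((k : ℝ) - 1 - s) with hDdef
  set y : ℝ := α ^ (-(1 / 4) : ℝ) with hy
  have hy0 : 0 < y := Real.rpow_pos_of_pos hα0 _
  have hy1 : y ≤ 1 := Real.rpow_le_one_of_one_le_of_nonpos (by linarith) (by norm_num)
  set lam : ℝ := 1 / 2 * (8 * (s + 1)) * (max (y - κ) 0 * y) with hlam
  have hlam0 : 0 ≤ lam := by positivity
  set mu : ℝ := lam * (5 / 4) + 1 / 8 * (8 * (s + 1)) * y ^ 2 with hmu
  have hmu0 : 0 ≤ mu := by positivity
  set ε₂ : ℝ := D / (4 * (s * (s + 1))) with hε₂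
  have hε₂0 : 0 < ε₂ := by positivity
  have hε₂s : s * (s + 1) * ε₂ = D / 4 := by
    rw [hε₂]; field_simp
  set ε₁ : ℝ := D / (4 * k) with hε₁
  have hε₁0 : 0 < ε₁ := by positivity
  -- weights
  set av : ι ⊕ Unit → ℝ := Sum.elim (fun i => s * (s + 1) * (1 + ε₂) * ω i) (fun _ => mu / α ^ 2)
    with hav
  set vv : ι ⊕ Unit → E := Sum.elim β (fun _ => e₀) with hvv
  have hc0 : 0 ≤ s * (s + 1) * (1 + ε₂) := by positivity
  have hav0 : ∀ i, 0 ≤ av i := by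
    rintro (i | i)
    · simp only [hav, Sum.elim_inl]; exact mul_nonneg hc0 (hω i)
    · simp only [hav, Sum.elim_inr]; positivity
  have hsβ : Summable fun i => ω i * ‖β i‖ ^ 2 := by
    refine Summable.of_nonneg_of_le (fun i => mul_nonneg (hω i) (sq_nonneg _)) (fun i => ?_)
      hω1.summable
    exact mul_le_of_le_one_right (hω i) (pow_le_one₀ (norm_nonneg _) (hβ i))
  have hsβ1 : ∑' i, ω i * ‖β i‖ ^ 2 ≤ 1 := by
    rw [← hω1.tsum_eq]
    refine hsβ.tsum_le_tsum (fun i => ?_) hω1.summable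
    exact mul_le_of_le_one_right (hω i) (pow_le_one₀ (norm_nonneg _) (hβ i))
  have hsβh : ∀ h : E, Summable fun i => ω i * (inner ℝ (β i) h) ^ 2 := by
    intro h
    refine Summable.of_nonneg_of_le (fun i => mul_nonneg (hω i) (sq_nonneg _)) (fun i => ?_)
      (hω1.summable.mul_right (‖h‖ ^ 2))
    have h1 : |inner ℝ (β i) h| ≤ ‖h‖ := by
      refine (abs_real_inner_le_norm _ _).trans ?_
      exact mul_le_of_le_one_left (norm_nonneg h) (hβ i)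
    have h2 : (inner ℝ (β i) h) ^ 2 ≤ ‖h‖ ^ 2 := by
      rw [← sq_abs]; exact pow_le_pow_left₀ (abs_nonneg _) h1 2
    exact mul_le_mul_of_nonneg_left h2 (hω i)
  have hS1 : HasSum (fun i => av i * ‖vv i‖ ^ 2)
      (s * (s + 1) * (1 + ε₂) * (∑' i, ω i * ‖β i‖ ^ 2) + mu / α ^ 2 * ‖e₀‖ ^ 2) := by
    apply HasSum.sum
    · have := hsβ.hasSum.mul_left (s * (s + 1) * (1 + ε₂))
      refine this.congr_fun ?_
      intro i
      simp [hav, hvv, mul_assoc]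
    · have := hasSum_unique (fun _ : Unit => mu / α ^ 2 * ‖e₀‖ ^ 2)
      exact this
  have hS2 : ∀ h : E, HasSum (fun i => av i * (inner ℝ (vv i) h) ^ 2)
      (s * (s + 1) * (1 + ε₂) * (∑' i, ω i * (inner ℝ (β i) h) ^ 2) +
        mu / α ^ 2 * (inner ℝ e₀ h) ^ 2) := by
    intro h
    apply HasSum.sum
    · have := (hsβh h).hasSum.mul_left (s * (s + 1) * (1 + ε₂))
      refine this.congr_fun ?_
      intro i
      simp [hav, hvv, mul_assoc]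
    · have := hasSum_unique (fun _ : Unit => mu / α ^ 2 * (inner ℝ e₀ h) ^ 2)
      exact this
  obtain ⟨W, hW1, hW2⟩ := exists_W av vv hav0 hS1.summable k (by omega)
  refine ⟨W, hW1, ?_⟩
  obtain ⟨r₁, hr₁, hf₁⟩ := hf ε₂ hε₂0
  have hcol := c4_collar κ α (8 * (s + 1)) hα (by positivity) L hLc e₀ hL0 hL ε₁ hε₁0
  obtain ⟨r₂, hr₂, hcol₂⟩ := Metric.eventually_nhds_iff.mp hcol
  refine ⟨min r₁ (r₂ / 2), lt_min hr₁ (by linarith), D / (4 * k), by positivity, ?_⟩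
  intro m h hm hh hhW
  have hm1 : ‖m‖ ≤ r₁ := hm.trans (min_le_left _ _)
  have hh1 : ‖h‖ ≤ r₁ := hh.trans (min_le_left _ _)
  have hm2 : ‖m‖ ≤ r₂ / 2 := hm.trans (min_le_right _ _)
  have hh2 : ‖h‖ ≤ r₂ / 2 := hh.trans (min_le_right _ _)
  have hdist : dist ((m, h) : E × E) 0 < r₂ := by
    rw [dist_zero_right, Prod.norm_def]
    exact max_lt (lt_of_le_of_lt hm2 (by linarith only [hr₂]))
      (lt_of_le_of_lt hh2 (by linarith only [hr₂]))
  have hC := hcol₂ hdist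
  simp only at hC
  have hF := hf₁ m h hm1 hh1
  have hQ := hW2 h hhW
  rw [(hS2 h).tsum_eq, hS1.tsum_eq, he₀] at hQ
  have hb := c4_bounds s hs k hsk κ hκ hκs α hα hk y hy0 hy1
  rw [← hlam, ← hmu, ← hDdef] at hb
  have hT : s * (s + 1) * (1 + ε₂) * (∑' i, ω i * ‖β i‖ ^ 2) + mu / α ^ 2 * (1 + α ^ 2) ≤
      k * (s + lam) - 19 / 32 * D := by
    have h1 : s * (s + 1) * (1 + ε₂) * (∑' i, ω i * ‖β i‖ ^ 2) ≤ s * (s + 1) * (1 + ε₂) * 1 :=
      mul_le_mul_of_nonneg_left hsβ1 hc0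
    have h2 : mu / α ^ 2 * (1 + α ^ 2) = mu * ((1 + α ^ 2) / α ^ 2) := by ring
    have h3 : s * (s + 1) * (1 + ε₂) * 1 = s * (s + 1) + D / 4 := by
      rw [← hε₂s]; ring
    have h4 : (k : ℝ) * s = s * (s + 1) + D := by
      rw [hDdef]; ring
    have h5 : (k : ℝ) * (s + lam) = k * s + k * lam := by ring
    rw [h2, h5]
    linarith only [h1, h3, h4, hb]
  have hTk : (s * (s + 1) * (1 + ε₂) * (∑' i, ω i * ‖β i‖ ^ 2) + mu / α ^ 2 * (1 + α ^ 2)) / k ≤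
      s + lam - 19 / 32 * (D / k) := by
    rw [div_le_iff₀ hk0]
    have : (s + lam - 19 / 32 * (D / k)) * k = k * (s + lam) - 19 / 32 * D := by
      field_simp
    rw [this]
    exact hT
  have hQ2 := hQ.trans (mul_le_mul_of_nonneg_right hTk (sq_nonneg ‖h‖))
  have hmuq : mu / α ^ 2 * (inner ℝ e₀ h) ^ 2 =
      lam * (5 / 4 * ((inner ℝ e₀ h) ^ 2 / α ^ 2)) +
        1 / 8 * (8 * (s + 1)) * y ^ 2 * ((inner ℝ e₀ h) ^ 2 / α ^ 2) := by
    rw [hmu]; ring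
  have hε₁D : ε₁ = 1 / 4 * (D / k) := by rw [hε₁]; field_simp
  have hgoal : D / (4 * k) = 1 / 4 * (D / k) := by field_simp
  rw [hgoal]
  have hDk : 0 ≤ D / k := by positivity
  rw [hmuq] at hQ2
  rw [hε₁D, ← hy, ← hlam] at hC
  have hpos := mul_nonneg hDk (sq_nonneg ‖h‖)
  clear_value lam mu D y ε₁ ε₂ av vv
  clear hf hcol hcol₂ hf₁ hW2 hS2 hS1
  linarith

theorem typeI_euclid' {E : Type*} [NormedAddCommGroup E] [InnerProductSpace ℝ E]
    [FiniteDimensional ℝ E] {ι : Type*} (k : ℕ) (hk : 2 ≤ k) (s : ℝ) (hs : 0 < s)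
    (hsk : s + 1 < k) (ω : ι → ℝ) (β : ι → E) (hω : ∀ i, 0 ≤ ω i) (hω1 : HasSum ω 1)
    (hβ : ∀ i, ‖β i‖ ≤ 1) (f : E → ℝ)
    (hf : ∀ ε > (0 : ℝ), ∃ r > (0 : ℝ), ∀ m h : E, ‖m‖ ≤ r → ‖h‖ ≤ r →
      s * ‖h‖ ^ 2 - s * (s + 1) * (1 + ε) * ∑' i, ω i * (inner ℝ (β i) h) ^ 2
        ≤ f (m + h) + f (m - h) - 2 * f m) :
    ∃ W : Submodule ℝ E, Module.finrank ℝ Wᗮ + 1 ≤ k ∧
      ∃ r > (0 : ℝ), ∃ c > (0 : ℝ), ∀ m h : E, ‖m‖ ≤ r → ‖h‖ ≤ r → h ∈ W →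
        c * ‖h‖ ^ 2 ≤ f (m + h) + f (m - h) - 2 * f m := by
  have hk' : (2 : ℝ) ≤ k := by exact_mod_cast hk
  have hk0 : (0 : ℝ) < k := by linarith
  have hD : 0 < s * ((k : ℝ) - 1 - s) := mul_pos hs (by linarith)
  set D : ℝ := s * ((k : ℝ) - 1 - s) with hDdef
  set ε₂ : ℝ := D / (4 * (s * (s + 1))) with hε₂
  have hε₂0 : 0 < ε₂ := by positivity
  have hε₂s : s * (s + 1) * ε₂ = D / 4 := by
    rw [hε₂]; field_simp
  have hc0 : 0 ≤ s * (s + 1) * (1 + ε₂) := by positivity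
  have hsβ : Summable fun i => ω i * ‖β i‖ ^ 2 := by
    refine Summable.of_nonneg_of_le (fun i => mul_nonneg (hω i) (sq_nonneg _)) (fun i => ?_)
      hω1.summable
    exact mul_le_of_le_one_right (hω i) (pow_le_one₀ (norm_nonneg _) (hβ i))
  have hsβ1 : ∑' i, ω i * ‖β i‖ ^ 2 ≤ 1 := by
    rw [← hω1.tsum_eq]
    refine hsβ.tsum_le_tsum (fun i => ?_) hω1.summable
    exact mul_le_of_le_one_right (hω i) (pow_le_one₀ (norm_nonneg _) (hβ i))
  obtain ⟨W, hW1, hW2⟩ := exists_W (fun i => s * (s + 1) * (1 + ε₂) * ω i) β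
    (fun i => mul_nonneg hc0 (hω i))
    ((hsβ.mul_left (s * (s + 1) * (1 + ε₂))).congr (fun i => by ring)) k (by omega)
  refine ⟨W, hW1, ?_⟩
  obtain ⟨r₁, hr₁, hf₁⟩ := hf ε₂ hε₂0
  refine ⟨r₁, hr₁, D / (2 * k), by positivity, ?_⟩
  intro m h hm hh hhW
  have hF := hf₁ m h hm hh
  have hQ := hW2 h hhW
  have e1 : ∑' i, s * (s + 1) * (1 + ε₂) * ω i * (inner ℝ (β i) h) ^ 2 =
      s * (s + 1) * (1 + ε₂) * ∑' i, ω i * (inner ℝ (β i) h) ^ 2 := by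
    rw [← tsum_mul_left]
    exact tsum_congr (fun i => by ring)
  have e2 : ∑' i, s * (s + 1) * (1 + ε₂) * ω i * ‖β i‖ ^ 2 =
      s * (s + 1) * (1 + ε₂) * ∑' i, ω i * ‖β i‖ ^ 2 := by
    rw [← tsum_mul_left]
    exact tsum_congr (fun i => by ring)
  rw [e1, e2] at hQ
  have hT : s * (s + 1) * (1 + ε₂) * (∑' i, ω i * ‖β i‖ ^ 2) ≤ k * s - 3 / 4 * D := by
    have h1 : s * (s + 1) * (1 + ε₂) * (∑' i, ω i * ‖β i‖ ^ 2) ≤ s * (s + 1) * (1 + ε₂) * 1 :=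
      mul_le_mul_of_nonneg_left hsβ1 hc0
    have h3 : s * (s + 1) * (1 + ε₂) * 1 = s * (s + 1) + D / 4 := by
      rw [← hε₂s]; ring
    have h4 : (k : ℝ) * s = s * (s + 1) + D := by
      rw [hDdef]; ring
    linarith only [h1, h3, h4]
  have hTk : (s * (s + 1) * (1 + ε₂) * (∑' i, ω i * ‖β i‖ ^ 2)) / k ≤ s - 3 / 4 * (D / k) := by
    rw [div_le_iff₀ hk0]
    have : (s - 3 / 4 * (D / k)) * k = k * s - 3 / 4 * D := by
      field_simp
    rw [this]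
    exact hT
  have hQ2 := hQ.trans (mul_le_mul_of_nonneg_right hTk (sq_nonneg ‖h‖))
  have hgoal : D / (2 * k) = 1 / 2 * (D / k) := by field_simp
  rw [hgoal]
  have hDk : 0 ≤ D / k := by positivity
  have hpos := mul_nonneg hDk (sq_nonneg ‖h‖)
  linarith only [hQ2, hF, hpos]

end Pool.Agent.MP_8db1a4_gt.C4

namespace Pool.Agent.MP_8db1a4_gt

export C4 (typeI_euclid typeI_euclid')

end Pool.Agent.MP_8db1a4_gt
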