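import Pool.Agent.MP_8db1a4_gt.Collar
import Pool.Agent.MP_8db1a4_gt.Geo.S2
import Pool.Agent.MP_8db1a4_gt.Geo.B1c
import Pool.Agent.MP_8db1a4_gt.Geo.B1a

set_option autoImplicit false

/-! [K-S3] nearest point in the hyperbolic convex hull (helper21). -/

namespace Pool.Agent.MP_8db1a4_gt.S3

open Set Filter Topology

variable {n : ℕ}

theorem s3_subset_hull (𝒯 : Set (Hy n)) : 𝒯 ⊆ hullHy 𝒯 := by
  intro h hh
  refine ⟨1, one_pos, ?_⟩
  rw [one_smul]
  exact subset_convexHull ℝ _ ⟨h, hh, rfl⟩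

theorem s3_add_mem {𝒯 : Set (Hy n)} {y z w : Hy n} (hy : y ∈ hullHy 𝒯) (hz : z ∈ hullHy 𝒯)
    {α β r : ℝ} (hα : 0 < α) (hβ : 0 < β) (hr : 0 < r)
    (hw : α • y.val + β • z.val = r • w.val) : w ∈ hullHy 𝒯 := by
  obtain ⟨t, ht, hty⟩ := hy
  obtain ⟨s, hs, hsz⟩ := hz
  have hc : 0 < α / t + β / s := by positivity
  refine ⟨r / (α / t + β / s), by positivity, ?_⟩
  have h1 : (r / (α / t + β / s)) • w.val =
      ((α / t) / (α / t + β / s)) • (t • y.val) + ((β / s) / (α / t + β / s)) • (s • z.val) := by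
    rw [smul_smul, smul_smul, div_eq_inv_mul r, mul_smul, ← hw, smul_add, smul_smul, smul_smul]
    congr 2 <;> field_simp
  rw [h1]
  refine convex_convexHull ℝ _ hty hsz (by positivity) (by positivity) ?_
  rw [← add_div, div_self hc.ne']

/-- Points at bounded distance from `x` have bounded coordinates. -/
theorem s3_bound (x y : Hy n) : ‖y.val‖ * (x.val.2 - ‖x.val.1‖) ≤ -lor x.val y.val := by
  have hx : ‖x.val.1‖ < x.val.2 := x.mem
  have hy : ‖y.val.1‖ < y.val.2 := y.mem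
  have h1 : ‖y.val‖ ≤ y.val.2 := by
    rw [Prod.norm_def, max_le_iff]
    exact ⟨hy.le, by rw [Real.norm_of_nonneg (le_trans (norm_nonneg _) hy.le)]⟩
  have h2 := real_inner_le_norm x.val.1 y.val.1
  have h3 : ‖x.val.1‖ * ‖y.val.1‖ ≤ ‖x.val.1‖ * y.val.2 :=
    mul_le_mul_of_nonneg_left hy.le (norm_nonneg _)
  have h4 : ‖y.val‖ * (x.val.2 - ‖x.val.1‖) ≤ y.val.2 * (x.val.2 - ‖x.val.1‖) :=
    mul_le_mul_of_nonneg_right h1 (by linarith)
  simp only [lor]
  linarith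

theorem s3_tendsto_lor {u v : ℕ → LV n} {U V : LV n} (hu : Tendsto u atTop (𝓝 U))
    (hv : Tendsto v atTop (𝓝 V)) : Tendsto (fun k => lor (u k) (v k)) atTop (𝓝 (lor U V)) := by
  have h1 : Tendsto (fun k => inner ℝ (u k).1 (v k).1) atTop (𝓝 (inner ℝ U.1 V.1)) :=
    Tendsto.inner hu.fst_nhds hv.fst_nhds
  have h2 : Tendsto (fun k => (u k).2 * (v k).2) atTop (𝓝 (U.2 * V.2)) :=
    hu.snd_nhds.mul hv.snd_nhds
  exact h1.sub h2

/-- A bounded sequence on the hyperboloid has a subsequence converging on the hyperboloid. -/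
theorem s3_subseq (h : ℕ → Hy n) (B : ℝ) (hB : ∀ k, ‖(h k).val‖ ≤ B) :
    ∃ (Y : Hy n) (φ : ℕ → ℕ), StrictMono φ ∧
      Tendsto (fun k => (h (φ k)).val) atTop (𝓝 Y.val) := by
  have hbd : ∀ k, (h k).val ∈ Metric.closedBall (0 : LV n) B := fun k => by
    rw [mem_closedBall_zero_iff]; exact hB k
  obtain ⟨Y, -, φ, hφ, hY⟩ := tendsto_subseq_of_bounded Metric.isBounded_closedBall hbd
  have hY : Tendsto (fun k => (h (φ k)).val) atTop (𝓝 Y) := hY
  have hYY : lor Y Y = -1 := by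
    have h1 := s3_tendsto_lor hY hY
    have h2 : (fun k => lor ((h (φ k)).val) ((h (φ k)).val)) = fun _ => (-1 : ℝ) := by
      funext k
      exact (h (φ k)).lor_self
    rw [h2] at h1
    exact tendsto_nhds_unique h1 tendsto_const_nhds
  have hYle : ‖Y.1‖ ≤ Y.2 := by
    have h1 : Tendsto (fun k => ‖((h (φ k)).val).1‖) atTop (𝓝 ‖Y.1‖) :=
      (hY.fst_nhds).norm
    have h2 : Tendsto (fun k => ((h (φ k)).val).2) atTop (𝓝 Y.2) := hY.snd_nhds
    exact le_of_tendsto_of_tendsto' h1 h2 fun k => le_of_lt (h (φ k)).mem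
  have hYmem : Y ∈ LCone n := by
    refine lt_of_le_of_ne hYle fun heq => ?_
    have h5 : inner ℝ Y.1 Y.1 = ‖Y.1‖ * ‖Y.1‖ := real_inner_self_eq_norm_mul_norm _
    simp only [lor, h5, heq] at hYY
    linarith
  exact ⟨⟨Y, hYmem, hYY⟩, φ, hφ, hY⟩

/-- A nearest point of the closed hull and the resulting inequality. -/
theorem s3_nearest (𝒯 : Set (Hy n)) (hne : 𝒯.Nonempty) (x : Hy n) (r₀ : ℝ) (hr₀ : 0 < r₀)
    (hx : ∀ h ∈ hullHy 𝒯, r₀ ≤ dist x h) :
    ∃ Y : Hy n, Real.cosh r₀ ≤ -lor x.val Y.val ∧ ∀ g ∈ 𝒯, ∀ τ : ℝ, 0 < τ →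
      (-lor x.val Y.val) ^ 2 * (-lor (Y.val + τ • g.val) (Y.val + τ • g.val)) ≤
        (-lor x.val (Y.val + τ • g.val)) ^ 2 := by
  set S : Set ℝ := (fun h : Hy n => -lor x.val h.val) '' hullHy 𝒯 with hS
  have hSne : S.Nonempty := by
    obtain ⟨h, hh⟩ := hne
    exact ⟨_, ⟨h, s3_subset_hull 𝒯 hh, rfl⟩⟩
  have hlow : ∀ v ∈ S, Real.cosh r₀ ≤ v := by
    rintro _ ⟨h, hh, rfl⟩
    show Real.cosh r₀ ≤ -lor x.val h.val
    rw [← cosh_dist, Real.cosh_le_cosh, abs_of_pos hr₀, abs_of_nonneg dist_nonneg]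
    exact hx h hh
  have hSb : BddBelow S := ⟨Real.cosh r₀, fun v hv => hlow v hv⟩
  obtain ⟨u, hanti, hu, huS⟩ := exists_seq_tendsto_sInf hSne hSb
  have hmc : Real.cosh r₀ ≤ sInf S := le_csInf hSne hlow
  choose h hh1 hh2 using huS
  have hcone : 0 < x.val.2 - ‖x.val.1‖ := by
    have : ‖x.val.1‖ < x.val.2 := x.mem
    linarith
  obtain ⟨Y, φ, hφ, hY⟩ := s3_subseq h (u 0 / (x.val.2 - ‖x.val.1‖)) fun k => by
    rw [le_div_iff₀ hcone]
    refine (s3_bound x (h k)).trans ?_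
    have e1 : -lor x.val (h k).val = u k := hh2 k
    rw [e1]
    exact hanti (Nat.zero_le k)
  have hxY : -lor x.val Y.val = sInf S := by
    have h1 : Tendsto (fun k => -lor x.val ((h (φ k)).val)) atTop (𝓝 (-lor x.val Y.val)) :=
      (s3_tendsto_lor tendsto_const_nhds hY).neg
    have h2 : (fun k => -lor x.val ((h (φ k)).val)) = u ∘ φ := by
      funext k
      exact hh2 (φ k)
    rw [h2] at h1
    exact tendsto_nhds_unique h1 (hu.comp hφ.tendsto_atTop)
  refine ⟨Y, by rw [hxY]; exact hmc, ?_⟩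
  intro g hg τ hτ
  rw [hxY]
  have h1 : ∀ k, (sInf S) ^ 2 *
      (-lor ((h (φ k)).val + τ • g.val) ((h (φ k)).val + τ • g.val)) ≤
      (-lor x.val ((h (φ k)).val + τ • g.val)) ^ 2 := by
    intro k
    have hmem : (h (φ k)).val + τ • g.val ∈ LCone n := by
      have ha := convex_LCone n (h (φ k)).mem (smul_mem_LCone g.mem hτ)
        (by norm_num : (0 : ℝ) ≤ 1 / 2) (by norm_num : (0 : ℝ) ≤ 1 / 2) (by norm_num)
      have hb := smul_mem_LCone ha (by norm_num : (0 : ℝ) < 2)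
      rw [smul_add, smul_smul, smul_smul] at hb
      norm_num at hb
      exact hb
    obtain ⟨w, hw⟩ := exists_smul_hy hmem
    have hrp := rad_pos hmem
    have hwm : w ∈ hullHy 𝒯 := by
      refine s3_add_mem (hh1 (φ k)) (s3_subset_hull 𝒯 hg) one_pos hτ hrp ?_
      rw [one_smul]
      exact hw
    have h3 : sInf S ≤ -lor x.val w.val := csInf_le hSb ⟨w, hwm, rfl⟩
    have h4 : -lor x.val ((h (φ k)).val + τ • g.val) =
        rad ((h (φ k)).val + τ • g.val) * (-lor x.val w.val) := by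
      conv_lhs => rw [hw]
      rw [lor_smul_right]; ring
    rw [h4, ← rad_sq hmem, mul_pow, mul_comm]
    refine mul_le_mul_of_nonneg_left ?_ (sq_nonneg _)
    have hm0 : 0 ≤ sInf S := le_trans (Real.cosh_pos r₀).le hmc
    exact pow_le_pow_left₀ hm0 h3 2
  have hT : Tendsto (fun k => (h (φ k)).val + τ • g.val) atTop (𝓝 (Y.val + τ • g.val)) :=
    Tendsto.add hY tendsto_const_nhds
  have h5 : Tendsto (fun k => (sInf S) ^ 2 * (-lor ((h (φ k)).val + τ • g.val)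
      ((h (φ k)).val + τ • g.val))) atTop
      (𝓝 ((sInf S) ^ 2 * (-lor (Y.val + τ • g.val) (Y.val + τ • g.val)))) :=
    Tendsto.const_mul _ (s3_tendsto_lor hT hT).neg
  have h6 : Tendsto (fun k => (-lor x.val ((h (φ k)).val + τ • g.val)) ^ 2) atTop
      (𝓝 ((-lor x.val (Y.val + τ • g.val)) ^ 2)) :=
    ((s3_tendsto_lor tendsto_const_nhds hT).neg).pow 2
  exact le_of_tendsto_of_tendsto' h5 h6 h1

theorem s3_ineq (m c p : ℝ) (hm : 0 < m)
    (key : ∀ τ : ℝ, 0 < τ → m ^ 2 * (1 + 2 * τ * c + τ ^ 2) ≤ (m + τ * p) ^ 2) : m * c ≤ p := by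
  by_contra hcon
  push Not at hcon
  have h5 : 0 < m * (m * c - p) := mul_pos hm (by linarith)
  have hτ : 0 < m * (m * c - p) / (p ^ 2 + 1) := by positivity
  have h1 := key _ hτ
  set τ := m * (m * c - p) / (p ^ 2 + 1) with hτd
  have h4 : τ * (p ^ 2 + 1) = m * (m * c - p) := by
    rw [hτd]; field_simp
  have h6 : τ * (2 * (m * (m * c - p)) + τ * m ^ 2 - τ * p ^ 2) ≤ 0 := by nlinarith
  have h7 : 0 < 2 * (m * (m * c - p)) + τ * m ^ 2 - τ * p ^ 2 := by
    have : 0 ≤ τ * m ^ 2 := by positivity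
    nlinarith
  have := mul_pos hτ h7
  linarith

theorem s3_core (𝒯 : Set (Hy n)) (hne : 𝒯.Nonempty) (x : Hy n) (r₀ : ℝ) (hr₀ : 0 < r₀)
    (hx : ∀ h ∈ hullHy 𝒯, r₀ ≤ dist x h) : ∃ e ∈ Efun 𝒯, Real.sinh r₀ ≤ lor x.val e := by
  obtain ⟨Y, hmc, key⟩ := s3_nearest 𝒯 hne x r₀ hr₀ hx
  have hYY := Y.lor_self
  set m := -lor x.val Y.val with hm
  have hxY : lor x.val Y.val = -m := by rw [hm]; ring
  have hm1 : 1 < m := lt_of_lt_of_le (Real.one_lt_cosh.mpr hr₀.ne') hmc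
  have hsq : 0 < m ^ 2 - 1 := by nlinarith
  set R := Real.sqrt (m ^ 2 - 1) with hR
  have hRpos : 0 < R := Real.sqrt_pos.mpr hsq
  have hR2 : R ^ 2 = m ^ 2 - 1 := Real.sq_sqrt hsq.le
  refine ⟨R⁻¹ • (x.val - m • Y.val), ⟨?_, ?_⟩, ?_⟩
  · rw [lor_smul_left, lor_smul_right, lor_sub_left, lor_sub_right, lor_sub_right, lor_smul_left,
      lor_smul_left, lor_smul_right, lor_smul_right, x.lor_self, hYY, lor_comm Y.val x.val, hxY]
    have e2 : (-1 - m * -m - (m * -m - m * (m * -1)) : ℝ) = R ^ 2 := by rw [hR2]; ring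
    rw [e2]
    field_simp
  · intro g hg
    rw [lor_smul_right, lor_sub_right, lor_smul_right]
    set p := -lor x.val g.val with hp
    set c := -lor Y.val g.val with hc
    have e1 : lor g.val x.val = -p := by rw [hp, lor_comm]; ring
    have e2 : lor g.val Y.val = -c := by rw [hc, lor_comm]; ring
    have hmain : m * c ≤ p := by
      refine s3_ineq m c p (by linarith) fun τ hτ => ?_
      have h1 := key g hg τ hτ
      have h2 : -lor (Y.val + τ • g.val) (Y.val + τ • g.val) = 1 + 2 * τ * c + τ ^ 2 := by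
        rw [lor_add_left, lor_add_right, lor_add_right, lor_smul_left, lor_smul_left,
          lor_smul_right, lor_smul_right, hYY, g.lor_self, e2]
        have e3 : lor Y.val g.val = -c := by rw [hc]; ring
        rw [e3]; ring
      have h3 : -lor x.val (Y.val + τ • g.val) = m + τ * p := by
        rw [lor_add_right, lor_smul_right, hxY]
        have e4 : lor x.val g.val = -p := by rw [hp]; ring
        rw [e4]; ring
      rw [h2, h3] at h1
      exact h1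
    rw [e1, e2]
    have : -p - m * -c ≤ 0 := by linarith
    exact mul_nonpos_of_nonneg_of_nonpos (inv_nonneg.mpr hRpos.le) this
  · rw [lor_smul_right, lor_sub_right, lor_smul_right, x.lor_self, hxY]
    have e2 : (-1 - m * -m : ℝ) = R ^ 2 := by rw [hR2]; ring
    rw [e2]
    have e3 : R⁻¹ * R ^ 2 = R := by field_simp
    rw [e3]
    have h1 : Real.sinh r₀ ^ 2 ≤ R ^ 2 := by
      rw [hR2, Real.sinh_sq]
      have := Real.one_le_cosh r₀
      nlinarith
    exact (abs_le_of_sq_le_sq' h1 hRpos.le).2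

/-- [K-S3] duality -/
theorem exists_hull_near (𝒯 : Set (Hy n)) (hne : 𝒯.Nonempty) (x : Hy n) (a : ℝ) (ha : 0 ≤ a)
    (hx : Lfun 𝒯 x.val ≤ Real.sinh a) (a' : ℝ) (haa : a < a') :
    ∃ h ∈ hullHy 𝒯, dist x h ≤ a' := by
  by_contra hcon
  push Not at hcon
  obtain ⟨e, he, hle⟩ := s3_core 𝒯 hne x a' (by linarith) fun h hh => (hcon h hh).le
  have h1 : lor x.val e ≤ Lfun 𝒯 x.val :=
    le_csSup (lfun_bddAbove 𝒯 hne x.val x.mem) ⟨e, he, rfl⟩
  have h2 : Real.sinh a < Real.sinh a' := Real.sinh_lt_sinh.mpr haa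
  linarith

theorem efun_nonempty (𝒯 : Set (Hy n)) (hne : 𝒯.Nonempty) (x : Hy n) (a : ℝ) (ha : 0 < a)
    (hx : ∀ h ∈ hullHy 𝒯, a ≤ dist x h) : (Efun 𝒯).Nonempty := by
  obtain ⟨e, he, -⟩ := s3_core 𝒯 hne x a ha hx
  exact ⟨e, he⟩

end Pool.Agent.MP_8db1a4_gt.S3

namespace Pool.Agent.MP_8db1a4_gt

export S3 (exists_hull_near efun_nonempty)

end Pool.Agent.MP_8db1a4_gt
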