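import Pool.Agent.MP_8db1a4_gt.Collar

set_option autoImplicit false

/-! Task KAP-S6 (helper9): equivariance of the support function. -/

namespace Pool.Agent.MP_8db1a4_gt.S6

open Set

variable {n : ℕ}

theorem lfun_equiv {G : Type*} [Group G] {ρ : G →* (LV n →L[ℝ] LV n)} (h : LorAction ρ)
    (𝒯 𝒯' : Set (Hy n)) (g : G)
    (hT : ∀ x : Hy n, x ∈ 𝒯' ↔ ∃ y ∈ 𝒯, (letI := hyAction h; g • y = x)) (X : LV n) :
    Lfun 𝒯' (ρ g X) = Lfun 𝒯 X := by
  letI := hyAction h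
  have key : (fun e => lor (ρ g X) e) '' Efun 𝒯' = (fun e => lor X e) '' Efun 𝒯 := by
    ext r
    constructor
    · rintro ⟨e, ⟨he1, he2⟩, rfl⟩
      refine ⟨ρ g⁻¹ e, ⟨?_, ?_⟩, ?_⟩
      · rw [h.lor_eq]; exact he1
      · intro y hy
        have h1 := he2 (g • y) ((hT (g • y)).mpr ⟨y, hy, rfl⟩)
        have h2 : lor y.val (ρ g⁻¹ e) = lor (ρ g y.val) e := by
          rw [← h.lor_eq g y.val (ρ g⁻¹ e), rho_apply_inv]
        rw [h2]
        exact h1
      · show lor X (ρ g⁻¹ e) = lor (ρ g X) e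
        rw [← h.lor_eq g X (ρ g⁻¹ e), rho_apply_inv]
    · rintro ⟨e, ⟨he1, he2⟩, rfl⟩
      refine ⟨ρ g e, ⟨?_, ?_⟩, ?_⟩
      · rw [h.lor_eq]; exact he1
      · intro x hx
        obtain ⟨y, hy, hyx⟩ := (hT x).mp hx
        have h1 := he2 y hy
        rw [← hyx]
        show lor (ρ g y.val) (ρ g e) ≤ 0
        rw [h.lor_eq]
        exact h1
      · show lor (ρ g X) (ρ g e) = lor X e
        rw [h.lor_eq]
  unfold Lfun
  rw [key]

end Pool.Agent.MP_8db1a4_gt.S6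

namespace Pool.Agent.MP_8db1a4_gt

export S6 (lfun_equiv)

end Pool.Agent.MP_8db1a4_gt
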