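import Pool.Agent.MP_8db1a4_gt.CollarDefs
import Pool.Agent.MP_8db1a4_gt.Geo.S3
import Pool.Agent.MP_8db1a4_gt.Geo.S2
import Pool.Agent.MP_8db1a4_gt.Geo.S5
import Pool.Agent.MP_8db1a4_gt.Geo.S6
import Pool.Agent.MP_8db1a4_gt.Geo.S1

set_option autoImplicit false

/-! [KAP-CM1] the sets `Tc`, `Uc` of a family, local structure of the collar sum (MP_8db1a4_gt). -/

namespace Pool.Agent.MP_8db1a4_gt

open Set

variable {n : ℕ}

section Family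

variable {G : Type*} [Group G] {ρ : G →* (LV n →L[ℝ] LV n)} {h : LorAction ρ} {s₀ s' s κ : ℝ}
  {k : ℕ} {ι : Type*} [MulAction G ι] {𝒯 : ι → Set (Hy n)}

/-! ### auxiliary facts -/

theorem cm1_sfun_hy (𝒮 : Set (Hy n)) (x : Hy n) : Sfun 𝒮 x.val = Lfun 𝒮 x.val := by
  unfold Sfun
  rw [rad_hy, div_one]

theorem cm1_sfun_eq (𝒮 : Set (Hy n)) {X : LV n} (hX : X ∈ LCone n) {x : Hy n}
    (hx : X = rad X • x.val) : Sfun 𝒮 X = Lfun 𝒮 x.val := by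
  rw [← cm1_sfun_hy, ← sfun_smul 𝒮 x.val (rad X) (rad_pos hX), ← hx]

theorem cm1_sinh_colL (κ : ℝ) : Real.sinh (colL κ) = κ ^ (-4 : ℤ) := by
  unfold colL
  rw [Real.sinh_arsinh]

theorem cm1_le_sinh (hκ : 0 < κ) (hκ4 : κ ≤ 1 / 4) : 256 ≤ Real.sinh (colL κ) := by
  rw [cm1_sinh_colL, zpow_neg]
  have h1 : κ ^ (4 : ℤ) ≤ (1 / 4 : ℝ) ^ 4 := by
    have : κ ^ (4 : ℤ) = κ ^ 4 := by norm_cast
    rw [this]
    exact pow_le_pow_left₀ hκ.le hκ4 4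
  have h2 : 0 < κ ^ (4 : ℤ) := by positivity
  have h3 : ((1 / 4 : ℝ) ^ 4)⁻¹ ≤ (κ ^ (4 : ℤ))⁻¹ := inv_anti₀ h2 h1
  refine le_trans ?_ h3
  norm_num

theorem cm1_colL_nonneg (hκ : 0 < κ) (hκ4 : κ ≤ 1 / 4) : 0 ≤ colL κ := by
  have h1 := cm1_le_sinh hκ hκ4
  by_contra hcon
  push Not at hcon
  have := Real.sinh_neg_iff.mpr hcon
  linarith

theorem cm1_colG_zero (hκ : 0 < κ) {S : ℝ} (hS : Real.sinh (colL κ) < S) : colG κ S = 0 := by
  rw [cm1_sinh_colL] at hS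
  have h0 : 0 < κ ^ (-4 : ℤ) := by positivity
  have h1 : S ^ (-(1 / 4) : ℝ) ≤ (κ ^ (-4 : ℤ)) ^ (-(1 / 4) : ℝ) :=
    Real.rpow_le_rpow_of_nonpos h0 hS.le (by norm_num)
  have h2 : (κ ^ (-4 : ℤ) : ℝ) ^ (-(1 / 4) : ℝ) = κ := by
    rw [← Real.rpow_intCast κ (-4), ← Real.rpow_mul hκ.le]
    norm_num
  rw [h2] at h1
  unfold colG
  rw [max_eq_right (by linarith)]
  norm_num

/-- two collars do not meet -/
theorem cm1_unique (D : FamilyData ρ h s₀ s' s κ k 𝒯) (x : Hy n) {i j : ι} (hij : i ≠ j)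
    (hi : Lfun (𝒯 i) x.val ≤ Real.sinh (colL κ + 1))
    (hj : Lfun (𝒯 j) x.val ≤ Real.sinh (colL κ + 1)) : False := by
  have h0 : 0 ≤ colL κ + 1 := by
    have := cm1_colL_nonneg D.hκ D.hκ4
    linarith
  obtain ⟨y, hy, hd⟩ := exists_hull_near (𝒯 i) (D.nonempty i) x _ h0 hi (colL κ + 2) (by linarith)
  obtain ⟨y', hy', hd'⟩ :=
    exists_hull_near (𝒯 j) (D.nonempty j) x _ h0 hj (colL κ + 2) (by linarith)
  exact D.sep i j hij x y hy y' hy' hd hd'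

/-! ### the theorems of the task -/

theorem family_efun (D : FamilyData ρ h s₀ s' s κ k 𝒯) (i : ι) : (Efun (𝒯 i)).Nonempty := by
  obtain ⟨x, hx⟩ := D.far i
  exact efun_nonempty (𝒯 i) (D.nonempty i) x 1 one_pos hx

theorem family_equiv (D : FamilyData ρ h s₀ s' s κ k 𝒯) (g : G) (i : ι) (X : LV n) :
    Sfun (𝒯 (g • i)) (ρ g X) = Sfun (𝒯 i) X := by
  letI := hyAction h
  unfold Sfun
  rw [rad_rho h, lfun_equiv h (𝒯 i) (𝒯 (g • i)) g]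
  intro x
  constructor
  · intro hx
    refine ⟨g⁻¹ • x, ?_, smul_inv_smul g x⟩
    have := D.equiv g⁻¹ (g • i) x hx
    rwa [inv_smul_smul] at this
  · rintro ⟨y, hy, rfl⟩
    exact D.equiv g i y hy

theorem family_uc_disjoint (D : FamilyData ρ h s₀ s' s κ k 𝒯) (i j : ι) (hij : i ≠ j) :
    Disjoint (Uc (𝒯 i)) (Uc (𝒯 j)) := by
  rw [Set.disjoint_left]
  rintro X ⟨hX, hi⟩ ⟨_, hj⟩
  obtain ⟨x, hx⟩ := exists_smul_hy hX
  rw [cm1_sfun_eq _ hX hx] at hi hj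
  have h1 := cm1_le_sinh D.hκ D.hκ4
  have h2 : Real.sinh (colL κ) ≤ Real.sinh (colL κ + 1) := Real.sinh_le_sinh.mpr (by linarith)
  exact cm1_unique D x hij (by linarith) (by linarith)

/-- a neighbourhood of hyperbolic radius `1/2` -/
theorem cm1_nbhd (x₀ : LV n) (hx₀ : x₀ ∈ LCone n) (y₀ : Hy n) (hy₀ : x₀ = rad x₀ • y₀.val) :
    ∃ N : Set (LV n), IsOpen N ∧ x₀ ∈ N ∧ N ⊆ LCone n ∧
      ∀ X ∈ N, ∀ y : Hy n, X = rad X • y.val → dist y y₀ ≤ 1 / 2 := by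
  have hr := rad_pos hx₀
  have hc : 1 < Real.cosh (1 / 2) := Real.one_lt_cosh.mpr (by norm_num)
  refine ⟨LCone n ∩ {X | -lor X y₀.val < rad X * Real.cosh (1 / 2)}, ?_, ⟨hx₀, ?_⟩,
    Set.inter_subset_left, ?_⟩
  · refine (isOpen_LCone n).inter (isOpen_lt ?_ ((continuous_rad n).mul continuous_const))
    have : Continuous (fun X : LV n => lor X y₀.val) :=
      (continuous_lor n).comp (continuous_id.prodMk continuous_const)
    exact this.neg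
  · show -lor x₀ y₀.val < rad x₀ * Real.cosh (1 / 2)
    have e : lor x₀ y₀.val = rad x₀ * lor y₀.val y₀.val := by
      conv_lhs => rw [hy₀]
      rw [lor_smul_left]
    rw [e, y₀.lor_self]
    nlinarith
  · rintro X ⟨hX, hlt⟩ y hy
    have hlt' : -lor X y₀.val < rad X * Real.cosh (1 / 2) := hlt
    have e : lor X y₀.val = rad X * lor y.val y₀.val := by
      conv_lhs => rw [hy]
      rw [lor_smul_left]
    rw [e] at hlt'
    have hX' := rad_pos hX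
    have h3 : -lor y.val y₀.val < Real.cosh (1 / 2) := by
      by_contra hcon
      push Not at hcon
      nlinarith
    rw [← cosh_dist] at h3
    have h4 := Real.cosh_lt_cosh.mp h3
    rw [abs_of_nonneg dist_nonneg, abs_of_pos (by norm_num : (0 : ℝ) < 1 / 2)] at h4
    exact h4.le

/-- a point in the small neighbourhood which is close to `𝒯 i` shows that `x₀` is -/
theorem cm1_transfer (D : FamilyData ρ h s₀ s' s κ k 𝒯) (j : ι) (y y₀ : Hy n)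
    (hd : dist y y₀ ≤ 1 / 2) (hj : Lfun (𝒯 j) y.val ≤ Real.sinh (colL κ)) :
    Lfun (𝒯 j) y₀.val ≤ Real.sinh (colL κ + 1 / 2) :=
  (lfun_le_sinh (𝒯 j) (D.nonempty j) y y₀ _ (cm1_colL_nonneg D.hκ D.hκ4) hj).trans
    (Real.sinh_le_sinh.mpr (by linarith))

/-- Local structure of the collar sum. -/
theorem family_local (D : FamilyData ρ h s₀ s' s κ k 𝒯) (x₀ : LV n) (hx₀ : x₀ ∈ LCone n)
    (h2 : ∀ i, 2 ≤ Sfun (𝒯 i) x₀) :
    ∃ N : Set (LV n), IsOpen N ∧ x₀ ∈ N ∧ N ⊆ LCone n ∧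
      ((∃ i, (∀ X ∈ N, 1 < Sfun (𝒯 i) X ∧ colSum κ 𝒯 X = colG κ (Sfun (𝒯 i) X)) ∧
          ∀ j, j ≠ i → ∀ X ∈ N, X ∉ Tc (𝒯 j)) ∨
        ((∀ X ∈ N, colSum κ 𝒯 X = 0) ∧ ∀ j, ∀ X ∈ N, X ∉ Tc (𝒯 j))) := by
  classical
  obtain ⟨y₀, hy₀⟩ := exists_smul_hy hx₀
  obtain ⟨N, hNo, hxN, hNC, hN⟩ := cm1_nbhd x₀ hx₀ y₀ hy₀
  have hbig := cm1_le_sinh D.hκ D.hκ4
  -- a member of the family far from `y₀` contributes nothing
  have hfar : ∀ j, ¬ Lfun (𝒯 j) y₀.val ≤ Real.sinh (colL κ + 1 / 2) → ∀ X ∈ N,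
      Real.sinh (colL κ) < Sfun (𝒯 j) X := by
    intro j hj X hX
    obtain ⟨y, hy⟩ := exists_smul_hy (hNC hX)
    rw [cm1_sfun_eq _ (hNC hX) hy]
    by_contra hcon
    push Not at hcon
    exact hj (cm1_transfer D j y y₀ (hN X hX y hy) hcon)
  by_cases hex : ∃ i, Lfun (𝒯 i) y₀.val ≤ Real.sinh (colL κ + 1 / 2)
  · obtain ⟨i, hi⟩ := hex
    have hfar' : ∀ j, j ≠ i → ∀ X ∈ N, Real.sinh (colL κ) < Sfun (𝒯 j) X := by
      intro j hj
      refine hfar j fun hcon => cm1_unique D y₀ hj ?_ ?_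
      · exact hcon.trans (Real.sinh_le_sinh.mpr (by linarith))
      · exact hi.trans (Real.sinh_le_sinh.mpr (by linarith))
    have hcont := sfun_continuousOn (𝒯 i) (D.nonempty i) (family_efun D i)
    have hopen : IsOpen (LCone n ∩ Sfun (𝒯 i) ⁻¹' Ioi 1) :=
      hcont.isOpen_inter_preimage (isOpen_LCone n) isOpen_Ioi
    refine ⟨N ∩ (LCone n ∩ Sfun (𝒯 i) ⁻¹' Ioi 1), hNo.inter hopen, ⟨hxN, hx₀, ?_⟩,
      fun X hX => hNC hX.1, Or.inl ⟨i, ?_, ?_⟩⟩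
    · show 1 < Sfun (𝒯 i) x₀
      have := h2 i
      linarith
    · rintro X ⟨hX, _, hX1⟩
      have hX1' : 1 < Sfun (𝒯 i) X := hX1
      refine ⟨hX1', ?_⟩
      unfold colSum
      rw [finsum_eq_single _ i]
      · rw [if_pos (by linarith)]
      · intro j hj
        rw [cm1_colG_zero D.hκ (hfar' j hj X hX)]
        simp
    · rintro j hj X ⟨hX, _⟩ ⟨_, hT⟩
      have := hfar' j hj X hX
      linarith
  · push Not at hex
    have hfar' : ∀ j, ∀ X ∈ N, Real.sinh (colL κ) < Sfun (𝒯 j) X := fun j =>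
      hfar j (not_le.mpr (hex j))
    refine ⟨N, hNo, hxN, hNC, Or.inr ⟨?_, ?_⟩⟩
    · intro X hX
      unfold colSum
      have : ∀ j, (if 0 < Sfun (𝒯 j) X then colG κ (Sfun (𝒯 j) X) else 0) = 0 := by
        intro j
        rw [cm1_colG_zero D.hκ (hfar' j X hX)]
        simp
      simp [this]
    · rintro j X hX ⟨_, hT⟩
      have := hfar' j X hX
      linarith

theorem family_tc_closed (D : FamilyData ρ h s₀ s' s κ k 𝒯) :
    IsOpen (LCone n \ ⋃ i, Tc (𝒯 i)) := by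
  rw [isOpen_iff_forall_mem_open]
  rintro x ⟨hx, hxT⟩
  have hS : ∀ i, 2 < Sfun (𝒯 i) x := by
    intro i
    by_contra hcon
    push Not at hcon
    exact hxT (Set.mem_iUnion.mpr ⟨i, hx, hcon⟩)
  obtain ⟨N, hNo, hxN, hNC, hN⟩ := family_local D x hx fun i => (hS i).le
  rcases hN with ⟨i, _, hj⟩ | ⟨_, hj⟩
  · have hcont := sfun_continuousOn (𝒯 i) (D.nonempty i) (family_efun D i)
    have hopen : IsOpen (LCone n ∩ Sfun (𝒯 i) ⁻¹' Ioi 2) :=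
      hcont.isOpen_inter_preimage (isOpen_LCone n) isOpen_Ioi
    refine ⟨N ∩ (LCone n ∩ Sfun (𝒯 i) ⁻¹' Ioi 2), ?_, hNo.inter hopen, ⟨hxN, hx, hS i⟩⟩
    rintro X ⟨hXN, hXC, hX2⟩
    refine ⟨hXC, fun hXT => ?_⟩
    obtain ⟨j, hXj⟩ := Set.mem_iUnion.mp hXT
    by_cases hji : j = i
    · subst hji
      have h1 : 2 < Sfun (𝒯 j) X := hX2
      have h2 := hXj.2
      linarith
    · exact hj j hji X hXN hXj
  · refine ⟨N, ?_, hNo, hxN⟩
    intro X hXN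
    refine ⟨hNC hXN, fun hXT => ?_⟩
    obtain ⟨j, hXj⟩ := Set.mem_iUnion.mp hXT
    exact hj j X hXN hXj

theorem family_boundary (D : FamilyData ρ h s₀ s' s κ k 𝒯) (x : LV n) (hx : x ∈ LCone n)
    (hcl : x ∈ closure (LCone n \ ⋃ i, Tc (𝒯 i))) : ∀ i, 2 ≤ Sfun (𝒯 i) x := by
  intro i
  by_contra hcon
  push Not at hcon
  have hcont := sfun_continuousOn (𝒯 i) (D.nonempty i) (family_efun D i)
  have hopen : IsOpen (LCone n ∩ Sfun (𝒯 i) ⁻¹' Iio 2) :=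
    hcont.isOpen_inter_preimage (isOpen_LCone n) isOpen_Iio
  obtain ⟨X, ⟨hXC, hX2⟩, _, hXT⟩ := mem_closure_iff.mp hcl _ hopen ⟨hx, hcon⟩
  have hX2' : Sfun (𝒯 i) X < 2 := hX2
  exact hXT (Set.mem_iUnion.mpr ⟨i, hXC, hX2'.le⟩)

end Family

end Pool.Agent.MP_8db1a4_gt
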