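import Pool.Agent.MP_8db1a4_gt.Geo.CM1
import Pool.Agent.MP_8db1a4_gt.Geo.CM2
import Pool.Agent.MP_8db1a4_gt.Geo.C1c
import Pool.Agent.MP_8db1a4_gt.Geo.S1
import Pool.Agent.MP_8db1a4_gt.Geo.C4
import Pool.Agent.MP_8db1a4_gt.Geo.C7
import Pool.Agent.MP_8db1a4_gt.Geo.S5
import Pool.Agent.MP_8db1a4_gt.Geo.B1a

set_option autoImplicit false

/-! [KAP-CM3] type I property of the Morse function (MP_8db1a4_gt). -/

namespace Pool.Agent.MP_8db1a4_gt

open Set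

variable {n : ℕ}

theorem cm3_lor_boost (y : Hy n) (X Y : LV n) :
    lor (boost y.val X) (boost y.val Y) = lor X Y := by
  have h1 : inner ℝ y.val.1 y.val.1 = y.val.2 * y.val.2 - 1 := by
    have := y.lor_self
    simp only [lor] at this
    linarith
  have hpos : 0 < y.val.2 := lt_of_le_of_lt (norm_nonneg _) y.mem
  have h2 : (1 + y.val.2) ≠ 0 := by positivity
  rw [boost_apply, boost_apply]
  simp only [lor, inner_add_left, inner_add_right, real_inner_smul_left, real_inner_smul_right, h1]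
  rw [real_inner_comm y.val.1 X.1]
  field_simp
  ring

theorem cm3_boost_zero (y : Hy n) : boost y.val ((0 : EuclideanSpace ℝ (Fin n)), (1 : ℝ)) = y.val := by
  rw [boost_apply]
  ext i <;> simp

theorem cm3_rad_boost (y : Hy n) (ζ : EuclideanSpace ℝ (Fin n)) :
    rad (boost y.val (ζ, 1)) = Real.sqrt (1 - ‖ζ‖ ^ 2) := by
  unfold rad
  rw [cm3_lor_boost]
  congr 1
  simp only [lor, real_inner_self_eq_norm_sq]
  ring

theorem cm3_continuous_boost (y : Hy n) :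
    Continuous (fun ζ : EuclideanSpace ℝ (Fin n) => boost y.val (ζ, (1 : ℝ))) :=
  (boost y.val).continuous.comp (by fun_prop)

theorem cm3_conic_cone (n : ℕ) : Conic (LCone n) := fun _ hX _ ht => smul_mem_LCone hX ht

theorem cm3_conic_tc {ι : Type*} (𝒯 : ι → Set (Hy n)) : Conic (⋃ i, Tc (𝒯 i)) := by
  intro X hX t ht
  rw [mem_iUnion] at hX ⊢
  obtain ⟨i, hi⟩ := hX
  refine ⟨i, smul_mem_LCone hi.1 ht, ?_⟩
  rw [sfun_smul _ _ _ ht]
  exact hi.2

/-- A neighbourhood of the base point contains a small ball of the chart. -/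
theorem cm3_chart_ball (y : Hy n) (N : Set (LV n)) (hN : IsOpen N) (hy : y.val ∈ N) :
    ∃ r > (0 : ℝ), ∀ ζ : EuclideanSpace ℝ (Fin n), ‖ζ‖ ≤ r → boost y.val (ζ, 1) ∈ N := by
  have h1 : (fun ζ : EuclideanSpace ℝ (Fin n) => boost y.val (ζ, (1 : ℝ))) ⁻¹' N ∈
      nhds (0 : EuclideanSpace ℝ (Fin n)) := by
    apply (cm3_continuous_boost y).continuousAt.preimage_mem_nhds
    show N ∈ nhds (boost y.val ((0 : EuclideanSpace ℝ (Fin n)), (1 : ℝ)))
    rw [cm3_boost_zero]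
    exact hN.mem_nhds hy
  obtain ⟨ε, hε, hb⟩ := Metric.mem_nhds_iff.mp h1
  refine ⟨ε / 2, by positivity, fun ζ hζ => hb ?_⟩
  rw [mem_ball_zero_iff]
  linarith

section Family

variable {G : Type*} [Group G] {ρ : G →* (LV n →L[ℝ] LV n)} {h : LorAction ρ} {s₀ s' s κ : ℝ}
  {k : ℕ} {ι : Type*} [MulAction G ι] {𝒯 : ι → Set (Hy n)}

namespace CM3

theorem fmor_typeI (D : FamilyData ρ h s₀ s' s κ k 𝒯) (x : LV n)
    (hx : x ∈ LCone n \ ⋃ i, Tc (𝒯 i)) :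
    TypeI (LCone n) (⋃ i, Tc (𝒯 i)) (Fmor ρ s κ 𝒯) k x := by
  obtain ⟨hxC, hxT⟩ := hx
  obtain ⟨y, hy⟩ := exists_smul_hy hxC
  have hr0 : 0 < rad x := rad_pos hxC
  rw [hy]
  apply typeI_smul _ _ (cm3_conic_cone n) (cm3_conic_tc 𝒯) _
    (fun X hX t ht => fmor_smul D X hX t ht) _ _ _ hr0
  have hyT : y.val ∉ ⋃ i, Tc (𝒯 i) := by
    intro hcon
    apply hxT
    rw [hy]
    exact cm3_conic_tc 𝒯 _ hcon _ hr0
  have hyS : ∀ i, 2 < Sfun (𝒯 i) y.val := by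
    intro i
    by_contra hcon
    push Not at hcon
    exact hyT (mem_iUnion.mpr ⟨i, y.mem, hcon⟩)
  have hs : 0 < s := lt_of_le_of_lt D.hs₀ (D.hs₀s'.trans D.hs's)
  have hs₀s : s₀ < s := D.hs₀s'.trans D.hs's
  obtain ⟨N, hNo, hyN, hNC, hcase⟩ := family_local D y.val y.mem (fun i => (hyS i).le)
  obtain ⟨ρ₀, hρ₀, hball⟩ := cm3_chart_ball y N hNo hyN
  obtain ⟨ω, β, hω, hω1, hβ, hf⟩ := fpot_second_diff ρ h D.disc s₀ s D.hs₀ hs₀s D.growth y
  rcases hcase with ⟨i, hi, hj⟩ | ⟨h0, hj⟩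
  · have hL0 : Lfun (𝒯 i) y.val = Sfun (𝒯 i) y.val := by
      unfold Sfun
      rw [rad_hy, div_one]
    have hα : 2 ≤ Lfun (𝒯 i) y.val := by rw [hL0]; exact (hyS i).le
    obtain ⟨e₀, he₀, hstrict⟩ := lfun_strict (𝒯 i) (D.nonempty i) (family_efun D i) y
      (by linarith)
    have hconv := lfun_convex (𝒯 i) (D.nonempty i) (family_efun D i) y
    obtain ⟨W, hW, r, hr, c, hc, hin⟩ := typeI_euclid k D.hk s hs D.hsk κ D.hκ D.hκ4 D.hκs
      (Lfun (𝒯 i) y.val) hα ω β hω hω1 hβ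
      (fun ζ : EuclideanSpace ℝ (Fin n) => fpot ρ s (boost y.val (ζ, 1)))
      (fun ζ : EuclideanSpace ℝ (Fin n) => Lfun (𝒯 i) (boost y.val (ζ, 1))) hf hconv e₀ he₀
      (by rw [cm3_boost_zero]) hstrict
    refine typeI_of_chart _ (family_tc_closed D) _ k y hyT W hW (min r (ρ₀ / 2)) c
      (lt_min hr (by positivity)) hc ?_
    intro m h' hm hh hhW
    have hval : ∀ ζ : EuclideanSpace ℝ (Fin n), ‖ζ‖ ≤ ρ₀ →
        Fmor ρ s κ 𝒯 (boost y.val (ζ, 1)) = fpot ρ s (boost y.val (ζ, 1)) - 8 * (s + 1) *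
          colG κ (Lfun (𝒯 i) (boost y.val (ζ, 1)) / Real.sqrt (1 - ‖ζ‖ ^ 2)) := by
      intro ζ hζ
      unfold Fmor
      rw [(hi _ (hball ζ hζ)).2]
      unfold Sfun
      rw [cm3_rad_boost]
    have hm1 : ‖m‖ ≤ ρ₀ / 2 := hm.trans (min_le_right _ _)
    have hh1 : ‖h'‖ ≤ ρ₀ / 2 := hh.trans (min_le_right _ _)
    rw [hval (m + h') ((norm_add_le _ _).trans (by linarith)),
      hval (m - h') ((norm_sub_le _ _).trans (by linarith)), hval m (by linarith)]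
    exact hin m h' (hm.trans (min_le_left _ _)) (hh.trans (min_le_left _ _)) hhW
  · obtain ⟨W, hW, r, hr, c, hc, hin⟩ := typeI_euclid' k D.hk s hs D.hsk ω β hω hω1 hβ
      (fun ζ : EuclideanSpace ℝ (Fin n) => fpot ρ s (boost y.val (ζ, 1))) hf
    refine typeI_of_chart _ (family_tc_closed D) _ k y hyT W hW (min r (ρ₀ / 2)) c
      (lt_min hr (by positivity)) hc ?_
    intro m h' hm hh hhW
    have hval : ∀ ζ : EuclideanSpace ℝ (Fin n), ‖ζ‖ ≤ ρ₀ →
        Fmor ρ s κ 𝒯 (boost y.val (ζ, 1)) = fpot ρ s (boost y.val (ζ, 1)) := by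
      intro ζ hζ
      unfold Fmor
      rw [h0 _ (hball ζ hζ), mul_zero, sub_zero]
    have hm1 : ‖m‖ ≤ ρ₀ / 2 := hm.trans (min_le_right _ _)
    have hh1 : ‖h'‖ ≤ ρ₀ / 2 := hh.trans (min_le_right _ _)
    rw [hval (m + h') ((norm_add_le _ _).trans (by linarith)),
      hval (m - h') ((norm_sub_le _ _).trans (by linarith)), hval m (by linarith)]
    exact hin m h' (hm.trans (min_le_left _ _)) (hh.trans (min_le_left _ _)) hhW

end CM3

end Family

end Pool.Agent.MP_8db1a4_gt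

namespace Pool.Agent.MP_8db1a4_gt

export CM3 (fmor_typeI)

end Pool.Agent.MP_8db1a4_gt
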