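import Pool.Agent.MP_8db1a4_gt.Collar

set_option autoImplicit false

/-! [K-S7] Carathéodory: the hyperbolic hull in finitely many steps (MP_8db1a4_gt). -/

namespace Pool.Agent.MP_8db1a4_gt

open Set

variable {n : ℕ}

/-- A positive combination of two points of the hyperboloid lies on the geodesic between them. -/
theorem s7_dist_add (x₁ x₂ y : Hy n) (a b r : ℝ) (ha : 0 < a) (hb : 0 < b) (hr : 0 < r)
    (h : r • y.val = a • x₁.val + b • x₂.val) :
    dist x₁ y + dist y x₂ = dist x₁ x₂ := by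
  have h1 := x₁.lor_self
  have h2 := x₂.lor_self
  have h3 := y.lor_self
  have hc1 := one_le_neg_lor x₁ x₂
  have hp1 := one_le_neg_lor x₁ y
  have hq1 := one_le_neg_lor y x₂
  have E1 : r * (-lor x₁.val y.val) = a + b * (-lor x₁.val x₂.val) := by
    have : lor x₁.val (r • y.val) = lor x₁.val (a • x₁.val + b • x₂.val) := by rw [h]
    rw [lor_smul_right, lor_add_right, lor_smul_right, lor_smul_right, h1] at this
    linarith
  have E2 : r * (-lor y.val x₂.val) = a * (-lor x₁.val x₂.val) + b := by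
    have : lor (r • y.val) x₂.val = lor (a • x₁.val + b • x₂.val) x₂.val := by rw [h]
    rw [lor_smul_left, lor_add_left, lor_smul_left, lor_smul_left, h2] at this
    linarith
  have E3 : r ^ 2 = a ^ 2 + b ^ 2 + 2 * a * b * (-lor x₁.val x₂.val) := by
    have : lor (r • y.val) (r • y.val) =
        lor (a • x₁.val + b • x₂.val) (a • x₁.val + b • x₂.val) := by rw [h]
    rw [lor_smul_left, lor_smul_right, lor_add_left, lor_add_right, lor_add_right, lor_smul_left,
      lor_smul_left, lor_smul_left, lor_smul_left, lor_smul_right, lor_smul_right, lor_smul_right,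
      lor_smul_right, lor_comm x₂.val x₁.val, h1, h2, h3] at this
    linarith
  have C1 := cosh_dist x₁ y
  have C2 := cosh_dist y x₂
  have C3 := cosh_dist x₁ x₂
  rw [← C1] at E1
  rw [← C2] at E2
  rw [← C3] at E1 E2 E3
  set d1 := dist x₁ y
  set d2 := dist y x₂
  set d := dist x₁ x₂
  have hd1 : 0 ≤ d1 := dist_nonneg
  have hd2 : 0 ≤ d2 := dist_nonneg
  have hd : 0 ≤ d := dist_nonneg
  have S0 : 0 ≤ Real.sinh d := Real.sinh_nonneg_iff.mpr hd
  have S1 : 0 ≤ Real.sinh d1 := Real.sinh_nonneg_iff.mpr hd1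
  have S2 : 0 ≤ Real.sinh d2 := Real.sinh_nonneg_iff.mpr hd2
  have Q0 := Real.cosh_sq d
  have Q1 := Real.cosh_sq d1
  have Q2 := Real.cosh_sq d2
  have T1 : r * Real.sinh d1 = b * Real.sinh d := by
    have : (r * Real.sinh d1) ^ 2 = (b * Real.sinh d) ^ 2 := by
      have e : (r * Real.sinh d1) ^ 2 = (r * Real.cosh d1) ^ 2 - r ^ 2 := by
        rw [mul_pow, mul_pow, Q1]; ring
      rw [e, E1, E3, mul_pow]
      have : Real.sinh d ^ 2 = Real.cosh d ^ 2 - 1 := by rw [Q0]; ring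
      rw [this]; ring
    exact (pow_left_inj₀ (by positivity) (by positivity) two_ne_zero).mp this
  have T2 : r * Real.sinh d2 = a * Real.sinh d := by
    have : (r * Real.sinh d2) ^ 2 = (a * Real.sinh d) ^ 2 := by
      have e : (r * Real.sinh d2) ^ 2 = (r * Real.cosh d2) ^ 2 - r ^ 2 := by
        rw [mul_pow, mul_pow, Q2]; ring
      rw [e, E2, E3, mul_pow]
      have : Real.sinh d ^ 2 = Real.cosh d ^ 2 - 1 := by rw [Q0]; ring
      rw [this]; ring
    exact (pow_left_inj₀ (by positivity) (by positivity) two_ne_zero).mp this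
  have K : r ^ 2 * Real.cosh (d1 + d2) = r ^ 2 * Real.cosh d := by
    rw [Real.cosh_add]
    have e1 : r ^ 2 * (Real.cosh d1 * Real.cosh d2 + Real.sinh d1 * Real.sinh d2) =
        (r * Real.cosh d1) * (r * Real.cosh d2) + (r * Real.sinh d1) * (r * Real.sinh d2) := by
      ring
    rw [e1, E1, E2, T1, T2, E3]
    have : Real.sinh d ^ 2 = Real.cosh d ^ 2 - 1 := by rw [Q0]; ring
    linear_combination (a * b) * this
  have K2 : Real.cosh (d1 + d2) = Real.cosh d :=
    mul_left_cancel₀ (by positivity) K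
  have K3 := Real.cosh_le_cosh.mp K2.le
  have K4 := Real.cosh_le_cosh.mp K2.ge
  rw [abs_of_nonneg (add_nonneg hd1 hd2), abs_of_nonneg hd] at K3
  rw [abs_of_nonneg (add_nonneg hd1 hd2), abs_of_nonneg hd] at K4
  linarith

theorem s7_add_mem_LCone {X Y : LV n} (hX : X ∈ LCone n) (hY : Y ∈ LCone n) :
    X + Y ∈ LCone n := by
  have h := convex_LCone n hX hY (show (0 : ℝ) ≤ 1 / 2 by norm_num)
    (show (0 : ℝ) ≤ 1 / 2 by norm_num) (by norm_num)
  have h2 := smul_mem_LCone h (show (0 : ℝ) < 2 by norm_num)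
  rw [smul_add, smul_smul, smul_smul] at h2
  norm_num at h2
  exact h2

theorem s7_smul_inj (x y : Hy n) (a b : ℝ) (ha : 0 < a) (hb : 0 < b)
    (h : a • x.val = b • y.val) : x = y := by
  have h1 : rad (a • x.val) = rad (b • y.val) := by rw [h]
  rw [rad_smul _ ha.le, rad_smul _ hb.le, rad_hy, rad_hy, mul_one, mul_one] at h1
  subst h1
  exact Hy.ext' (smul_right_injective _ ha.ne' h)

theorem s7_main (𝒯 : ℕ → Set (Hy n)) (hmono : Monotone 𝒯)
    (hseg : ∀ i, ∀ x₁ ∈ 𝒯 i, ∀ x₂ ∈ 𝒯 i, ∀ z : Hy n, dist x₁ z + dist z x₂ = dist x₁ x₂ →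
      z ∈ 𝒯 (i + 1)) {ι : Type*} (z : ι → Hy n) (hz : ∀ i, z i ∈ 𝒯 0) (w : ι → ℝ)
    (hw : ∀ i, 0 < w i) (s : Finset ι) :
    ∀ m : ℕ, s.card = m + 1 → (∑ i ∈ s, w i • (z i).val) ∈ LCone n ∧
      ∀ (r : ℝ) (y : Hy n), 0 < r → r • y.val = ∑ i ∈ s, w i • (z i).val → y ∈ 𝒯 m := by
  classical
  induction s using Finset.induction_on with
  | empty => intro m hm; simp at hm
  | insert a s ha ih =>
    intro m hm
    rw [Finset.card_insert_of_notMem ha] at hm
    rw [Finset.sum_insert ha]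
    rcases Nat.eq_zero_or_pos m with h0 | h0
    · subst h0
      have hs : s = ∅ := Finset.card_eq_zero.mp (by omega)
      subst hs
      simp only [Finset.sum_empty, add_zero]
      refine ⟨smul_mem_LCone (z a).mem (hw a), ?_⟩
      intro r y hr hy
      rw [s7_smul_inj y (z a) r (w a) hr (hw a) hy]
      exact hz a
    · obtain ⟨m', rfl⟩ : ∃ m', m = m' + 1 := ⟨m - 1, by omega⟩
      obtain ⟨ihc, ihm⟩ := ih m' (by omega)
      refine ⟨s7_add_mem_LCone (smul_mem_LCone (z a).mem (hw a)) ihc, ?_⟩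
      intro r y hr hy
      obtain ⟨x, hx⟩ := exists_smul_hy ihc
      have hrad := rad_pos ihc
      have hxm : x ∈ 𝒯 m' := ihm _ x hrad hx.symm
      have hd := s7_dist_add (z a) x y (w a) _ r (hw a) hrad hr (by rw [hy, ← hx])
      exact hseg m' (z a) (hmono (Nat.zero_le _) (hz a)) x hxm y hd

/-- [K-S7] Carathéodory: hull in finitely many steps -/
theorem hull_in_steps (𝒯 : ℕ → Set (Hy n)) (hmono : Monotone 𝒯)
    (hseg : ∀ i, ∀ x₁ ∈ 𝒯 i, ∀ x₂ ∈ 𝒯 i, ∀ z : Hy n, dist x₁ z + dist z x₂ = dist x₁ x₂ →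
      z ∈ 𝒯 (i + 1)) : hullHy (𝒯 0) ⊆ 𝒯 (n + 2) := by
  classical
  rintro x ⟨t, ht, hx⟩
  obtain ⟨ι, hι, z, w, hzr, haff, hw, hw1, hsum⟩ := eq_pos_convex_span_of_mem_convexHull hx
  have hz : ∀ i, ∃ y : Hy n, y ∈ 𝒯 0 ∧ y.val = z i := by
    intro i
    obtain ⟨y, hy, hyz⟩ := hzr (mem_range_self i)
    exact ⟨y, hy, hyz⟩
  choose y hy0 hyz using hz
  have hcard : Fintype.card ι ≤ n + 2 := by
    have h3 : Module.finrank ℝ (LV n) = n + 1 := by
      rw [Module.finrank_prod]; simp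
    calc Fintype.card ι ≤ Module.finrank ℝ (vectorSpan ℝ (Set.range z)) + 1 :=
          haff.card_le_finrank_succ
      _ ≤ Module.finrank ℝ (LV n) + 1 := Nat.succ_le_succ (Submodule.finrank_le _)
      _ = n + 2 := by rw [h3]
  have hne : 0 < Fintype.card ι := by
    rw [Fintype.card_pos_iff]
    by_contra hcon
    rw [not_nonempty_iff] at hcon
    rw [Finset.univ_eq_empty, Finset.sum_empty] at hw1
    exact zero_ne_one hw1
  have hmain := (s7_main 𝒯 hmono hseg y hy0 w hw Finset.univ (Fintype.card ι - 1)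
    (by rw [Finset.card_univ]; omega)).2 t x ht (by
      rw [← hsum]
      exact Finset.sum_congr rfl fun i _ => by rw [hyz])
  exact hmono (by omega) hmain

end Pool.Agent.MP_8db1a4_gt
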